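import Pool.Agent.LibBE88.Defs

/-! Row BE88 C4: logarithm and exponential in the class `EB`. MEDIUM, 40 min.
Plan. `EB_log`: as `EB_inv`, `EB_rpow` in `LibBR70/JB3.lean` (read the general lemma used there for the
composition with a function on `(0, ∞)`; the derivatives of `log` are `±(k-1)! t^{-k}`). Alternatively:
order `0`: `|log t| ≤ t + t⁻¹`; and the derivative of `log (f i y)` in the direction `v` is
`(f i y)⁻¹ * fderiv ℝ (f i) y v`, so `fderiv ℝ (log ∘ f i) = (f i)⁻¹ • fderiv ℝ (f i)` is `EB`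
(`EB_inv`, `EB_smul`, `EB_fderiv`), and `‖iteratedFDeriv ℝ (k + 1) g x‖ = ‖iteratedFDeriv ℝ k (fderiv ℝ g) x‖`.
`EB_exp`: order `0` is the hypothesis; `fderiv (exp ∘ f) = exp (f) • fderiv f`: induction on the order
(bounds of order `≤ k` of `exp ∘ f` give the bound of order `k + 1`, `norm_iteratedFDeriv_clm_apply`-type
estimate as in `EB_smul`; use `norm_iteratedFDeriv_smul_le`); or `norm_iteratedFDeriv_comp_le` with
`Real.exp`, whose iterated derivatives at `f i (x i)` all have the norm `exp (f i (x i))`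
(`iteratedFDeriv` of a function of one variable has the norm of `iteratedDeriv`,
`norm_iteratedFDeriv_eq_norm_iteratedDeriv`).
`EB_sqrt`: `EB_rpow` with `p = 1 / 2` and `Real.sqrt_eq_rpow`. `EB0_comp_exp` is the case of bounded `f`. -/

open MeasureTheory Set Filter Topology
open scoped ContDiff

namespace BE

open BGS BR

variable {ι E : Type} [NormedAddCommGroup E] [NormedSpace ℝ E] {ℓ : ι → ℝ} {x : ι → E}

private theorem C4_exp {A B t : ℝ} (hA : 0 ≤ A) (hB : 0 ≤ B) (ht : 0 ≤ t) :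
    A * Real.exp (B * t) ≤ (A + B) * Real.exp ((A + B) * t) :=
  mul_le_mul (by linarith) (Real.exp_le_exp.2 (mul_le_mul_of_nonneg_right (by linarith) ht))
    (Real.exp_pos _).le (by linarith)

private theorem C4_mono {A B t : ℝ} (hA : 0 ≤ A) (hB : A ≤ B) (ht : 0 ≤ t) :
    A * Real.exp (A * t) ≤ B * Real.exp (B * t) :=
  mul_le_mul hB (Real.exp_le_exp.2 (mul_le_mul_of_nonneg_right hB ht))
    (Real.exp_pos _).le (hA.trans hB)

private theorem C4_max (hℓ : ∀ i, 0 ≤ ℓ i) {a : ι → ℝ} (ha : ∀ i, 0 ≤ a i) {C : ℝ}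
    (hC : ∀ i, a i ≤ C * Real.exp (C * ℓ i)) :
    ∀ i, a i ≤ max C 0 * Real.exp (max C 0 * ℓ i) := by
  intro i
  rcases le_total 0 C with h | h
  · rw [max_eq_left h]; exact hC i
  · rw [max_eq_right h]
    refine (hC i).trans ?_
    rw [zero_mul]
    exact mul_nonpos_of_nonpos_of_nonneg h (Real.exp_pos _).le

/-- Bounds of the orders at most `k`. -/
private def C4_B {F : Type} [NormedAddCommGroup F] [NormedSpace ℝ F]
    (ℓ : ι → ℝ) (f : ι → E → F) (x : ι → E) (k : ℕ) : Prop :=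
  ∃ C : ℝ, 0 ≤ C ∧ ∀ j ≤ k, ∀ i, ‖iteratedFDeriv ℝ j (f i) (x i)‖ ≤ C * Real.exp (C * ℓ i)

private theorem C4_step {F : Type} [NormedAddCommGroup F] [NormedSpace ℝ F]
    (hℓ : ∀ i, 0 ≤ ℓ i) {f : ι → E → ℝ} {g : ι → E → F}
    (sf : ∀ i, ContDiff ℝ ∞ (f i)) (sg : ∀ i, ContDiff ℝ ∞ (g i)) {k : ℕ}
    (hf : C4_B ℓ f x k) (hg : C4_B ℓ g x k) : C4_B ℓ (fun i y => f i y • g i y) x k := by
  obtain ⟨A, hA, hA'⟩ := hf
  obtain ⟨B, hB, hB'⟩ := hg
  refine ⟨2 ^ k * (A * B) + (A + B), by positivity, fun j hj i => ?_⟩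
  have h0 := norm_iteratedFDeriv_smul_le (sf i) (sg i) (x i) (n := j) (mod_cast le_top)
  refine h0.trans ?_
  have h1 : ∀ a ∈ Finset.range (j + 1), (j.choose a : ℝ) * ‖iteratedFDeriv ℝ a (f i) (x i)‖ *
      ‖iteratedFDeriv ℝ (j - a) (g i) (x i)‖ ≤
      (j.choose a : ℝ) * ((A * Real.exp (A * ℓ i)) * (B * Real.exp (B * ℓ i))) := by
    intro a ha
    have ha' : a ≤ j := Nat.lt_succ_iff.1 (Finset.mem_range.1 ha)
    rw [← mul_assoc]
    exact mul_le_mul (mul_le_mul_of_nonneg_left (hA' a (ha'.trans hj) i) (Nat.cast_nonneg _))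
      (hB' (j - a) ((Nat.sub_le _ _).trans hj) i) (norm_nonneg _) (by positivity)
  refine (Finset.sum_le_sum h1).trans ?_
  rw [← Finset.sum_mul, ← Nat.cast_sum, Nat.sum_range_choose]
  have h2 : (A * Real.exp (A * ℓ i)) * (B * Real.exp (B * ℓ i)) =
      A * B * Real.exp ((A + B) * ℓ i) := by
    rw [add_mul, Real.exp_add]
    ring
  have h3 : ((2 ^ j : ℕ) : ℝ) ≤ 2 ^ k := by
    push_cast
    exact pow_le_pow_right₀ one_le_two hj
  rw [h2]
  refine (mul_le_mul_of_nonneg_right h3 (by positivity)).trans ?_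
  rw [← mul_assoc]
  exact C4_exp (by positivity) (by positivity) (hℓ i)

private theorem C4_of {F : Type} [NormedAddCommGroup F] [NormedSpace ℝ F]
    (hℓ : ∀ i, 0 ≤ ℓ i) {f : ι → E → F} (hf : EB ℓ f x) (k : ℕ) :
    C4_B ℓ f x k := by
  obtain ⟨C, h1, hC⟩ := EB_bound' hℓ hf k
  exact ⟨C, by linarith, hC⟩

theorem EB_log (hℓ : ∀ i, 0 ≤ ℓ i) {f : ι → E → ℝ} (hf : EB ℓ f x) (h0 : ∀ i y, 0 < f i y)
    {C : ℝ} (hC : ∀ i, (f i (x i))⁻¹ ≤ C * Real.exp (C * ℓ i)) :
    EB ℓ (fun i y => Real.log (f i y)) x := by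
  refine ⟨fun i => (hf.smooth i).log fun y => (h0 i y).ne', fun k => ?_⟩
  have h2 : ∀ i, fderiv ℝ (fun y => Real.log (f i y)) =
      fun y => (f i y)⁻¹ • fderiv ℝ (f i) y := by
    intro i
    funext y
    have h3 : HasFDerivAt (f i) (fderiv ℝ (f i) y) y :=
      ((hf.smooth i).differentiable (by simp)).differentiableAt.hasFDerivAt
    exact (h3.log (h0 i y).ne').fderiv
  have h1 : EB ℓ (fun i y => (f i y)⁻¹ • fderiv ℝ (f i) y) x := by
    refine EB_smul hℓ (EB_inv hℓ hf (fun i y => (h0 i y).ne') (C := C) fun i => ?_) (EB_fderiv hf)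
    rw [abs_of_pos (h0 i _)]
    exact hC i
  cases k with
  | zero =>
    obtain ⟨A, hA, hA'⟩ := C4_of hℓ hf 0
    have hC' := C4_max hℓ (fun i => (inv_pos.2 (h0 i (x i))).le) hC
    refine ⟨A + max C 0, fun i => ?_⟩
    rw [norm_iteratedFDeriv_zero, Real.norm_eq_abs]
    have hp := h0 i (x i)
    have h3 : |Real.log (f i (x i))| ≤ f i (x i) + (f i (x i))⁻¹ := by
      rw [abs_le]
      constructor
      · have := Real.log_le_sub_one_of_pos (inv_pos.2 hp)
        rw [Real.log_inv] at this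
        linarith
      · have := Real.log_le_sub_one_of_pos hp
        have := inv_pos.2 hp
        linarith
    have h4 : f i (x i) ≤ A * Real.exp (A * ℓ i) := by
      have := hA' 0 le_rfl i
      rw [norm_iteratedFDeriv_zero, Real.norm_eq_abs, abs_of_pos hp] at this
      exact this
    have hm : 0 ≤ max C 0 := le_max_right _ _
    refine h3.trans ((add_le_add h4 (hC' i)).trans ?_)
    rw [add_mul A]
    refine add_le_add ?_ ?_
    · exact mul_le_mul_of_nonneg_left (Real.exp_le_exp.2 (mul_le_mul_of_nonneg_right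
        (by linarith) (hℓ i))) hA
    · exact mul_le_mul_of_nonneg_left (Real.exp_le_exp.2 (mul_le_mul_of_nonneg_right
        (by linarith) (hℓ i))) hm
  | succ k =>
    obtain ⟨A, hA⟩ := h1.bound k
    refine ⟨A, fun i => ?_⟩
    rw [← norm_iteratedFDeriv_fderiv, h2]
    exact hA i

private theorem C4_expB (hℓ : ∀ i, 0 ≤ ℓ i) {f : ι → E → ℝ} (hf : EB ℓ f x) {C : ℝ}
    (hC : ∀ i, Real.exp (f i (x i)) ≤ C * Real.exp (C * ℓ i)) (k : ℕ) :
    C4_B ℓ (fun i y => Real.exp (f i y)) x k := by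
  have hC' := C4_max hℓ (fun i => (Real.exp_pos (f i (x i))).le) hC
  induction k with
  | zero =>
    refine ⟨max C 0, le_max_right _ _, fun j hj i => ?_⟩
    rw [Nat.le_zero.1 hj, norm_iteratedFDeriv_zero, Real.norm_eq_abs, abs_of_pos (Real.exp_pos _)]
    exact hC' i
  | succ k ih =>
    have hs : ∀ i, ContDiff ℝ ∞ fun y => Real.exp (f i y) := fun i => (hf.smooth i).exp
    have h1 : C4_B ℓ (fun i y => Real.exp (f i y) • fderiv ℝ (f i) y) x k :=
      C4_step hℓ hs (EB_fderiv hf).smooth ih (C4_of hℓ (EB_fderiv hf) k)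
    have h2 : ∀ i, fderiv ℝ (fun y => Real.exp (f i y)) =
        fun y => Real.exp (f i y) • fderiv ℝ (f i) y := by
      intro i
      funext y
      have h3 : HasFDerivAt (f i) (fderiv ℝ (f i) y) y :=
        ((hf.smooth i).differentiable (by simp)).differentiableAt.hasFDerivAt
      exact h3.exp.fderiv
    obtain ⟨A, hA, hA'⟩ := h1
    refine ⟨max A (max C 0), hA.trans (le_max_left _ _), fun j hj i => ?_⟩
    cases j with
    | zero =>
      rw [norm_iteratedFDeriv_zero, Real.norm_eq_abs, abs_of_pos (Real.exp_pos _)]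
      exact (hC' i).trans (C4_mono (le_max_right _ _) (le_max_right _ _) (hℓ i))
    | succ j =>
      rw [← norm_iteratedFDeriv_fderiv, h2]
      exact (hA' j (by omega) i).trans (C4_mono hA (le_max_left _ _) (hℓ i))

theorem EB_exp (hℓ : ∀ i, 0 ≤ ℓ i) {f : ι → E → ℝ} (hf : EB ℓ f x) {C : ℝ}
    (hC : ∀ i, Real.exp (f i (x i)) ≤ C * Real.exp (C * ℓ i)) :
    EB ℓ (fun i y => Real.exp (f i y)) x := by
  refine ⟨fun i => (hf.smooth i).exp, fun k => ?_⟩
  obtain ⟨A, -, hA⟩ := C4_expB hℓ hf hC k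
  exact ⟨A, fun i => hA k le_rfl i⟩

theorem EB_sqrt (hℓ : ∀ i, 0 ≤ ℓ i) {f : ι → E → ℝ} (hf : EB ℓ f x) (h0 : ∀ i y, 0 < f i y)
    {C : ℝ} (hC : ∀ i, (f i (x i))⁻¹ ≤ C * Real.exp (C * ℓ i)) :
    EB ℓ (fun i y => √(f i y)) x := by
  have h1 := EB_rpow hℓ hf h0 (C := C) (fun i => by
    rw [abs_of_pos (h0 i _)]
    exact hC i) (1 / 2)
  have h2 : (fun i y => f i y ^ (1 / 2 : ℝ)) = fun i y => √(f i y) := by
    funext i y
    rw [Real.sqrt_eq_rpow]
  rw [h2] at h1
  exact h1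

/-- a smooth positive function equal to the identity near `4 c` -/
private noncomputable def C4_h (c t : ℝ) : ℝ := c + (t - c) * Real.smoothTransition ((t - c) / c)

private theorem C4_h_smooth (c : ℝ) : ContDiff ℝ ∞ (C4_h c) := by
  unfold C4_h
  exact contDiff_const.add ((contDiff_id.sub contDiff_const).mul
    (Real.smoothTransition.contDiff.comp ((contDiff_id.sub contDiff_const).div_const c)))

private theorem C4_h_pos {c : ℝ} (hc : 0 < c) (t : ℝ) : 0 < C4_h c t := by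
  unfold C4_h
  rcases le_total t c with h | h
  · rw [Real.smoothTransition.zero_of_nonpos (div_nonpos_of_nonpos_of_nonneg (by linarith) hc.le)]
    linarith
  · have := mul_nonneg (sub_nonneg.2 h) (Real.smoothTransition.nonneg ((t - c) / c))
    linarith

private theorem C4_h_eq {c : ℝ} (hc : 0 < c) {t : ℝ} (ht : 2 * c ≤ t) : C4_h c t = t := by
  unfold C4_h
  rw [Real.smoothTransition.one_of_one_le (by rw [le_div_iff₀ hc]; linarith)]
  ring

/-- At a point where `f` is positive (only there). -/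
theorem EB_sqrt_at {f : ι → E → ℝ} (hℓ : ∀ i, 0 ≤ ℓ i) (hf : EB ℓ f x)
    (h0 : ∀ i, 0 < f i (x i)) {C : ℝ} (hC : ∀ i, (f i (x i))⁻¹ ≤ C * Real.exp (C * ℓ i)) (k : ℕ) :
    ∃ C : ℝ, ∀ i, ‖iteratedFDeriv ℝ k (fun y => √(f i y)) (x i)‖ ≤ C * Real.exp (C * ℓ i) := by
  have hc : ∀ i, 0 < f i (x i) / 4 := fun i => by have := h0 i; positivity
  have hev : ∀ i, (fun y => C4_h (f i (x i) / 4) (f i y)) =ᶠ[𝓝 (x i)] f i := by
    intro i
    have h1 : ∀ᶠ y in 𝓝 (x i), f i (x i) / 2 < f i y :=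
      (hf.smooth i).continuous.continuousAt.eventually_const_lt (by have := h0 i; linarith)
    filter_upwards [h1] with y hy
    exact C4_h_eq (hc i) (by linarith)
  have hg : EB ℓ (fun i y => C4_h (f i (x i) / 4) (f i y)) x := by
    refine ⟨fun i => (C4_h_smooth _).comp (hf.smooth i), fun k => ?_⟩
    obtain ⟨A, hA⟩ := hf.bound k
    refine ⟨A, fun i => ?_⟩
    rw [(Filter.EventuallyEq.iteratedFDeriv ℝ (hev i) k).eq_of_nhds]
    exact hA i
  have hs := EB_sqrt hℓ hg (fun i y => C4_h_pos (hc i) _) (C := C) (fun i => by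
    rw [(hev i).eq_of_nhds]
    exact hC i)
  obtain ⟨A, hA⟩ := hs.bound k
  refine ⟨A, fun i => ?_⟩
  have h2 : (fun y => √(f i y)) =ᶠ[𝓝 (x i)] fun y => √(C4_h (f i (x i) / 4) (f i y)) := by
    filter_upwards [hev i] with y hy
    rw [hy]
  rw [(Filter.EventuallyEq.iteratedFDeriv ℝ h2 k).eq_of_nhds]
  exact hA i

end BE
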