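import Pool.Agent.LibBE88.Defs

/-! Row BE88 A1: the metrics `mm m (s i) p`: elementary facts. MEDIUM, 45 min.
Plan. `hm_mm`: smooth: `h.smooth`, `h.hm.smooth`; `(mm ..).1 = exp (s) * (m z).1`,
`dt (mm ..) = exp (s) ^ 2 * dt (m z)`; `inv`: `h.inv`, `h.hm.inv` and `qf (c • w) v = c * qf w v`; `neg`:
`h.neg`, `h.a_pos`. `s_bdd`: `h.bd 0` at `γ • z ∈ D` (`hX.orbit`), `h.inv`
(`norm_iteratedFDeriv_zero`). `mm_cmp`: from `s_bdd`. `EB0_s`: `K` is covered by finitely many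
`γ⁻¹ • closure D` : the set `{γ | ∃ z ∈ K, γ • z ∈ closure D}` is finite (`hX.proper` applied to
`K ∪ closure D`), and for `z ∈ K`, `γ • z ∈ D`, near `(p, z)`:
`s i (p, z') = s i (p, γ • z')`: composition of the family `s i` at `(p, γ • z)` (bounded by `h.bd`, a
family of class `EB0`) with the finitely many maps `(p, z') ↦ (p, γ • z')` (`EB_comp`, `EB_finite`,
`EB_prod`; `‖p‖ ≤ 1`, `z` in a compact set; the identity `s i = s i ∘ (..)` holds everywhere, `funext`).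
`EB0_mm`: `Real.exp ∘ s` (`EB_comp` with `g = Real.exp`, `EB_compact`: the values `s i (p, z)` lie in a
compact interval) times `m` (`EB_comp` with `EB_compact` for `m`, `EB_smul`). `mm_low`: `(m z).1`, `dt (m z)`
have a positive minimum on `K` (if `K` is empty there is nothing to prove), `exp (s) ≥ exp (-C)`. -/

open MeasureTheory Set Filter Topology
open scoped ContDiff

namespace BE

open BGS BR

variable {Γ : Type} [Group Γ] [MulAction Γ Pl] {D : Set Pl}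
variable {ι P : Type} [NormedAddCommGroup P] [NormedSpace ℝ P] {m : Pl → Co} {a b : ℝ}
  {s : ι → P × Pl → ℝ} {K : Set Pl}

private theorem A1_qf_smul (c : ℝ) (w : Co) (v : Pl) : qf (c • w) v = c * qf w v := by
  simp only [qf, Prod.smul_fst, Prod.smul_snd, smul_eq_mul]
  ring

private theorem A1_dt_smul (c : ℝ) (w : Co) : dt (c • w) = c ^ 2 * dt w := by
  simp only [dt, Prod.smul_fst, Prod.smul_snd, smul_eq_mul]
  ring

private theorem A1_qf_nonneg {w : Co} (h1 : 0 < w.1) (h2 : 0 < dt w) (v : Pl) : 0 ≤ qf w v := by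
  have h : w.1 * qf w v = (w.1 * v.1 + w.2.1 * v.2) ^ 2 + dt w * v.2 ^ 2 := by
    simp only [qf, dt]
    ring
  have h3 : 0 ≤ w.1 * qf w v := by
    rw [h]
    positivity
  exact nonneg_of_mul_nonneg_right h3 h1

theorem hm_mm (h : CF Γ D m a b s) (i : ι) (p : P) : HM Γ (mm m (s i) p) := by
  refine ⟨?_, ?_, ?_, ?_⟩
  · exact (Real.contDiff_exp.comp
      ((h.smooth i).comp (contDiff_const.prodMk contDiff_id))).smul h.hm.smooth
  · intro z
    have hp := h.hm.pos z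
    refine ⟨mul_pos (Real.exp_pos _) hp.1, ?_⟩
    rw [mm, A1_dt_smul]
    exact mul_pos (pow_pos (Real.exp_pos _) 2) hp.2
  · intro γ z v
    rw [mm, mm, A1_qf_smul, A1_qf_smul, h.hm.inv, h.inv]
  · intro z
    have h1 := (h.neg i p z).2
    have h2 : 0 < a ^ 2 := pow_pos h.a_pos 2
    linarith

/-- The exponents are uniformly bounded. -/
theorem s_bdd (h : CF Γ D m a b s) : ∃ C : ℝ, 0 ≤ C ∧ ∀ (i : ι) (p : P), ‖p‖ ≤ 1 → ∀ z : Pl,
    |s i (p, z)| ≤ C := by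
  obtain ⟨C, hC⟩ := h.bd 0
  refine ⟨|C|, abs_nonneg C, fun i p hp z => ?_⟩
  obtain ⟨γ, hγ, -⟩ := h.hX.orbit z
  have h1 := hC i p hp (γ • z) (subset_closure hγ)
  rw [norm_iteratedFDeriv_zero, h.inv, Real.norm_eq_abs] at h1
  exact h1.trans (le_abs_self C)

private theorem A1_exp_low (h : CF Γ D m a b s) : ∃ C : ℝ, 0 ≤ C ∧ ∀ (i : ι) (p : P), ‖p‖ ≤ 1 →
    ∀ z : Pl, Real.exp (-C) ≤ Real.exp (s i (p, z)) ∧ Real.exp (s i (p, z)) ≤ Real.exp C := by
  obtain ⟨C, hC0, hC⟩ := s_bdd h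
  refine ⟨C, hC0, fun i p hp z => ?_⟩
  have h1 := abs_le.1 (hC i p hp z)
  exact ⟨Real.exp_le_exp.2 h1.1, Real.exp_le_exp.2 h1.2⟩

/-- Comparison with `m`. -/
theorem mm_cmp (h : CF Γ D m a b s) : ∃ C : ℝ, 1 ≤ C ∧ ∀ (i : ι) (p : P), ‖p‖ ≤ 1 →
    ∀ z v : Pl, qf (m z) v ≤ C ^ 2 * qf (mm m (s i) p z) v ∧
      qf (mm m (s i) p z) v ≤ C ^ 2 * qf (m z) v := by
  obtain ⟨C, hC0, hC⟩ := A1_exp_low h
  have h1 : 1 ≤ Real.exp C := Real.one_le_exp hC0
  refine ⟨Real.exp C, h1, fun i p hp z v => ?_⟩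
  obtain ⟨h2, h3⟩ := hC i p hp z
  have h4 := A1_qf_nonneg (h.hm.pos z).1 (h.hm.pos z).2 v
  rw [mm, A1_qf_smul]
  constructor
  · have h5 : 1 ≤ Real.exp C ^ 2 * Real.exp (s i (p, z)) := by
      have h6 : 1 = Real.exp C * Real.exp (-C) := by rw [← Real.exp_add]; simp
      calc (1 : ℝ) = Real.exp C * Real.exp (-C) := h6
        _ ≤ Real.exp C ^ 2 * Real.exp (s i (p, z)) := by
          refine mul_le_mul ?_ h2 (Real.exp_pos _).le (by positivity)
          nlinarith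
    calc qf (m z) v = 1 * qf (m z) v := (one_mul _).symm
      _ ≤ (Real.exp C ^ 2 * Real.exp (s i (p, z))) * qf (m z) v :=
        mul_le_mul_of_nonneg_right h5 h4
      _ = _ := by ring
  · refine mul_le_mul_of_nonneg_right (h3.trans ?_) h4
    nlinarith

omit [NormedSpace ℝ P] in
private theorem A1_pt (hK : IsCompact K) : ∃ C : ℝ, ∀ q : Lx ι P K,
    ‖((q.p, q.z) : P × Pl)‖ ≤ C * Real.exp (C * 0) := by
  obtain ⟨R, hR⟩ := hK.isBounded.exists_norm_le
  refine ⟨max 1 R, fun q => ?_⟩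
  rw [mul_zero, Real.exp_zero, mul_one, Prod.norm_def]
  exact max_le_max q.hp (hR q.z q.hz)

private theorem A1_id (hK : IsCompact K) :
    EB (fun _ => (0 : ℝ)) (fun (_ : Lx ι P K) (e : P × Pl) => e) (fun q => (q.p, q.z)) := by
  obtain ⟨C, hC⟩ := A1_pt (ι := ι) (P := P) hK
  exact EB_id (fun _ => le_refl _) hC

private theorem A1_snd (hK : IsCompact K) :
    EB (fun _ => (0 : ℝ)) (fun (_ : Lx ι P K) (e : P × Pl) => e.2) (fun q => (q.p, q.z)) :=
  EB_clm (fun _ => le_refl _) (A1_id hK) (ContinuousLinearMap.snd ℝ P Pl)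

private theorem A1_fst (hK : IsCompact K) :
    EB (fun _ => (0 : ℝ)) (fun (_ : Lx ι P K) (e : P × Pl) => e.1) (fun q => (q.p, q.z)) :=
  EB_clm (fun _ => le_refl _) (A1_id hK) (ContinuousLinearMap.fst ℝ P Pl)

theorem EB0_s (h : CF Γ D m a b s) (hK : IsCompact K) :
    EB0 (fun q : Lx ι P K => s q.i) (fun q => (q.p, q.z)) := by
  have hD : IsCompact (closure D) := h.hX.bdd.isCompact_closure
  have hfin := h.hX.proper (K ∪ closure D) (hK.union hD)
  choose g hg hg' using h.hX.orbit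
  have hmem : ∀ q : Lx ι P K, g q.z ∈ {γ : Γ | ∃ z ∈ K ∪ closure D, γ • z ∈ K ∪ closure D} :=
    fun q => ⟨q.z, Or.inl q.hz, Or.inr (subset_closure (hg q.z))⟩
  have : Finite {γ : Γ | ∃ z ∈ K ∪ closure D, γ • z ∈ K ∪ closure D} := hfin
  have h1 : EB (fun _ => (0 : ℝ)) (fun (q : Lx ι P K) (z : Pl) => g q.z • z) (fun q => q.z) :=
    EB_finite (J := {γ : Γ | ∃ z ∈ K ∪ closure D, γ • z ∈ K ∪ closure D})
      (g := fun γ z => (γ : Γ) • z) (fun _ => le_refl _) (fun γ => h.hX.smooth γ) hK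
      (fun q => q.hz) (fun q => ⟨g q.z, hmem q⟩)
  have h2 : EB (fun _ => (0 : ℝ)) (fun (q : Lx ι P K) (e : P × Pl) => g q.z • e.2)
      (fun q => (q.p, q.z)) := EB_comp (fun _ => le_refl _) h1 (A1_snd hK)
  have h3 := EB_prod (fun _ => le_refl _) (A1_fst (ι := ι) (P := P) hK) h2
  have h4 : EB (fun _ => (0 : ℝ)) (fun q : Lx ι P K => s q.i)
      (fun q => (q.p, g q.z • q.z)) := by
    refine ⟨fun q => h.smooth q.i, fun k => ?_⟩
    obtain ⟨C, hC⟩ := h.bd k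
    refine ⟨C, fun q => ?_⟩
    rw [mul_zero, Real.exp_zero, mul_one]
    exact hC q.i q.p q.hp _ (subset_closure (hg q.z))
  have h5 := EB_comp (g := fun q : Lx ι P K => s q.i)
    (f := fun (q : Lx ι P K) (e : P × Pl) => (e.1, g q.z • e.2)) (x := fun q => (q.p, q.z))
    (fun _ => le_refl _) h4 h3
  have h6 : (fun (q : Lx ι P K) (e : P × Pl) => s q.i (e.1, g q.z • e.2)) =
      fun q : Lx ι P K => s q.i := by
    funext q e
    exact h.inv q.i e.1 (g q.z) e.2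
  rw [h6] at h5
  exact h5

theorem EB0_mm (h : CF Γ D m a b s) (hK : IsCompact K) :
    EB0 (fun (q : Lx ι P K) (e : P × Pl) => mm m (s q.i) e.1 e.2) (fun q => (q.p, q.z)) := by
  obtain ⟨C, hC0, hC⟩ := s_bdd h
  have h1 : EB (fun _ => (0 : ℝ)) (fun (_ : Lx ι P K) => Real.exp)
      (fun q => s q.i (q.p, q.z)) :=
    EB_compact (fun _ => le_refl _) Real.contDiff_exp (K := Icc (-C) C) isCompact_Icc
      (fun q => abs_le.1 (hC q.i q.p q.hp q.z))
  have h2 := EB_comp (g := fun _ : Lx ι P K => Real.exp) (f := fun q : Lx ι P K => s q.i)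
    (x := fun q => (q.p, q.z)) (fun _ => le_refl _) h1 (EB0_s h hK)
  have h3 : EB (fun _ => (0 : ℝ)) (fun (_ : Lx ι P K) => m) (fun q => q.z) :=
    EB_compact (fun _ => le_refl _) h.hm.smooth hK (fun q => q.hz)
  have h4 := EB_comp (g := fun _ : Lx ι P K => m) (f := fun (_ : Lx ι P K) (e : P × Pl) => e.2)
    (x := fun q => (q.p, q.z)) (fun _ => le_refl _) h3 (A1_snd hK)
  exact EB_smul (fun _ => le_refl _) h2 h4

theorem mm_low (h : CF Γ D m a b s) (hK : IsCompact K) : ∃ c : ℝ, 0 < c ∧ ∀ q : Lx ι P K,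
    c ≤ (mm m (s q.i) q.p q.z).1 ∧ c ≤ dt (mm m (s q.i) q.p q.z) := by
  obtain ⟨C, hC0, hC⟩ := A1_exp_low h
  rcases K.eq_empty_or_nonempty with hE | hE
  · refine ⟨1, one_pos, fun q => ?_⟩
    subst hE
    exact absurd q.hz (notMem_empty _)
  have hc1 : Continuous fun z => (m z).1 := continuous_fst.comp h.hm.smooth.continuous
  have hc2 : Continuous fun z => dt (m z) := by
    have := h.hm.smooth.continuous
    unfold dt
    fun_prop
  obtain ⟨z1, -, hz1⟩ := hK.exists_isMinOn hE hc1.continuousOn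
  obtain ⟨z2, -, hz2⟩ := hK.exists_isMinOn hE hc2.continuousOn
  have hp1 := (h.hm.pos z1).1
  have hp2 := (h.hm.pos z2).2
  refine ⟨min (Real.exp (-C) * (m z1).1) (Real.exp (-C) ^ 2 * dt (m z2)), by positivity,
    fun q => ⟨(min_le_left _ _).trans ?_, (min_le_right _ _).trans ?_⟩⟩
  · exact mul_le_mul (hC q.i q.p q.hp q.z).1 (hz1 q.hz) hp1.le (Real.exp_pos _).le
  · rw [mm, A1_dt_smul]
    exact mul_le_mul (pow_le_pow_left₀ (Real.exp_pos _).le (hC q.i q.p q.hp q.z).1 2) (hz2 q.hz)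
      hp2.le (by positivity)

end BE
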