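import Pool.Agent.LibBE88.V11

/-! Row BE88 V12 (cites V1, V9, V11, C4, A1, A3): the final statements (A1). MEDIUM, 45 min.
Plan. `pow_of_exp`: `C * exp (C * log (2 + d)) = C * (2 + d) ^ C ≤ n * (2 + d) ^ n` for a natural number
`n ≥ |C|`. `Adm_diag`: compose the family of `Adm` at the index `(i, p, x, x, g)` with the linear map
`(p, x) ↦ (p, x, x)` (`EB_comp`/`EBn`, or `iteratedFDeriv` under a continuous linear map:
`ContinuousLinearMap.norm_iteratedFDeriv_comp_right_le`?), then `pow_of_exp`. `Adm_par`: compose with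
`p ↦ (p, x, x)` (affine). `ds_low`: for `g ≠ 1`: `ds (mm ..) x (g • x) ≥ c > 0` uniformly: `displ_pos` for `m`
(used in `LibBR73/AN9.lean`, grep it) and `ds m x y ≤ C * ds (mm ..) x y` (`ds_cmp`): along the geodesic
`c t = Ex (mm ..) x (t • V)` the curve `Vx m x (c t)` has speed
`eu (..) ≤ √(qf (m (c t)) (c' t)) ≤ C * √(qf (mm ..) (c' t)) = C * ds` (`Ex_expand` for `m`, `mm_cmp`, `qf_gfl`);
mean value inequality for the Euclidean norm `eu` (pair with the unit vector of the end value: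
`f t = ip (Vx m x (c t)) w`, `|f'| ≤ eu (..)`). `par_ds`: `ds ^ 2 = sg (JV)` (`eu v ^ 2 = sg v`), `ds = √(sg JV)`, and
`EB_sqrt_at` (row C4) with `ds_low`. -/

open MeasureTheory Set Filter Topology
open scoped ContDiff

namespace BE

open BGS BR

variable {Γ : Type} [Group Γ] [MulAction Γ Pl] {D : Set Pl}
variable {ι P : Type} [NormedAddCommGroup P] [NormedSpace ℝ P] [FiniteDimensional ℝ P]
  {m : Pl → Co} {a b : ℝ} {s : ι → P × Pl → ℝ}
variable {F : Type} [NormedAddCommGroup F] [NormedSpace ℝ F]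

private theorem V12_Vx (hX : Surface Γ D) (hm : HM Γ m) (x : Pl) : ContDiff ℝ ∞ (Vx m x) :=
  (Vx_smooth hX hm).comp (contDiff_const.prodMk contDiff_id)

private theorem V12_Ex (hX : Surface Γ D) (hm : HM Γ m) (x : Pl) : ContDiff ℝ ∞ (Ex m x) :=
  (Ex_smooth hX hm).comp (contDiff_const.prodMk contDiff_id)

private theorem V12_cs (v w : Pl) : |ip v w| ≤ eu v * eu w := by
  unfold ip eu
  rw [← Real.sqrt_mul (by positivity)]
  apply Real.abs_le_sqrt
  nlinarith [sq_nonneg (v.1 * w.2 - v.2 * w.1)]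

private theorem V12_ip (v : Pl) : ip v v = eu v ^ 2 := by
  unfold ip eu
  rw [Real.sq_sqrt (by positivity)]
  ring

private theorem V12_eu0 (v : Pl) : 0 ≤ eu v := Real.sqrt_nonneg _

/-- The distance is at most the length of a curve of bounded speed. -/
private theorem V12_len (hX : Surface Γ D) (hm : HM Γ m) (x : Pl) {c c' : ℝ → Pl} {L : ℝ}
    (hL : 0 ≤ L) (h0 : c 0 = x) (hd : ∀ t, HasDerivAt c (c' t) t)
    (hb : ∀ t, qf (m (c t)) (c' t) ≤ L ^ 2) : ds m x (c 1) ≤ L := by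
  set W : ℝ → Pl := fun t => Vx m x (c t) with hW
  set W' : ℝ → Pl := fun t => fderiv ℝ (Vx m x) (c t) (c' t) with hW'
  have hWd : ∀ t, HasDerivAt W (W' t) t := by
    intro t
    have h1 : HasFDerivAt (Vx m x) (fderiv ℝ (Vx m x) (c t)) (c t) :=
      (((V12_Vx hX hm x).differentiable (by simp)) (c t)).hasFDerivAt
    exact h1.comp_hasDerivAt t (hd t)
  have hE : ∀ t, fderiv ℝ (Ex m x) (W t) (W' t) = c' t := by
    intro t
    have h1 : HasFDerivAt (Ex m x) (fderiv ℝ (Ex m x) (W t)) (W t) :=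
      (((V12_Ex hX hm x).differentiable (by simp)) (W t)).hasFDerivAt
    have h2 := h1.comp_hasDerivAt t (hWd t)
    have h3 : (Ex m x) ∘ W = c := by
      funext r
      exact Ex_Vx hX hm x (c r)
    rw [h3] at h2
    exact h2.unique (hd t)
  have hs : ∀ t, eu (W' t) ≤ L := by
    intro t
    have h1 := Ex_expand hX hm x (W t) (W' t)
    have h2 : Ex m x (W t) = c t := Ex_Vx hX hm x (c t)
    rw [hE, h2] at h1
    exact abs_le_of_sq_le_sq' (h1.trans (hb t)) hL |>.2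
  have hW0 : W 0 = 0 := by
    show Vx m x (c 0) = 0
    rw [h0, Vx_self hX hm]
  set w : Pl := W 1 with hw
  have hf : ∀ t : ℝ, HasDerivAt (fun t => ip (W t) w) (ip (W' t) w) t := by
    intro t
    have h1 : HasDerivAt (fun t => (W t).1) (W' t).1 t := (hWd t).fst
    have h2 : HasDerivAt (fun t => (W t).2) (W' t).2 t := (hWd t).snd
    exact (h1.mul_const w.1).add (h2.mul_const w.2)
  have h1 := norm_image_sub_le_of_norm_deriv_le_segment_01' (f := fun t => ip (W t) w)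
    (f' := fun t => ip (W' t) w) (C := L * eu w) (fun t _ => (hf t).hasDerivWithinAt)
    (fun t _ => by
      rw [Real.norm_eq_abs]
      exact (V12_cs _ _).trans (mul_le_mul_of_nonneg_right (hs t) (V12_eu0 _)))
  have h2 : ip (W 1) w - ip (W 0) w = eu w ^ 2 := by
    rw [hW0, ← hw, V12_ip]
    simp [ip]
  have h3 : eu w ^ 2 ≤ L * eu w := by
    have h4 := (Real.norm_eq_abs _) ▸ h1
    have h5 := le_abs_self (ip (W 1) w - ip (W 0) w)
    have h6 : |ip (W 1) w - ip (W 0) w| ≤ L * eu w := by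
      rw [← Real.norm_eq_abs]
      exact h1
    linarith
  show eu w ≤ L
  by_contra h4
  have h5 : L < eu w := not_le.1 h4
  have h6 : 0 < eu w := lt_of_le_of_lt hL h5
  nlinarith

theorem ds_cmp (h : CF Γ D m a b s) : ∃ C : ℝ, 1 ≤ C ∧ ∀ (i : ι) (p : P), ‖p‖ ≤ 1 →
    ∀ x y : Pl, ds m x y ≤ C * ds (mm m (s i) p) x y := by
  obtain ⟨C, hC1, hC⟩ := mm_cmp h
  refine ⟨C, hC1, fun i p hp x y => ?_⟩
  have hM := hm_mm h i p
  set M : Pl → Co := mm m (s i) p with hMd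
  set V : Pl := Vx M x y with hV
  have h1 := V12_len (D := D) h.hX h.hm x (c := fun t => Ex M x (t • V))
    (c' := fun t => fr (M (Ex M x (t • V))) (gfl M t (x, V)).2) (L := C * ds M x y)
    (mul_nonneg (by linarith) (V12_eu0 _)) (by simp only [zero_smul]; exact Ex_zero h.hX hM x)
    (fun t => (qf_gfl h.hX hM t x V).1) (fun t => by
      have h2 := (hC i p hp (Ex M x (t • V)) (fr (M (Ex M x (t • V))) (gfl M t (x, V)).2)).1
      have h3 := (qf_gfl h.hX hM t x V).2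
      have h4 : qf (mm m (s i) p (Ex M x (t • V))) (fr (M (Ex M x (t • V))) (gfl M t (x, V)).2) =
          eu V ^ 2 := h3
      rw [h4] at h2
      have h5 : (C * ds M x y) ^ 2 = C ^ 2 * eu V ^ 2 := by
        rw [mul_pow]
        rfl
      rw [h5]
      exact h2)
  have h2 : Ex M x ((1 : ℝ) • V) = y := by
    rw [one_smul]
    exact Ex_Vx h.hX hM x y
  beta_reduce at h1
  rw [h2] at h1
  exact h1

theorem ds_low (h : CF Γ D m a b s) : ∃ c : ℝ, 0 < c ∧ ∀ (i : ι) (p : P), ‖p‖ ≤ 1 →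
    ∀ (x : Pl) (g : Γ), g ≠ 1 → c ≤ ds (mm m (s i) p) x (g • x) := by
  obtain ⟨C, hC1, hC⟩ := ds_cmp h
  obtain ⟨c, hc, hd⟩ := displ_pos h.hX h.hO h.hm
  have hC0 : 0 < C := by linarith
  refine ⟨c / C, div_pos hc hC0, fun i p hp x g hg => ?_⟩
  rw [div_le_iff₀ hC0]
  have h1 := hC i p hp x (g • x)
  have h2 : c ≤ ds m x (g • x) := hd g hg x
  linarith

/-- From exponential to polynomial growth. -/
private theorem V12_conv (m : Pl → Co) (s : ι → P × Pl → ℝ) (C : ℝ) : ∃ n : ℕ,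
    ∀ (q : Ix ι P Γ D) (v : ℝ), v ≤ C * Real.exp (C * ll m s q) →
      v ≤ n * (2 + q.d m s) ^ n := by
  obtain ⟨n, hn⟩ := exists_nat_ge C
  refine ⟨n, fun q v hv => hv.trans ?_⟩
  have h0 : 0 ≤ q.d m s := Real.sqrt_nonneg _
  have h1 := ll_nonneg m s q
  have h2 : Real.exp (ll m s q) = 2 + q.d m s := by
    unfold ll
    rw [Real.exp_log (by linarith)]
  have h3 : Real.exp (C * ll m s q) ≤ (2 + q.d m s) ^ n := by
    rw [← h2, ← Real.exp_nat_mul]
    exact Real.exp_le_exp.2 (mul_le_mul_of_nonneg_right hn h1)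
  exact (mul_le_mul_of_nonneg_right hn (Real.exp_pos _).le).trans
    (mul_le_mul_of_nonneg_left h3 (Nat.cast_nonneg _))

/-- Composition with an affine map. -/
private theorem V12_affine {κ E G F : Type} [NormedAddCommGroup E] [NormedSpace ℝ E]
    [NormedAddCommGroup G] [NormedSpace ℝ G] [NormedAddCommGroup F] [NormedSpace ℝ F]
    {ℓ : κ → ℝ} (hℓ : ∀ i, 0 ≤ ℓ i) {f : κ → G → F} {x : κ → G} (hf : EB ℓ f x)
    (L : E →L[ℝ] G) (c : κ → G) (y : κ → E) (hxy : ∀ i, L (y i) + c i = x i) :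
    EB ℓ (fun i e => f i (L e + c i)) y := by
  refine ⟨fun i => (hf.smooth i).comp (L.contDiff.add contDiff_const), fun k => ?_⟩
  obtain ⟨C, hC⟩ := hf.bound k
  set A : ℝ := max 1 (‖L‖ ^ k) with hA
  have hA1 : 1 ≤ A := le_max_left _ _
  have hA2 : ‖L‖ ^ k ≤ A := le_max_right _ _
  refine ⟨|C| * A, fun i => ?_⟩
  have h1 : ContDiff ℝ ∞ (fun z => f i (z + c i)) :=
    (hf.smooth i).comp (contDiff_id.add contDiff_const)
  have h2 := L.iteratedFDeriv_comp_right h1 (y i) (i := k) (by exact_mod_cast le_top)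
  have h3 : (fun e => f i (L e + c i)) = (fun z => f i (z + c i)) ∘ L := rfl
  rw [h3, h2, iteratedFDeriv_comp_add_right, hxy]
  refine (ContinuousMultilinearMap.norm_compContinuousLinearMap_le _ _).trans ?_
  rw [Finset.prod_const, Finset.card_univ, Fintype.card_fin]
  have h4 : C * Real.exp (C * ℓ i) ≤ |C| * Real.exp (|C| * A * ℓ i) := by
    have h5 : C * ℓ i ≤ |C| * A * ℓ i := by
      apply mul_le_mul_of_nonneg_right _ (hℓ i)
      have := le_abs_self C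
      nlinarith [abs_nonneg C]
    exact (mul_le_mul_of_nonneg_right (le_abs_self C) (Real.exp_pos _).le).trans
      (mul_le_mul_of_nonneg_left (Real.exp_le_exp.2 h5) (abs_nonneg C))
  calc ‖iteratedFDeriv ℝ k (f i) (x i)‖ * ‖L‖ ^ k
      ≤ (|C| * Real.exp (|C| * A * ℓ i)) * A :=
        mul_le_mul ((hC i).trans h4) hA2 (by positivity) (by positivity)
    _ = |C| * A * Real.exp (|C| * A * ℓ i) := by ring

/-- The indices of the diagonal. -/
private structure V12_I (ι P Γ : Type) [NormedAddCommGroup P] (D : Set Pl) where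
  i : ι
  p : P
  x : Pl
  g : Γ
  hp : ‖p‖ ≤ 1
  hx : x ∈ closure D

private def V12_I.q (t : V12_I ι P Γ D) : Ix ι P Γ D := ⟨t.i, t.p, t.x, t.x, t.g, t.hp, t.hx, t.hx⟩

private theorem V12_pull {Q : ι → P × Pl × Pl → F} (hQ : Adm Γ D m s Q) :
    EB (fun t : V12_I ι P Γ D => ll m s t.q)
      (fun (t : V12_I ι P Γ D) (e : P × Pl × Pl) => Q t.i (e.1, e.2.1, t.g • e.2.2))
      (fun t => (t.p, t.x, t.x)) :=
  EB_pull (ll_nonneg m s) hQ (fun t : V12_I ι P Γ D => t.q)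
    (ℓ' := fun t => ll m s t.q) (fun t => ll_nonneg m s t.q) (A := 1) (fun t => by
      show ll m s t.q ≤ 1 * (1 + ll m s t.q)
      linarith)

private theorem V12_diag {Q : ι → P × Pl × Pl → F} (hQ : Adm Γ D m s Q) :
    EB (fun t : V12_I ι P Γ D => ll m s t.q)
      (fun (t : V12_I ι P Γ D) (e : P × Pl) => Q t.i (e.1, e.2, t.g • e.2))
      (fun t => (t.p, t.x)) := by
  have hl : ∀ t : V12_I ι P Γ D, 0 ≤ ll m s t.q := fun t => ll_nonneg m s t.q
  have h0 := V12_pull (Γ := Γ) (D := D) hQ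
  have h1 := V12_affine hl h0
    ((ContinuousLinearMap.fst ℝ P Pl).prod
      ((ContinuousLinearMap.snd ℝ P Pl).prod (ContinuousLinearMap.snd ℝ P Pl)))
    (fun _ => (0 : P × Pl × Pl)) (fun t => ((t.p, t.x) : P × Pl)) (fun t => by simp)
  simp only [add_zero] at h1
  exact h1

private theorem V12_par {Q : ι → P × Pl × Pl → F} (hQ : Adm Γ D m s Q) :
    EB (fun t : V12_I ι P Γ D => ll m s t.q)
      (fun (t : V12_I ι P Γ D) (e : P) => Q t.i (e, t.x, t.g • t.x))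
      (fun t => t.p) := by
  have hl : ∀ t : V12_I ι P Γ D, 0 ≤ ll m s t.q := fun t => ll_nonneg m s t.q
  have h0 := V12_pull (Γ := Γ) (D := D) hQ
  have h1 := V12_affine hl h0
    (ContinuousLinearMap.inl ℝ P (Pl × Pl)) (fun t => ((0, t.x, t.x) : P × Pl × Pl))
    (fun t => t.p) (fun t => by simp)
  simp only [ContinuousLinearMap.inl_apply, Prod.mk_add_mk, add_zero, Prod.fst_add, Prod.snd_add,
    Prod.fst_zero, Prod.snd_zero, zero_add] at h1
  exact h1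

theorem Adm_diag {Q : ι → P × Pl × Pl → F} (hQ : Adm Γ D m s Q) (k : ℕ) :
    ∃ n : ℕ, ∀ (i : ι) (p : P), ‖p‖ ≤ 1 → ∀ x ∈ closure D, ∀ g : Γ,
      ‖iteratedFDeriv ℝ k (fun e : P × Pl => Q i (e.1, e.2, g • e.2)) (p, x)‖ ≤
        n * (2 + ds (mm m (s i) p) x (g • x)) ^ n := by
  obtain ⟨C, hC⟩ := (V12_diag hQ).bound k
  obtain ⟨n, hn⟩ := V12_conv (Γ := Γ) (D := D) m s C
  refine ⟨n, fun i p hp x hx g => ?_⟩
  have h1 := hC ⟨i, p, x, g, hp, hx⟩
  exact hn (V12_I.q ⟨i, p, x, g, hp, hx⟩) _ h1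

theorem Adm_par {Q : ι → P × Pl × Pl → F} (hQ : Adm Γ D m s Q) (k : ℕ) :
    ∃ n : ℕ, ∀ (i : ι) (p : P), ‖p‖ ≤ 1 → ∀ x ∈ closure D, ∀ g : Γ,
      ‖iteratedFDeriv ℝ k (fun p' : P => Q i (p', x, g • x)) p‖ ≤
        n * (2 + ds (mm m (s i) p) x (g • x)) ^ n := by
  obtain ⟨C, hC⟩ := (V12_par hQ).bound k
  obtain ⟨n, hn⟩ := V12_conv (Γ := Γ) (D := D) m s C
  refine ⟨n, fun i p hp x hx g => ?_⟩
  have h1 := hC ⟨i, p, x, g, hp, hx⟩
  exact hn (V12_I.q ⟨i, p, x, g, hp, hx⟩) _ h1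

/-- The square root of `sg (JV ..)` along a family of maps. -/
private theorem V12_ds (h : CF Γ D m a b s) {E : Type} [NormedAddCommGroup E] [NormedSpace ℝ E]
    {y : V12_I ι P Γ D → E} {f : V12_I ι P Γ D → E → ℝ}
    (hf : EB (fun t : V12_I ι P Γ D => ll m s t.q) f y)
    (hv : ∀ t, f t (y t) = sg (JV m (s t.i) (t.p, t.x, t.g • t.x))) (k : ℕ) :
    ∃ n : ℕ, ∀ t : V12_I ι P Γ D, t.g ≠ 1 →
      ‖iteratedFDeriv ℝ k (fun e => √(f t e)) (y t)‖ ≤ n * (2 + t.q.d m s) ^ n := by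
  obtain ⟨c, hc, hcd⟩ := ds_low h
  have hpos : ∀ t : V12_I ι P Γ D, t.g ≠ 1 → c ^ 2 ≤ f t (y t) := by
    intro t ht
    rw [hv]
    have h1 := hcd t.i t.p t.hp t.x t.g ht
    have h2 : ds (mm m (s t.i) t.p) t.x (t.g • t.x) ^ 2 =
        sg (JV m (s t.i) (t.p, t.x, t.g • t.x)) := by
      show eu (Vx (mm m (s t.i) t.p) t.x (t.g • t.x)) ^ 2 = _
      unfold eu
      rw [Real.sq_sqrt (by positivity)]
      rfl
    rw [← h2]
    exact pow_le_pow_left₀ hc.le h1 2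
  have hl : ∀ t : V12_I ι P Γ D, 0 ≤ ll m s t.q := fun t => ll_nonneg m s t.q
  have hl' : ∀ t : {t : V12_I ι P Γ D // t.g ≠ 1}, 0 ≤ ll m s t.1.q := fun t => hl t.1
  have h1 := EB_pull hl hf
    (fun t : {t : V12_I ι P Γ D // t.g ≠ 1} => t.1) hl' (A := 1) (fun t => by
      show ll m s t.1.q ≤ 1 * (1 + ll m s t.1.q)
      linarith)
  obtain ⟨C, hC⟩ := EB_sqrt_at hl' h1
    (fun t => (pow_pos hc 2).trans_le (hpos t.1 t.2)) (C := (c ^ 2)⁻¹) (fun t => by
      have h2 : (f t.1 (y t.1))⁻¹ ≤ (c ^ 2)⁻¹ := inv_anti₀ (pow_pos hc 2) (hpos t.1 t.2)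
      have h3 : 0 ≤ (c ^ 2)⁻¹ := by positivity
      have h4 : 1 ≤ Real.exp ((c ^ 2)⁻¹ * ll m s t.1.q) :=
        Real.one_le_exp (mul_nonneg h3 (ll_nonneg m s t.1.q))
      exact h2.trans (by nlinarith)) k
  obtain ⟨n, hn⟩ := V12_conv (Γ := Γ) (D := D) m s C
  exact ⟨n, fun t ht => hn t.q _ (hC ⟨t, ht⟩)⟩

/-- The distance as a function of the parameter and of the point. -/
theorem diag_ds (h : CF Γ D m a b s) (k : ℕ) : ∃ n : ℕ, ∀ (i : ι) (p : P), ‖p‖ ≤ 1 →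
    ∀ x ∈ closure D, ∀ g : Γ, g ≠ 1 →
      ‖iteratedFDeriv ℝ k (fun e : P × Pl => ds (mm m (s i) e.1) e.2 (g • e.2)) (p, x)‖ ≤
        n * (2 + ds (mm m (s i) p) x (g • x)) ^ n := by
  obtain ⟨n, hn⟩ := V12_ds h (V12_diag (Adm_d2 h)) (fun _ => rfl) k
  exact ⟨n, fun i p hp x hx g hg => hn ⟨i, p, x, g, hp, hx⟩ hg⟩

theorem par_ds (h : CF Γ D m a b s) (k : ℕ) : ∃ n : ℕ, ∀ (i : ι) (p : P), ‖p‖ ≤ 1 →
    ∀ x ∈ closure D, ∀ g : Γ, g ≠ 1 →
      ‖iteratedFDeriv ℝ k (fun p' : P => ds (mm m (s i) p') x (g • x)) p‖ ≤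
        n * (2 + ds (mm m (s i) p) x (g • x)) ^ n := by
  obtain ⟨n, hn⟩ := V12_ds h (V12_par (Adm_d2 h)) (fun _ => rfl) k
  exact ⟨n, fun i p hp x hx g hg => hn ⟨i, p, x, g, hp, hx⟩ hg⟩

end BE
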