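import Pool.Agent.LibBE88.V12
import Pool.Agent.LibBE73.Defs

/-! Row BE88 V13 (cites V1, V6, V8, V10, V11; the definitions of `LibBE73/Defs.lean`): GROWTH: the remainder
of the parametrix for one metric. MEDIUM, 60 min.
Plan. One metric: `ι = Unit`, `P = ℝ`, `s = s1 = fun _ _ => 0`, so `mm m (s1 ()) p = m`
(`Real.exp_zero`, `one_smul`, `funext`); `CF1`: `curv_bounds` (`LibBR70/H1l.lean`). The class
`Wc m c`: `c (x, v) = exp (-(f / 2)) Q` at `y = Ex m x v`, with `Q` in `Adm`, independent of the parameter.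
`Wc_bd`: `|c| ≤ |Q| ≤ C exp (C log (2 + |v|))` (`ff_nonneg`; `Adm_val` at the index `(x, y, g)`, `g • y = Ex m x v`,
`y ∈ D` (`hX.orbit`), `ds = eu v ≤ 2 ‖v‖`) `≤ B exp (‖v‖)` (a power of `2 + 2 ‖v‖` is `≤ B exp ‖v‖`).
`Wc_E`: `PX6_E c (x, v) = 4 sg v c (x, v)`, `sg v = sg (Vx m x (Ex m x v))`: `Adm_d2`, `Adm_mul`. `Wc_H`: `TT_conj`
(row V10) and `Adm_TT` (row V11). `Wc_F`: by `LL_mulG` (row V5) for the metric `Gx m x` and
`gr (Gx m x) sg w = 2 (v.1 dx w + v.2 dy w)` (`PX1_id1`, `PX1_id2`):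
`PX6_F c = -(c LL sg + 4 v.∇c) = sg * LL c - LL (sg * c)`: `Wc_H` twice and `Wc_E` (`Wc_lin`). `Wc_cN`:
`UU (Gx m x) N v = exp (-(f / 2)) uu` (`uu_UU`, `Vx_Ex`), `Adm_uu`, `Wc_H`. Then unfold `Gk`. -/

open MeasureTheory Set Filter Topology
open scoped ContDiff

namespace BE

open BGS BR

variable {Γ : Type} [Group Γ] [MulAction Γ Pl] {D : Set Pl} {m : Pl → Co}

/-- The constant family. -/
def s1 : Unit → ℝ × Pl → ℝ := fun _ _ => 0

theorem mm_s1 (m : Pl → Co) (p : ℝ) : mm m (s1 ()) p = m := by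
  funext z
  unfold mm s1
  rw [Real.exp_zero, one_smul]

theorem V13_JE (m : Pl → Co) (e : ℝ × Pl × Pl) : JE m (s1 ()) e = Ex m e.2.1 e.2.2 := by
  unfold JE
  rw [mm_s1]

theorem V13_JV (m : Pl → Co) (e : ℝ × Pl × Pl) : JV m (s1 ()) e = Vx m e.2.1 e.2.2 := by
  unfold JV
  rw [mm_s1]

theorem V13_ff (m : Pl → Co) (e : ℝ × Pl × Pl) :
    ff m (s1 ()) e = Real.log (wt (Gx m e.2.1) (Vx m e.2.1 e.2.2)) := by
  unfold ff
  rw [mm_s1, V13_JV]

theorem V13_uu (m : Pl → Co) (j : ℕ) (e : ℝ × Pl × Pl) :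
    uu m (s1 ()) j e = UU (Gx m e.2.1) j (Vx m e.2.1 e.2.2) *
      Real.exp (Real.log (wt (Gx m e.2.1) (Vx m e.2.1 e.2.2)) / 2) := by
  unfold uu
  rw [mm_s1, V13_JV, V13_ff]

theorem V13_TT (m : Pl → Co) (Q : Pl × Pl → ℝ) (e : ℝ × Pl × Pl) :
    TT m (s1 ()) (fun e => Q e.2) e = TT m (s1 ()) (fun e => Q e.2) ((0 : ℝ), e.2) := by
  unfold TT
  simp only [mm_s1, V13_ff]

theorem V13_grow (A : ℝ) (hA : 0 ≤ A) : ∃ B : ℝ, ∀ t d : ℝ, 0 ≤ d → d ≤ 2 * t →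
    A * Real.exp (A * Real.log (2 + d)) ≤ B * Real.exp t := by
  refine ⟨A * Real.exp (A * Real.log (2 * (A + 1)) + 1), fun t d hd hdt => ?_⟩
  have h0 : 0 < 2 * (A + 1) := by positivity
  have h1 : 0 < 2 + d := by linarith
  have h2 : Real.log (2 + d) = Real.log (2 * (A + 1)) + Real.log ((2 + d) / (2 * (A + 1))) := by
    rw [Real.log_div h1.ne' h0.ne']
    ring
  have h3 : Real.log ((2 + d) / (2 * (A + 1))) ≤ (2 + d) / (2 * (A + 1)) - 1 :=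
    Real.log_le_sub_one_of_pos (div_pos h1 h0)
  have h4 : A * ((2 + d) / (2 * (A + 1))) ≤ (2 + d) / 2 := by
    rw [mul_div_assoc', div_le_div_iff₀ h0 (by norm_num)]
    nlinarith
  have h5 : A * Real.log (2 + d) ≤ A * Real.log (2 * (A + 1)) + 1 + t := by
    rw [h2, mul_add]
    have h6 : A * Real.log ((2 + d) / (2 * (A + 1))) ≤ A * ((2 + d) / (2 * (A + 1)) - 1) :=
      mul_le_mul_of_nonneg_left h3 hA
    have h7 : A * ((2 + d) / (2 * (A + 1)) - 1) = A * ((2 + d) / (2 * (A + 1))) - A := by ring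
    linarith
  calc A * Real.exp (A * Real.log (2 + d))
      ≤ A * Real.exp (A * Real.log (2 * (A + 1)) + 1 + t) :=
        mul_le_mul_of_nonneg_left (Real.exp_le_exp.2 h5) hA
    _ = A * Real.exp (A * Real.log (2 * (A + 1)) + 1) * Real.exp t := by
        rw [Real.exp_add _ t]
        ring

theorem V13_gr {G : Pl → Co} (hG : PMt G) (u : Pl → ℝ) (v : Pl) :
    gr G sg u v = 2 * (v.1 * dx u v + v.2 * dy u v) := by
  have hw0 := (wt_pos hG v).ne'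
  have h1 := PX1_id1 hG v
  have h2 := PX1_id2 hG v
  have hx : dx sg v = 2 * v.1 := by
    unfold dx
    rw [PX1_sg]
    ring
  have hy : dy sg v = 2 * v.2 := by
    unfold dy
    rw [PX1_sg]
    ring
  have h3 : wf2 (G v) (dx sg v) (dy sg v) (dx u v) (dy u v) =
      2 * (wt G v * wt G v * v.1 * dx u v + wt G v * wt G v * v.2 * dy u v) / wt G v := by
    unfold wf2
    rw [hx, hy, ← h1, ← h2]
    change _ / wt G v = _ / wt G v
    congr 1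
    ring
  unfold gr
  rw [h3]
  field_simp

theorem CF1 (hX : Surface Γ D) (hO : Ori Γ) (hm : HM Γ m) : ∃ a b : ℝ, CF Γ D m a b s1 := by
  obtain ⟨a, b, ha, -, h⟩ := curv_bounds hX hm
  refine ⟨a, b, hX, hO, hm, ha, fun _ => contDiff_const, fun _ _ _ _ => rfl, ?_, ?_⟩
  · intro k
    refine ⟨0, fun i p _ z _ => ?_⟩
    have h1 : s1 i = fun _ => (0 : ℝ) := rfl
    have h2 : iteratedFDeriv ℝ k (fun _ : ℝ × Pl => (0 : ℝ)) = 0 := iteratedFDeriv_fun_zero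
    rw [h1, h2]
    simp
  · intro i p z
    have h1 : mm m (s1 i) p = m := mm_s1 m p
    rw [h1]
    exact h z

/-- Functions of `(x, v)` of the form `wt ^ (-1/2) Q (x, Ex x v)`. -/
def Wc (Γ : Type) [Group Γ] [MulAction Γ Pl] (D : Set Pl) (m : Pl → Co) (c : Pl × Pl → ℝ) :
    Prop :=
  ∃ Q : Pl × Pl → ℝ, Adm Γ D m s1 (fun (_ : Unit) (e : ℝ × Pl × Pl) => Q e.2) ∧
    ∀ x v : Pl, c (x, v) = Real.exp (-(ff m (s1 ()) ((0 : ℝ), x, Ex m x v) / 2)) *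
      Q (x, Ex m x v)

theorem Wc_bd (hX : Surface Γ D) (hO : Ori Γ) (hm : HM Γ m) {c : Pl × Pl → ℝ}
    (hc : Wc Γ D m c) : ∃ B : ℝ, ∀ x ∈ closure D, ∀ v : Pl, |c (x, v)| ≤ B * Real.exp (1 * ‖v‖) := by
  obtain ⟨a, b, h⟩ := CF1 hX hO hm
  obtain ⟨Q, hQ, hcQ⟩ := hc
  obtain ⟨C, hC⟩ := Adm_val hQ
  obtain ⟨B, hB⟩ := V13_grow |C| (abs_nonneg C)
  refine ⟨B, fun x hx v => ?_⟩
  obtain ⟨γ, hγ, -⟩ := hX.orbit (Ex m x v)
  have hgy : γ⁻¹ • (γ • Ex m x v) = Ex m x v := inv_smul_smul γ _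
  let q : Ix Unit ℝ Γ D := ⟨(), 0, x, γ • Ex m x v, γ⁻¹, by simp, hx, subset_closure hγ⟩
  have hq := hC q
  have hq1 : ‖Q (x, Ex m x v)‖ ≤ C * Real.exp (C * ll m s1 q) := by
    have h1 : Q (x, Ex m x v) = Q (x, γ⁻¹ • (γ • Ex m x v)) := by rw [hgy]
    rw [h1]
    exact hq
  have hd : q.d m s1 = eu v := by
    change ds (mm m (s1 ()) 0) x (γ⁻¹ • (γ • Ex m x v)) = eu v
    rw [hgy, mm_s1]
    unfold ds
    rw [Vx_Ex hX hm]
  have hd0 : 0 ≤ eu v := Real.sqrt_nonneg _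
  have hll : ll m s1 q = Real.log (2 + eu v) := by
    unfold ll
    rw [hd]
  have hll0 : 0 ≤ Real.log (2 + eu v) := Real.log_nonneg (by linarith)
  have h2 : C * Real.exp (C * Real.log (2 + eu v)) ≤
      |C| * Real.exp (|C| * Real.log (2 + eu v)) := by
    have h3 : Real.exp (C * Real.log (2 + eu v)) ≤ Real.exp (|C| * Real.log (2 + eu v)) :=
      Real.exp_le_exp.2 (mul_le_mul_of_nonneg_right (le_abs_self C) hll0)
    calc C * Real.exp (C * Real.log (2 + eu v)) ≤ |C| * Real.exp (C * Real.log (2 + eu v)) :=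
          mul_le_mul_of_nonneg_right (le_abs_self C) (Real.exp_pos _).le
      _ ≤ |C| * Real.exp (|C| * Real.log (2 + eu v)) :=
          mul_le_mul_of_nonneg_left h3 (abs_nonneg C)
  have h4 := hB ‖v‖ (eu v) hd0 (H1m_eu_le v)
  rw [hcQ, abs_mul, abs_of_pos (Real.exp_pos _)]
  have h5 : Real.exp (-(ff m (s1 ()) ((0 : ℝ), x, Ex m x v) / 2)) ≤ 1 := by
    rw [Real.exp_le_one_iff]
    have := ff_nonneg h () ((0 : ℝ), x, Ex m x v)
    linarith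
  rw [hll] at hq1
  rw [one_mul]
  calc Real.exp (-(ff m (s1 ()) ((0 : ℝ), x, Ex m x v) / 2)) * |Q (x, Ex m x v)|
      ≤ 1 * |Q (x, Ex m x v)| := mul_le_mul_of_nonneg_right h5 (abs_nonneg _)
    _ = ‖Q (x, Ex m x v)‖ := by rw [one_mul, Real.norm_eq_abs]
    _ ≤ B * Real.exp ‖v‖ := (hq1.trans h2).trans h4

theorem V13_lin {c c' : Pl × Pl → ℝ}
    (hc : Wc Γ D m c) (hc' : Wc Γ D m c') (α β : ℝ) :
    Wc Γ D m (fun p => α * c p + β * c' p) := by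
  obtain ⟨Q, hQ, hcQ⟩ := hc
  obtain ⟨Q', hQ', hcQ'⟩ := hc'
  refine ⟨fun p => α * Q p + β * Q' p, ?_, ?_⟩
  · exact Adm_add (Adm_mul (Adm_const α) hQ) (Adm_mul (Adm_const β) hQ')
  · intro x v
    change α * c (x, v) + β * c' (x, v) = _
    rw [hcQ, hcQ']
    ring

theorem V13_slice (hX : Surface Γ D) {Q : Pl × Pl → ℝ}
    (hQ : Adm Γ D m s1 (fun (_ : Unit) (e : ℝ × Pl × Pl) => Q e.2)) (x : Pl) :
    ContDiff ℝ ∞ (fun y => Q (x, y)) := by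
  have hne : D.Nonempty := by
    obtain ⟨γ, hγ, -⟩ := hX.orbit 0
    exact ⟨_, hγ⟩
  have h1 : ContDiff ℝ ∞ (fun e : ℝ × Pl × Pl => Q e.2) := Adm_smooth hX hne hQ ()
  have h2 : ContDiff ℝ ∞ (fun y : Pl => (((0 : ℝ), x, y) : ℝ × Pl × Pl)) :=
    contDiff_const.prodMk (contDiff_const.prodMk contDiff_id)
  exact h1.comp h2

theorem V13_smooth (hX : Surface Γ D) (hO : Ori Γ) (hm : HM Γ m) {c : Pl × Pl → ℝ}
    (hc : Wc Γ D m c) (x : Pl) : ContDiff ℝ ∞ (fun v => c (x, v)) := by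
  obtain ⟨a, b, h⟩ := CF1 hX hO hm
  obtain ⟨Q, hQ, hcQ⟩ := hc
  have h1 : (fun v => c (x, v)) = fun v => Real.exp (-(ff m (s1 ()) ((0 : ℝ), x, Ex m x v) / 2)) *
      Q (x, Ex m x v) := funext fun v => hcQ x v
  rw [h1]
  have hE : ContDiff ℝ ∞ (fun v : Pl => Ex m x v) :=
    (Ex_smooth hX hm).comp (contDiff_const.prodMk contDiff_id)
  have h2 : ContDiff ℝ ∞ (fun v : Pl => (((0 : ℝ), x, Ex m x v) : ℝ × Pl × Pl)) :=
    contDiff_const.prodMk (contDiff_const.prodMk hE)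
  have h3 : ContDiff ℝ ∞ (fun v => ff m (s1 ()) ((0 : ℝ), x, Ex m x v)) :=
    (ff_smooth h ()).comp h2
  exact ((h3.div_const 2).neg.exp).mul ((V13_slice hX hQ x).comp hE)

theorem Wc_E (hX : Surface Γ D) (hO : Ori Γ) (hm : HM Γ m) {c : Pl × Pl → ℝ}
    (hc : Wc Γ D m c) : Wc Γ D m (PX6_E c) := by
  obtain ⟨a, b, h⟩ := CF1 hX hO hm
  obtain ⟨Q, hQ, hcQ⟩ := hc
  refine ⟨fun p => 4 * sg (Vx m p.1 p.2) * Q p, ?_, ?_⟩
  · have h1 := Adm_mul (Adm_mul (Adm_const (4 : ℝ)) (Adm_d2 h)) hQ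
    have h2 : (fun (_ : Unit) (e : ℝ × Pl × Pl) => 4 * sg (Vx m e.2.1 e.2.2) * Q e.2) =
        fun i e => 4 * sg (JV m (s1 i) e) * Q e.2 := by
      funext i e
      have h3 : JV m (s1 i) e = Vx m e.2.1 e.2.2 := V13_JV m e
      rw [h3]
    change Adm Γ D m s1 (fun (_ : Unit) (e : ℝ × Pl × Pl) => 4 * sg (Vx m e.2.1 e.2.2) * Q e.2)
    rw [h2]
    exact h1
  · intro x v
    change 4 * sg v * c (x, v) = _ * (4 * sg (Vx m x (Ex m x v)) * Q (x, Ex m x v))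
    rw [hcQ, Vx_Ex hX hm]
    ring

theorem V13_H (hX : Surface Γ D) (hO : Ori Γ) (hm : HM Γ m) {c : Pl × Pl → ℝ}
    (hc : Wc Γ D m c) : Wc Γ D m (PX6_H (mE m) c) := by
  obtain ⟨a, b, h⟩ := CF1 hX hO hm
  obtain ⟨Q, hQ, hcQ⟩ := hc
  refine ⟨fun p => TT m (s1 ()) (fun e => Q e.2) ((0 : ℝ), p), ?_, ?_⟩
  · have h1 := Adm_TT h hQ
    have h2 : (fun (_ : Unit) (e : ℝ × Pl × Pl) => TT m (s1 ()) (fun e => Q e.2) ((0 : ℝ), e.2)) =
        fun i => TT m (s1 i) (fun e => Q e.2) := by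
      funext i e
      exact (V13_TT m Q e).symm
    change Adm Γ D m s1 (fun (_ : Unit) (e : ℝ × Pl × Pl) =>
      TT m (s1 ()) (fun e => Q e.2) ((0 : ℝ), e.2))
    rw [h2]
    exact h1
  · intro x v
    have h1 := TT_conj h () (Q := fun e => Q e.2) 0 x (V13_slice hX hQ x) v
    have h2 : ∀ w, JE m (s1 ()) ((0 : ℝ), x, w) = Ex m x w := fun w => V13_JE m _
    simp only [h2, mm_s1] at h1
    change LL (Gx m x) (fun v => c (x, v)) v = _
    have h3 : (fun v => c (x, v)) = fun v => Real.exp (-(ff m (s1 ()) ((0 : ℝ), x, Ex m x v) / 2)) *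
      Q (x, Ex m x v) := funext fun v => hcQ x v
    rw [h3]
    exact h1

theorem Wc_F (hX : Surface Γ D) (hO : Ori Γ) (hm : HM Γ m) {c : Pl × Pl → ℝ}
    (hc : Wc Γ D m c) : Wc Γ D m (PX6_F (mE m) c) := by
  have h1 := V13_lin (Wc_E hX hO hm (V13_H hX hO hm hc))
    (V13_H hX hO hm (Wc_E hX hO hm hc)) (1 / 4) (-(1 / 4))
  have h2 : PX6_F (mE m) c = fun p => (1 / 4) * PX6_E (PX6_H (mE m) c) p +
      (-(1 / 4)) * PX6_H (mE m) (PX6_E c) p := by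
    funext p
    obtain ⟨x, v⟩ := p
    have hP : PMt (Gx m x) := Gx_PMt hX hO hm x
    have hSM : SM (Gx m x) := ⟨hP.smooth, hP.pos⟩
    have hcs : ContDiff ℝ ∞ (fun v => c (x, v)) := V13_smooth hX hO hm hc x
    have h3 := LL_mulG hSM PX1_sg_smooth hcs v
    rw [V13_gr hP] at h3
    have h4 := LL_lin hSM (PX1_sg_smooth.mul hcs) hcs 4 0 v
    have h5 : PX6_H (mE m) (PX6_E c) (x, v) = 4 * LL (Gx m x) (fun y => sg y * c (x, y)) v := by
      change LL (Gx m x) (fun y => 4 * sg y * c (x, y)) v = _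
      have h6 : (fun y => 4 * sg y * c (x, y)) = fun y => 4 * (sg y * c (x, y)) + 0 * c (x, y) := by
        funext y
        ring
      rw [h6, h4]
      ring
    change -(c (x, v) * LL (Gx m x) sg v +
      4 * (v.1 * dx (fun v => c (x, v)) v + v.2 * dy (fun v => c (x, v)) v)) =
      (1 / 4) * (4 * sg v * LL (Gx m x) (fun v => c (x, v)) v) +
      (-(1 / 4)) * PX6_H (mE m) (PX6_E c) (x, v)
    rw [h5, h3]
    ring
  rw [h2]
  exact h1

theorem Wc_H (hX : Surface Γ D) (hO : Ori Γ) (hm : HM Γ m) {c : Pl × Pl → ℝ}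
    (hc : Wc Γ D m c) : Wc Γ D m (PX6_H (mE m) c) :=
  V13_H hX hO hm hc

theorem Wc_cN (hX : Surface Γ D) (hO : Ori Γ) (hm : HM Γ m) (N : ℕ) :
    Wc Γ D m (BE73.cN m N) := by
  obtain ⟨a, b, h⟩ := CF1 hX hO hm
  have h1 : Wc Γ D m (fun p => UU (Gx m p.1) N p.2) := by
    refine ⟨fun p => uu m (s1 ()) N ((0 : ℝ), p), ?_, ?_⟩
    · have h2 := Adm_uu h N
      have h3 : (fun (_ : Unit) (e : ℝ × Pl × Pl) => uu m (s1 ()) N ((0 : ℝ), e.2)) =
          fun i => uu m (s1 i) N := by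
        funext i e
        have h4 : uu m (s1 i) N e = uu m (s1 ()) N e := rfl
        rw [h4, V13_uu, V13_uu]
      change Adm Γ D m s1 (fun (_ : Unit) (e : ℝ × Pl × Pl) => uu m (s1 ()) N ((0 : ℝ), e.2))
      rw [h3]
      exact h2
    · intro x v
      have h2 := uu_UU h () N ((0 : ℝ), x, Ex m x v)
      rw [V13_JV] at h2
      simp only [mm_s1] at h2
      rw [Vx_Ex hX hm] at h2
      exact h2
  exact Wc_H hX hO hm h1

theorem V13_Gk (hX : Surface Γ D) (hO : Ori Γ) (hm : HM Γ m) (k : ℕ) :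
    ∀ c : Pl × Pl → ℝ, Wc Γ D m c → BE73.Gk (closure D) (mE m) 1 k c := by
  induction k with
  | zero =>
    intro c hc
    exact Wc_bd hX hO hm hc
  | succ k ih =>
    intro c hc
    exact ⟨Wc_bd hX hO hm hc, ih _ (Wc_E hX hO hm hc), ih _ (Wc_F hX hO hm hc),
      ih _ (Wc_H hX hO hm hc)⟩

theorem growth (hX : Surface Γ D) (hO : Ori Γ) (hm : HM Γ m) : BE73.Growth D m :=
  ⟨1, zero_le_one, fun N => V13_Gk hX hO hm 2 _ (Wc_cN hX hO hm N)⟩

end BE
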