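import Pool.Agent.LibBE88.A1

/-! Row BE88 A3 (cites `LibBR70/H1d`, `H1e`): curves of bounded speed starting in a compact set stay in a
compact set, uniformly over the family; finiteness of the steps. MEDIUM, 50 min.
Plan. `path_bddK` is `path_bdd` of `LibBR70/H1d.lean` with the initial point `x` replaced by a compact
set `K` of initial points: copy the proof; only the base case of the induction changes: the finite set of
deck transformations `g` with `g • x ∈ closure D` for some `x ∈ K` (`hX.proper` for the compact set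
`K ∪ closure D`), and the private lemmas `H1d_*` have to be copied too. `orb_bdd`: for
`q : Lx ι P K` the curve `c t = (gfl (mm ..) t (q.z, q.w)).1` has the derivative
`fr (..) (gfl ..).2` and `qf (mm ..) (c') = eu (q.w) ^ 2` (`qf_gfl`, `Ex_ray` in `H1e.lean`), so
`qf (m (c t)) (c' t) ≤ C ^ 2 * eu (q.w) ^ 2` (`mm_cmp`), and `eu (gfl ..).2 = eu q.w` is bounded
(`gfl_eu`, `H1e_norm`); take `R = 2`, `T = 2`. `far_fin`: `g • w = Ex (mm ..) z (Vx ..)`
(`Ex_Vx`) is the end point (`t = 1`) of a geodesic of speed `ds ≤ R` starting at `z ∈ closure D`, so it lies in a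
fixed compact set `K'`; the set of `g` with `g • w ∈ K'`, `w ∈ closure D` is finite (`hX.proper`). -/

open MeasureTheory Set Filter Topology
open scoped ContDiff

namespace BE

open BGS BR

variable {Γ : Type} [Group Γ] [MulAction Γ Pl] {D : Set Pl}
variable {ι P : Type} [NormedAddCommGroup P] [NormedSpace ℝ P] {m : Pl → Co} {a b : ℝ}
  {s : ι → P × Pl → ℝ} {K : Set Pl}

/-- On a compact set a bound for the form gives a bound for the vector. -/
theorem A3_speed {m : Pl → Co} (hs : ContDiff ℝ ∞ m) (hp : ∀ z, 0 < (m z).1 ∧ 0 < dt (m z))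
    (r S : ℝ) : ∃ L : ℝ, 0 ≤ L ∧ ∀ z : Pl, ‖z‖ ≤ r → ∀ v : Pl, qf (m z) v ≤ S ^ 2 → ‖v‖ ≤ L := by
  have hc : Continuous m := hs.continuous
  have hE : Continuous fun z => (m z).1 := hc.fst
  have hG : Continuous fun z => (m z).2.2 := hc.snd.snd
  have hF : Continuous fun z => (m z).2.1 := hc.snd.fst
  have hdt : Continuous fun z => dt (m z) := by
    unfold dt
    exact (hE.mul hG).sub (hF.pow 2)
  have h1 : Continuous fun z => ((m z).1 + (m z).2.2) / dt (m z) :=
    (hE.add hG).div hdt fun z => (hp z).2.ne'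
  obtain ⟨M, hM⟩ := (isCompact_closedBall (0 : Pl) r).exists_bound_of_continuousOn h1.continuousOn
  refine ⟨√(|M| * S ^ 2), Real.sqrt_nonneg _, fun z hz v hv => ?_⟩
  have hMz := hM z (mem_closedBall_zero_iff.2 hz)
  have hE0 := (hp z).1
  have hd0 := (hp z).2
  have hG0 : 0 < (m z).2.2 := by
    have h2 : 0 < (m z).1 * (m z).2.2 := by
      have := hd0
      unfold dt at this
      nlinarith [sq_nonneg (m z).2.1]
    exact (pos_iff_pos_of_mul_pos h2).1 hE0
  have hpos : 0 < ((m z).1 + (m z).2.2) / dt (m z) := div_pos (by linarith) hd0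
  have hle : ((m z).1 + (m z).2.2) / dt (m z) ≤ |M| := by
    rw [Real.norm_eq_abs] at hMz
    exact (le_abs_self _).trans (hMz.trans (le_abs_self _))
  have hle' : (m z).1 + (m z).2.2 ≤ |M| * dt (m z) := (div_le_iff₀ hd0).1 hle
  have hdt' : dt (m z) = (m z).1 * (m z).2.2 - (m z).2.1 ^ 2 := rfl
  have hq : qf (m z) v = (m z).1 * v.1 ^ 2 + 2 * (m z).2.1 * v.1 * v.2 + (m z).2.2 * v.2 ^ 2 := rfl
  have hq0 : 0 ≤ qf (m z) v := by
    have : (m z).1 * qf (m z) v = ((m z).1 * v.1 + (m z).2.1 * v.2) ^ 2 + dt (m z) * v.2 ^ 2 := by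
      rw [hq, hdt']
      ring
    have h3 : 0 ≤ (m z).1 * qf (m z) v := by
      rw [this]
      positivity
    exact nonneg_of_mul_nonneg_right h3 hE0
  have k2 : dt (m z) * v.2 ^ 2 ≤ (m z).1 * qf (m z) v := by
    have : (m z).1 * qf (m z) v = ((m z).1 * v.1 + (m z).2.1 * v.2) ^ 2 + dt (m z) * v.2 ^ 2 := by
      rw [hq, hdt']
      ring
    rw [this]
    nlinarith [sq_nonneg ((m z).1 * v.1 + (m z).2.1 * v.2)]
  have k1 : dt (m z) * v.1 ^ 2 ≤ (m z).2.2 * qf (m z) v := by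
    have : (m z).2.2 * qf (m z) v = ((m z).2.2 * v.2 + (m z).2.1 * v.1) ^ 2 + dt (m z) * v.1 ^ 2 := by
      rw [hq, hdt']
      ring
    rw [this]
    nlinarith [sq_nonneg ((m z).2.2 * v.2 + (m z).2.1 * v.1)]
  have k3 : ((m z).1 + (m z).2.2) * qf (m z) v ≤ dt (m z) * (|M| * S ^ 2) := by
    calc ((m z).1 + (m z).2.2) * qf (m z) v ≤ (|M| * dt (m z)) * S ^ 2 :=
          mul_le_mul hle' hv hq0 (by positivity)
      _ = dt (m z) * (|M| * S ^ 2) := by ring
  have k4 : v.1 ^ 2 ≤ |M| * S ^ 2 := by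
    have : dt (m z) * v.1 ^ 2 ≤ dt (m z) * (|M| * S ^ 2) := by nlinarith [mul_nonneg hE0.le hq0]
    exact le_of_mul_le_mul_left this hd0
  have k5 : v.2 ^ 2 ≤ |M| * S ^ 2 := by
    have : dt (m z) * v.2 ^ 2 ≤ dt (m z) * (|M| * S ^ 2) := by nlinarith [mul_nonneg hG0.le hq0]
    exact le_of_mul_le_mul_left this hd0
  rw [Prod.norm_def]
  exact max_le (Real.le_sqrt_of_sq_le (by rw [Real.norm_eq_abs, sq_abs]; exact k4))
    (Real.le_sqrt_of_sq_le (by rw [Real.norm_eq_abs, sq_abs]; exact k5))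

/-- A curve that starts in the ball of radius `r` stays for a while in the ball of radius `r + 1`. -/
theorem A3_stay {m : Pl → Co} {r S L δ : ℝ} (hL0 : 0 ≤ L)
    (hL : ∀ z : Pl, ‖z‖ ≤ r + 1 → ∀ v : Pl, qf (m z) v ≤ S ^ 2 → ‖v‖ ≤ L) (hδ : (L + 1) * δ ≤ 1)
    (c c' : ℝ → Pl) {a b : ℝ} (hab : a ≤ b) (hba : b - a ≤ δ)
    (h : ∀ t ∈ Icc a b, HasDerivAt c (c' t) t ∧ qf (m (c t)) (c' t) ≤ S ^ 2) (ha : ‖c a‖ ≤ r) :
    ‖c b‖ ≤ r + 1 := by
  have hB : ∀ t ∈ Icc a b, r + (L + 1) * (t - a) ≤ r + 1 := by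
    intro t ht
    have h1 : t - a ≤ δ := by linarith [ht.2]
    have := mul_le_mul_of_nonneg_left h1 (by linarith : (0 : ℝ) ≤ L + 1)
    linarith
  have key := image_norm_le_of_norm_deriv_right_lt_deriv_boundary' (f := c) (f' := c') (a := a) (b := b)
    (fun t ht => (h t ht).1.continuousAt.continuousWithinAt)
    (fun t ht => (h t ⟨ht.1, ht.2.le⟩).1.hasDerivWithinAt)
    (B := fun t => r + (L + 1) * (t - a)) (B' := fun _ => L + 1)
    (by simpa using ha) (by fun_prop)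
    (fun t _ => by
      have h1 : HasDerivAt (fun t : ℝ => r + (L + 1) * (t - a)) ((L + 1) * 1) t :=
        (((hasDerivAt_id t).sub_const a).const_mul (L + 1)).const_add r
      rw [mul_one] at h1
      exact h1.hasDerivWithinAt)
    (fun t ht he => by
      have hm := h t ⟨ht.1, ht.2.le⟩
      have h1 : ‖c t‖ ≤ r + 1 := by
        rw [he]
        exact hB t ⟨ht.1, ht.2.le⟩
      have := hL (c t) h1 (c' t) hm.2
      linarith)
  exact (key (right_mem_Icc.2 hab)).trans (hB b (right_mem_Icc.2 hab))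

/-- The same in both directions of time. -/
theorem A3_stay2 {m : Pl → Co} {r S L δ : ℝ} (hL0 : 0 ≤ L)
    (hL : ∀ z : Pl, ‖z‖ ≤ r + 1 → ∀ v : Pl, qf (m z) v ≤ S ^ 2 → ‖v‖ ≤ L) (hδ : (L + 1) * δ ≤ 1)
    (c c' : ℝ → Pl) {a b : ℝ} (hba : |b - a| ≤ δ)
    (h : ∀ t ∈ uIcc a b, HasDerivAt c (c' t) t ∧ qf (m (c t)) (c' t) ≤ S ^ 2) (ha : ‖c a‖ ≤ r) :
    ‖c b‖ ≤ r + 1 := by
  rcases le_total a b with hab | hab
  · rw [uIcc_of_le hab] at h
    exact A3_stay hL0 hL hδ c c' hab ((le_abs_self _).trans hba) h ha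
  · rw [uIcc_of_ge hab] at h
    have hba' : -b - -a ≤ δ := by
      have := neg_abs_le (b - a)
      linarith
    have key := A3_stay hL0 hL hδ (fun t => c (-t)) (fun t => -c' (-t)) (a := -a) (b := -b)
      (neg_le_neg hab) hba' (fun t ht => by
        have ht' : -t ∈ Icc b a := ⟨by linarith [ht.2], by linarith [ht.1]⟩
        obtain ⟨h1, h2⟩ := h (-t) ht'
        refine ⟨?_, ?_⟩
        · have h3 := h1.scomp t (hasDerivAt_neg t)
          have e : (-1 : ℝ) • c' (-t) = -c' (-t) := by simp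
          rw [e] at h3
          exact h3
        · have e : qf (m (c (-t))) (-c' (-t)) = qf (m (c (-t))) (c' (-t)) := by
            unfold qf
            simp only [Prod.fst_neg, Prod.snd_neg]
            ring
          rw [e]
          exact h2) (by simpa using ha)
    simpa using key

theorem path_bddK (hX : Surface Γ D) (hm : HM Γ m) (hK : IsCompact K) (R S : ℝ) :
    ∃ B : ℝ, ∀ (c c' : ℝ → Pl) (T : ℝ), 0 < T → T ≤ R → c 0 ∈ K →
      (∀ t ∈ Ioo (-T) T, HasDerivAt c (c' t) t ∧ qf (m (c t)) (c' t) ≤ S ^ 2) →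
      ∀ t ∈ Ioo (-T) T, ‖c t‖ ≤ B := by
  classical
  obtain ⟨r, hr⟩ := hX.bdd.subset_closedBall (0 : Pl)
  have hD : ∀ z ∈ D, ‖z‖ ≤ r := fun z hz => mem_closedBall_zero_iff.1 (hr hz)
  obtain ⟨L, hL0, hL⟩ := A3_speed hm.smooth hm.pos (r + 1) S
  set δ : ℝ := 1 / (L + 1) with hδdef
  have hδ0 : 0 < δ := by positivity
  have hδ : (L + 1) * δ ≤ 1 := by
    rw [hδdef, mul_one_div, div_self (by positivity : L + 1 ≠ 0)]
  have hKr : IsCompact (Metric.closedBall (0 : Pl) (r + 1)) := isCompact_closedBall 0 (r + 1)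
  have hfin := hX.proper _ hKr
  have hfin0 := hX.proper _ (hK.union hKr)
  -- the deck transformations act by isometries on curves
  have hcurve : ∀ (g : Γ) (c c' : ℝ → Pl) (t : ℝ), HasDerivAt c (c' t) t →
      qf (m (c t)) (c' t) ≤ S ^ 2 →
      HasDerivAt (fun s => g • c s) (fderiv ℝ (fun w : Pl => g • w) (c t) (c' t)) t ∧
        qf (m (g • c t)) (fderiv ℝ (fun w : Pl => g • w) (c t) (c' t)) ≤ S ^ 2 := by
    intro g c c' t h1 h2
    refine ⟨?_, ?_⟩
    · have h0 : HasFDerivAt (fun w : Pl => g • w) (fderiv ℝ (fun w : Pl => g • w) (c t)) (c t) :=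
        (((hX.smooth g).differentiable (by simp)) (c t)).hasFDerivAt
      exact h0.comp_hasDerivAt t h1
    · rw [hm.inv g (c t) (c' t)]
      exact h2
  -- the sets of deck transformations
  have hA : ∀ n : ℕ, ∃ A : Finset Γ, ∀ (c c' : ℝ → Pl) (T : ℝ), 0 < T → c 0 ∈ K →
      (∀ t ∈ Ioo (-T) T, HasDerivAt c (c' t) t ∧ qf (m (c t)) (c' t) ≤ S ^ 2) →
      ∀ t ∈ Ioo (-T) T, |t| ≤ n * δ → ∃ g ∈ A, ‖g • c t‖ ≤ r + 1 := by
    intro n
    induction n with
    | zero =>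
      refine ⟨hfin0.toFinset, fun c c' T _ hc _ t _ ht => ?_⟩
      obtain ⟨g₀, hg₀, _⟩ := hX.orbit (c 0)
      have hg₁ : ‖g₀ • c 0‖ ≤ r + 1 := by
        have := hD _ hg₀
        linarith
      refine ⟨g₀, ?_, ?_⟩
      · rw [Set.Finite.mem_toFinset]
        exact ⟨c 0, Or.inl hc, Or.inr (mem_closedBall_zero_iff.2 hg₁)⟩
      · have ht0 : t = 0 := by
          rw [Nat.cast_zero, zero_mul] at ht
          exact abs_nonpos_iff.1 ht
        rw [ht0]
        exact hg₁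
    | succ n ih =>
      obtain ⟨A, hA⟩ := ih
      refine ⟨A ∪ (hfin.toFinset ×ˢ A).image (fun p => p.1 * p.2), fun c c' T hT hc h t ht htn => ?_⟩
      by_cases htn' : |t| ≤ n * δ
      · obtain ⟨g, hg, hgc⟩ := hA c c' T hT hc h t ht htn'
        exact ⟨g, Finset.mem_union_left _ hg, hgc⟩
      push Not at htn'
      -- the previous time
      set t' : ℝ := t * (n * δ / |t|) with ht'
      have hn0 : (0 : ℝ) ≤ n * δ := by positivity
      have hta : 0 < |t| := hn0.trans_lt htn'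
      have hq0 : 0 ≤ n * δ / |t| := by positivity
      have hq1 : n * δ / |t| ≤ 1 := by
        rw [div_le_one hta]
        exact htn'.le
      have hat' : |t'| = n * δ := by
        rw [ht', abs_mul, abs_of_nonneg hq0, mul_div_cancel₀ _ hta.ne']
      have hdist : |t - t'| ≤ δ := by
        have e1 : t - t' = t * (1 - n * δ / |t|) := by
          rw [ht']
          ring
        rw [e1, abs_mul, abs_of_nonneg (by linarith : 0 ≤ 1 - n * δ / |t|), mul_sub, mul_one,
          mul_div_cancel₀ _ hta.ne']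
        push_cast at htn
        linarith
      have hT' : |t| < T := abs_lt.2 ht
      have hseg : ∀ s ∈ uIcc t' t, s ∈ Ioo (-T) T := by
        intro s hs
        have hs1 : |s| ≤ max |t'| |t| := by
          rcases le_total t' t with hle | hle
          · rw [uIcc_of_le hle] at hs
            exact abs_le_max_abs_abs hs.1 hs.2
          · rw [uIcc_of_ge hle] at hs
            rw [max_comm]
            exact abs_le_max_abs_abs hs.1 hs.2
        have hs2 : |s| < T := by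
          refine hs1.trans_lt (max_lt ?_ hT')
          rw [hat']
          linarith
        exact abs_lt.1 hs2
      obtain ⟨g, hg, hgc⟩ := hA c c' T hT hc h t' (hseg t' left_mem_uIcc) hat'.le
      obtain ⟨k, hk, _⟩ := hX.orbit (c t')
      refine ⟨k, Finset.mem_union_right _ (Finset.mem_image.2 ⟨(k * g⁻¹, g), ?_, by simp⟩), ?_⟩
      · rw [Finset.mem_product]
        refine ⟨?_, hg⟩
        rw [Set.Finite.mem_toFinset]
        refine ⟨g • c t', mem_closedBall_zero_iff.2 hgc, ?_⟩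
        rw [mem_closedBall_zero_iff, smul_smul, inv_mul_cancel_right]
        have := hD _ hk
        linarith
      · exact A3_stay2 hL0 hL hδ (fun s => k • c s)
          (fun s => fderiv ℝ (fun w : Pl => k • w) (c s) (c' s)) hdist
          (fun s hs => hcurve k c c' s (h s (hseg s hs)).1 (h s (hseg s hs)).2) (hD _ hk)
  obtain ⟨n, hn⟩ := exists_nat_ge (R / δ)
  obtain ⟨A, hA⟩ := hA n
  have hbd : ∀ g : Γ, ∃ B : ℝ, ∀ z : Pl, ‖g • z‖ ≤ r + 1 → ‖z‖ ≤ B := by
    intro g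
    have hcont : Continuous fun z : Pl => g⁻¹ • z := (hX.smooth g⁻¹).continuous
    obtain ⟨B, hB⟩ := (hKr.image hcont).isBounded.subset_closedBall (0 : Pl)
    refine ⟨B, fun z hz => ?_⟩
    have h1 : z ∈ (fun z : Pl => g⁻¹ • z) '' Metric.closedBall (0 : Pl) (r + 1) :=
      ⟨g • z, mem_closedBall_zero_iff.2 hz, inv_smul_smul g z⟩
    exact mem_closedBall_zero_iff.1 (hB h1)
  choose B hB using hbd
  refine ⟨∑ g ∈ A, |B g|, fun c c' T hT hTR hc h t ht => ?_⟩
  have ht2 : |t| ≤ n * δ := by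
    have h1 : |t| < T := abs_lt.2 ht
    have h2 : R ≤ n * δ := (div_le_iff₀ hδ0).1 hn
    linarith
  obtain ⟨g, hg, hgc⟩ := hA c c' T hT hc h t ht ht2
  have h1 := (hB g (c t) hgc).trans (le_abs_self _)
  exact h1.trans (Finset.single_le_sum (f := fun g => |B g|) (fun _ _ => abs_nonneg _) hg)

theorem A3_eu_nonneg (v : Pl) : 0 ≤ eu v := Real.sqrt_nonneg _

theorem A3_curve (h : CF Γ D m a b s) {C E : ℝ} (hC1 : 1 ≤ C)
    (hC : ∀ (i : ι) (p : P), ‖p‖ ≤ 1 → ∀ z v : Pl, qf (m z) v ≤ C ^ 2 * qf (mm m (s i) p z) v ∧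
      qf (mm m (s i) p z) v ≤ C ^ 2 * qf (m z) v) (i : ι) {p : P} (hp : ‖p‖ ≤ 1) (z : Pl) {v : Pl}
    (hv : eu v ≤ E) (t : ℝ) :
    HasDerivAt (fun t => (gfl (mm m (s i) p) t (z, v)).1)
      (fr (mm m (s i) p (gfl (mm m (s i) p) t (z, v)).1) (gfl (mm m (s i) p) t (z, v)).2) t ∧
    qf (m (gfl (mm m (s i) p) t (z, v)).1)
      (fr (mm m (s i) p (gfl (mm m (s i) p) t (z, v)).1) (gfl (mm m (s i) p) t (z, v)).2) ≤
        (C * E) ^ 2 := by
  have hm := hm_mm h i p
  have h1 := qf_gfl h.hX hm t z v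
  have e1 : (fun s' => Ex (mm m (s i) p) z (s' • v)) =
      fun s' => (gfl (mm m (s i) p) s' (z, v)).1 := funext fun s' => Ex_ray h.hX hm s' z v
  rw [e1, Ex_ray h.hX hm] at h1
  refine ⟨h1.1, ?_⟩
  have h2 := (hC i p hp (gfl (mm m (s i) p) t (z, v)).1
    (fr (mm m (s i) p (gfl (mm m (s i) p) t (z, v)).1) (gfl (mm m (s i) p) t (z, v)).2)).1
  rw [h1.2] at h2
  refine h2.trans ?_
  rw [mul_pow]
  exact mul_le_mul_of_nonneg_left (pow_le_pow_left₀ (A3_eu_nonneg v) hv 2) (by positivity)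

theorem orb_bdd (h : CF Γ D m a b s) (hK : IsCompact K) : ∃ B : ℝ, ∀ q : Lx ι P K,
    ∀ t ∈ Icc (0 : ℝ) 1, ‖gfl (mm m (s q.i) q.p) t (q.z, q.w)‖ ≤ B := by
  obtain ⟨C, hC1, hC⟩ := mm_cmp h
  have hce : Continuous fun v : Pl => eu v := by
    unfold eu
    fun_prop
  obtain ⟨E, hE⟩ := hK.exists_bound_of_continuousOn hce.continuousOn
  obtain ⟨B, hB⟩ := path_bddK h.hX h.hm hK 2 (C * E)
  refine ⟨max B E, fun q t ht => ?_⟩
  have hw : eu q.w ≤ E := (Real.le_norm_self _).trans (hE q.w q.hw)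
  have hm := hm_mm h q.i q.p
  rw [Prod.norm_def]
  refine max_le_max ?_ ?_
  · refine hB (fun t => (gfl (mm m (s q.i) q.p) t (q.z, q.w)).1)
      (fun t => fr (mm m (s q.i) q.p (gfl (mm m (s q.i) q.p) t (q.z, q.w)).1)
        (gfl (mm m (s q.i) q.p) t (q.z, q.w)).2) 2 two_pos le_rfl ?_
      (fun t _ => A3_curve h hC1 hC q.i q.hp q.z hw t) t ⟨by linarith [ht.1], by linarith [ht.2]⟩
    show (gfl (mm m (s q.i) q.p) 0 (q.z, q.w)).1 ∈ K
    rw [(gfl_isFlow h.hX hm).zero]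
    exact q.hz
  · refine (H1e_norm _).trans ?_
    rw [gfl_eu h.hX hm]
    exact hw

theorem far_fin (h : CF Γ D m a b s) (R : ℝ) : ∃ S : Set Γ, S.Finite ∧ ∀ (i : ι) (p : P),
    ‖p‖ ≤ 1 → ∀ z ∈ closure D, ∀ w ∈ closure D, ∀ g : Γ,
      ds (mm m (s i) p) z (g • w) ≤ R → g ∈ S := by
  obtain ⟨C, hC1, hC⟩ := mm_cmp h
  have hD : IsCompact (closure D) := h.hX.bdd.isCompact_closure
  obtain ⟨B, hB⟩ := path_bddK h.hX h.hm hD 2 (C * R)
  refine ⟨_, h.hX.proper _ (hD.union (isCompact_closedBall (0 : Pl) B)), ?_⟩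
  intro i p hp z hz w hw g hg
  have hm := hm_mm h i p
  refine ⟨w, Or.inl hw, Or.inr ?_⟩
  rw [mem_closedBall_zero_iff]
  have h1 := hB (fun t => (gfl (mm m (s i) p) t (z, Vx (mm m (s i) p) z (g • w))).1)
    (fun t => fr (mm m (s i) p (gfl (mm m (s i) p) t (z, Vx (mm m (s i) p) z (g • w))).1)
      (gfl (mm m (s i) p) t (z, Vx (mm m (s i) p) z (g • w))).2) 2 two_pos le_rfl (by
        show (gfl (mm m (s i) p) 0 (z, Vx (mm m (s i) p) z (g • w))).1 ∈ closure D
        rw [(gfl_isFlow h.hX hm).zero]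
        exact hz)
    (fun t _ => A3_curve h hC1 hC i hp z hg t) 1 ⟨by norm_num, by norm_num⟩
  have h2 : (gfl (mm m (s i) p) 1 (z, Vx (mm m (s i) p) z (g • w))).1 = g • w :=
    Ex_Vx h.hX hm z (g • w)
  rw [← h2]
  exact h1

end BE
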