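import Pool.Agent.LibBE88.Defs

/-! Row BE88 F1 (cites `LibBR70/FL1`-`FL7`, `JB1`-`JB4`): uniform bounds for all derivatives of the
flows of a family of vector fields for times in `[0, 1]`. STRONG, 75 min.
Hypotheses: the orbits starting at the points `x0 q` stay bounded for `t ∈ [0, 1]` (`ho`), and along
these orbits all derivatives of the fields are uniformly bounded (`hb`).
Plan. Prove by induction on `k`, for all `E`, `J`, `S`, ...: `∃ C, ∀ q, ‖iteratedFDeriv ℝ k (φ (jj q.1) q.2) (x0 q.1)‖ ≤ C`.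
`k = 0` is `ho`. Step: let `W j` be the linear part of the flow of the extended field
(`FL_ext_lin`, `FL5.lean`), so `fderiv ℝ (φ j t) x = W j t x` (`FL_hasFDerivAt`, `FL6.lean`) and
`Φ j t (x, v) = (φ j t x, W j t x v)` is the flow of `ext (f j)`. (1) Gronwall (`FL5_gron_pos`):
`‖W j t x v‖ ≤ exp (M t) ‖v‖ ≤ exp M` for `‖v‖ ≤ 1`, `x = x0 q`, `0 ≤ t ≤ 1`, where
`‖fderiv ℝ (f j) y‖ ≤ M` along the orbit (`hb`, order `1`). (2) The derivatives of
`ext (f j) (y, w) = (f j y, fderiv ℝ (f j) y w)` at `(φ t x0, W t x0 v)`, `‖v‖ ≤ 1`, are uniformly bounded: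
`EB_comp`, `EB_fderiv`, `EB_clm_apply`, `EB_prod` with `ℓ = 0` and the projections. (3) The induction
hypothesis of order `k` for `E × E`, index set `S' = S × closedBall 0 1`, initial points `(x0 q, v)`,
gives a bound for `iteratedFDeriv ℝ k (fun (x, v) => W j t x v) (x0 q, v)`. (4)
`‖iteratedFDeriv ℝ (k + 1) (φ j t) x‖ = ‖iteratedFDeriv ℝ k (W j t) x‖` (`norm_iteratedFDeriv_fderiv`) and
`iteratedFDeriv ℝ k (W j t) x h v = iteratedFDeriv ℝ k (fun x => W j t x v) x h`, which is the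
derivative of `(x, v) ↦ W x v` restricted to the affine subspace `v = const`
(`ContinuousLinearMap.iteratedFDeriv_comp_left`, `iteratedFDeriv_comp_right`-type lemmas for the
affine map `x ↦ (x, v)`, or `EB_comp` with that map); take the supremum over `‖v‖ ≤ 1`
(`ContinuousMultilinearMap.opNorm_le_bound`, `ContinuousLinearMap.opNorm_le_of_unit_norm`).
If the spaces in the induction cause trouble, an alternative for (4): `EBn_of_dir` (row C1). -/

open MeasureTheory Set Filter Topology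
open scoped ContDiff

namespace BE

open BGS BR

/-- Gronwall for the linearised flow, for times in `[0, 1]`. -/
theorem F1_gron {E : Type} [NormedAddCommGroup E] [NormedSpace ℝ E] [FiniteDimensional ℝ E]
    {f : E → E} {φ : ℝ → E → E} {W : ℝ → E → E →L[ℝ] E}
    (hW : IsFlow (ext f) (fun t p => (φ t p.1, W t p.1 p.2))) {M : ℝ} (hM : 0 ≤ M) {x : E}
    (hb : ∀ t ∈ Icc (0 : ℝ) 1, ‖fderiv ℝ f (φ t x)‖ ≤ M) (v : E) :
    ∀ t ∈ Icc (0 : ℝ) 1, ‖W t x v‖ ≤ ‖v‖ * Real.exp M := by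
  intro t ht
  have hWd : ∀ s, HasDerivAt (fun s => W s x v) (fderiv ℝ f (φ s x) (W s x v)) s := fun s =>
    (hW.deriv (x, v) s).snd
  have hW0 : W 0 x v = v := congrArg Prod.snd (hW.zero (x, v))
  have h2 := norm_le_gronwallBound_of_norm_deriv_right_le (f := fun s => W s x v)
    (f' := fun s => fderiv ℝ f (φ s x) (W s x v)) (δ := ‖v‖)
    (K := M) (ε := 0) (a := 0) (b := 1)
    (fun s _ => (hWd s).continuousAt.continuousWithinAt)
    (fun s _ => (hWd s).hasDerivWithinAt) (by rw [hW0])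
    (fun s hs => by
      rw [add_zero]
      exact ((fderiv ℝ f (φ s x)).le_opNorm _).trans
        (mul_le_mul_of_nonneg_right (hb s ⟨hs.1, hs.2.le⟩) (norm_nonneg _))) t ht
  rw [sub_zero, gronwallBound_ε0] at h2
  refine h2.trans (mul_le_mul_of_nonneg_left (Real.exp_le_exp.2 ?_) (norm_nonneg _))
  calc M * t ≤ M * 1 := mul_le_mul_of_nonneg_left ht.2 hM
    _ = M := mul_one M

theorem F1_zero {ι : Type} : ∀ i : ι, (0 : ℝ) ≤ (fun _ : ι => (0 : ℝ)) i := fun _ => le_rfl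

/-- Restriction to an affine subspace. -/
theorem F1_slice {E F : Type} [NormedAddCommGroup E] [NormedSpace ℝ E] [NormedAddCommGroup F]
    [NormedSpace ℝ F] {G : E × E → F} (hG : ContDiff ℝ ∞ G) (k : ℕ) (x v : E) :
    ‖iteratedFDeriv ℝ k (fun y => G (y, v)) x‖ ≤ ‖iteratedFDeriv ℝ k G (x, v)‖ := by
  have h1 : (fun y => G (y, v)) =
      (fun p : E × E => G (p + (0, v))) ∘ (ContinuousLinearMap.inl ℝ E E) := by
    funext y
    simp
  have h2 : ContDiff ℝ ∞ (fun p : E × E => G (p + (0, v))) :=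
    hG.comp (contDiff_id.add contDiff_const)
  rw [h1, ContinuousLinearMap.iteratedFDeriv_comp_right (ContinuousLinearMap.inl ℝ E E) h2 x
    (i := k) (by exact_mod_cast le_top), iteratedFDeriv_comp_add_right]
  have h3 : (ContinuousLinearMap.inl ℝ E E) x + (0, v) = (x, v) := by simp
  rw [h3]
  refine (ContinuousMultilinearMap.norm_compContinuousLinearMap_le _ _).trans ?_
  have h4 : ∏ _i : Fin k, ‖ContinuousLinearMap.inl ℝ E E‖ ≤ 1 := by
    refine Finset.prod_le_one (fun _ _ => norm_nonneg _) fun _ _ => ?_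
    exact ContinuousLinearMap.norm_inl_le_one ℝ E E
  exact mul_le_of_le_one_right (norm_nonneg _) h4

/-- The derivatives of a family of linear maps. -/
theorem F1_lin {E : Type} [NormedAddCommGroup E] [NormedSpace ℝ E] {W : E → E →L[ℝ] E}
    (hW : ContDiff ℝ ∞ W) {k : ℕ} {x : E} {C : ℝ} (hC : 0 ≤ C)
    (h : ∀ v : E, ‖v‖ ≤ 1 → ‖iteratedFDeriv ℝ k (fun y => W y v) x‖ ≤ C) :
    ‖iteratedFDeriv ℝ k W x‖ ≤ C := by
  refine ContinuousMultilinearMap.opNorm_le_bound hC fun u => ?_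
  have h0 : 0 ≤ C * ∏ i, ‖u i‖ :=
    mul_nonneg hC (Finset.prod_nonneg fun _ _ => norm_nonneg _)
  refine ContinuousLinearMap.opNorm_le_of_unit_norm h0 fun v hv => ?_
  have h1 : (fun y => W y v) = (ContinuousLinearMap.apply ℝ E v) ∘ W := rfl
  have h2 : (iteratedFDeriv ℝ k W x) u v = iteratedFDeriv ℝ k (fun y => W y v) x u := by
    rw [h1, ContinuousLinearMap.iteratedFDeriv_comp_left (ContinuousLinearMap.apply ℝ E v)
      hW.contDiffAt (by exact_mod_cast le_top)]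
    rfl
  rw [h2]
  exact ((iteratedFDeriv ℝ k (fun y => W y v) x).le_opNorm u).trans
    (mul_le_mul_of_nonneg_right (h v hv.le) (Finset.prod_nonneg fun _ _ => norm_nonneg _))

theorem F1_main (k : ℕ) : ∀ (J E S : Type) [NormedAddCommGroup E] [NormedSpace ℝ E]
    [FiniteDimensional ℝ E] (f : J → E → E), (∀ j, ContDiff ℝ ∞ (f j)) →
    ∀ φ : J → ℝ → E → E, (∀ j, IsFlow (f j) (φ j)) → ∀ (jj : S → J) (x0 : S → E),
    (∃ B : ℝ, ∀ q : S × Icc (0 : ℝ) 1, ‖φ (jj q.1) q.2 (x0 q.1)‖ ≤ B) →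
    EB0 (fun q : S × Icc (0 : ℝ) 1 => f (jj q.1)) (fun q => φ (jj q.1) q.2 (x0 q.1)) →
    ∃ C : ℝ, ∀ q : S × Icc (0 : ℝ) 1, ‖iteratedFDeriv ℝ k (φ (jj q.1) q.2) (x0 q.1)‖ ≤ C := by
  induction k with
  | zero =>
    intro J E S _ _ _ f hf φ hφ jj x0 ho hb
    obtain ⟨B, hB⟩ := ho
    refine ⟨B, fun q => ?_⟩
    rw [norm_iteratedFDeriv_zero]
    exact hB q
  | succ k ih =>
    intro J E S _ _ _ f hf φ hφ jj x0 ho hb
    obtain ⟨B, hB⟩ := ho
    choose W hW using fun j => FL_ext_lin (hf j) (hφ j)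
    obtain ⟨M0, hM0⟩ := hb.bound 1
    have hM0' : ∀ q : S × Icc (0 : ℝ) 1, ‖fderiv ℝ (f (jj q.1)) (φ (jj q.1) q.2 (x0 q.1))‖ ≤
        max M0 0 := by
      intro q
      have h1 := hM0 q
      rw [norm_iteratedFDeriv_one, mul_zero, Real.exp_zero, mul_one] at h1
      exact h1.trans (le_max_left _ _)
    have hgr : ∀ (s : S) (t : Icc (0 : ℝ) 1) (v : E), ‖v‖ ≤ 1 →
        ‖W (jj s) t (x0 s) v‖ ≤ Real.exp (max M0 0) := by
      intro s t v hv
      refine (F1_gron (hW (jj s)) (le_max_right M0 0) (fun r hr => hM0' (s, ⟨r, hr⟩)) v t.1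
        t.2).trans ?_
      exact mul_le_of_le_one_left (Real.exp_pos _).le hv
    -- the extended system
    let S' : Type := S × Metric.closedBall (0 : E) 1
    let Φ : J → ℝ → E × E → E × E := fun j t p => (φ j t p.1, W j t p.1 p.2)
    let z : S' × Icc (0 : ℝ) 1 → E × E := fun q =>
      Φ (jj q.1.1) q.2 (x0 q.1.1, (q.1.2 : E))
    have hz : ∀ q, ‖z q‖ ≤ max B (Real.exp (max M0 0)) := by
      intro q
      rw [Prod.norm_def]
      refine max_le_max (hB (q.1.1, q.2)) (hgr q.1.1 q.2 _ ?_)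
      have h1 := q.1.2.2
      rw [mem_closedBall_zero_iff] at h1
      exact h1
    have hid : EB (fun _ => (0 : ℝ)) (fun (_ : S' × Icc (0 : ℝ) 1) (y : E × E) => y) z :=
      EB_id F1_zero (C := max B (Real.exp (max M0 0))) fun q => by
        rw [mul_zero, Real.exp_zero, mul_one]
        exact hz q
    have hfst := EB_clm F1_zero hid (ContinuousLinearMap.fst ℝ E E)
    have hsnd := EB_clm F1_zero hid (ContinuousLinearMap.snd ℝ E E)
    have hb2 : EB (fun _ => (0 : ℝ)) (fun q : S' × Icc (0 : ℝ) 1 => f (jj q.1.1))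
        (fun q => (ContinuousLinearMap.fst ℝ E E) (z q)) :=
      ⟨fun q => hf _, fun n => by
        obtain ⟨C, hC⟩ := hb.bound n
        exact ⟨C, fun q => hC (q.1.1, q.2)⟩⟩
    have h1 := EB_comp F1_zero hb2 hfst
    have h2 := EB_comp F1_zero (EB_fderiv hb2) hfst
    have h3 := EB_clm_apply F1_zero h2 hsnd
    have h4 : EB (fun _ => (0 : ℝ)) (fun q : S' × Icc (0 : ℝ) 1 => ext (f (jj q.1.1))) z :=
      EB_prod F1_zero h1 h3
    obtain ⟨C, hC⟩ := ih J (E × E) S' (fun j => ext (f j)) (fun j => FL_ext_contDiff (hf j)) Φ hW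
      (fun q => jj q.1) (fun q => (x0 q.1, (q.2 : E))) ⟨_, hz⟩ h4
    refine ⟨max C 0, fun q => ?_⟩
    obtain ⟨s, t⟩ := q
    have hsm : ContDiff ℝ ∞ (φ (jj s) t) :=
      (FL_smooth (hf (jj s)) (hφ (jj s))).comp (contDiff_const.prodMk contDiff_id)
    have hfd : fderiv ℝ (φ (jj s) t) = W (jj s) t := by
      funext x
      exact (FL_hasFDerivAt (hf (jj s)) (hφ (jj s)) (hW (jj s)) t x).fderiv
    have hWs : ContDiff ℝ ∞ (W (jj s) t) := by
      rw [← hfd]
      exact (contDiff_infty_iff_fderiv.1 hsm).2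
    change ‖iteratedFDeriv ℝ (k + 1) (φ (jj s) t) (x0 s)‖ ≤ max C 0
    rw [← norm_iteratedFDeriv_fderiv, hfd]
    refine F1_lin hWs (le_max_right _ _) fun v hv => ?_
    have hG : ContDiff ℝ ∞ (fun p : E × E => W (jj s) t p.1 p.2) :=
      (hWs.comp contDiff_fst).clm_apply contDiff_snd
    have hΦs : ContDiff ℝ ∞ (Φ (jj s) t) :=
      (hsm.comp contDiff_fst).prodMk hG
    refine (F1_slice hG k (x0 s) v).trans ?_
    have h5 : (fun p : E × E => W (jj s) t p.1 p.2) =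
        (ContinuousLinearMap.snd ℝ E E) ∘ (Φ (jj s) t) := rfl
    rw [h5]
    have h6 := (ContinuousLinearMap.snd ℝ E E).norm_iteratedFDeriv_comp_left (n := k) (N := ∞)
      hΦs.contDiffAt (x := (x0 s, v)) (by exact_mod_cast le_top)
    refine h6.trans ?_
    have h7 : ‖iteratedFDeriv ℝ k (Φ (jj s) t) (x0 s, v)‖ ≤ C :=
      hC ((s, ⟨v, by rw [mem_closedBall_zero_iff]; exact hv⟩), t)
    have h8 : ‖ContinuousLinearMap.snd ℝ E E‖ ≤ 1 := ContinuousLinearMap.norm_snd_le ℝ E E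
    calc ‖ContinuousLinearMap.snd ℝ E E‖ * ‖iteratedFDeriv ℝ k (Φ (jj s) t) (x0 s, v)‖
        ≤ 1 * ‖iteratedFDeriv ℝ k (Φ (jj s) t) (x0 s, v)‖ :=
          mul_le_mul_of_nonneg_right h8 (norm_nonneg _)
      _ ≤ C := by rw [one_mul]; exact h7
      _ ≤ max C 0 := le_max_left _ _

theorem flow_EB0 {J E S : Type} [NormedAddCommGroup E] [NormedSpace ℝ E] [FiniteDimensional ℝ E]
    {f : J → E → E} (hf : ∀ j, ContDiff ℝ ∞ (f j)) {φ : J → ℝ → E → E}
    (hφ : ∀ j, IsFlow (f j) (φ j)) {jj : S → J} {x0 : S → E}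
    (ho : ∃ B : ℝ, ∀ q : S × Icc (0 : ℝ) 1, ‖φ (jj q.1) q.2 (x0 q.1)‖ ≤ B)
    (hb : EB0 (fun q : S × Icc (0 : ℝ) 1 => f (jj q.1)) (fun q => φ (jj q.1) q.2 (x0 q.1))) :
    EB0 (fun q : S × Icc (0 : ℝ) 1 => φ (jj q.1) q.2) (fun q => x0 q.1) := by
  refine ⟨fun q => (FL_smooth (hf _) (hφ _)).comp (contDiff_const.prodMk contDiff_id),
    fun k => ?_⟩
  obtain ⟨C, hC⟩ := F1_main k J E S f hf φ hφ jj x0 ho hb
  refine ⟨C, fun q => ?_⟩
  rw [mul_zero, Real.exp_zero, mul_one]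
  exact hC q

end BE
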