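import Pool.Agent.LibBE88.C1

/-! Row BE88 C2: linear recursions `A_j u_{j-1} + B_j u_j + C_j u_{j+1} = r_j` (`1 ≤ j < N`) with
coefficients depending on `y ∈ E`. MEDIUM / STRONG, 45 min.
If the coefficients, the right side and the end values `u_0`, `u_N` are of class `EBn n` (uniformly in
`j`), and the linear system AT THE POINTS `x q` has an inverse of size `K exp (K ℓ)`, then the solution
is of class `EBn n`.
Plan. Induction on `n`, generalising `u`, `r` (not `A`, `B`, `C`). Order `0`: `hinv` at the point `x q`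
with `v j = u q j (x q)` and `M` the maximum (or the sum) of the bounds of order `0` of `r`, `u_0`,
`u_N`, which is `≤ C' exp (C' ℓ)`, and a product of two such bounds is again one.
Step `n → n + 1`: by induction (`EBn_mono`) `u` is `EBn n`. For a direction `e` put
`u' q j y = fderiv ℝ (u q j) y e`, and the same for `r`. Differentiating the equation (it holds for all
`y`; product rule `HasFDerivAt.clm_apply`):
`A u'_{j-1} + B u'_j + C u'_{j+1} = r' - (A' u_{j-1} + B' u_j + C' u_{j+1}) =: r1`, where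
`A' y = fderiv ℝ (A q j) y e` etc. (`EBn_fderiv_apply`, `EBn_clm_apply`, `EBn_pull` to get `u_{j-1}`,
`u_{j+1}` as families indexed by `In N`). `r1` is `EBn n`, `u'_0`, `u'_N` are `EBn n`
(`EBn_fderiv_apply`), so the induction hypothesis gives that `u'` is `EBn n` for every `e`, and
`EBn_of_dir` gives `EBn (n + 1)` for `u`. -/

open MeasureTheory Set Filter Topology
open scoped ContDiff

namespace BE

open BGS BR

/-- The interior indices. -/
def In {κ : Type} (N : κ → ℕ) : Type := {q : κ × ℕ // 1 ≤ q.2 ∧ q.2 < N q.1}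

/-- All indices. -/
def Le {κ : Type} (N : κ → ℕ) : Type := {q : κ × ℕ // q.2 ≤ N q.1}

private theorem C2_mono {C D t : ℝ} (hCD : C ≤ D) (hD : 0 ≤ D) (ht : 0 ≤ t) :
    C * Real.exp (C * t) ≤ D * Real.exp (D * t) := by
  have h1 : Real.exp (C * t) ≤ Real.exp (D * t) :=
    Real.exp_le_exp.2 (mul_le_mul_of_nonneg_right hCD ht)
  calc C * Real.exp (C * t) ≤ D * Real.exp (C * t) :=
        mul_le_mul_of_nonneg_right hCD (Real.exp_pos _).le
    _ ≤ D * Real.exp (D * t) := mul_le_mul_of_nonneg_left h1 hD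

private theorem C2_prod {K D t : ℝ} (hD : 0 ≤ D) (ht : 0 ≤ t) :
    K * Real.exp (K * t) * (D * Real.exp (D * t)) ≤
      (|K| * D + (|K| + D)) * Real.exp ((|K| * D + (|K| + D)) * t) := by
  have h0 : (0 : ℝ) ≤ |K| := abs_nonneg K
  have hKD : 0 ≤ |K| * D := mul_nonneg h0 hD
  have h1 : K * Real.exp (K * t) ≤ |K| * Real.exp (|K| * t) := C2_mono (le_abs_self K) h0 ht
  have h2 : 0 ≤ D * Real.exp (D * t) := mul_nonneg hD (Real.exp_pos _).le
  have h3 : (|K| + D) * t ≤ (|K| * D + (|K| + D)) * t := by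
    apply mul_le_mul_of_nonneg_right _ ht
    linarith
  calc K * Real.exp (K * t) * (D * Real.exp (D * t))
      ≤ |K| * Real.exp (|K| * t) * (D * Real.exp (D * t)) := mul_le_mul_of_nonneg_right h1 h2
    _ = |K| * D * Real.exp ((|K| + D) * t) := by
        rw [add_mul, Real.exp_add]; ring
    _ ≤ (|K| * D + (|K| + D)) * Real.exp ((|K| * D + (|K| + D)) * t) := by
        apply mul_le_mul _ (Real.exp_le_exp.2 h3) (Real.exp_pos _).le (by linarith)
        linarith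

/-- order zero -/
private theorem C2_zero {ι E F : Type} [NormedAddCommGroup E] [NormedSpace ℝ E]
    [NormedAddCommGroup F] [NormedSpace ℝ F] {ℓ : ι → ℝ} {f : ι → E → F} {x : ι → E} {n : ℕ}
    (hf : EBn n ℓ f x) : ∃ C : ℝ, ∀ i, ‖f i (x i)‖ ≤ C * Real.exp (C * ℓ i) := by
  obtain ⟨C, hC⟩ := hf.bound 0 (Nat.zero_le _)
  refine ⟨C, fun i => ?_⟩
  have h := hC i
  rwa [norm_iteratedFDeriv_zero] at h

private theorem C2_base {κ E F : Type} [NormedAddCommGroup E] [NormedSpace ℝ E]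
    [NormedAddCommGroup F] [NormedSpace ℝ F] {ℓ : κ → ℝ} (hℓ : ∀ q, 0 ≤ ℓ q) {N : κ → ℕ}
    {x : κ → E} {A B C : κ → ℕ → E → F →L[ℝ] F} {n : ℕ}
    (hinv : ∃ K : ℝ, ∀ (q : κ) (v : ℕ → F) (M : ℝ), ‖v 0‖ ≤ M → ‖v (N q)‖ ≤ M →
      (∀ j, 1 ≤ j → j < N q →
        ‖A q j (x q) (v (j - 1)) + B q j (x q) (v j) + C q j (x q) (v (j + 1))‖ ≤ M) →
      ∀ j ≤ N q, ‖v j‖ ≤ K * Real.exp (K * ℓ q) * M)
    {u r : κ → ℕ → E → F}
    (heq : ∀ q j, 1 ≤ j → j < N q → ∀ y,
      A q j y (u q (j - 1) y) + B q j y (u q j y) + C q j y (u q (j + 1) y) = r q j y)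
    (hr : EBn n (fun q : In N => ℓ q.1.1) (fun q => r q.1.1 q.1.2) (fun q => x q.1.1))
    (h0 : EBn n ℓ (fun q => u q 0) x) (h1 : EBn n ℓ (fun q => u q (N q)) x) :
    ∃ C : ℝ, ∀ q : Le N, ‖u q.1.1 q.1.2 (x q.1.1)‖ ≤ C * Real.exp (C * ℓ q.1.1) := by
  obtain ⟨K, hK⟩ := hinv
  obtain ⟨Cr, hCr⟩ := C2_zero hr
  obtain ⟨C0, hC0⟩ := C2_zero h0
  obtain ⟨C1, hC1⟩ := C2_zero h1
  obtain ⟨D, hD⟩ : ∃ D : ℝ, D = |Cr| + |C0| + |C1| := ⟨_, rfl⟩
  have hD0 : 0 ≤ D := by rw [hD]; positivity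
  have hDr : Cr ≤ D := by
    rw [hD]; linarith [le_abs_self Cr, abs_nonneg C0, abs_nonneg C1]
  have hD0' : C0 ≤ D := by
    rw [hD]; linarith [le_abs_self C0, abs_nonneg Cr, abs_nonneg C1]
  have hD1 : C1 ≤ D := by
    rw [hD]; linarith [le_abs_self C1, abs_nonneg Cr, abs_nonneg C0]
  refine ⟨|K| * D + (|K| + D), ?_⟩
  rintro ⟨⟨q, j⟩, hj⟩
  have h := hK q (fun j => u q j (x q)) (D * Real.exp (D * ℓ q))
    ((hC0 q).trans (C2_mono hD0' hD0 (hℓ q))) ((hC1 q).trans (C2_mono hD1 hD0 (hℓ q)))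
    (fun j h1 h2 => by
      have h3 := hCr ⟨(q, j), h1, h2⟩
      have h4 := heq q j h1 h2 (x q)
      change ‖A q j (x q) (u q (j - 1) (x q)) + B q j (x q) (u q j (x q)) +
        C q j (x q) (u q (j + 1) (x q))‖ ≤ _
      rw [h4]
      exact h3.trans (C2_mono hDr hD0 (hℓ q))) j hj
  exact h.trans (C2_prod hD0 (hℓ q))

theorem LS {κ E F : Type} [NormedAddCommGroup E] [NormedSpace ℝ E] [FiniteDimensional ℝ E]
    [NormedAddCommGroup F] [NormedSpace ℝ F] {ℓ : κ → ℝ} (hℓ : ∀ q, 0 ≤ ℓ q) {N : κ → ℕ}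
    {x : κ → E} {A B C : κ → ℕ → E → F →L[ℝ] F} {n : ℕ}
    (hinv : ∃ K : ℝ, ∀ (q : κ) (v : ℕ → F) (M : ℝ), ‖v 0‖ ≤ M → ‖v (N q)‖ ≤ M →
      (∀ j, 1 ≤ j → j < N q →
        ‖A q j (x q) (v (j - 1)) + B q j (x q) (v j) + C q j (x q) (v (j + 1))‖ ≤ M) →
      ∀ j ≤ N q, ‖v j‖ ≤ K * Real.exp (K * ℓ q) * M)
    (hA : EBn n (fun q : In N => ℓ q.1.1) (fun q => A q.1.1 q.1.2) (fun q => x q.1.1))
    (hB : EBn n (fun q : In N => ℓ q.1.1) (fun q => B q.1.1 q.1.2) (fun q => x q.1.1))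
    (hC : EBn n (fun q : In N => ℓ q.1.1) (fun q => C q.1.1 q.1.2) (fun q => x q.1.1))
    {u r : κ → ℕ → E → F} (hu : ∀ q j, ContDiff ℝ ∞ (u q j))
    (heq : ∀ q j, 1 ≤ j → j < N q → ∀ y,
      A q j y (u q (j - 1) y) + B q j y (u q j y) + C q j y (u q (j + 1) y) = r q j y)
    (hr : EBn n (fun q : In N => ℓ q.1.1) (fun q => r q.1.1 q.1.2) (fun q => x q.1.1))
    (h0 : EBn n ℓ (fun q => u q 0) x) (h1 : EBn n ℓ (fun q => u q (N q)) x) :
    EBn n (fun q : Le N => ℓ q.1.1) (fun q => u q.1.1 q.1.2) (fun q => x q.1.1) := by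
  have hIn : ∀ q : In N, 0 ≤ ℓ q.1.1 := fun q => hℓ q.1.1
  have hLe : ∀ q : Le N, 0 ≤ ℓ q.1.1 := fun q => hℓ q.1.1
  induction n generalizing u r with
  | zero =>
    refine ⟨fun q => hu q.1.1 q.1.2, fun k hk => ?_⟩
    have hk0 : k = 0 := Nat.le_zero.mp hk
    subst hk0
    obtain ⟨C', hC'⟩ := C2_base hℓ hinv heq hr h0 h1
    refine ⟨C', fun i => ?_⟩
    rw [norm_iteratedFDeriv_zero]
    exact hC' i
  | succ n ih =>
    have hun : EBn n (fun q : Le N => ℓ q.1.1) (fun q => u q.1.1 q.1.2) (fun q => x q.1.1) :=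
      ih (EBn_mono (Nat.le_succ n) hA) (EBn_mono (Nat.le_succ n) hB)
        (EBn_mono (Nat.le_succ n) hC) hu heq (EBn_mono (Nat.le_succ n) hr)
        (EBn_mono (Nat.le_succ n) h0) (EBn_mono (Nat.le_succ n) h1)
    refine EBn_of_dir hLe (fun q => hu q.1.1 q.1.2) (C2_zero hun) (fun e => ?_)
    have hum : EBn n (fun q : In N => ℓ q.1.1) (fun q => u q.1.1 (q.1.2 - 1))
        (fun q => x q.1.1) :=
      EBn_pull hun (fun q : In N => (⟨(q.1.1, q.1.2 - 1), (Nat.sub_le _ _).trans q.2.2.le⟩ : Le N))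
    have hu0 : EBn n (fun q : In N => ℓ q.1.1) (fun q => u q.1.1 q.1.2)
        (fun q => x q.1.1) :=
      EBn_pull hun (fun q : In N => (⟨(q.1.1, q.1.2), q.2.2.le⟩ : Le N))
    have hup : EBn n (fun q : In N => ℓ q.1.1) (fun q => u q.1.1 (q.1.2 + 1))
        (fun q => x q.1.1) :=
      EBn_pull hun (fun q : In N => (⟨(q.1.1, q.1.2 + 1), q.2.2⟩ : Le N))
    have hr1 : EBn n (fun q : In N => ℓ q.1.1)
        (fun q y => fderiv ℝ (r q.1.1 q.1.2) y e -
          (fderiv ℝ (A q.1.1 q.1.2) y e (u q.1.1 (q.1.2 - 1) y) +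
            fderiv ℝ (B q.1.1 q.1.2) y e (u q.1.1 q.1.2 y) +
            fderiv ℝ (C q.1.1 q.1.2) y e (u q.1.1 (q.1.2 + 1) y))) (fun q => x q.1.1) :=
      EBn_sub hIn (EBn_fderiv_apply hIn hr e)
        (EBn_add hIn (EBn_add hIn
          (EBn_clm_apply hIn (EBn_fderiv_apply hIn hA e) hum)
          (EBn_clm_apply hIn (EBn_fderiv_apply hIn hB e) hu0))
          (EBn_clm_apply hIn (EBn_fderiv_apply hIn hC e) hup))
    refine ih (u := fun q j y => fderiv ℝ (u q j) y e)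
      (r := fun q j y => fderiv ℝ (r q j) y e -
          (fderiv ℝ (A q j) y e (u q (j - 1) y) + fderiv ℝ (B q j) y e (u q j y) +
            fderiv ℝ (C q j) y e (u q (j + 1) y)))
      (EBn_mono (Nat.le_succ n) hA) (EBn_mono (Nat.le_succ n) hB)
      (EBn_mono (Nat.le_succ n) hC) (fun q j => ?_) (fun q j h2 h3 y => ?_) hr1
      (EBn_fderiv_apply hℓ h0 e) (EBn_fderiv_apply hℓ h1 e)
    · exact ((hu q j).fderiv_right (m := ∞) (by simp)).clm_apply contDiff_const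
    · have hne : (∞ : WithTop ℕ∞) ≠ 0 := by simp
      have hAd : HasFDerivAt (A q j) (fderiv ℝ (A q j) y) y :=
        ((hA.smooth ⟨(q, j), h2, h3⟩).differentiable hne y).hasFDerivAt
      have hBd : HasFDerivAt (B q j) (fderiv ℝ (B q j) y) y :=
        ((hB.smooth ⟨(q, j), h2, h3⟩).differentiable hne y).hasFDerivAt
      have hCd : HasFDerivAt (C q j) (fderiv ℝ (C q j) y) y :=
        ((hC.smooth ⟨(q, j), h2, h3⟩).differentiable hne y).hasFDerivAt
      have hrd : HasFDerivAt (r q j) (fderiv ℝ (r q j) y) y :=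
        ((hr.smooth ⟨(q, j), h2, h3⟩).differentiable hne y).hasFDerivAt
      have hud : ∀ i, HasFDerivAt (u q i) (fderiv ℝ (u q i) y) y := fun i =>
        ((hu q i).differentiable hne y).hasFDerivAt
      have hsum := ((hAd.clm_apply (hud (j - 1))).add (hBd.clm_apply (hud j))).add
        (hCd.clm_apply (hud (j + 1)))
      have hfun : ((fun y => (A q j y) (u q (j - 1) y)) + (fun y => (B q j y) (u q j y)) +
          (fun y => (C q j y) (u q (j + 1) y))) = r q j := by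
        funext y
        exact heq q j h2 h3 y
      rw [hfun] at hsum
      have huniq := congrArg (fun L : E →L[ℝ] F => L e) (hsum.unique hrd)
      simp only [add_apply, ContinuousLinearMap.comp_apply,
        ContinuousLinearMap.flip_apply] at huniq
      change A q j y (fderiv ℝ (u q (j - 1)) y e) + B q j y (fderiv ℝ (u q j) y e) +
        C q j y (fderiv ℝ (u q (j + 1)) y e) = _
      rw [← huniq]
      abel

end BE
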