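import Pool.Agent.LibBE88.A5

/-! Row BE88 A6 (cites A3, A4, A5): the local families with finitely many deck transformations.
SHORT / MEDIUM, 35 min.
Plan. `S` finite, so the points `g • w`, `g ∈ S`, `w ∈ closure D`, `z ∈ closure D` all lie in one compact set
`K`; `EB0_JV` for `K` at `(p, z, g • w)`, composed with the finitely many smooth maps
`(p, z, w) ↦ (p, z, g • w)` (`EB_comp`, `EB_prod`, `EB_finite`/`EB_compact` for `g • ·`, `EB_clm`, `EB_id`).
`EB0_JEd`: the same for `g • JE m (s i) e` at `(p, z, v)`, `z ∈ closure D`, `‖v‖ ≤ R` (`EB0_JE` with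
`K = closure D ∪ closedBall 0 R`; its values lie in a compact set: bound of order `0` of `EB0_JE`). The index
of the second family is `Lx ι P (closure D ∪ closedBall 0 R) × S`. -/

open MeasureTheory Set Filter Topology
open scoped ContDiff

namespace BE

open BGS BR

variable {Γ : Type} [Group Γ] [MulAction Γ Pl] {D : Set Pl}
variable {ι P : Type} [NormedAddCommGroup P] [NormedSpace ℝ P] [FiniteDimensional ℝ P]
  {m : Pl → Co} {a b : ℝ} {s : ι → P × Pl → ℝ} {K : Set Pl}

/-- Pull back of a family along a map of the indices. -/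
private theorem A6_pull {κ κ' E F : Type} [NormedAddCommGroup E] [NormedSpace ℝ E]
    [NormedAddCommGroup F] [NormedSpace ℝ F] {f : κ → E → F} {x : κ → E} (h : EB0 f x)
    (φ : κ' → κ) : EB0 (fun q => f (φ q)) (fun q => x (φ q)) :=
  ⟨fun _ => h.smooth _, fun k => (h.bound k).imp fun _ hC _ => hC _⟩

theorem EB0_JVd (h : CF Γ D m a b s) {S : Set Γ} (hS : S.Finite) :
    EB0 (fun (q : Lx ι P (closure D) × S) (e : P × Pl × Pl) =>
      JV m (s q.1.i) (e.1, e.2.1, (q.2 : Γ) • e.2.2)) (fun q => q.1.b) := by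
  classical
  have hcD : IsCompact (closure D) := h.hX.bdd.isCompact_closure
  have : Finite S := hS
  have : Fintype S := Fintype.ofFinite S
  -- the compact set containing all the points
  let K' : Set Pl := closure D ∪ ⋃ g : S, (fun z : Pl => (g : Γ) • z) '' closure D
  have hK' : IsCompact K' :=
    hcD.union (isCompact_iUnion fun g => hcD.image (h.hX.smooth (g : Γ)).continuous)
  have h0 : ∀ i : Lx ι P (closure D) × S, (0 : ℝ) ≤ (fun _ => (0 : ℝ)) i := fun _ => le_rfl
  let φ : Lx ι P (closure D) × S → Lx ι P K' := fun q =>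
    { i := q.1.i, p := q.1.p, z := q.1.z, w := (q.2 : Γ) • q.1.w, hp := q.1.hp
      hz := Or.inl q.1.hz
      hw := Or.inr (mem_iUnion.2 ⟨q.2, q.1.w, q.1.hw, rfl⟩) }
  have h1 := A6_pull (EB0_JV h hK') φ
  obtain ⟨B, hB⟩ := hcD.isBounded.exists_norm_le
  have hid : EB0 (fun (_ : Lx ι P (closure D) × S) (e : P × Pl × Pl) => e) (fun q => q.1.b) := by
    refine EB_id h0 (C := max 1 B) fun q => ?_
    have h2 : ‖q.1.b‖ ≤ max 1 B := by
      refine max_le (q.1.hp.trans (le_max_left _ _)) (max_le ?_ ?_)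
      · exact (hB _ q.1.hz).trans (le_max_right _ _)
      · exact (hB _ q.1.hw).trans (le_max_right _ _)
    simpa using h2
  have hp : EB0 (fun (_ : Lx ι P (closure D) × S) (e : P × Pl × Pl) => e.1)
      (fun q => q.1.b) := EB_clm h0 hid (ContinuousLinearMap.fst ℝ P (Pl × Pl))
  have hz : EB0 (fun (_ : Lx ι P (closure D) × S) (e : P × Pl × Pl) => e.2.1)
      (fun q => q.1.b) := EB_clm h0 hid
        ((ContinuousLinearMap.fst ℝ Pl Pl).comp (ContinuousLinearMap.snd ℝ P (Pl × Pl)))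
  have hw : EB0 (fun (_ : Lx ι P (closure D) × S) (e : P × Pl × Pl) => e.2.2)
      (fun q => q.1.b) := EB_clm h0 hid
        ((ContinuousLinearMap.snd ℝ Pl Pl).comp (ContinuousLinearMap.snd ℝ P (Pl × Pl)))
  have hg : EB0 (fun (q : Lx ι P (closure D) × S) (w : Pl) => (q.2 : Γ) • w)
      (fun q => q.1.b.2.2) :=
    EB_finite h0 (J := S) (g := fun (g : S) (w : Pl) => (g : Γ) • w)
      (fun g => h.hX.smooth (g : Γ)) hcD (fun q => q.1.hw) (fun q => q.2)
  have hgw : EB0 (fun (q : Lx ι P (closure D) × S) (e : P × Pl × Pl) => (q.2 : Γ) • e.2.2)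
      (fun q => q.1.b) :=
    EB_comp h0 (g := fun (q : Lx ι P (closure D) × S) (w : Pl) => (q.2 : Γ) • w)
      (f := fun (_ : Lx ι P (closure D) × S) (e : P × Pl × Pl) => e.2.2) hg hw
  have hf : EB0 (fun (q : Lx ι P (closure D) × S) (e : P × Pl × Pl) =>
      (e.1, e.2.1, (q.2 : Γ) • e.2.2)) (fun q => q.1.b) :=
    EB_prod h0 hp (EB_prod h0 hz hgw)
  exact EB_comp h0 (g := fun (q : Lx ι P (closure D) × S) => JV m (s q.1.i))
    (f := fun (q : Lx ι P (closure D) × S) (e : P × Pl × Pl) =>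
      (e.1, e.2.1, (q.2 : Γ) • e.2.2)) h1 hf

theorem EB0_JEd (h : CF Γ D m a b s) (hK : IsCompact K) {S : Set Γ} (hS : S.Finite) :
    EB0 (fun (q : Lx ι P K × S) (e : P × Pl × Pl) => (q.2 : Γ) • JE m (s q.1.i) e)
      (fun q => q.1.b) := by
  classical
  have : Finite S := hS
  have h0 : ∀ i : Lx ι P K × S, (0 : ℝ) ≤ (fun _ => (0 : ℝ)) i := fun _ => le_rfl
  have hJ : EB0 (fun q : Lx ι P K => JE m (s q.i)) Lx.b := EB0_JE h hK
  obtain ⟨C, hC⟩ := hJ.bound 0
  have hval : ∀ q : Lx ι P K, JE m (s q.i) q.b ∈ Metric.closedBall (0 : Pl) C := by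
    intro q
    have h1 := hC q
    rw [norm_iteratedFDeriv_zero] at h1
    rw [mem_closedBall_zero_iff]
    simpa using h1
  have hJ' : EB0 (fun (q : Lx ι P K × S) => JE m (s q.1.i)) (fun q => q.1.b) :=
    A6_pull hJ (fun q : Lx ι P K × S => q.1)
  have hg : EB0 (fun (q : Lx ι P K × S) (w : Pl) => (q.2 : Γ) • w)
      (fun q => JE m (s q.1.i) q.1.b) :=
    EB_finite h0 (J := S) (g := fun (g : S) (w : Pl) => (g : Γ) • w)
      (fun g => h.hX.smooth (g : Γ)) (isCompact_closedBall (0 : Pl) C)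
      (fun q => hval q.1) (fun q => q.2)
  exact EB_comp h0 (g := fun (q : Lx ι P K × S) (w : Pl) => (q.2 : Γ) • w)
    (f := fun q => JE m (s q.1.i)) hg hJ'

end BE
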