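import Pool.Agent.LibBE88.G6

/-! Row BE88 V1 (cites G1, G6, A6): the inverse of the exponential map at all distances, and the API of
the class `Adm`. MEDIUM, 50 min.
Plan. `Adm_V`: by `w_step` with `j = 0` and `w_zero`: for `e = (p, x', y')`:
`JV (e.1, x', sp_0 • w_1 e) = (1 / N) • ve_0 e` and `ve_0 e = JV (e.1, x', g • y')`
(`Rg` of `1⁻¹` is the identity, `gfl 0` is the identity; or directly `Vx_along` with `σ = 0`, `t = 1 / N`), so
`JV (p, x', g • y') = N • JV (p, x', sp_0 • w_1 e)`. The family on the right is `EB0_JVd` (row A6, `sp_0` in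
the finite set of `sp_fin`) composed with `e ↦ (e.1, e.2.1, w_1 e)` (`EB_w` at `j = 1 ≤ N`, `EB_prod`, `EB_comp`;
the family is indexed by `Ix`, pull back `Le ..` by `q ↦ (q, 1)`), times the constant `N ≤ exp (ll)`
(`EB_const`, `EB_smul`, `d_N`). API: the closure properties of `Adm` are those of `EB` (unfold `Adm`).
`Adm_smooth`: put `g = 1` in the field `smooth`. `Adm_val`: the bound of order `0`. `Adm_const`: constants.
`Adm_d2`: `sg (JV ..) = (JV ..).1 ^ 2 + (JV ..).2 ^ 2` (`EB_mul`, `EB_clm` with the projections). -/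

open MeasureTheory Set Filter Topology
open scoped ContDiff

namespace BE

open BGS BR

variable {Γ : Type} [Group Γ] [MulAction Γ Pl] {D : Set Pl}
variable {ι P : Type} [NormedAddCommGroup P] [NormedSpace ℝ P] [FiniteDimensional ℝ P]
  {m : Pl → Co} {a b : ℝ} {s : ι → P × Pl → ℝ}
variable {F F' : Type} [NormedAddCommGroup F] [NormedSpace ℝ F] [NormedAddCommGroup F']
  [NormedSpace ℝ F']

omit [NormedSpace ℝ P] [FiniteDimensional ℝ P] in
private theorem V1_hl (q : Ix ι P Γ D) : 0 ≤ ll m s q := by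
  have h0 : 0 ≤ q.d m s := Real.sqrt_nonneg _
  exact Real.log_nonneg (by linarith)

omit [NormedSpace ℝ P] [FiniteDimensional ℝ P] in
private theorem V1_exp (q : Ix ι P Γ D) : Real.exp (ll m s q) = 2 + q.d m s := by
  have h0 : 0 ≤ q.d m s := Real.sqrt_nonneg _
  rw [ll, Real.exp_log (by linarith)]

private theorem V1_le {M t : ℝ} (hM : 0 ≤ M) (ht : 0 ≤ t) : M ≤ M * Real.exp (M * t) := by
  have h1 : 1 ≤ Real.exp (M * t) := Real.one_le_exp (mul_nonneg hM ht)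
  calc M = M * 1 := (mul_one M).symm
    _ ≤ M * Real.exp (M * t) := mul_le_mul_of_nonneg_left h1 hM

omit [FiniteDimensional ℝ P] in
private theorem V1_id (hX : Surface Γ D) :
    EB (fun q : Ix ι P Γ D => ll m s q) (fun _ e => e) Ix.b := by
  obtain ⟨R, hR⟩ := hX.bdd.closure.exists_norm_le
  have h0 : (0 : ℝ) ≤ max 1 R := le_max_of_le_left zero_le_one
  refine EB_id (fun q => V1_hl q) (C := max 1 R) fun q => ?_
  refine le_trans ?_ (V1_le h0 (V1_hl q))
  rw [Ix.b, Prod.norm_def, Prod.norm_def]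
  exact max_le_max q.hp (max_le (hR _ q.hx) (hR _ q.hy))

private theorem V1_eq (h : CF Γ D m a b s) (q : Ix ι P Γ D) (e : P × Pl × Pl) :
    JV m (s q.i) (e.1, e.2.1, q.g • e.2.2) =
      (q.N m s : ℝ) • JV m (s q.i) (e.1, e.2.1, q.sp h.hX m s 0 • q.w h.hX m s 1 e) := by
  have hN : (q.N m s : ℝ) ≠ 0 := by
    have := N_pos m s q
    positivity
  have h1 := (w_step h q 0 e).1
  rw [w_zero h q e, zero_add] at h1
  rw [h1, smul_smul, mul_one_div_cancel hN, one_smul]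
  have hm := hm_mm h q.i e.1
  have hz : q.z m s 0 e = e.2.1 := by
    unfold Ix.z JE
    rw [Nat.cast_zero, zero_div, zero_smul]
    exact Ex_zero h.hX hm _
  have hγ : q.γ h.hX m s 0 = 1 := by
    unfold Ix.γ
    rw [if_pos rfl]
  unfold Ix.ve
  rw [hγ, inv_one, hz, Nat.cast_zero, zero_div, (gfl_isFlow h.hX hm).zero]
  unfold Rg
  have h2 : (fun w : Pl => (1 : Γ) • w) = id := by
    funext w
    exact one_smul Γ w
  rw [h2, fderiv_id, one_smul]
  exact (ifr_fr (hm.pos _).1 (hm.pos _).2 _).symm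

theorem Adm_V (h : CF Γ D m a b s) : Adm Γ D m s (fun i => JV m (s i)) := by
  have hl : ∀ q : Ix ι P Γ D, 0 ≤ ll m s q := fun q => V1_hl q
  obtain ⟨S, hS, hSq⟩ := sp_fin h
  -- the outer family
  have h1 : EB (fun q : Ix ι P Γ D => ll m s q)
      (fun q (e : P × Pl × Pl) => JV m (s q.i) (e.1, e.2.1, q.sp h.hX m s 0 • e.2.2))
      (fun q => (q.p, q.x, q.w h.hX m s 1 q.b)) := by
    have h2 := EB_pull (fun _ => le_refl _) (EB0_JVd h hS)
      (fun q : Ix ι P Γ D => ((⟨q.i, q.p, q.x, q.w h.hX m s 1 q.b, q.hp, q.hx, w_mem h q 1⟩,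
        ⟨q.sp h.hX m s 0, (hSq q 0).1⟩) : Lx ι P (closure D) × S)) hl (A := 0)
      (fun q => by simp)
    exact h2
  -- the point `w_1`
  have h3 : EB (fun q : Ix ι P Γ D => ll m s q) (fun q => q.w h.hX m s 1) Ix.b := by
    have h4 := EB_pull (fun _ => V1_hl _) (EB_w h)
      (fun q : Ix ι P Γ D => (⟨(q, 1), N_pos m s q⟩ : Le (fun q : Ix ι P Γ D => q.N m s))) hl
      (A := 1) (fun q => by linarith)
    exact h4
  have h5 : EB (fun q : Ix ι P Γ D => ll m s q)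
      (fun q (e : P × Pl × Pl) => (e.1, e.2.1, q.w h.hX m s 1 e)) Ix.b :=
    EB_prod hl (EB_clm hl (V1_id h.hX) (ContinuousLinearMap.fst ℝ P (Pl × Pl)))
      (EB_prod hl (EB_clm hl (V1_id h.hX) ((ContinuousLinearMap.fst ℝ Pl Pl).comp
        (ContinuousLinearMap.snd ℝ P (Pl × Pl)))) h3)
  have h6 := EB_comp (g := fun (q : Ix ι P Γ D) (e : P × Pl × Pl) =>
      JV m (s q.i) (e.1, e.2.1, q.sp h.hX m s 0 • e.2.2))
    (f := fun (q : Ix ι P Γ D) (e : P × Pl × Pl) => (e.1, e.2.1, q.w h.hX m s 1 e))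
    (x := Ix.b) hl h1 h5
  have h7 : EB (fun q : Ix ι P Γ D => ll m s q)
      (fun (q : Ix ι P Γ D) (_ : P × Pl × Pl) => (q.N m s : ℝ)) Ix.b := by
    refine EB_const hl (C := 1) fun q => ?_
    rw [one_mul, one_mul, V1_exp, Real.norm_eq_abs, abs_of_nonneg (Nat.cast_nonneg _)]
    exact (d_N h q).2.2.2
  have h8 := EB_smul hl h7 h6
  have h9 : (fun (q : Ix ι P Γ D) (e : P × Pl × Pl) => JV m (s q.i) (e.1, e.2.1, q.g • e.2.2)) =
      fun (q : Ix ι P Γ D) (e : P × Pl × Pl) => (q.N m s : ℝ) •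
        JV m (s q.i) (e.1, e.2.1, q.sp h.hX m s 0 • q.w h.hX m s 1 e) := by
    funext q e
    exact V1_eq h q e
  unfold Adm
  rw [h9]
  exact h8

omit [FiniteDimensional ℝ P] in
theorem Adm_smooth (hX : Surface Γ D) (hne : D.Nonempty) {Q : ι → P × Pl × Pl → F}
    (hQ : Adm Γ D m s Q) (i : ι) : ContDiff ℝ ∞ (Q i) := by
  have _ := hX
  obtain ⟨x, hx⟩ := hne
  have h1 := hQ.smooth (⟨i, 0, x, x, 1, by simp, subset_closure hx, subset_closure hx⟩ :
    Ix ι P Γ D)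
  have h2 : (fun e : P × Pl × Pl => Q i (e.1, e.2.1, (1 : Γ) • e.2.2)) = Q i := by
    funext e
    rw [one_smul]
  exact h2 ▸ h1

omit [FiniteDimensional ℝ P] in
theorem Adm_add {Q R : ι → P × Pl × Pl → F} (hQ : Adm Γ D m s Q) (hR : Adm Γ D m s R) :
    Adm Γ D m s (fun i e => Q i e + R i e) :=
  EB_add (fun q => V1_hl q) hQ hR

omit [FiniteDimensional ℝ P] in
theorem Adm_sub {Q R : ι → P × Pl × Pl → F} (hQ : Adm Γ D m s Q) (hR : Adm Γ D m s R) :
    Adm Γ D m s (fun i e => Q i e - R i e) :=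
  EB_sub (fun q => V1_hl q) hQ hR

omit [FiniteDimensional ℝ P] in
theorem Adm_mul {Q R : ι → P × Pl × Pl → ℝ} (hQ : Adm Γ D m s Q) (hR : Adm Γ D m s R) :
    Adm Γ D m s (fun i e => Q i e * R i e) :=
  EB_mul (fun q => V1_hl q) hQ hR

omit [FiniteDimensional ℝ P] in
theorem Adm_clm {Q : ι → P × Pl × Pl → F} (hQ : Adm Γ D m s Q) (L : F →L[ℝ] F') :
    Adm Γ D m s (fun i e => L (Q i e)) :=
  EB_clm (fun q => V1_hl q) hQ L

omit [FiniteDimensional ℝ P] in
theorem Adm_const (c : F) : Adm Γ D m s (fun (_ : ι) (_ : P × Pl × Pl) => c) :=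
  EB_const (fun q => V1_hl q) (C := ‖c‖)
    fun q => V1_le (norm_nonneg c) (V1_hl q)

omit [FiniteDimensional ℝ P] in
theorem Adm_val {Q : ι → P × Pl × Pl → F} (hQ : Adm Γ D m s Q) :
    ∃ C : ℝ, ∀ q : Ix ι P Γ D, ‖Q q.i (q.p, q.x, q.g • q.y)‖ ≤ C * Real.exp (C * ll m s q) := by
  obtain ⟨C, hC⟩ := hQ.bound 0
  refine ⟨C, fun q => ?_⟩
  have h1 := hC q
  rw [norm_iteratedFDeriv_zero] at h1
  exact h1

theorem Adm_d2 (h : CF Γ D m a b s) : Adm Γ D m s (fun i e => sg (JV m (s i) e)) := by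
  have h1 := Adm_clm (Adm_V h) (ContinuousLinearMap.fst ℝ ℝ ℝ)
  have h2 := Adm_clm (Adm_V h) (ContinuousLinearMap.snd ℝ ℝ ℝ)
  have h3 := Adm_add (Adm_mul h1 h1) (Adm_mul h2 h2)
  have h4 : (fun (i : ι) (e : P × Pl × Pl) => sg (JV m (s i) e)) =
      fun i e => ContinuousLinearMap.fst ℝ ℝ ℝ (JV m (s i) e) *
        ContinuousLinearMap.fst ℝ ℝ ℝ (JV m (s i) e) +
        ContinuousLinearMap.snd ℝ ℝ ℝ (JV m (s i) e) *
        ContinuousLinearMap.snd ℝ ℝ ℝ (JV m (s i) e) := by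
    funext i e
    simp only [sg, ContinuousLinearMap.coe_fst', ContinuousLinearMap.coe_snd']
    ring
  rw [h4]
  exact h3

end BE
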