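import Pool.Agent.LibBE88.V1

/-! Row BE88 V2 (cites G1, G6, A3, A6): points of the geodesic at any ratio `r ∈ [0, 1]`. STRONG, 60 min.
`gp m s r (p, x, y) = Ex x (r • Vx x y)`.
Plan. Let `q : Ix`, `r ∈ [0, 1]`, `N = q.N m s`, `j = ⌊r N⌋` if `r < 1`, `j = N - 1` if `r = 1`; so `j < N`,
`τ = r N - j ∈ [0, 1]`. For all `e`: `gp r (e.1, e.2.1, g • e.2.2) = Ex (z_j e) (τ • Vx (z_j e) (z_{j+1} e))`
(`Ex_add`, `Vx_along`: `Vx z_j z_{j+1} = (1 / N) • velocity at z_j`, and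
`Ex x ((j / N + τ / N) • V) = Ex z_j ((τ / N) • velocity)`). Moving by `γ_j⁻¹` (`Ex_deck`, `Vx_deck`):
`gp = γ_j • JE (e.1, w_j e, τ • JV (e.1, w_j e, sp_j • w_{j+1} e))`. Let `η = shf hX (gp at the base point)`;
then `η⁻¹ γ_j` lies in a finite set: at the base point `η⁻¹ • gp ∈ closure D` and
`ds (w_j) ((η⁻¹ γ_j)⁻¹ • (η⁻¹ • gp)) = ds (w_j) (γ_j⁻¹ • gp) = τ d / N ≤ 1` (`far_fin` with `R = 1`; the
inverses of a finite set are a finite set). So the family is `EB0_JEd` (row A6, the vector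
`τ • JV ..` is bounded, `JV_bdd`) composed with `e ↦ (e.1, w_j e, τ • JV (e.1, w_j e, sp_j • w_{j+1} e))`, which is
of class `EB` by `EB_w`, `EB0_JVd`, `EB_comp`, `EB_smul`, `EB_prod` (`0 ≤ τ ≤ 1` constant). `gp_mem`: `shf_mem'`.
`gp_ds`: `Vx x (Ex x (r • V)) = r • V` (`Vx_Ex`), `eu (r • V) = r eu V`.
`Adm_gp`: `Q i (p, x, gp) = Q i (p, x, η • (η⁻¹ • gp))`: the family `Q` at the index
`q' = (i, p, x, η⁻¹ • gp, η) : Ix` (with `ll q' ≤ ll q` by `gp_ds`; use `EB_pull` of `LibBR73/AN5a.lean` for the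
change of the scale) composed with `e ↦ (e.1, e.2.1, η⁻¹ • gp e)` (`EB_comp`). -/

open MeasureTheory Set Filter Topology
open scoped ContDiff

namespace BE

open BGS BR

variable {Γ : Type} [Group Γ] [MulAction Γ Pl] {D : Set Pl}
variable {ι P : Type} [NormedAddCommGroup P] [NormedSpace ℝ P] [FiniteDimensional ℝ P]
  {m : Pl → Co} {a b : ℝ} {s : ι → P × Pl → ℝ}
variable {F : Type} [NormedAddCommGroup F] [NormedSpace ℝ F]

/-- The element of the group at the point of ratio `r`. -/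
noncomputable def gη (hX : Surface Γ D) (m : Pl → Co) (s : ι → P × Pl → ℝ)
    (q : Ix ι P Γ D × Icc (0 : ℝ) 1) : Γ :=
  shf hX (gp m (s q.1.i) q.2 (q.1.p, q.1.x, q.1.g • q.1.y))

section aux

/-- The number of the step. -/
noncomputable def V2_j (m : Pl → Co) (s : ι → P × Pl → ℝ) (q : Ix ι P Γ D × Icc (0 : ℝ) 1) : ℕ :=
  min ⌊(q.2 : ℝ) * q.1.N m s⌋₊ (q.1.N m s - 1)

/-- The ratio inside the step. -/
noncomputable def V2_t (m : Pl → Co) (s : ι → P × Pl → ℝ) (q : Ix ι P Γ D × Icc (0 : ℝ) 1) : ℝ :=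
  (q.2 : ℝ) * q.1.N m s - V2_j m s q

theorem V2_lt (m : Pl → Co) (s : ι → P × Pl → ℝ) (q : Ix ι P Γ D × Icc (0 : ℝ) 1) :
    V2_j m s q + 1 ≤ q.1.N m s := by
  have h1 : 1 ≤ q.1.N m s := N_pos m s q.1
  have h2 : V2_j m s q ≤ q.1.N m s - 1 := min_le_right _ _
  omega

theorem V2_t_mem (m : Pl → Co) (s : ι → P × Pl → ℝ) (q : Ix ι P Γ D × Icc (0 : ℝ) 1) :
    0 ≤ V2_t m s q ∧ V2_t m s q ≤ 1 := by
  have hN : 1 ≤ q.1.N m s := N_pos m s q.1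
  have hr0 : 0 ≤ (q.2 : ℝ) := q.2.2.1
  have hr1 : (q.2 : ℝ) ≤ 1 := q.2.2.2
  have h0 : 0 ≤ (q.2 : ℝ) * q.1.N m s := mul_nonneg hr0 (Nat.cast_nonneg _)
  have h1 : (q.2 : ℝ) * q.1.N m s ≤ q.1.N m s := mul_le_of_le_one_left (Nat.cast_nonneg _) hr1
  have h2 : (⌊(q.2 : ℝ) * q.1.N m s⌋₊ : ℝ) ≤ (q.2 : ℝ) * q.1.N m s := Nat.floor_le h0
  have h3 : (q.2 : ℝ) * q.1.N m s < ⌊(q.2 : ℝ) * q.1.N m s⌋₊ + 1 := Nat.lt_floor_add_one _
  have h4 : ((q.1.N m s - 1 : ℕ) : ℝ) = (q.1.N m s : ℝ) - 1 := by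
    rw [Nat.cast_sub hN, Nat.cast_one]
  unfold V2_t V2_j
  rw [Nat.cast_min, h4]
  constructor
  · have h5 := min_le_left (⌊(q.2 : ℝ) * q.1.N m s⌋₊ : ℝ) ((q.1.N m s : ℝ) - 1)
    linarith
  · rcases min_choice (⌊(q.2 : ℝ) * q.1.N m s⌋₊ : ℝ) ((q.1.N m s : ℝ) - 1) with h5 | h5
    · rw [h5]
      linarith
    · rw [h5]
      linarith

theorem V2_r (m : Pl → Co) (s : ι → P × Pl → ℝ) (q : Ix ι P Γ D × Icc (0 : ℝ) 1) :
    (q.2 : ℝ) = (V2_j m s q : ℝ) / q.1.N m s + V2_t m s q / q.1.N m s := by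
  have hN : 1 ≤ q.1.N m s := N_pos m s q.1
  have hN' : (q.1.N m s : ℝ) ≠ 0 := by
    have : (0 : ℝ) < q.1.N m s := by exact_mod_cast hN
    exact this.ne'
  rw [← add_div, V2_t, add_sub_cancel, mul_div_assoc, div_self hN', mul_one]

/-- The vector of the step. -/
noncomputable def V2_v (hX : Surface Γ D) (m : Pl → Co) (s : ι → P × Pl → ℝ)
    (q : Ix ι P Γ D × Icc (0 : ℝ) 1) (e : P × Pl × Pl) : Pl :=
  JV m (s q.1.i) (e.1, q.1.w hX m s (V2_j m s q) e,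
    q.1.sp hX m s (V2_j m s q) • q.1.w hX m s (V2_j m s q + 1) e)

theorem V2_key (h : CF Γ D m a b s) (q : Ix ι P Γ D × Icc (0 : ℝ) 1) (e : P × Pl × Pl) :
    (q.1.γ h.hX m s (V2_j m s q))⁻¹ • gp m (s q.1.i) q.2 (e.1, e.2.1, q.1.g • e.2.2) =
      JE m (s q.1.i) (e.1, q.1.w h.hX m s (V2_j m s q) e,
        V2_t m s q • V2_v h.hX m s q e) := by
  have hm := hm_mm h q.1.i e.1
  have hN : 1 ≤ q.1.N m s := N_pos m s q.1
  have h1 : gp m (s q.1.i) q.2 (e.1, e.2.1, q.1.g • e.2.2) =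
      Ex (mm m (s q.1.i) e.1) e.2.1
        (((V2_j m s q : ℝ) / q.1.N m s + V2_t m s q / q.1.N m s) •
          JV m (s q.1.i) (e.1, e.2.1, q.1.g • e.2.2)) := by
    rw [← V2_r]
    rfl
  rw [h1, Ex_add h.hX hm, ← Ex_deck h.hX h.hO hm, Rg_smul h.hX hm]
  have h2 := (w_step h q.1 (V2_j m s q) e).1
  unfold V2_v
  rw [h2]
  unfold JE Ix.w Ix.ve Ix.z JE
  rw [smul_smul]
  congr 2
  rw [mul_one_div]

theorem V2_v_eu (h : CF Γ D m a b s) (q : Ix ι P Γ D × Icc (0 : ℝ) 1) :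
    eu (V2_v h.hX m s q q.1.b) ≤ 1 := by
  have h2 := (w_step h q.1 (V2_j m s q) q.1.b).1
  unfold V2_v
  rw [h2, AN0_eu_smul, ve_eu h]
  have h3 := d_N h q.1
  have hN : (0 : ℝ) < q.1.N m s := by exact_mod_cast N_pos m s q.1
  rw [abs_of_nonneg (by positivity), one_div, inv_mul_eq_div]
  exact h3.2.1

/-- The element of the group between the two shifts. -/
noncomputable def V2_T (hX : Surface Γ D) (m : Pl → Co) (s : ι → P × Pl → ℝ)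
    (q : Ix ι P Γ D × Icc (0 : ℝ) 1) : Γ :=
  (gη hX m s q)⁻¹ * q.1.γ hX m s (V2_j m s q)

theorem V2_eq (h : CF Γ D m a b s) (q : Ix ι P Γ D × Icc (0 : ℝ) 1) (e : P × Pl × Pl) :
    (gη h.hX m s q)⁻¹ • gp m (s q.1.i) q.2 (e.1, e.2.1, q.1.g • e.2.2) =
      V2_T h.hX m s q • JE m (s q.1.i) (e.1, q.1.w h.hX m s (V2_j m s q) e,
        V2_t m s q • V2_v h.hX m s q e) := by
  rw [← V2_key h q e, V2_T, smul_smul, mul_assoc, mul_inv_cancel, mul_one]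

theorem V2_gp_mem (h : CF Γ D m a b s) (q : Ix ι P Γ D × Icc (0 : ℝ) 1) :
    (gη h.hX m s q)⁻¹ • gp m (s q.1.i) q.2 (q.1.b.1, q.1.b.2.1, q.1.g • q.1.b.2.2) ∈ closure D :=
  shf_mem' h.hX _

theorem V2_T_fin (h : CF Γ D m a b s) : ∃ S : Set Γ, S.Finite ∧
    ∀ q : Ix ι P Γ D × Icc (0 : ℝ) 1, V2_T h.hX m s q ∈ S := by
  obtain ⟨S, hS, hmem⟩ := far_fin h 1
  refine ⟨(fun g => g⁻¹) '' S, hS.image _, fun q => ⟨(V2_T h.hX m s q)⁻¹, ?_, inv_inv _⟩⟩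
  refine hmem q.1.i q.1.p q.1.hp (q.1.w h.hX m s (V2_j m s q) q.1.b) (w_mem h q.1 _)
    ((gη h.hX m s q)⁻¹ • gp m (s q.1.i) q.2 (q.1.b.1, q.1.b.2.1, q.1.g • q.1.b.2.2))
    (V2_gp_mem h q) _ ?_
  have h1 : (V2_T h.hX m s q)⁻¹ • ((gη h.hX m s q)⁻¹ •
      gp m (s q.1.i) q.2 (q.1.b.1, q.1.b.2.1, q.1.g • q.1.b.2.2)) =
      JE m (s q.1.i) (q.1.b.1, q.1.w h.hX m s (V2_j m s q) q.1.b,
        V2_t m s q • V2_v h.hX m s q q.1.b) := by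
    rw [V2_eq h, inv_smul_smul]
  rw [h1]
  have hm := hm_mm h q.1.i q.1.p
  have h2 : ds (mm m (s q.1.i) q.1.p) (q.1.w h.hX m s (V2_j m s q) q.1.b)
      (JE m (s q.1.i) (q.1.b.1, q.1.w h.hX m s (V2_j m s q) q.1.b,
        V2_t m s q • V2_v h.hX m s q q.1.b)) = eu (V2_t m s q • V2_v h.hX m s q q.1.b) := by
    unfold ds JE
    exact congrArg eu (Vx_Ex h.hX hm _ _)
  rw [h2, AN0_eu_smul, abs_of_nonneg (V2_t_mem m s q).1]
  have h3 := V2_v_eu h q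
  have h4 := V2_t_mem m s q
  have h5 : 0 ≤ eu (V2_v h.hX m s q q.1.b) := Real.sqrt_nonneg _
  nlinarith

end aux

theorem gp_ds (h : CF Γ D m a b s) (i : ι) (p : P) (x y : Pl) {r : ℝ} (hr : 0 ≤ r) :
    ds (mm m (s i) p) x (gp m (s i) r (p, x, y)) = r * ds (mm m (s i) p) x y := by
  have hm := hm_mm h i p
  have h2 : ds (mm m (s i) p) x (gp m (s i) r (p, x, y)) =
      eu (r • Vx (mm m (s i) p) x y) := by
    unfold ds gp JE JV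
    exact congrArg eu (Vx_Ex h.hX hm _ _)
  rw [h2, AN0_eu_smul, abs_of_nonneg hr]
  rfl

theorem gp_smooth (h : CF Γ D m a b s) (i : ι) :
    ContDiff ℝ ∞ (fun q : ℝ × P × Pl × Pl => gp m (s i) q.1 q.2) := by
  have h1 := JE_smooth h i
  have h2 := JV_smooth h i
  have h3 : ContDiff ℝ ∞ (fun q : ℝ × P × Pl × Pl =>
      ((q.2.1, q.2.2.1, q.1 • JV m (s i) q.2) : P × Pl × Pl)) :=
    contDiff_snd.fst.prodMk (contDiff_snd.snd.fst.prodMk (contDiff_fst.smul (h2.comp contDiff_snd)))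
  exact h1.comp h3

theorem V2_id (h : CF Γ D m a b s) :
    EB (fun q : Ix ι P Γ D × Icc (0 : ℝ) 1 => ll m s q.1)
      (fun _ (e : P × Pl × Pl) => e) (fun q => q.1.b) := by
  obtain ⟨C, hC⟩ := h.hX.bdd.closure.exists_norm_le
  refine EB_id (fun q => ll_nonneg m s q.1) (C := max 1 C) fun q => ?_
  have h1 : ‖q.1.b‖ ≤ max 1 C := by
    refine norm_prod_le_iff.2 ⟨q.1.hp.trans (le_max_left _ _), norm_prod_le_iff.2
      ⟨(hC _ q.1.hx).trans (le_max_right _ _), (hC _ q.1.hy).trans (le_max_right _ _)⟩⟩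
  have h2 : (0 : ℝ) ≤ max 1 C := zero_le_one.trans (le_max_left _ _)
  have h3 : 1 ≤ Real.exp (max 1 C * ll m s q.1) :=
    Real.one_le_exp (mul_nonneg h2 (ll_nonneg m s q.1))
  calc ‖q.1.b‖ ≤ max 1 C * 1 := by rw [mul_one]; exact h1
    _ ≤ _ := mul_le_mul_of_nonneg_left h3 h2

/-- The points of the chain. -/
theorem V2_EBw (h : CF Γ D m a b s) (j : Ix ι P Γ D × Icc (0 : ℝ) 1 → ℕ)
    (hj : ∀ q, j q ≤ q.1.N m s) :
    EB (fun q : Ix ι P Γ D × Icc (0 : ℝ) 1 => ll m s q.1)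
      (fun q e => q.1.w h.hX m s (j q) e) (fun q => q.1.b) :=
  EB_pull (ι := Le (fun q : Ix ι P Γ D => q.N m s)) (ℓ := fun q => ll m s q.1.1)
    (x := fun q => q.1.1.b) (f := fun q => q.1.1.w h.hX m s q.1.2)
    (fun q => ll_nonneg m s q.1.1) (EB_w h)
    (fun q : Ix ι P Γ D × Icc (0 : ℝ) 1 =>
      (⟨(q.1, j q), hj q⟩ : {q : Ix ι P Γ D × ℕ // q.2 ≤ q.1.N m s}))
    (fun q => ll_nonneg m s q.1) (A := 1) fun q => by
      change ll m s q.1 ≤ 1 * (1 + ll m s q.1)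
      linarith

theorem V2_EBv (h : CF Γ D m a b s) :
    EB (fun q : Ix ι P Γ D × Icc (0 : ℝ) 1 => ll m s q.1)
      (fun q e => V2_v h.hX m s q e) (fun q => q.1.b) := by
  obtain ⟨S, hS, hmem⟩ := sp_fin h
  have hℓ : ∀ q : Ix ι P Γ D × Icc (0 : ℝ) 1, 0 ≤ ll m s q.1 := fun q => ll_nonneg m s q.1
  have h1 : EB (fun q : Ix ι P Γ D × Icc (0 : ℝ) 1 => ll m s q.1)
      (fun q (e : P × Pl × Pl) => JV m (s q.1.i) (e.1, e.2.1,
        q.1.sp h.hX m s (V2_j m s q) • e.2.2))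
      (fun q => ((q.1.b.1, q.1.w h.hX m s (V2_j m s q) q.1.b,
        q.1.w h.hX m s (V2_j m s q + 1) q.1.b) : P × Pl × Pl)) :=
    EB_pull (fun _ => le_rfl) (EB0_JVd h hS)
    (fun q : Ix ι P Γ D × Icc (0 : ℝ) 1 =>
      ((⟨q.1.i, q.1.p, q.1.w h.hX m s (V2_j m s q) q.1.b,
        q.1.w h.hX m s (V2_j m s q + 1) q.1.b, q.1.hp, w_mem h q.1 _, w_mem h q.1 _⟩,
        ⟨q.1.sp h.hX m s (V2_j m s q), (hmem q.1 _).1⟩) : Lx ι P (closure D) × S))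
    hℓ (A := 0) (fun q => by rw [zero_mul])
  have h2 : EB (fun q : Ix ι P Γ D × Icc (0 : ℝ) 1 => ll m s q.1)
      (fun q (e : P × Pl × Pl) => ((e.1, q.1.w h.hX m s (V2_j m s q) e,
        q.1.w h.hX m s (V2_j m s q + 1) e) : P × Pl × Pl)) (fun q => q.1.b) :=
    EB_prod hℓ (EB_clm hℓ (V2_id h) (ContinuousLinearMap.fst ℝ P (Pl × Pl)))
      (EB_prod hℓ (V2_EBw h (V2_j m s) fun q => (Nat.le_succ _).trans (V2_lt m s q))
        (V2_EBw h (fun q => V2_j m s q + 1) fun q => V2_lt m s q))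
  exact EB_comp (x := fun q : Ix ι P Γ D × Icc (0 : ℝ) 1 => q.1.b)
    (f := fun q (e : P × Pl × Pl) => ((e.1, q.1.w h.hX m s (V2_j m s q) e,
        q.1.w h.hX m s (V2_j m s q + 1) e) : P × Pl × Pl)) hℓ h1 h2

theorem EB_gp (h : CF Γ D m a b s) :
    EB (fun q : Ix ι P Γ D × Icc (0 : ℝ) 1 => ll m s q.1)
      (fun q e => (gη h.hX m s q)⁻¹ • gp m (s q.1.i) q.2 (e.1, e.2.1, q.1.g • e.2.2))
      (fun q => q.1.b) := by
  have hℓ : ∀ q : Ix ι P Γ D × Icc (0 : ℝ) 1, 0 ≤ ll m s q.1 := fun q => ll_nonneg m s q.1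
  obtain ⟨S, hS, hmem⟩ := V2_T_fin h
  have hv := V2_EBv h
  -- the vectors are bounded
  have hvb : ∃ C : ℝ, 0 ≤ C ∧ ∀ q : Ix ι P Γ D × Icc (0 : ℝ) 1,
      ‖V2_t m s q • V2_v h.hX m s q q.1.b‖ ≤ C := by
    refine ⟨1, zero_le_one, fun q => ?_⟩
    rw [norm_smul, Real.norm_of_nonneg (V2_t_mem m s q).1]
    have h3 := V2_v_eu h q
    have h4 := V2_t_mem m s q
    have h5 : ‖V2_v h.hX m s q q.1.b‖ ≤ eu (V2_v h.hX m s q q.1.b) := by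
      exact H1e_norm _
    have h6 := norm_nonneg (V2_v h.hX m s q q.1.b)
    nlinarith
  obtain ⟨C, hC0, hC⟩ := hvb
  have hK : IsCompact (closure D ∪ Metric.closedBall (0 : Pl) C) :=
    (h.hX.bdd.isCompact_closure).union (isCompact_closedBall 0 C)
  have h1 : EB (fun q : Ix ι P Γ D × Icc (0 : ℝ) 1 => ll m s q.1)
      (fun q (e : P × Pl × Pl) => V2_T h.hX m s q • JE m (s q.1.i) e)
      (fun q => ((q.1.b.1, q.1.w h.hX m s (V2_j m s q) q.1.b,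
        V2_t m s q • V2_v h.hX m s q q.1.b) : P × Pl × Pl)) :=
    EB_pull (fun _ => le_rfl) (EB0_JEd h hK hS)
    (fun q : Ix ι P Γ D × Icc (0 : ℝ) 1 =>
      ((⟨q.1.i, q.1.p, q.1.w h.hX m s (V2_j m s q) q.1.b,
        V2_t m s q • V2_v h.hX m s q q.1.b, q.1.hp, Or.inl (w_mem h q.1 _),
        Or.inr (mem_closedBall_zero_iff.2 (hC q))⟩,
        ⟨V2_T h.hX m s q, hmem q⟩) : Lx ι P (closure D ∪ Metric.closedBall (0 : Pl) C) × S))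
    hℓ (A := 0) (fun q => by rw [zero_mul])
  have h2 : EB (fun q : Ix ι P Γ D × Icc (0 : ℝ) 1 => ll m s q.1)
      (fun q (e : P × Pl × Pl) => ((e.1, q.1.w h.hX m s (V2_j m s q) e,
        V2_t m s q • V2_v h.hX m s q e) : P × Pl × Pl)) (fun q => q.1.b) := by
    refine EB_prod hℓ (EB_clm hℓ (V2_id h) (ContinuousLinearMap.fst ℝ P (Pl × Pl)))
      (EB_prod hℓ (V2_EBw h (V2_j m s) fun q => (Nat.le_succ _).trans (V2_lt m s q))
        (EB_smul hℓ (EB_const hℓ (C := 1) fun q => ?_) hv))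
    rw [Real.norm_of_nonneg (V2_t_mem m s q).1, one_mul, one_mul]
    exact (V2_t_mem m s q).2.trans (Real.one_le_exp (hℓ q))
  have h3 := EB_comp (x := fun q : Ix ι P Γ D × Icc (0 : ℝ) 1 => q.1.b)
    (f := fun q (e : P × Pl × Pl) => ((e.1, q.1.w h.hX m s (V2_j m s q) e,
        V2_t m s q • V2_v h.hX m s q e) : P × Pl × Pl)) hℓ h1 h2
  have h4 : (fun (q : Ix ι P Γ D × Icc (0 : ℝ) 1) (e : P × Pl × Pl) =>
      (gη h.hX m s q)⁻¹ • gp m (s q.1.i) q.2 (e.1, e.2.1, q.1.g • e.2.2)) =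
      fun q e => V2_T h.hX m s q • JE m (s q.1.i) (e.1, q.1.w h.hX m s (V2_j m s q) e,
        V2_t m s q • V2_v h.hX m s q e) := by
    funext q e
    exact V2_eq h q e
  rw [h4]
  exact h3

theorem Adm_gp (h : CF Γ D m a b s) {Q : ι → P × Pl × Pl → F} (hQ : Adm Γ D m s Q) :
    EB (fun q : Ix ι P Γ D × Icc (0 : ℝ) 1 => ll m s q.1)
      (fun q e => Q q.1.i (e.1, e.2.1, gp m (s q.1.i) q.2 (e.1, e.2.1, q.1.g • e.2.2)))
      (fun q => q.1.b) := by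
  have hℓ : ∀ q : Ix ι P Γ D × Icc (0 : ℝ) 1, 0 ≤ ll m s q.1 := fun q => ll_nonneg m s q.1
  have h1 : EB (fun q : Ix ι P Γ D × Icc (0 : ℝ) 1 => ll m s q.1)
      (fun q (e : P × Pl × Pl) => Q q.1.i (e.1, e.2.1, gη h.hX m s q • e.2.2))
      (fun q => ((q.1.b.1, q.1.b.2.1,
        (gη h.hX m s q)⁻¹ • gp m (s q.1.i) q.2 (q.1.b.1, q.1.b.2.1, q.1.g • q.1.b.2.2)) :
          P × Pl × Pl)) :=
    EB_pull (fun q => ll_nonneg m s q) hQ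
    (fun q : Ix ι P Γ D × Icc (0 : ℝ) 1 =>
      (⟨q.1.i, q.1.p, q.1.x,
        (gη h.hX m s q)⁻¹ • gp m (s q.1.i) q.2 (q.1.b.1, q.1.b.2.1, q.1.g • q.1.b.2.2),
        gη h.hX m s q, q.1.hp, q.1.hx, V2_gp_mem h q⟩ : Ix ι P Γ D))
    hℓ (A := 1) (fun q => by
      have h2 : Ix.d m s (⟨q.1.i, q.1.p, q.1.x,
          (gη h.hX m s q)⁻¹ • gp m (s q.1.i) q.2 (q.1.b.1, q.1.b.2.1, q.1.g • q.1.b.2.2),
          gη h.hX m s q, q.1.hp, q.1.hx, V2_gp_mem h q⟩ : Ix ι P Γ D) = q.2 * q.1.d m s := by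
        unfold Ix.d
        dsimp only
        rw [smul_inv_smul]
        exact gp_ds h q.1.i q.1.p q.1.x (q.1.g • q.1.y) q.2.2.1
      have h3 := (d_N h q.1).1
      have h4 : (q.2 : ℝ) * q.1.d m s ≤ q.1.d m s := mul_le_of_le_one_left h3 q.2.2.2
      have h5 : 0 ≤ (q.2 : ℝ) * q.1.d m s := mul_nonneg q.2.2.1 h3
      unfold ll
      rw [h2, one_mul]
      have h6 : Real.log (2 + q.2 * q.1.d m s) ≤ Real.log (2 + q.1.d m s) :=
        Real.log_le_log (by linarith) (by linarith)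
      linarith)
  have h2 : EB (fun q : Ix ι P Γ D × Icc (0 : ℝ) 1 => ll m s q.1)
      (fun q (e : P × Pl × Pl) => ((e.1, e.2.1,
        (gη h.hX m s q)⁻¹ • gp m (s q.1.i) q.2 (e.1, e.2.1, q.1.g • e.2.2)) : P × Pl × Pl))
      (fun q => q.1.b) :=
    EB_prod hℓ (EB_clm hℓ (V2_id h) (ContinuousLinearMap.fst ℝ P (Pl × Pl)))
      (EB_prod hℓ (EB_clm hℓ (V2_id h) ((ContinuousLinearMap.fst ℝ Pl Pl).comp
        (ContinuousLinearMap.snd ℝ P (Pl × Pl)))) (EB_gp h))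
  have h3 := EB_comp (x := fun q : Ix ι P Γ D × Icc (0 : ℝ) 1 => q.1.b)
    (f := fun q (e : P × Pl × Pl) => ((e.1, e.2.1,
        (gη h.hX m s q)⁻¹ • gp m (s q.1.i) q.2 (e.1, e.2.1, q.1.g • e.2.2)) : P × Pl × Pl))
    hℓ h1 h2
  have h4 : (fun (q : Ix ι P Γ D × Icc (0 : ℝ) 1) (e : P × Pl × Pl) =>
      Q q.1.i (e.1, e.2.1, gp m (s q.1.i) q.2 (e.1, e.2.1, q.1.g • e.2.2))) =
      fun q e => Q q.1.i (e.1, e.2.1, gη h.hX m s q • ((gη h.hX m s q)⁻¹ •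
        gp m (s q.1.i) q.2 (e.1, e.2.1, q.1.g • e.2.2))) := by
    funext q e
    rw [smul_inv_smul]
  rw [h4]
  exact h3

end BE
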