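import Pool.Agent.LibBE88.Defs

/-! Row BE88 C5 (only Mathlib and `JB_Defs`): integrals of families of class `EB`. MEDIUM, 45 min.
Plan. See `LibBR70/JB7.lean` (`radial_smooth`, `RB_radial`), whose lemmas may be copied. Let
`Φ : ℝ × E → F` be smooth. `y ↦ ∫ r in 0..1, Φ (r, y)` has the derivative
`∫ r in 0..1, fderiv ℝ Φ (r, y) ∘L inr` (`hasFDerivAt_integral_of_dominated_of_fderiv_le` on a small
ball around `y`; the derivative is continuous, hence bounded on a neighbourhood of the compact set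
`[0, 1] × {y}` by the tube lemma `generalized_tube_lemma`, or
`intervalIntegral.hasFDerivAt_integral_of_contDiffOn`-type lemmas if Mathlib has one). By induction:
smooth, and `iteratedFDeriv ℝ k (∫ Φ) y = ∫ iteratedFDeriv ℝ k (Φ (r, ·)) y` (up to the isometry
between `iteratedFDeriv (k+1)` and `iteratedFDeriv k` of the `fderiv`; it is enough to prove by
induction on `k`, for all `F`, `Φ`:
`‖iteratedFDeriv ℝ k (fun y => ∫ r in 0..1, Φ (r, y)) y‖ ≤ sup_{r ∈ [0,1]} ‖iteratedFDeriv ℝ k (fun y => Φ (r, y)) y‖`,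
since both sides of order `k + 1` are the ones of order `k` for the derivative,
`norm_iteratedFDeriv_fderiv`). -/

open MeasureTheory Set Filter Topology
open scoped ContDiff

namespace BE

open BGS BR

private theorem C5_smooth_fderiv {P G : Type} [NormedAddCommGroup P] [NormedSpace ℝ P]
    [NormedAddCommGroup G] [NormedSpace ℝ G]
    (Φ : P → ℝ → G) (hΦ : ContDiff ℝ ∞ (Function.uncurry Φ)) :
    ContDiff ℝ ∞ (Function.uncurry (fun (p : P) (s : ℝ) => fderiv ℝ (fun q => Φ q s) p)) := by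
  have h1 : ContDiff ℝ ∞ (Function.uncurry (fun (z : P × ℝ) (q : P) => Φ q z.2)) := by
    have h2 : Function.uncurry (fun (z : P × ℝ) (q : P) => Φ q z.2)
        = Function.uncurry Φ ∘ (fun w : (P × ℝ) × P => (w.2, w.1.2)) := by
      funext w
      rfl
    rw [h2]
    exact hΦ.comp (contDiff_snd.prodMk (contDiff_snd.comp contDiff_fst))
  have h3 := ContDiff.fderiv (m := ∞) (n := ∞) h1 (contDiff_fst (𝕜 := ℝ) (E := P) (F := ℝ))
    (by simp)
  exact h3

private theorem C5_smooth_slice {P G : Type} [NormedAddCommGroup P] [NormedSpace ℝ P]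
    [NormedAddCommGroup G] [NormedSpace ℝ G]
    (Φ : P → ℝ → G) (hΦ : ContDiff ℝ ∞ (Function.uncurry Φ)) (s : ℝ) :
    ContDiff ℝ ∞ (fun q => Φ q s) := by
  have h2 : (fun q => Φ q s) = Function.uncurry Φ ∘ (fun q : P => (q, s)) := by
    funext w
    rfl
  rw [h2]
  exact hΦ.comp (contDiff_id.prodMk contDiff_const)

/-- a continuous function is bounded near `{p} × [0, 1]` -/
private theorem C5_tube {P G : Type} [TopologicalSpace P] [NormedAddCommGroup G]
    (Ψ : P × ℝ → G) (hΨ : Continuous Ψ) (p : P) :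
    ∃ M : ℝ, ∃ U ∈ 𝓝 p, ∀ x ∈ U, ∀ s ∈ Icc (0 : ℝ) 1, ‖Ψ (x, s)‖ ≤ M := by
  have hK : IsCompact (({p} : Set P) ×ˢ Icc (0 : ℝ) 1) := isCompact_singleton.prod isCompact_Icc
  obtain ⟨M, hM⟩ := hK.exists_bound_of_continuousOn hΨ.continuousOn
  have hO : IsOpen {z : P × ℝ | ‖Ψ z‖ < M + 1} := isOpen_lt hΨ.norm continuous_const
  obtain ⟨u, v, hu, -, hpu, hv, huv⟩ := generalized_tube_lemma (isCompact_singleton (x := p))
    (isCompact_Icc (a := (0 : ℝ)) (b := 1)) hO (fun z hz => by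
      have := hM z hz
      simp only [mem_ofPred_eq]
      linarith)
  refine ⟨M + 1, u, hu.mem_nhds (hpu rfl), fun x hx s hs => ?_⟩
  exact (huv (⟨hx, hv hs⟩ : (x, s) ∈ u ×ˢ v)).le

private theorem C5_hasFDerivAt {P G : Type} [NormedAddCommGroup P] [NormedSpace ℝ P]
    [NormedAddCommGroup G] [NormedSpace ℝ G]
    (Φ : P → ℝ → G) (hΦ : ContDiff ℝ ∞ (Function.uncurry Φ)) (p : P) :
    HasFDerivAt (fun p => ∫ s in (0 : ℝ)..1, Φ p s)
      (∫ s in (0 : ℝ)..1, fderiv ℝ (fun q => Φ q s) p) p := by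
  have hc' : Continuous (Function.uncurry (fun (p : P) (s : ℝ) => fderiv ℝ (fun q => Φ q s) p)) :=
    (C5_smooth_fderiv Φ hΦ).continuous
  have hc : Continuous (Function.uncurry Φ) := hΦ.continuous
  obtain ⟨M, U, hU, hM⟩ := C5_tube _ hc' p
  have hsl : ∀ q : P, Continuous (fun s => Φ q s) := fun q => hc.comp (Continuous.prodMk_right q)
  have hsl' : ∀ q : P, Continuous (fun s => fderiv ℝ (fun q => Φ q s) q) := fun q =>
    hc'.comp (Continuous.prodMk_right q)
  refine intervalIntegral.hasFDerivAt_integral_of_dominated_of_fderiv_le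
    (F := Φ) (F' := fun p s => fderiv ℝ (fun q => Φ q s) p) (bound := fun _ => M)
    hU ?_ ?_ ?_ ?_ ?_ ?_
  · exact Eventually.of_forall fun q => (hsl q).aestronglyMeasurable
  · exact (hsl p).intervalIntegrable _ _
  · exact (hsl' p).aestronglyMeasurable
  · refine Eventually.of_forall fun t ht x hx => ?_
    rw [uIoc_of_le zero_le_one] at ht
    exact hM x hx t ⟨ht.1.le, ht.2⟩
  · exact intervalIntegrable_const
  · refine Eventually.of_forall fun t _ x _ => ?_
    exact ((C5_smooth_slice Φ hΦ t).differentiable (by simp) x).hasFDerivAt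

private theorem C5_cont {P G : Type} [NormedAddCommGroup P] [NormedSpace ℝ P]
    [NormedAddCommGroup G] [NormedSpace ℝ G]
    (Φ : P → ℝ → G) (hΦ : ContDiff ℝ ∞ (Function.uncurry Φ)) :
    Continuous (fun p => ∫ s in (0 : ℝ)..1, Φ p s) :=
  continuous_iff_continuousAt.2 fun p => (C5_hasFDerivAt Φ hΦ p).continuousAt

private theorem C5_main {P : Type} [NormedAddCommGroup P] [NormedSpace ℝ P] (k : ℕ) :
    ∀ {G : Type} [NormedAddCommGroup G] [NormedSpace ℝ G]
    (Φ : P → ℝ → G), ContDiff ℝ ∞ (Function.uncurry Φ) →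
      ContDiff ℝ k (fun p => ∫ s in (0 : ℝ)..1, Φ p s) ∧
      ∀ (p : P) (M : ℝ), (∀ s ∈ Icc (0 : ℝ) 1, ‖iteratedFDeriv ℝ k (fun q => Φ q s) p‖ ≤ M) →
        ‖iteratedFDeriv ℝ k (fun p => ∫ s in (0 : ℝ)..1, Φ p s) p‖ ≤ M := by
  induction k with
  | zero =>
    intro G _ _ Φ hΦ
    refine ⟨?_, ?_⟩
    · rw [Nat.cast_zero, contDiff_zero]
      exact C5_cont Φ hΦ
    · intro p M hM
      simp only [norm_iteratedFDeriv_zero] at hM ⊢
      have h := intervalIntegral.norm_integral_le_of_norm_le_const (a := (0 : ℝ)) (b := 1)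
        (f := fun s => Φ p s) (C := M) (fun s hs => by
          rw [uIoc_of_le zero_le_one] at hs
          exact hM s ⟨hs.1.le, hs.2⟩)
      simpa using h
  | succ k ih =>
    intro G _ _ Φ hΦ
    have hfd : fderiv ℝ (fun p => ∫ s in (0 : ℝ)..1, Φ p s)
        = fun p => ∫ s in (0 : ℝ)..1, fderiv ℝ (fun q => Φ q s) p :=
      funext fun p => (C5_hasFDerivAt Φ hΦ p).fderiv
    obtain ⟨h1, h2⟩ := ih (fun (p : P) (s : ℝ) => fderiv ℝ (fun q => Φ q s) p)
      (C5_smooth_fderiv Φ hΦ)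
    refine ⟨?_, ?_⟩
    · rw [Nat.cast_add, Nat.cast_one, contDiff_succ_iff_fderiv]
      refine ⟨fun p => (C5_hasFDerivAt Φ hΦ p).differentiableAt, by simp, ?_⟩
      rw [hfd]
      exact h1
    · intro p M hM
      rw [← norm_iteratedFDeriv_fderiv, hfd]
      refine h2 p M fun s hs => ?_
      have h := hM s hs
      rw [← norm_iteratedFDeriv_fderiv] at h
      exact h

private theorem C5_unc {E F : Type} [NormedAddCommGroup E] [NormedSpace ℝ E]
    [NormedAddCommGroup F] [NormedSpace ℝ F] {Φ : ℝ × E → F} (hΦ : ContDiff ℝ ∞ Φ) :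
    ContDiff ℝ ∞ (Function.uncurry fun (y : E) (r : ℝ) => Φ (r, y)) := by
  have h2 : (Function.uncurry fun (y : E) (r : ℝ) => Φ (r, y)) =
      Φ ∘ (fun w : E × ℝ => (w.2, w.1)) := by
    funext w
    rfl
  rw [h2]
  exact hΦ.comp (contDiff_snd.prodMk contDiff_fst)

theorem int_smooth {E F : Type} [NormedAddCommGroup E] [NormedSpace ℝ E]
    [NormedAddCommGroup F] [NormedSpace ℝ F] [CompleteSpace F] {Φ : ℝ × E → F}
    (hΦ : ContDiff ℝ ∞ Φ) : ContDiff ℝ ∞ (fun y => ∫ r in (0 : ℝ)..1, Φ (r, y)) := by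
  rw [contDiff_infty]
  intro k
  exact (C5_main k (fun (y : E) (r : ℝ) => Φ (r, y)) (C5_unc hΦ)).1

theorem EB_int {κ E F : Type} [NormedAddCommGroup E] [NormedSpace ℝ E]
    [NormedAddCommGroup F] [NormedSpace ℝ F] [CompleteSpace F] {ℓ : κ → ℝ}
    {x : κ → E} {Φ : κ → ℝ × E → F} (hΦ : ∀ q, ContDiff ℝ ∞ (Φ q))
    (hb : EB (fun q : κ × Icc (0 : ℝ) 1 => ℓ q.1) (fun q y => Φ q.1 ((q.2 : ℝ), y))
      (fun q => x q.1)) :
    EB ℓ (fun q y => ∫ r in (0 : ℝ)..1, Φ q (r, y)) x := by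
  refine ⟨fun q => int_smooth (hΦ q), fun k => ?_⟩
  obtain ⟨C, hC⟩ := hb.bound k
  refine ⟨C, fun q => ?_⟩
  exact (C5_main k (fun (y : E) (r : ℝ) => Φ q (r, y)) (C5_unc (hΦ q))).2 (x q) _
    fun s hs => hC (q, ⟨s, hs⟩)

end BE
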