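import Pool.Agent.LibBE88.V2
import Pool.Agent.LibBE88.C5

/-! Row BE88 V3 (cites V2, C5): integrals along the geodesic. SHORT / MEDIUM, 30 min.
Plan. `Adm_int`: at the index `q` the function of `e = (p, x, y)` is
`∫ r in 0..1, Φ q (r, e)`, `Φ q (r, e) = r ^ n * Q q.i (e.1, e.2.1, gp r (e.1, e.2.1, g • e.2.2))` (`gp r` of
`(e.1, e.2.1, g • e.2.2)`), which is smooth (`gp_smooth`, `Adm_smooth`, `hX.smooth`; if `D` is empty then
`Ix` is empty and `Adm` is trivial: `Surface.orbit` gives a point of `D`, so `D` is never empty). The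
hypothesis of `EB_int` (row C5) is `Adm_gp` (row V2) times the constant `r ^ n ≤ 1`
(`EB_const`, `EB_mul`). `Adm_int'`: the same with the substituted ratio `r = ρ q (θ)`. -/

open MeasureTheory Set Filter Topology
open scoped ContDiff

namespace BE

open BGS BR

variable {Γ : Type} [Group Γ] [MulAction Γ Pl] {D : Set Pl}
variable {ι P : Type} [NormedAddCommGroup P] [NormedSpace ℝ P] [FiniteDimensional ℝ P]
  {m : Pl → Co} {a b : ℝ} {s : ι → P × Pl → ℝ}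

private theorem V3_ne (hX : Surface Γ D) : D.Nonempty := by
  obtain ⟨γ, hγ, -⟩ := hX.orbit (0 : Pl)
  exact ⟨_, hγ⟩

/-- The function `(r, e) ↦ Q q.i (p, x, gp r (p, x, g • y))` is smooth. -/
private theorem V3_smooth (h : CF Γ D m a b s) {Q : ι → P × Pl × Pl → ℝ} (hQ : Adm Γ D m s Q)
    (q : Ix ι P Γ D) {ρ : ℝ → ℝ} (hρ : ContDiff ℝ ∞ ρ) :
    ContDiff ℝ ∞ (fun w : ℝ × P × Pl × Pl =>
      Q q.i (w.2.1, w.2.2.1, gp m (s q.i) (ρ w.1) (w.2.1, w.2.2.1, q.g • w.2.2.2))) := by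
  have h1 := Adm_smooth h.hX (V3_ne h.hX) hQ q.i
  have h2 := gp_smooth h q.i
  have h3 := h.hX.smooth q.g
  have e1 : ContDiff ℝ ∞ (fun w : ℝ × P × Pl × Pl => ρ w.1) := hρ.comp contDiff_fst
  have e2 : ContDiff ℝ ∞ (fun w : ℝ × P × Pl × Pl => w.2.1) := contDiff_fst.comp contDiff_snd
  have e3 : ContDiff ℝ ∞ (fun w : ℝ × P × Pl × Pl => w.2.2.1) :=
    contDiff_fst.comp (contDiff_snd.comp contDiff_snd)
  have e4 : ContDiff ℝ ∞ (fun w : ℝ × P × Pl × Pl => w.2.2.2) :=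
    contDiff_snd.comp (contDiff_snd.comp contDiff_snd)
  have e5 : ContDiff ℝ ∞ (fun w : ℝ × P × Pl × Pl => q.g • w.2.2.2) := h3.comp e4
  have e6 : ContDiff ℝ ∞ (fun w : ℝ × P × Pl × Pl =>
      gp m (s q.i) (ρ w.1) (w.2.1, w.2.2.1, q.g • w.2.2.2)) :=
    h2.comp (e1.prodMk (e2.prodMk (e3.prodMk e5)))
  exact h1.comp (e2.prodMk (e3.prodMk e6))

private theorem V3_mul_exp {C t : ℝ} (hC : 0 ≤ C) (ht : 0 ≤ t) : C ≤ C * Real.exp (C * t) := by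
  have h1 : 1 ≤ Real.exp (C * t) := Real.one_le_exp (mul_nonneg hC ht)
  calc C = C * 1 := (mul_one C).symm
    _ ≤ C * Real.exp (C * t) := mul_le_mul_of_nonneg_left h1 hC

theorem Adm_int (h : CF Γ D m a b s) {Q : ι → P × Pl × Pl → ℝ} (hQ : Adm Γ D m s Q) (n : ℕ) :
    Adm Γ D m s (fun i e => ∫ r in (0 : ℝ)..1, r ^ n * Q i (e.1, e.2.1, gp m (s i) r e)) := by
  have hl : ∀ q : Ix ι P Γ D × Icc (0 : ℝ) 1, 0 ≤ ll m s q.1 := fun q => ll_nonneg m s q.1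
  have h1 := EB_mul hl (EB_const (E := P × Pl × Pl) (x := fun q : Ix ι P Γ D × Icc (0 : ℝ) 1 => q.1.b)
    hl (c := fun q => (q.2 : ℝ) ^ n) (C := 1) (fun q => by
      have h2 : ‖(q.2 : ℝ) ^ n‖ ≤ 1 := by
        rw [Real.norm_eq_abs, abs_of_nonneg (pow_nonneg q.2.2.1 n)]
        exact pow_le_one₀ q.2.2.1 q.2.2.2
      exact h2.trans (V3_mul_exp zero_le_one (hl q)))) (Adm_gp h hQ)
  have h3 := EB_int (ℓ := fun q : Ix ι P Γ D => ll m s q) (x := Ix.b)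
    (Φ := fun q (w : ℝ × P × Pl × Pl) => w.1 ^ n *
      Q q.i (w.2.1, w.2.2.1, gp m (s q.i) w.1 (w.2.1, w.2.2.1, q.g • w.2.2.2)))
    (fun q => (contDiff_fst.pow n).mul (V3_smooth h hQ q contDiff_id)) h1
  exact h3

/-- With a substitution: `r = exp (-(L q) θ)`, `0 ≤ L q ≤ exp (ll q)`. -/
theorem Adm_int' (h : CF Γ D m a b s) {Q : ι → P × Pl × Pl → ℝ} (hQ : Adm Γ D m s Q)
    {L : Ix ι P Γ D → ℝ} (hL : ∀ q, 0 ≤ L q ∧ L q ≤ Real.exp (ll m s q)) :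
    EB (fun q : Ix ι P Γ D => ll m s q)
      (fun q e => ∫ θ in (0 : ℝ)..1, L q *
        Q q.i (e.1, e.2.1, gp m (s q.i) (Real.exp (-(L q * θ))) (e.1, e.2.1, q.g • e.2.2)))
      Ix.b := by
  have hl : ∀ q : Ix ι P Γ D × Icc (0 : ℝ) 1, 0 ≤ ll m s q.1 := fun q => ll_nonneg m s q.1
  have hr : ∀ q : Ix ι P Γ D × Icc (0 : ℝ) 1, Real.exp (-(L q.1 * (q.2 : ℝ))) ∈ Icc (0 : ℝ) 1 :=
    fun q => ⟨(Real.exp_pos _).le, Real.exp_le_one_iff.2
      (neg_nonpos.2 (mul_nonneg (hL q.1).1 q.2.2.1))⟩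
  have h0 := EB_pull hl (Adm_gp h hQ)
    (fun q : Ix ι P Γ D × Icc (0 : ℝ) 1 =>
      ((q.1, ⟨Real.exp (-(L q.1 * (q.2 : ℝ))), hr q⟩) : Ix ι P Γ D × Icc (0 : ℝ) 1))
    (ℓ' := fun q => ll m s q.1) hl (A := 1) (fun q => by
      show ll m s q.1 ≤ 1 * (1 + ll m s q.1)
      linarith)
  have h1 := EB_mul hl (EB_const (E := P × Pl × Pl) (x := fun q : Ix ι P Γ D × Icc (0 : ℝ) 1 => q.1.b)
    hl (c := fun q => L q.1) (C := 1) (fun q => by
      rw [Real.norm_eq_abs, abs_of_nonneg (hL q.1).1, one_mul, one_mul]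
      exact (hL q.1).2)) h0
  have h3 := EB_int (ℓ := fun q : Ix ι P Γ D => ll m s q) (x := Ix.b)
    (Φ := fun q (w : ℝ × P × Pl × Pl) => L q *
      Q q.i (w.2.1, w.2.2.1, gp m (s q.i) (Real.exp (-(L q * w.1)))
        (w.2.1, w.2.2.1, q.g • w.2.2.2)))
    (fun q => contDiff_const.mul (V3_smooth h hQ q (ρ := fun t => Real.exp (-(L q * t)))
      (contDiff_const.mul contDiff_id).neg.exp)) h1
  exact h3

end BE
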