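import Pool.Agent.LibBE88.V4

/-! Row BE88 V5 (cites V4 for the definitions): the Laplacian of products and of
`exp (h) u`. SHORT / MEDIUM, 35 min.
Plan. `LL c u = (dx X + dy Y) / wt`, `X = (G u_x - F u_y) / wt`, `Y = (E u_y - F u_x) / wt`. For `u w`: `X_{uw} =
u X_w + w X_u`, so `LL (u w) = u LL w + w LL u + (u_x X_w + w_x X_u + u_y Y_w + w_y Y_u) / wt` and the last
term is `2 gr c u w` (`wf2` is symmetric). `LL_exp`: first `dx (exp h) = exp h * dx h`, `X_{exp h} = exp h X_h`,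
so `LL (exp h) = exp h (LL h + gr h h)`, and `gr (exp h) u = exp h gr h u`; then `LL_mulG`. Everything is
smooth; `fderiv` of products, `PX1_mul` (`LibBR70/PX1.lean`). `gr_smooth`: a rational expression in
smooth functions. -/

open MeasureTheory Set Filter Topology
open scoped ContDiff

namespace BE

open BGS BR

private theorem V5_diff {f : Pl → ℝ} (hf : ContDiff ℝ ∞ f) (z : Pl) : DifferentiableAt ℝ f z :=
  (hf.differentiable (by simp)) z

private theorem V5_smooth_v {h : Pl → ℝ} (hh : ContDiff ℝ ∞ h) (v : Pl) :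
    ContDiff ℝ ∞ fun z => fderiv ℝ h z v :=
  ((contDiff_infty_iff_fderiv.1 hh).2).clm_apply contDiff_const

private theorem V5_dx_smooth {h : Pl → ℝ} (hh : ContDiff ℝ ∞ h) : ContDiff ℝ ∞ (dx h) :=
  V5_smooth_v hh (1, 0)

private theorem V5_dy_smooth {h : Pl → ℝ} (hh : ContDiff ℝ ∞ h) : ContDiff ℝ ∞ (dy h) :=
  V5_smooth_v hh (0, 1)

private theorem V5_mul {f g : Pl → ℝ} (hf : ContDiff ℝ ∞ f) (hg : ContDiff ℝ ∞ g) (z w : Pl) :
    fderiv ℝ (fun y => f y * g y) z w = fderiv ℝ f z w * g z + f z * fderiv ℝ g z w := by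
  rw [fderiv_fun_mul (V5_diff hf z) (V5_diff hg z)]
  show f z * fderiv ℝ g z w + g z * fderiv ℝ f z w = _
  ring

private theorem V5_add {f g : Pl → ℝ} (hf : ContDiff ℝ ∞ f) (hg : ContDiff ℝ ∞ g) (z w : Pl) :
    fderiv ℝ (fun y => f y + g y) z w = fderiv ℝ f z w + fderiv ℝ g z w := by
  rw [fderiv_fun_add (V5_diff hf z) (V5_diff hg z)]
  rfl

private theorem V5_exp {h : Pl → ℝ} (hh : ContDiff ℝ ∞ h) (z w : Pl) :
    fderiv ℝ (fun y => Real.exp (h y)) z w = Real.exp (h z) * fderiv ℝ h z w := by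
  rw [fderiv_exp (V5_diff hh z)]
  rfl

private theorem V5_dt_smooth {c : Pl → Co} (hc : SM c) : ContDiff ℝ ∞ fun z => dt (c z) :=
  ((contDiff_fst.comp hc.smooth).mul
    (contDiff_snd.comp (contDiff_snd.comp hc.smooth))).sub
    ((contDiff_fst.comp (contDiff_snd.comp hc.smooth)).pow 2)

private theorem V5_wt_smooth {c : Pl → Co} (hc : SM c) : ContDiff ℝ ∞ (wt c) :=
  (V5_dt_smooth hc).sqrt fun v => (hc.pos v).2.ne'

private theorem V5_wt_pos {c : Pl → Co} (hc : SM c) (v : Pl) : 0 < wt c v :=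
  Real.sqrt_pos.2 (hc.pos v).2

private theorem V5_wt_sq {c : Pl → Co} (hc : SM c) (v : Pl) : wt c v * wt c v = dt (c v) :=
  Real.mul_self_sqrt (hc.pos v).2.le

/-- the flux -/
private noncomputable def V5_X (c : Pl → Co) (u : Pl → ℝ) (z : Pl) : ℝ :=
  ((c z).2.2 * dx u z - (c z).2.1 * dy u z) / wt c z

private noncomputable def V5_Y (c : Pl → Co) (u : Pl → ℝ) (z : Pl) : ℝ :=
  ((c z).1 * dy u z - (c z).2.1 * dx u z) / wt c z

private theorem V5_LL (c : Pl → Co) (u : Pl → ℝ) (v : Pl) :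
    LL c u v = (dx (V5_X c u) v + dy (V5_Y c u) v) / wt c v := rfl

private theorem V5_X_smooth {c : Pl → Co} (hc : SM c) {u : Pl → ℝ} (hu : ContDiff ℝ ∞ u) :
    ContDiff ℝ ∞ (V5_X c u) :=
  (((contDiff_snd.comp (contDiff_snd.comp hc.smooth)).mul (V5_dx_smooth hu)).sub
    ((contDiff_fst.comp (contDiff_snd.comp hc.smooth)).mul (V5_dy_smooth hu))).div
    (V5_wt_smooth hc) fun v => (V5_wt_pos hc v).ne'

private theorem V5_Y_smooth {c : Pl → Co} (hc : SM c) {u : Pl → ℝ} (hu : ContDiff ℝ ∞ u) :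
    ContDiff ℝ ∞ (V5_Y c u) :=
  (((contDiff_fst.comp hc.smooth).mul (V5_dy_smooth hu)).sub
    ((contDiff_fst.comp (contDiff_snd.comp hc.smooth)).mul (V5_dx_smooth hu))).div
    (V5_wt_smooth hc) fun v => (V5_wt_pos hc v).ne'

private theorem V5_wf2 (c : Pl → Co) (z : Pl) (p q p' q' : ℝ) :
    wf2 (c z) p q p' q' =
      ((c z).2.2 * p * p' - (c z).2.1 * (p * q' + q * p') + (c z).1 * q * q') / wt c z := rfl

private theorem V5_flux {c : Pl → Co} (hc : SM c) (u w : Pl → ℝ) (z : Pl) :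
    dx u z * V5_X c w z + dy u z * V5_Y c w z = gr c u w z * wt c z := by
  have hw0 := (V5_wt_pos hc z).ne'
  unfold gr V5_X V5_Y
  rw [V5_wf2]
  field_simp
  ring

private theorem V5_gr_comm {c : Pl → Co} (u w : Pl → ℝ) (z : Pl) : gr c u w z = gr c w u z := by
  unfold gr
  rw [V5_wf2, V5_wf2]
  ring

theorem gr_smooth {c : Pl → Co} (hc : SM c) {u w : Pl → ℝ} (hu : ContDiff ℝ ∞ u)
    (hw : ContDiff ℝ ∞ w) : ContDiff ℝ ∞ (gr c u w) := by
  have h1 : gr c u w = fun z => (dx u z * V5_X c w z + dy u z * V5_Y c w z) / wt c z := by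
    funext z
    rw [V5_flux hc, mul_div_assoc, div_self (V5_wt_pos hc z).ne', mul_one]
  rw [h1]
  exact (((V5_dx_smooth hu).mul (V5_X_smooth hc hw)).add
    ((V5_dy_smooth hu).mul (V5_Y_smooth hc hw))).div (V5_wt_smooth hc)
      fun v => (V5_wt_pos hc v).ne'

theorem LL_mulG {c : Pl → Co} (hc : SM c) {u w : Pl → ℝ} (hu : ContDiff ℝ ∞ u)
    (hw : ContDiff ℝ ∞ w) (z : Pl) :
    LL c (fun y => u y * w y) z = u z * LL c w z + w z * LL c u z + 2 * gr c u w z := by
  have hX : V5_X c (fun y => u y * w y) = fun y => u y * V5_X c w y + w y * V5_X c u y := by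
    funext y
    unfold V5_X dx dy
    rw [V5_mul hu hw, V5_mul hu hw]
    ring
  have hY : V5_Y c (fun y => u y * w y) = fun y => u y * V5_Y c w y + w y * V5_Y c u y := by
    funext y
    unfold V5_Y dx dy
    rw [V5_mul hu hw, V5_mul hu hw]
    ring
  have hXu := V5_X_smooth hc hu
  have hXw := V5_X_smooth hc hw
  have hYu := V5_Y_smooth hc hu
  have hYw := V5_Y_smooth hc hw
  have h1 : dx (V5_X c (fun y => u y * w y)) z = dx u z * V5_X c w z + u z * dx (V5_X c w) z +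
      (dx w z * V5_X c u z + w z * dx (V5_X c u) z) := by
    rw [hX]
    unfold dx
    rw [V5_add (hu.mul hXw) (hw.mul hXu), V5_mul hu hXw, V5_mul hw hXu]
  have h2 : dy (V5_Y c (fun y => u y * w y)) z = dy u z * V5_Y c w z + u z * dy (V5_Y c w) z +
      (dy w z * V5_Y c u z + w z * dy (V5_Y c u) z) := by
    rw [hY]
    unfold dy
    rw [V5_add (hu.mul hYw) (hw.mul hYu), V5_mul hu hYw, V5_mul hw hYu]
  have h3 := V5_flux hc u w z
  have h4 := V5_flux hc w u z
  rw [V5_gr_comm w u z] at h4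
  have hw0 := (V5_wt_pos hc z).ne'
  rw [V5_LL, V5_LL, V5_LL, h1, h2]
  field_simp
  linear_combination h3 + h4

theorem LL_exp {c : Pl → Co} (hc : SM c) {h u : Pl → ℝ} (hh : ContDiff ℝ ∞ h)
    (hu : ContDiff ℝ ∞ u) (z : Pl) :
    LL c (fun y => Real.exp (h y) * u y) z =
      Real.exp (h z) * (LL c u z + 2 * gr c h u z + (gr c h h z + LL c h z) * u z) := by
  have hE : ContDiff ℝ ∞ (fun y => Real.exp (h y)) := hh.exp
  have hw0 := (V5_wt_pos hc z).ne'
  have hg : gr c (fun y => Real.exp (h y)) u z = Real.exp (h z) * gr c h u z := by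
    unfold gr dx dy
    rw [V5_exp hh, V5_exp hh, V5_wf2, V5_wf2]
    ring
  have hX : V5_X c (fun y => Real.exp (h y)) = fun y => Real.exp (h y) * V5_X c h y := by
    funext y
    unfold V5_X dx dy
    rw [V5_exp hh, V5_exp hh]
    ring
  have hY : V5_Y c (fun y => Real.exp (h y)) = fun y => Real.exp (h y) * V5_Y c h y := by
    funext y
    unfold V5_Y dx dy
    rw [V5_exp hh, V5_exp hh]
    ring
  have h1 : dx (V5_X c (fun y => Real.exp (h y))) z =
      Real.exp (h z) * dx h z * V5_X c h z + Real.exp (h z) * dx (V5_X c h) z := by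
    rw [hX]
    unfold dx
    rw [V5_mul hE (V5_X_smooth hc hh), V5_exp hh]
  have h2 : dy (V5_Y c (fun y => Real.exp (h y))) z =
      Real.exp (h z) * dy h z * V5_Y c h z + Real.exp (h z) * dy (V5_Y c h) z := by
    rw [hY]
    unfold dy
    rw [V5_mul hE (V5_Y_smooth hc hh), V5_exp hh]
  have h3 := V5_flux hc h h z
  have h4 : LL c (fun y => Real.exp (h y)) z = Real.exp (h z) * (gr c h h z + LL c h z) := by
    rw [V5_LL, V5_LL, h1, h2]
    field_simp
    linear_combination h3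
  rw [LL_mulG hc hE hu, hg, h4]
  ring

theorem LL_lin {c : Pl → Co} (hc : SM c) {u w : Pl → ℝ} (hu : ContDiff ℝ ∞ u)
    (hw : ContDiff ℝ ∞ w) (α β : ℝ) (z : Pl) :
    LL c (fun y => α * u y + β * w y) z = α * LL c u z + β * LL c w z := by
  have hc1 : ∀ (t : ℝ) {f : Pl → ℝ} (_ : ContDiff ℝ ∞ f) (y v : Pl),
      fderiv ℝ (fun y => t * f y) y v = t * fderiv ℝ f y v := by
    intro t f hf y v
    rw [fderiv_const_mul (V5_diff hf y)]
    rfl
  have hau : ContDiff ℝ ∞ (fun y => α * u y) := contDiff_const.mul hu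
  have hbw : ContDiff ℝ ∞ (fun y => β * w y) := contDiff_const.mul hw
  have hX : V5_X c (fun y => α * u y + β * w y) = fun y => α * V5_X c u y + β * V5_X c w y := by
    funext y
    unfold V5_X dx dy
    rw [V5_add hau hbw, V5_add hau hbw, hc1 α hu, hc1 β hw, hc1 α hu, hc1 β hw]
    ring
  have hY : V5_Y c (fun y => α * u y + β * w y) = fun y => α * V5_Y c u y + β * V5_Y c w y := by
    funext y
    unfold V5_Y dx dy
    rw [V5_add hau hbw, V5_add hau hbw, hc1 α hu, hc1 β hw, hc1 α hu, hc1 β hw]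
    ring
  have hXu := V5_X_smooth hc hu
  have hXw := V5_X_smooth hc hw
  have hYu := V5_Y_smooth hc hu
  have hYw := V5_Y_smooth hc hw
  have h1 : dx (V5_X c (fun y => α * u y + β * w y)) z =
      α * dx (V5_X c u) z + β * dx (V5_X c w) z := by
    rw [hX]
    unfold dx
    rw [V5_add (contDiff_const.mul hXu) (contDiff_const.mul hXw), hc1 α hXu, hc1 β hXw]
  have h2 : dy (V5_Y c (fun y => α * u y + β * w y)) z =
      α * dy (V5_Y c u) z + β * dy (V5_Y c w) z := by
    rw [hY]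
    unfold dy
    rw [V5_add (contDiff_const.mul hYu) (contDiff_const.mul hYw), hc1 α hYu, hc1 β hYw]
  rw [V5_LL, V5_LL, V5_LL, h1, h2]
  ring

end BE
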