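import Pool.Agent.LibBE88.V1
import Pool.Agent.LibBE88.V5

/-! Row BE88 V6 (cites V1, V4, A1): the class `Adm` is closed under the Laplacian and the inner
product of gradients in the second point. MEDIUM / STRONG, 60 min.
Plan. `mm_SM`: from `hm_mm`. Joint smoothness: for `Q i` smooth on `P × Pl × Pl`, the function
`e ↦ LL (mm m (s i) e.1) (fun z => Q i (e.1, e.2.1, z)) e.2.2` is a polynomial in the coefficients of
`mm m (s i) e.1 e.2.2` and their first derivatives, `1 / wt` and the derivatives of `Q i` in the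
directions `(0, 0, (1, 0))`, `(0, 0, (0, 1))` of order `≤ 2` (`dx`, `dy` in `z` are derivatives of the joint
function, chain rule, cf. `PX6_dx` and the proof of `RB_LL` in `LibBR70/PX6.lean`). At the index `q`: by `LL_pull`
(row V4) for `φ = (g • ·)`, `ψ = (g⁻¹ • ·)`, `c = c' = mm ..` (`hm_mm`, field `inv`):
`LL (mm ..) (fun z => Q (p, x, z)) (g • y) = LL (mm ..) (fun z => Q (p, x, g • z)) y`, where now `y` is near
`closure D` and `(p, x, z) ↦ Q (p, x, g • z)` is the family of `Adm`; so the expression is built from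
`EB` families by sums, products, `EB_fderiv_apply`, `EB_inv`, `EB_rpow` (for `wt = √dt`), where the
coefficients of the metric are `EB0_mm` (row A1) composed with the projection `e ↦ (e.1, e.2.2)`
(points `(p, y)`, `y ∈ closure D`; `EB_of_EB0`), and `mm_low` gives the lower bounds. The same for
`gr` with `gr_pull`. -/

open MeasureTheory Set Filter Topology
open scoped ContDiff

namespace BE

open BGS BR

section V6_general

variable {κ P : Type} [NormedAddCommGroup P] [NormedSpace ℝ P] {ℓ : κ → ℝ} {x : κ → P × Pl × Pl}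

theorem V6_slice {f : P × Pl × Pl → ℝ} (hf : Differentiable ℝ f) (p : P) (x z w : Pl) :
    fderiv ℝ (fun v => f (p, x, v)) z w = fderiv ℝ f (p, x, z) (0, 0, w) := by
  have h0 : HasFDerivAt (fun v : Pl => ((p, x, v) : P × Pl × Pl))
      ((ContinuousLinearMap.inr ℝ P (Pl × Pl)).comp (ContinuousLinearMap.inr ℝ Pl Pl)) z :=
    (hasFDerivAt_prodMk_right p (x, z)).comp z (hasFDerivAt_prodMk_right x z)
  have h : HasFDerivAt (fun v : Pl => f (p, x, v)) ((fderiv ℝ f (p, x, z)).comp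
      ((ContinuousLinearMap.inr ℝ P (Pl × Pl)).comp (ContinuousLinearMap.inr ℝ Pl Pl))) z :=
    (hf (p, x, z)).hasFDerivAt.comp z h0
  rw [h.fderiv]
  rfl

theorem V6_dx {f : P × Pl × Pl → ℝ} (hf : Differentiable ℝ f) (p : P) (x z : Pl) :
    dx (fun v => f (p, x, v)) z = fderiv ℝ f (p, x, z) (0, 0, ((1 : ℝ), (0 : ℝ))) :=
  V6_slice hf p x z _

theorem V6_dy {f : P × Pl × Pl → ℝ} (hf : Differentiable ℝ f) (p : P) (x z : Pl) :
    dy (fun v => f (p, x, v)) z = fderiv ℝ f (p, x, z) (0, 0, ((0 : ℝ), (1 : ℝ))) :=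
  V6_slice hf p x z _

theorem V6_c1 (hℓ : ∀ q, 0 ≤ ℓ q) {G : κ → P × Pl × Pl → Co} (hG : EB ℓ G x) :
    EB ℓ (fun q e => (G q e).1) x := EB_clm hℓ hG (ContinuousLinearMap.fst ℝ ℝ (ℝ × ℝ))

theorem V6_c2 (hℓ : ∀ q, 0 ≤ ℓ q) {G : κ → P × Pl × Pl → Co} (hG : EB ℓ G x) :
    EB ℓ (fun q e => (G q e).2.1) x := EB_clm hℓ hG
  ((ContinuousLinearMap.fst ℝ ℝ ℝ).comp (ContinuousLinearMap.snd ℝ ℝ (ℝ × ℝ)))

theorem V6_c3 (hℓ : ∀ q, 0 ≤ ℓ q) {G : κ → P × Pl × Pl → Co} (hG : EB ℓ G x) :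
    EB ℓ (fun q e => (G q e).2.2) x := EB_clm hℓ hG
  ((ContinuousLinearMap.snd ℝ ℝ ℝ).comp (ContinuousLinearMap.snd ℝ ℝ (ℝ × ℝ)))

theorem V6_dt (hℓ : ∀ q, 0 ≤ ℓ q) {G : κ → P × Pl × Pl → Co} (hG : EB ℓ G x) :
    EB ℓ (fun q e => dt (G q e)) x := by
  have h := EB_sub hℓ (EB_mul hℓ (V6_c1 hℓ hG) (V6_c3 hℓ hG)) (EB_mul hℓ (V6_c2 hℓ hG) (V6_c2 hℓ hG))
  refine (iff_of_eq (congrArg (fun f => EB ℓ f x) ?_)).mp h
  funext q e
  unfold dt
  ring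

theorem V6_W (hℓ : ∀ q, 0 ≤ ℓ q) {G : κ → P × Pl × Pl → Co} (hG : EB ℓ G x)
    (hpos : ∀ q e, 0 < dt (G q e)) {C : ℝ}
    (hC : ∀ q, |dt (G q (x q))|⁻¹ ≤ C * Real.exp (C * ℓ q)) :
    EB ℓ (fun q e => (wt (fun z => G q (e.1, e.2.1, z)) e.2.2)⁻¹) x := by
  have h := EB_rpow hℓ (V6_dt hℓ hG) hpos hC (-(1 / 2))
  refine (iff_of_eq (congrArg (fun f => EB ℓ f x) ?_)).mp h
  funext q e
  show dt (G q e) ^ (-(1 / 2) : ℝ) = (√(dt (G q e)))⁻¹
  rw [Real.rpow_neg (hpos q e).le, Real.sqrt_eq_rpow]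

theorem V6_LL (hℓ : ∀ q, 0 ≤ ℓ q) {G : κ → P × Pl × Pl → Co} (hG : EB ℓ G x)
    (hpos : ∀ q e, 0 < dt (G q e)) {C : ℝ}
    (hC : ∀ q, |dt (G q (x q))|⁻¹ ≤ C * Real.exp (C * ℓ q)) {u : κ → P × Pl × Pl → ℝ}
    (hu : EB ℓ u x) :
    EB ℓ (fun q e => LL (fun z => G q (e.1, e.2.1, z)) (fun z => u q (e.1, e.2.1, z)) e.2.2) x := by
  have h1 := V6_c1 hℓ hG
  have h2 := V6_c2 hℓ hG
  have h3 := V6_c3 hℓ hG
  have hW := V6_W hℓ hG hpos hC
  have hux := EB_fderiv_apply hℓ hu ((0 : P), (0 : Pl), ((1 : ℝ), (0 : ℝ)))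
  have huy := EB_fderiv_apply hℓ hu ((0 : P), (0 : Pl), ((0 : ℝ), (1 : ℝ)))
  have hud : ∀ q, Differentiable ℝ (u q) := fun q => (hu.smooth q).differentiable (by simp)
  have ha := EB_mul hℓ (EB_sub hℓ (EB_mul hℓ h3 hux) (EB_mul hℓ h2 huy)) hW
  have hb := EB_mul hℓ (EB_sub hℓ (EB_mul hℓ h1 huy) (EB_mul hℓ h2 hux)) hW
  have had := EB_fderiv_apply hℓ ha ((0 : P), (0 : Pl), ((1 : ℝ), (0 : ℝ)))
  have hbd := EB_fderiv_apply hℓ hb ((0 : P), (0 : Pl), ((0 : ℝ), (1 : ℝ)))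
  have hfin := EB_mul hℓ (EB_add hℓ had hbd) hW
  refine (iff_of_eq (congrArg (fun f => EB ℓ f x) ?_)).mp hfin
  funext q e
  obtain ⟨p, y, v⟩ := e
  unfold LL
  rw [← V6_dx ((ha.smooth q).differentiable (by simp)) p y v,
    ← V6_dy ((hb.smooth q).differentiable (by simp)) p y v, ← div_eq_mul_inv]
  congr 2
  · congr 1
    funext z
    rw [V6_dx (hud q), V6_dy (hud q), div_eq_mul_inv]
  · congr 1
    funext z
    rw [V6_dx (hud q), V6_dy (hud q), div_eq_mul_inv]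

theorem V6_gr (hℓ : ∀ q, 0 ≤ ℓ q) {G : κ → P × Pl × Pl → Co} (hG : EB ℓ G x)
    (hpos : ∀ q e, 0 < dt (G q e)) {C : ℝ}
    (hC : ∀ q, |dt (G q (x q))|⁻¹ ≤ C * Real.exp (C * ℓ q)) {u w : κ → P × Pl × Pl → ℝ}
    (hu : EB ℓ u x) (hw : EB ℓ w x) :
    EB ℓ (fun q e => gr (fun z => G q (e.1, e.2.1, z)) (fun z => u q (e.1, e.2.1, z))
      (fun z => w q (e.1, e.2.1, z)) e.2.2) x := by
  have h1 := V6_c1 hℓ hG
  have h2 := V6_c2 hℓ hG
  have h3 := V6_c3 hℓ hG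
  have hW := V6_W hℓ hG hpos hC
  have hux := EB_fderiv_apply hℓ hu ((0 : P), (0 : Pl), ((1 : ℝ), (0 : ℝ)))
  have huy := EB_fderiv_apply hℓ hu ((0 : P), (0 : Pl), ((0 : ℝ), (1 : ℝ)))
  have hwx := EB_fderiv_apply hℓ hw ((0 : P), (0 : Pl), ((1 : ℝ), (0 : ℝ)))
  have hwy := EB_fderiv_apply hℓ hw ((0 : P), (0 : Pl), ((0 : ℝ), (1 : ℝ)))
  have hud : ∀ q, Differentiable ℝ (u q) := fun q => (hu.smooth q).differentiable (by simp)
  have hwd : ∀ q, Differentiable ℝ (w q) := fun q => (hw.smooth q).differentiable (by simp)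
  have ha := EB_sub hℓ (EB_mul hℓ h3 (EB_mul hℓ hux hwx))
    (EB_mul hℓ h2 (EB_add hℓ (EB_mul hℓ hux hwy) (EB_mul hℓ huy hwx)))
  have hb := EB_add hℓ ha (EB_mul hℓ h1 (EB_mul hℓ huy hwy))
  have hfin := EB_mul hℓ (EB_mul hℓ hb hW) hW
  refine (iff_of_eq (congrArg (fun f => EB ℓ f x) ?_)).mp hfin
  funext q e
  obtain ⟨p, y, v⟩ := e
  unfold gr wf2
  rw [V6_dx (hud q), V6_dy (hud q), V6_dx (hwd q), V6_dy (hwd q)]
  show _ = _ / √(dt (G q (p, y, v))) / √(dt (G q (p, y, v)))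
  show _ * (√(dt (G q (p, y, v))))⁻¹ * (√(dt (G q (p, y, v))))⁻¹ = _
  rw [div_eq_mul_inv, div_eq_mul_inv]
  ring

end V6_general

variable {Γ : Type} [Group Γ] [MulAction Γ Pl] {D : Set Pl}
variable {ι P : Type} [NormedAddCommGroup P] [NormedSpace ℝ P] [FiniteDimensional ℝ P]
  {m : Pl → Co} {a b : ℝ} {s : ι → P × Pl → ℝ}

omit [FiniteDimensional ℝ P] in
theorem mm_SM (h : CF Γ D m a b s) (i : ι) (p : P) : SM (mm m (s i) p) :=
  ⟨(hm_mm h i p).smooth, (hm_mm h i p).pos⟩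

omit [FiniteDimensional ℝ P] in
theorem V6_smooth (h : CF Γ D m a b s) {Q : ι → P × Pl × Pl → ℝ} (hQ : Adm Γ D m s Q)
    (q : Ix ι P Γ D) : ContDiff ℝ ∞ (Q q.i) := by
  have h1 : ContDiff ℝ ∞ (fun e : P × Pl × Pl => Q q.i (e.1, e.2.1, q.g • e.2.2)) := hQ.smooth q
  have h2 : ContDiff ℝ ∞ (fun e : P × Pl × Pl => (e.1, e.2.1, q.g⁻¹ • e.2.2)) :=
    contDiff_fst.prodMk ((contDiff_fst.comp contDiff_snd).prodMk
      ((h.hX.smooth q.g⁻¹).comp (contDiff_snd.comp contDiff_snd)))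
  have h3 := h1.comp h2
  have h4 : ((fun e : P × Pl × Pl => Q q.i (e.1, e.2.1, q.g • e.2.2)) ∘
      fun e : P × Pl × Pl => (e.1, e.2.1, q.g⁻¹ • e.2.2)) = Q q.i := by
    funext e
    show Q q.i (e.1, e.2.1, q.g • q.g⁻¹ • e.2.2) = Q q.i e
    rw [smul_inv_smul]
  rw [h4] at h3
  exact h3

theorem V6_metric (h : CF Γ D m a b s) :
    EB (fun q : Ix ι P Γ D => ll m s q) (fun q e => mm m (s q.i) e.1 e.2.2) Ix.b := by
  have hK : IsCompact (closure D) := h.hX.bdd.isCompact_closure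
  have h0 := EB0_mm h hK
  obtain ⟨R, hR⟩ := hK.isBounded.exists_norm_le
  have h1 : EB (fun _ : Ix ι P Γ D => (0 : ℝ)) (fun q (e : P × Pl) => mm m (s q.i) e.1 e.2)
      (fun q => (q.p, q.y)) :=
    ⟨fun q => h0.smooth ⟨q.i, q.p, q.y, q.y, q.hp, q.hy, q.hy⟩, fun k => by
      obtain ⟨C, hC⟩ := h0.bound k
      exact ⟨C, fun q => hC ⟨q.i, q.p, q.y, q.y, q.hp, q.hy, q.hy⟩⟩⟩
  have h2 : EB (fun _ : Ix ι P Γ D => (0 : ℝ)) (fun _ (e : P × Pl × Pl) => e) Ix.b := by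
    refine EB_id (fun _ => le_rfl) (C := max 1 R) fun q => ?_
    rw [mul_zero, Real.exp_zero, mul_one]
    have e1 : ‖q.x‖ ≤ R := hR q.x q.hx
    have e2 : ‖q.y‖ ≤ R := hR q.y q.hy
    show ‖(q.p, q.x, q.y)‖ ≤ _
    rw [Prod.norm_def, Prod.norm_def]
    exact max_le (q.hp.trans (le_max_left _ _)) (max_le (e1.trans (le_max_right _ _))
      (e2.trans (le_max_right _ _)))
  have h3 := EB_clm (fun _ => le_rfl) h2 ((ContinuousLinearMap.fst ℝ P (Pl × Pl)).prod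
    ((ContinuousLinearMap.snd ℝ Pl Pl).comp (ContinuousLinearMap.snd ℝ P (Pl × Pl))))
  have h3' : EB (fun _ : Ix ι P Γ D => (0 : ℝ)) (fun _ (e : P × Pl × Pl) => (e.1, e.2.2)) Ix.b := h3
  have h4 := EB_comp (ι := Ix ι P Γ D) (E := P × Pl × Pl) (F := P × Pl) (G := Co)
    (ℓ := fun _ => (0 : ℝ)) (x := Ix.b) (g := fun (q : Ix ι P Γ D) (e : P × Pl) =>
      mm m (s q.i) e.1 e.2) (f := fun _ (e : P × Pl × Pl) => (e.1, e.2.2))
    (fun _ => le_rfl) h1 h3'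
  exact EB_of_EB0 h4 (ll_nonneg m s)

theorem V6_low (h : CF Γ D m a b s) : ∃ C : ℝ, ∀ q : Ix ι P Γ D,
    |dt (mm m (s q.i) q.p q.y)|⁻¹ ≤ C * Real.exp (C * ll m s q) := by
  have hK : IsCompact (closure D) := h.hX.bdd.isCompact_closure
  obtain ⟨c, hc, hlow⟩ := mm_low h hK
  refine ⟨c⁻¹, fun q => ?_⟩
  have h1 := (hlow ⟨q.i, q.p, q.y, q.y, q.hp, q.hy, q.hy⟩).2
  have h2 : c ≤ dt (mm m (s q.i) q.p q.y) := h1
  rw [abs_of_pos (hc.trans_le h2)]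
  have h3 : (dt (mm m (s q.i) q.p q.y))⁻¹ ≤ c⁻¹ := inv_anti₀ hc h2
  refine h3.trans (le_mul_of_one_le_right (inv_pos.2 hc).le (Real.one_le_exp ?_))
  exact mul_nonneg (inv_pos.2 hc).le (ll_nonneg m s q)

theorem Adm_LL (h : CF Γ D m a b s) {Q : ι → P × Pl × Pl → ℝ} (hQ : Adm Γ D m s Q) :
    Adm Γ D m s (fun i e => LL (mm m (s i) e.1) (fun z => Q i (e.1, e.2.1, z)) e.2.2) := by
  obtain ⟨C, hC⟩ := V6_low (ι := ι) (P := P) h
  have h1 := V6_LL (ll_nonneg m s) (V6_metric (ι := ι) (P := P) h)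
    (fun q e => ((hm_mm h q.i e.1).pos e.2.2).2) hC hQ
  unfold Adm
  refine (iff_of_eq (congrArg (fun f => EB (fun q : Ix ι P Γ D => ll m s q) f Ix.b) ?_)).mp h1
  funext q e
  have hs : ContDiff ℝ ∞ (fun z => Q q.i (e.1, e.2.1, z)) :=
    (V6_smooth h hQ q).comp (contDiff_const.prodMk (contDiff_const.prodMk contDiff_id))
  exact LL_pull (mm_SM h q.i e.1) (mm_SM h q.i e.1) (φ := fun z => q.g • z)
    (ψ := fun z => q.g⁻¹ • z) (h.hX.smooth q.g) (h.hX.smooth q.g⁻¹)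
    (fun z => inv_smul_smul q.g z) (fun z => smul_inv_smul q.g z)
    (fun z v => (hm_mm h q.i e.1).inv q.g z v) hs e.2.2

theorem Adm_gr (h : CF Γ D m a b s) {Q R : ι → P × Pl × Pl → ℝ} (hQ : Adm Γ D m s Q)
    (hR : Adm Γ D m s R) :
    Adm Γ D m s (fun i e => gr (mm m (s i) e.1) (fun z => Q i (e.1, e.2.1, z))
      (fun z => R i (e.1, e.2.1, z)) e.2.2) := by
  obtain ⟨C, hC⟩ := V6_low (ι := ι) (P := P) h
  have h1 := V6_gr (ll_nonneg m s) (V6_metric (ι := ι) (P := P) h)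
    (fun q e => ((hm_mm h q.i e.1).pos e.2.2).2) hC hQ hR
  unfold Adm
  refine (iff_of_eq (congrArg (fun f => EB (fun q : Ix ι P Γ D => ll m s q) f Ix.b) ?_)).mp h1
  funext q e
  have hs : ContDiff ℝ ∞ (fun z => Q q.i (e.1, e.2.1, z)) :=
    (V6_smooth h hQ q).comp (contDiff_const.prodMk (contDiff_const.prodMk contDiff_id))
  have hs' : ContDiff ℝ ∞ (fun z => R q.i (e.1, e.2.1, z)) :=
    (V6_smooth h hR q).comp (contDiff_const.prodMk (contDiff_const.prodMk contDiff_id))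
  exact gr_pull (mm_SM h q.i e.1) (mm_SM h q.i e.1) (φ := fun z => q.g • z)
    (h.hX.smooth q.g) (fun z v => (hm_mm h q.i e.1).inv q.g z v) hs hs' e.2.2

end BE
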