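import Pool.Agent.LibBE88.A6
import Pool.Agent.LibBE88.C4
import Pool.Agent.LibBR73.AN5b

/-! Row BE88 V7 (cites `LibBR70/H1h`, `H1n`, A1, A4, A6, C4): the logarithmic density `ff`: smoothness
and local bounds. MEDIUM, 50 min.
Plan. `wt_form`: for `v = r • u`, `r > 0`, `eu u = 1`: `Ex_det` and `mE_dt` (`dt (mE ..) = (JB / r) ^ 2`,
`JB / r > 0` by `JB_ge`), `wt (Gx m x) v = √(dt (mE m (x, v)))`; for `v = 0`: `Ex_det_zero`, `mE_zero`.
`wt_one`: `mE_pos`. With `fderiv ℝ (Ex m x) v w = fderiv ℝ (JE ..) (p, x, v) (0, 0, w)` (chain rule) the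
function `wt` at `(p, x, v)` is `√(dt (mm (JE e))) * det`, `det` a polynomial in the components of
`fderiv (JE m (s i)) e (0, 0, (1, 0))`, `.. (0, 0, (0, 1))` (2 × 2 determinant: `H1h_det` with the standard
basis, `LinearMap.det` via `wd`), so `ff_smooth`: composition of smooth functions (`wt ≥ 1 > 0`,
`ContDiff.log`, `JE_smooth`, `JV_smooth`). `EB0_ffd`: at `e = (p, z, w)`, `z, w ∈ closure D`, `g ∈ S`: the family
`(p, z, v) ↦ wt` is `EB0` at the points `(p, z, v)`, `z ∈ closure D`, `v` in a compact set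
(`EB0_JE`, `EB_fderiv_apply`, `EB0_mm` at the points `JE ..` in a compact set, `EB_sqrt`, `EB_mul`, `EB_sub`),
composed with `e ↦ (e.1, e.2.1, JV (e.1, e.2.1, g • e.2.2))` (`EB0_JVd`), then `EB_log` (`wt ≥ 1`, so the
inverse is `≤ 1`). `ff_deck`: `B0_deck` (`LibBR73/AN5b.lean`, import it) or `Vx_deck`, `mE_dt`, `JB_deck`. -/

open MeasureTheory Set Filter Topology
open scoped ContDiff

namespace BE

open BGS BR

variable {Γ : Type} [Group Γ] [MulAction Γ Pl] {D : Set Pl}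
variable {ι P : Type} [NormedAddCommGroup P] [NormedSpace ℝ P] [FiniteDimensional ℝ P]
  {m : Pl → Co} {a b : ℝ} {s : ι → P × Pl → ℝ}

theorem V7_dir {v : Pl} (hv : v ≠ 0) :
    ∃ (r : ℝ) (u : Pl), 0 < r ∧ eu u = 1 ∧ v = r • u := by
  have h0 : 0 < v.1 ^ 2 + v.2 ^ 2 := by
    rcases eq_or_ne v.1 0 with h1 | h1
    · rcases eq_or_ne v.2 0 with h2 | h2
      · exact absurd (Prod.ext h1 h2) hv
      · positivity
    · positivity
  have h1 : 0 < eu v := Real.sqrt_pos.2 h0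
  refine ⟨eu v, (eu v)⁻¹ • v, h1, ?_, ?_⟩
  · rw [AN0_eu_smul, abs_of_pos (inv_pos.2 h1)]
    exact inv_mul_cancel₀ h1.ne'
  · rw [smul_smul, mul_inv_cancel₀ h1.ne', one_smul]

omit [FiniteDimensional ℝ P] [NormedSpace ℝ P] [NormedAddCommGroup P] in
theorem wt_form (hX : Surface Γ D) (hm : HM Γ m) (x v : Pl) :
    wt (Gx m x) v = √(dt (m (Ex m x v))) * (fderiv ℝ (Ex m x) v).det ∧ 1 ≤ wt (Gx m x) v := by
  refine ⟨?_, ?_⟩
  · by_cases hv : v = 0
    · rw [hv, Ex_zero hX hm, Ex_det_zero hX hm]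
      unfold wt Gx dt
      rw [mE_zero hX hm]
      norm_num
    · obtain ⟨r, u, hr, hu, rfl⟩ := V7_dir hv
      rw [Ex_det hX hm hu hr]
      unfold wt Gx
      rw [mE_dt hX hm hu hr]
      have h1 := (JB_ge hX hm (x := x) hu hr.le).1
      exact Real.sqrt_sq (div_nonneg (hr.le.trans h1) hr.le)
  · unfold wt Gx
    have h1 := (mE_pos hX hm (x, v)).2
    exact Real.one_le_sqrt.2 h1

/-- The density as a function of `(p, x, v)`. -/
noncomputable def V7_W (m : Pl → Co) (s : P × Pl → ℝ) (e : P × Pl × Pl) : ℝ :=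
  wt (Gx (mm m s e.1) e.2.1) e.2.2

theorem V7_ff (m : Pl → Co) (s : P × Pl → ℝ) (e : P × Pl × Pl) :
    ff m s e = Real.log (V7_W m s (e.1, e.2.1, JV m s e)) := rfl

theorem V7_one (h : CF Γ D m a b s) (i : ι) (e : P × Pl × Pl) : 1 ≤ V7_W m (s i) e :=
  (wt_form h.hX (hm_mm h i e.1) e.2.1 e.2.2).2

theorem V7_slice (h : CF Γ D m a b s) (i : ι) (p : P) (x v w : Pl) :
    fderiv ℝ (Ex (mm m (s i) p) x) v w = fderiv ℝ (JE m (s i)) (p, x, v) (0, 0, w) := by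
  have h1 : HasFDerivAt (JE m (s i)) (fderiv ℝ (JE m (s i)) (p, x, v)) (p, x, v) :=
    ((JE_smooth h i).differentiable (by simp) _).hasFDerivAt
  have h2 : HasFDerivAt (fun v : Pl => ((p, x, v) : P × Pl × Pl))
      ((ContinuousLinearMap.inr ℝ P (Pl × Pl)).comp (ContinuousLinearMap.inr ℝ Pl Pl)) v :=
    (hasFDerivAt_prodMk_right p (x, v)).comp v (hasFDerivAt_prodMk_right x v)
  have h3 := h1.comp v h2
  have h4 : (JE m (s i) ∘ fun v : Pl => ((p, x, v) : P × Pl × Pl)) = Ex (mm m (s i) p) x := rfl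
  rw [h4] at h3
  rw [h3.fderiv]
  rfl

/-- The formula for the density. -/
theorem V7_form (h : CF Γ D m a b s) (i : ι) (e : P × Pl × Pl) :
    V7_W m (s i) e = √(dt (mm m (s i) e.1 (JE m (s i) e))) *
      wd (fderiv ℝ (JE m (s i)) e (0, 0, ((1 : ℝ), (0 : ℝ))))
        (fderiv ℝ (JE m (s i)) e (0, 0, ((0 : ℝ), (1 : ℝ)))) := by
  obtain ⟨p, x, v⟩ := e
  unfold V7_W
  simp only
  rw [(wt_form h.hX (hm_mm h i p) x v).1]
  have h1 := H1h_det (fderiv ℝ (Ex (mm m (s i) p) x) v) (1, 0) (0, 1)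
  have h2 : wd ((1, 0) : Pl) (0, 1) = 1 := by simp [wd]
  rw [h2, mul_one, V7_slice h, V7_slice h] at h1
  rw [← h1]
  rfl

theorem V7_fd (h : CF Γ D m a b s) (i : ι) (v : P × Pl × Pl) :
    ContDiff ℝ ∞ (fun e => fderiv ℝ (JE m (s i)) e v) :=
  ((JE_smooth h i).fderiv_right (m := ∞) (by simp)).clm_apply contDiff_const

theorem V7_mms (h : CF Γ D m a b s) (i : ι) :
    ContDiff ℝ ∞ (fun e : P × Pl => mm m (s i) e.1 e.2) :=
  ((h.smooth i).exp).smul (h.hm.smooth.comp contDiff_snd)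

theorem V7_smooth (h : CF Γ D m a b s) (i : ι) : ContDiff ℝ ∞ (V7_W m (s i)) := by
  have h1 : ContDiff ℝ ∞ (fun e : P × Pl × Pl => mm m (s i) e.1 (JE m (s i) e)) :=
    (V7_mms h i).comp (contDiff_fst.prodMk (JE_smooth h i))
  have h2 : ContDiff ℝ ∞ (fun e : P × Pl × Pl => dt (mm m (s i) e.1 (JE m (s i) e))) := by
    unfold dt
    exact (h1.fst.mul h1.snd.snd).sub (h1.snd.fst.pow 2)
  have h3 : ContDiff ℝ ∞ (fun e : P × Pl × Pl => √(dt (mm m (s i) e.1 (JE m (s i) e)))) :=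
    h2.sqrt fun e => ((hm_mm h i e.1).pos _).2.ne'
  have h4 := V7_fd h i (0, 0, ((1 : ℝ), (0 : ℝ)))
  have h5 := V7_fd h i (0, 0, ((0 : ℝ), (1 : ℝ)))
  have h6 : V7_W m (s i) = fun e => √(dt (mm m (s i) e.1 (JE m (s i) e))) *
      wd (fderiv ℝ (JE m (s i)) e (0, 0, ((1 : ℝ), (0 : ℝ))))
        (fderiv ℝ (JE m (s i)) e (0, 0, ((0 : ℝ), (1 : ℝ)))) := funext fun e => V7_form h i e
  rw [h6]
  unfold wd
  exact h3.mul ((h4.fst.mul h5.snd).sub (h4.snd.mul h5.fst))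

theorem ff_smooth (h : CF Γ D m a b s) (i : ι) : ContDiff ℝ ∞ (ff m (s i)) := by
  have h1 : ContDiff ℝ ∞ (fun e : P × Pl × Pl => V7_W m (s i) (e.1, e.2.1, JV m (s i) e)) :=
    (V7_smooth h i).comp (contDiff_fst.prodMk (contDiff_snd.fst.prodMk (JV_smooth h i)))
  exact h1.log fun e => (lt_of_lt_of_le one_pos (V7_one h i _)).ne'

theorem ff_nonneg (h : CF Γ D m a b s) (i : ι) (e : P × Pl × Pl) : 0 ≤ ff m (s i) e :=
  Real.log_nonneg (V7_one h i (e.1, e.2.1, JV m (s i) e))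

/-- Reindexing. -/
theorem V7_re {ι' ι'' E F : Type} [NormedAddCommGroup E] [NormedSpace ℝ E]
    [NormedAddCommGroup F] [NormedSpace ℝ F] {x : ι' → E} {f : ι' → E → F} (hf : EB0 f x)
    (φ : ι'' → ι') : EB0 (fun q => f (φ q)) (fun q => x (φ q)) := by
  refine ⟨fun q => hf.smooth _, fun k => ?_⟩
  obtain ⟨C, hC⟩ := hf.bound k
  exact ⟨C, fun q => hC (φ q)⟩

theorem V7_val {ι' E F : Type} [NormedAddCommGroup E] [NormedSpace ℝ E]
    [NormedAddCommGroup F] [NormedSpace ℝ F] {x : ι' → E} {f : ι' → E → F} (hf : EB0 f x) :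
    ∃ C : ℝ, ∀ q, ‖f q (x q)‖ ≤ C := by
  obtain ⟨C, hC⟩ := hf.bound 0
  refine ⟨C, fun q => ?_⟩
  have h1 := hC q
  rw [norm_iteratedFDeriv_zero, mul_zero, Real.exp_zero, mul_one] at h1
  exact h1

theorem V7_congr {ι' E F : Type} [NormedAddCommGroup E] [NormedSpace ℝ E]
    [NormedAddCommGroup F] [NormedSpace ℝ F] {x : ι' → E} {f g : ι' → E → F} (hf : EB0 f x)
    (he : ∀ i y, f i y = g i y) : EB0 g x := by
  have h1 : f = g := funext fun i => funext fun y => he i y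
  rw [← h1]
  exact hf

omit [FiniteDimensional ℝ P] in
theorem V7_idb {K : Set Pl} (hK : IsCompact K) :
    EB0 (fun (_ : Lx ι P K) (e : P × Pl × Pl) => e) (Lx.b (ι := ι)) := by
  obtain ⟨C, hC⟩ := hK.isBounded.exists_norm_le
  refine EB_id (fun _ => le_rfl) (C := max 1 C) fun q => ?_
  rw [mul_zero, Real.exp_zero, mul_one]
  unfold Lx.b
  rw [Prod.norm_def, Prod.norm_def]
  refine max_le (q.hp.trans (le_max_left _ _)) (max_le ?_ ?_)
  · exact (hC _ q.hz).trans (le_max_right _ _)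
  · exact (hC _ q.hw).trans (le_max_right _ _)

theorem V7_EBW (h : CF Γ D m a b s) {K : Set Pl} (hK : IsCompact K) :
    EB0 (fun q : Lx ι P K => V7_W m (s q.i)) Lx.b := by
  have hJ := EB0_JE h hK
  obtain ⟨C, hC⟩ := V7_val hJ
  have hK' : IsCompact (Metric.closedBall (0 : Pl) C) := isCompact_closedBall 0 C
  have hmem : ∀ q : Lx ι P K, JE m (s q.i) q.b ∈ Metric.closedBall (0 : Pl) C := fun q => by
    rw [mem_closedBall_zero_iff]
    exact hC q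
  let φ : Lx ι P K → Lx ι P (Metric.closedBall (0 : Pl) C) := fun q =>
    ⟨q.i, q.p, JE m (s q.i) q.b, JE m (s q.i) q.b, q.hp, hmem q, hmem q⟩
  -- the metric at the point `JE`
  have hM : EB0 (fun (q : Lx ι P K) (e : P × Pl) => mm m (s q.i) e.1 e.2)
      (fun q => (q.p, JE m (s q.i) q.b)) := V7_re (EB0_mm h hK') φ
  have hid : EB0 (fun (_ : Lx ι P K) (e : P × Pl × Pl) => e.1) Lx.b :=
    EB_clm (fun _ => le_rfl) (V7_idb (ι := ι) (P := P) hK) (ContinuousLinearMap.fst ℝ P (Pl × Pl))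
  have hMJ : EB0 (fun (q : Lx ι P K) (e : P × Pl × Pl) =>
      mm m (s q.i) e.1 (JE m (s q.i) e)) Lx.b :=
    EB_comp (fun _ => le_rfl) (g := fun (q : Lx ι P K) (e : P × Pl) => mm m (s q.i) e.1 e.2)
      (f := fun (q : Lx ι P K) (e : P × Pl × Pl) => (e.1, JE m (s q.i) e)) hM
      (EB_prod (fun _ => le_rfl) hid hJ)
  have hE := EB_clm (fun _ => le_rfl) hMJ (ContinuousLinearMap.fst ℝ ℝ (ℝ × ℝ))
  have hF := EB_clm (fun _ => le_rfl) hMJ
    ((ContinuousLinearMap.fst ℝ ℝ ℝ).comp (ContinuousLinearMap.snd ℝ ℝ (ℝ × ℝ)))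
  have hG := EB_clm (fun _ => le_rfl) hMJ
    ((ContinuousLinearMap.snd ℝ ℝ ℝ).comp (ContinuousLinearMap.snd ℝ ℝ (ℝ × ℝ)))
  have hD0 := EB_sub (fun _ => le_rfl) (EB_mul (fun _ => le_rfl) hE hG)
    (EB_mul (fun _ => le_rfl) hF hF)
  have hD : EB0 (fun (q : Lx ι P K) (e : P × Pl × Pl) =>
      dt (mm m (s q.i) e.1 (JE m (s q.i) e))) Lx.b := by
    refine V7_congr hD0 fun q e => ?_
    unfold dt
    rw [sq]
    rfl
  obtain ⟨c, hc, hc'⟩ := mm_low h hK' (ι := ι) (P := P)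
  have hS : EB0 (fun (q : Lx ι P K) (e : P × Pl × Pl) =>
      √(dt (mm m (s q.i) e.1 (JE m (s q.i) e)))) Lx.b := by
    refine EB_sqrt (fun _ => le_rfl) hD (fun q e => ((hm_mm h q.i e.1).pos _).2) (C := c⁻¹)
      fun q => ?_
    rw [mul_zero, Real.exp_zero, mul_one]
    exact inv_anti₀ hc (hc' (φ q)).2
  have hA := EB_fderiv_apply (fun _ => le_rfl) hJ (0, 0, ((1 : ℝ), (0 : ℝ)))
  have hB := EB_fderiv_apply (fun _ => le_rfl) hJ (0, 0, ((0 : ℝ), (1 : ℝ)))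
  have hA1 := EB_clm (fun _ => le_rfl) hA (ContinuousLinearMap.fst ℝ ℝ ℝ)
  have hA2 := EB_clm (fun _ => le_rfl) hA (ContinuousLinearMap.snd ℝ ℝ ℝ)
  have hB1 := EB_clm (fun _ => le_rfl) hB (ContinuousLinearMap.fst ℝ ℝ ℝ)
  have hB2 := EB_clm (fun _ => le_rfl) hB (ContinuousLinearMap.snd ℝ ℝ ℝ)
  have hfin := EB_mul (fun _ => le_rfl) hS (EB_sub (fun _ => le_rfl)
    (EB_mul (fun _ => le_rfl) hA1 hB2) (EB_mul (fun _ => le_rfl) hA2 hB1))
  refine V7_congr hfin fun q e => ?_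
  rw [V7_form h]
  rfl

theorem EB0_ffd (h : CF Γ D m a b s) {S : Set Γ} (hS : S.Finite) :
    EB0 (fun (q : Lx ι P (closure D) × S) (e : P × Pl × Pl) =>
      ff m (s q.1.i) (e.1, e.2.1, (q.2 : Γ) • e.2.2)) (fun q => q.1.b) := by
  have hJ := EB0_JVd h hS (ι := ι) (P := P)
  obtain ⟨C, hC⟩ := V7_val hJ
  have hDc : IsCompact (closure D) := h.hX.bdd.isCompact_closure
  have hK : IsCompact (closure D ∪ Metric.closedBall (0 : Pl) C) :=
    hDc.union (isCompact_closedBall 0 C)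
  let φ : Lx ι P (closure D) × S → Lx ι P (closure D ∪ Metric.closedBall (0 : Pl) C) := fun q =>
    ⟨q.1.i, q.1.p, q.1.z, JV m (s q.1.i) (q.1.p, q.1.z, (q.2 : Γ) • q.1.w), q.1.hp,
      Or.inl q.1.hz, Or.inr (by
        rw [mem_closedBall_zero_iff]
        exact hC q)⟩
  have hW : EB0 (fun (q : Lx ι P (closure D) × S) => V7_W m (s q.1.i))
      (fun q => (q.1.p, q.1.z, JV m (s q.1.i) (q.1.p, q.1.z, (q.2 : Γ) • q.1.w))) :=
    V7_re (V7_EBW h hK) φ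
  have hid : EB0 (fun (_ : Lx ι P (closure D) × S) (e : P × Pl × Pl) => e) (fun q => q.1.b) :=
    V7_re (V7_idb (ι := ι) (P := P) hDc) Prod.fst
  have h1 := EB_clm (fun _ => le_rfl) hid (ContinuousLinearMap.fst ℝ P (Pl × Pl))
  have h2 := EB_clm (fun _ => le_rfl) hid
    ((ContinuousLinearMap.fst ℝ Pl Pl).comp (ContinuousLinearMap.snd ℝ P (Pl × Pl)))
  have h3 := EB_prod (fun _ => le_rfl) h1 (EB_prod (fun _ => le_rfl) h2 hJ)
  have h4 : EB0 (fun (q : Lx ι P (closure D) × S) (e : P × Pl × Pl) =>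
      V7_W m (s q.1.i) (e.1, e.2.1, JV m (s q.1.i) (e.1, e.2.1, (q.2 : Γ) • e.2.2)))
      (fun q => q.1.b) :=
    EB_comp (fun _ => le_rfl) (g := fun (q : Lx ι P (closure D) × S) => V7_W m (s q.1.i))
      (f := fun (q : Lx ι P (closure D) × S) (e : P × Pl × Pl) =>
        ((e.1, e.2.1, JV m (s q.1.i) (e.1, e.2.1, (q.2 : Γ) • e.2.2)) : P × Pl × Pl)) hW h3
  refine EB_log (fun _ => le_rfl) h4 (fun q e => lt_of_lt_of_le one_pos
    (wt_form h.hX (hm_mm h q.1.i e.1) e.2.1 _).2) (C := 1) fun q => ?_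
  rw [mul_zero, Real.exp_zero, mul_one]
  exact inv_le_one_of_one_le₀ (wt_form h.hX (hm_mm h q.1.i q.1.p) q.1.z _).2

theorem ff_deck (h : CF Γ D m a b s) (i : ι) (p : P) (γ : Γ) (x y : Pl) :
    ff m (s i) (p, γ • x, γ • y) = ff m (s i) (p, x, y) := by
  have h1 := congrArg Real.log (B0_deck h.hX h.hO (hm_mm h i p) γ x y)
  have h2 : ∀ x y : Pl, 0 < wt (Gx (mm m (s i) p) x) (Vx (mm m (s i) p) x y) := fun x y =>
    lt_of_lt_of_le one_pos (wt_form h.hX (hm_mm h i p) x _).2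
  unfold B0 at h1
  rw [Real.log_rpow (h2 _ _), Real.log_rpow (h2 _ _)] at h1
  have h3 : ∀ x y : Pl, ff m (s i) (p, x, y) =
      Real.log (wt (Gx (mm m (s i) p) x) (Vx (mm m (s i) p) x y)) := fun _ _ => rfl
  rw [h3, h3]
  linarith

end BE
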