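import Pool.Agent.LibBE88.V6
import Pool.Agent.LibBE88.V7

/-! Row BE88 V8 (cites V4, V7, `LibBR70/PX1`, `H1n`, `PX8`): the derivative of `ff` along the ray.
MEDIUM, 45 min.
Plan. `Gx_PMt`: the metric in normal coordinates satisfies `PMt` (`Fam_Gx` of `LibBR70/PX8.lean`, field
`pm`). `LL_Ex`: `LL_pull` (row V4) with `c = Gx m x`, `c' = m`, `φ = Ex m x`, `ψ = Vx m x` (`Vx_Ex`, `Ex_Vx`,
`Ex_smooth`, `Vx_smooth`); `hq`: the definition of `mE` (`qf (m (Ex m x v)) (A w) = qf (mE m (x, v)) w`,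
expand `w = w.1 • (1, 0) + w.2 • (0, 1)`, `bf` is bilinear symmetric). `gr_Ex`: `gr_pull`.
`ff_ray`: put `V = JV m (s i) e`, `c = Gx (mm ..) x`. By `Vx_Ex`: `ff (p, x, gp r) = log (wt c (r • V))`, whose
derivative is `fderiv ℝ (wt c) (r • V) V / wt c (r • V) = (1 / r) ((r V).∇ wt) / wt`, and by `LL_sg`
(`LibBR70/PX1.lean`): `LL c sg (r V) = 4 + 2 ((r V).∇ wt) / wt`, so the derivative is
`(1 / r) (LL c sg (r V) / 2 - 2)`, and `LL_Ex` for `u = fun z => sg (Vx (mm ..) x z)` (`u ∘ Ex = sg`). -/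

open MeasureTheory Set Filter Topology
open scoped ContDiff

namespace BE

open BGS BR

variable {Γ : Type} [Group Γ] [MulAction Γ Pl] {D : Set Pl}
variable {ι P : Type} [NormedAddCommGroup P] [NormedSpace ℝ P] [FiniteDimensional ℝ P]
  {m : Pl → Co} {a b : ℝ} {s : ι → P × Pl → ℝ}

/-- `LL (d ^ 2) / 2 - 2` as a function of all variables. -/
noncomputable def RR (m : Pl → Co) (s : P × Pl → ℝ) (e : P × Pl × Pl) : ℝ :=
  LL (mm m s e.1) (fun z => sg (JV m s (e.1, e.2.1, z))) e.2.2 / 2 - 2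

omit [FiniteDimensional ℝ P] [NormedSpace ℝ P] [NormedAddCommGroup P] in
theorem Gx_PMt (hX : Surface Γ D) (hO : Ori Γ) (hm : HM Γ m) (x : Pl) : PMt (Gx m x) :=
  BR.Gx_PMt hX hm x

private theorem V8_SM {G : Pl → Co} (hG : PMt G) : SM G := ⟨hG.smooth, hG.pos⟩

private theorem V8_lin (A : Pl →L[ℝ] Pl) (v : Pl) : A v = v.1 • A (1, 0) + v.2 • A (0, 1) := by
  rw [← map_smul, ← map_smul, ← map_add]
  congr 1
  ext <;> simp

private theorem V8_qf (x z v : Pl) :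
    qf (m (Ex m x z)) (fderiv ℝ (Ex m x) z v) = qf (Gx m x z) v := by
  rw [V8_lin (fderiv ℝ (Ex m x) z) v]
  simp only [Gx, mE, qf, bf, Prod.fst_add, Prod.snd_add, Prod.smul_fst, Prod.smul_snd,
    smul_eq_mul]
  ring

private theorem V8_Ex (hX : Surface Γ D) (hm : HM Γ m) (x : Pl) : ContDiff ℝ ∞ (Ex m x) :=
  (Ex_smooth hX hm).comp (contDiff_const.prodMk contDiff_id)

private theorem V8_Vx (hX : Surface Γ D) (hm : HM Γ m) (x : Pl) : ContDiff ℝ ∞ (Vx m x) :=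
  (Vx_smooth hX hm).comp (contDiff_const.prodMk contDiff_id)

omit [FiniteDimensional ℝ P] [NormedSpace ℝ P] [NormedAddCommGroup P] in
theorem LL_Ex (hX : Surface Γ D) (hO : Ori Γ) (hm : HM Γ m) (x : Pl) {u : Pl → ℝ}
    (hu : ContDiff ℝ ∞ u) (v : Pl) :
    LL (Gx m x) (fun w => u (Ex m x w)) v = LL m u (Ex m x v) :=
  LL_pull (V8_SM (Gx_PMt hX hO hm x)) ⟨hm.smooth, hm.pos⟩ (V8_Ex hX hm x) (V8_Vx hX hm x)
    (fun z => Vx_Ex hX hm x z) (fun z => Ex_Vx hX hm x z) (fun z v => V8_qf x z v) hu v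

omit [FiniteDimensional ℝ P] [NormedSpace ℝ P] [NormedAddCommGroup P] in
theorem gr_Ex (hX : Surface Γ D) (hO : Ori Γ) (hm : HM Γ m) (x : Pl) {u w : Pl → ℝ}
    (hu : ContDiff ℝ ∞ u) (hw : ContDiff ℝ ∞ w) (v : Pl) :
    gr (Gx m x) (fun z => u (Ex m x z)) (fun z => w (Ex m x z)) v = gr m u w (Ex m x v) :=
  gr_pull (V8_SM (Gx_PMt hX hO hm x)) ⟨hm.smooth, hm.pos⟩ (V8_Ex hX hm x)
    (fun z v => V8_qf x z v) hu hw v

theorem Adm_RR (h : CF Γ D m a b s) : Adm Γ D m s (fun i => RR m (s i)) := by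
  have h1 := Adm_LL h (Adm_d2 h)
  have h2 := Adm_sub (Adm_mul h1 (Adm_const (Γ := Γ) (D := D) (m := m) (s := s) (1 / 2 : ℝ)))
    (Adm_const (Γ := Γ) (D := D) (m := m) (s := s) (2 : ℝ))
  have e : (fun i => RR m (s i)) = fun i e =>
      LL (mm m (s i) e.1) (fun z => sg (JV m (s i) (e.1, e.2.1, z))) e.2.2 * (1 / 2) - 2 := by
    funext i e
    simp only [RR]
    ring
  rw [e]
  exact h2

theorem ff_ray (h : CF Γ D m a b s) (i : ι) (e : P × Pl × Pl) {r : ℝ} (hr : 0 < r) :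
    HasDerivAt (fun r => ff m (s i) (e.1, e.2.1, gp m (s i) r e))
      (RR m (s i) (e.1, e.2.1, gp m (s i) r e) / r) r := by
  have hM := hm_mm h i e.1
  set M : Pl → Co := mm m (s i) e.1 with hMd
  set V : Pl := JV m (s i) e with hV
  set c : Pl → Co := Gx M e.2.1 with hc
  have hc1 : PMt c := BR.Gx_PMt h.hX hM e.2.1
  have hJ : ∀ r : ℝ, JV m (s i) (e.1, e.2.1, gp m (s i) r e) = r • V := by
    intro r
    exact Vx_Ex h.hX hM e.2.1 (r • V)
  have hf : (fun r => ff m (s i) (e.1, e.2.1, gp m (s i) r e)) =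
      fun r : ℝ => Real.log (wt c (r • V)) := by
    funext r
    show Real.log (wt c (JV m (s i) (e.1, e.2.1, gp m (s i) r e))) = _
    rw [hJ r]
  have hw := wt_smooth hc1
  have hw0 := wt_pos hc1 (r • V)
  have h1 : HasDerivAt (fun r : ℝ => r • V) V r := by
    simpa using (hasDerivAt_id r).smul_const V
  have h2 : HasFDerivAt (wt c) (fderiv ℝ (wt c) (r • V)) (r • V) :=
    ((hw.differentiable (by simp)) (r • V)).hasFDerivAt
  have h3 : HasDerivAt (fun r : ℝ => wt c (r • V)) (fderiv ℝ (wt c) (r • V) V) r := by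
    have h3' := HasFDerivAt.comp_hasDerivAt (l := wt c) (f := fun r : ℝ => r • V) r h2 h1
    exact h3'
  have h4 : HasDerivAt (fun r : ℝ => Real.log (wt c (r • V)))
      (fderiv ℝ (wt c) (r • V) V / wt c (r • V)) r := h3.log hw0.ne'
  have h5 : RR m (s i) (e.1, e.2.1, gp m (s i) r e) / r =
      fderiv ℝ (wt c) (r • V) V / wt c (r • V) := by
    have hu : ContDiff ℝ ∞ (fun z => sg (Vx M e.2.1 z)) :=
      PX1_sg_smooth.comp (V8_Vx h.hX hM e.2.1)
    have h6 := LL_Ex h.hX h.hO hM e.2.1 hu (r • V)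
    have h7 : (fun w => sg (Vx M e.2.1 (Ex M e.2.1 w))) = sg := by
      funext w
      rw [Vx_Ex h.hX hM]
    rw [h7] at h6
    have h8 : RR m (s i) (e.1, e.2.1, gp m (s i) r e) = LL c sg (r • V) / 2 - 2 := by
      rw [hc, h6]
      rfl
    rw [h8, LL_sg hc1]
    have h9 : fderiv ℝ (wt c) (r • V) V = V.1 * dx (wt c) (r • V) + V.2 * dy (wt c) (r • V) := by
      have h10 : V = V.1 • ((1, 0) : Pl) + V.2 • ((0, 1) : Pl) := by
        ext <;> simp
      calc fderiv ℝ (wt c) (r • V) V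
          = fderiv ℝ (wt c) (r • V) (V.1 • ((1, 0) : Pl) + V.2 • ((0, 1) : Pl)) := by rw [← h10]
        _ = _ := by
          rw [map_add, map_smul, map_smul]
          rfl
    rw [h9]
    simp only [Prod.smul_fst, Prod.smul_snd, smul_eq_mul]
    field_simp
    ring
  rw [hf, h5]
  exact h4

end BE
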