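import Pool.Agent.LibBE88.V3
import Pool.Agent.LibBE88.V8

/-! Row BE88 V9 (cites V1, V3, V7, V8, G1): `ff` is in the class `Adm`. MEDIUM, 45 min.
Plan. At the index `q`, `N = q.N m s ≥ 1`, `L = log N ≥ 0`, `E = (e.1, e.2.1, g • e.2.2)`. Integrating
`ff_ray` over `r ∈ [1 / N, 1]` with the substitution `r = exp (-(L θ))`, `θ ∈ [0, 1]`: the function
`θ ↦ ff (e.1, e.2.1, gp (exp (-(L θ))) E)` has the derivative `-L * RR (e.1, e.2.1, gp (exp (-(L θ))) E)`
(chain rule), so (`intervalIntegral.integral_eq_sub_of_hasDerivAt`)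
`ff (.., gp 1 E) - ff (.., gp (1 / N) E) = ∫ θ in 0..1, L * RR (.., gp (exp (-(L θ))) E)`, where
`gp 1 E = g • e.2.2` (`Ex_Vx`) and `gp (1 / N) E = z_1 e = sp_0 • w_1 e` (`γ_0 = 1`; for `N = 1` too).
So `ff (p, x, g • y) = ff (e.1, e.2.1, sp_0 • w_1 e) + ∫ ..`. The first term: `EB0_ffd` (row V7) with the
finite set of `sp_fin`, composed with `e ↦ (e.1, e.2.1, w_1 e)` (`EB_w`, `EB_comp`, `EB_prod`, as in row V1);
the second: `Adm_int'` (row V3) for `Adm_RR`, `L ≤ N - 1 ≤ exp (ll)` (`Real.log_le_sub_one_of_pos`, `d_N`). -/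

open MeasureTheory Set Filter Topology
open scoped ContDiff

namespace BE

open BGS BR

variable {Γ : Type} [Group Γ] [MulAction Γ Pl] {D : Set Pl}
variable {ι P : Type} [NormedAddCommGroup P] [NormedSpace ℝ P] [FiniteDimensional ℝ P]
  {m : Pl → Co} {a b : ℝ} {s : ι → P × Pl → ℝ}

omit [FiniteDimensional ℝ P] [NormedSpace ℝ P] in
private theorem V9_bdd (hX : Surface Γ D) : ∃ C : ℝ, 1 ≤ C ∧ ∀ q : Ix ι P Γ D, ‖q.b‖ ≤ C := by
  obtain ⟨C, hC⟩ := (hX.bdd.closure).exists_norm_le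
  refine ⟨max 1 C, le_max_left _ _, fun q => ?_⟩
  have h1 : ‖q.b‖ = max ‖q.p‖ (max ‖q.x‖ ‖q.y‖) := by
    rw [Prod.norm_def, Prod.norm_def]
    rfl
  rw [h1]
  exact max_le (q.hp.trans (le_max_left _ _))
    (max_le ((hC _ q.hx).trans (le_max_right _ _)) ((hC _ q.hy).trans (le_max_right _ _)))

private theorem V9_id (hX : Surface Γ D) :
    EB (fun q : Ix ι P Γ D => ll m s q) (fun _ (e : P × Pl × Pl) => e) Ix.b := by
  obtain ⟨C, hC1, hC⟩ := V9_bdd (ι := ι) (P := P) hX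
  refine EB_id (C := C) (ll_nonneg m s) fun q => (hC q).trans ?_
  have h1 : (1 : ℝ) ≤ Real.exp (C * ll m s q) := by
    apply Real.one_le_exp
    exact mul_nonneg (by linarith) (ll_nonneg m s q)
  nlinarith

/-- The point of ratio `1 / N`. -/
private theorem V9_sp (h : CF Γ D m a b s) (q : Ix ι P Γ D) (e : P × Pl × Pl) :
    q.sp h.hX m s 0 • q.w h.hX m s 1 e =
      gp m (s q.i) (1 / (q.N m s : ℝ)) (e.1, e.2.1, q.g • e.2.2) := by
  have h0 : q.γ h.hX m s 0 = 1 := by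
    unfold Ix.γ
    rw [if_pos rfl]
  have h1 : q.sp h.hX m s 0 • q.w h.hX m s 1 e = q.z m s 1 e := by
    unfold Ix.sp Ix.w
    rw [h0, smul_smul, zero_add, inv_one, one_mul, mul_inv_cancel, one_smul]
  rw [h1]
  unfold Ix.z gp
  rw [Nat.cast_one]

/-- The first term. -/
private theorem V9_first (h : CF Γ D m a b s) :
    EB (fun q : Ix ι P Γ D => ll m s q)
      (fun q e => ff m (s q.i) (e.1, e.2.1, gp m (s q.i) (1 / (q.N m s : ℝ))
        (e.1, e.2.1, q.g • e.2.2))) Ix.b := by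
  obtain ⟨S, hS, hS1⟩ := sp_fin h
  have h1 := EB0_ffd h hS
  have h2 := EB_pull (fun _ => le_rfl) h1
    (fun q : Ix ι P Γ D => ((⟨⟨q.i, q.p, q.x, q.w h.hX m s 1 q.b, q.hp, q.hx, w_mem h q 1⟩,
      ⟨q.sp h.hX m s 0, (hS1 q 0).1⟩⟩ : Lx ι P (closure D) × S)))
    (ℓ' := fun q => ll m s q) (ll_nonneg m s) (A := 0) (fun q => by simp)
  have h3 := EB_w h
  have h4 := EB_pull (fun _ => ll_nonneg m s _) h3
    (fun q : Ix ι P Γ D => (⟨(q, 1), N_pos m s q⟩ : Le (fun q : Ix ι P Γ D => q.N m s)))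
    (ℓ' := fun q => ll m s q) (ll_nonneg m s) (A := 1) (fun q => by
      show ll m s q ≤ 1 * (1 + ll m s q)
      linarith)
  have h5 := V9_id (m := m) (s := s) (ι := ι) (P := P) h.hX
  have h6 := EB_clm (ll_nonneg m s) h5 (ContinuousLinearMap.fst ℝ P (Pl × Pl))
  have h7 := EB_clm (ll_nonneg m s) h5
    ((ContinuousLinearMap.fst ℝ Pl Pl).comp (ContinuousLinearMap.snd ℝ P (Pl × Pl)))
  have h8 := EB_prod (ll_nonneg m s) h6 (EB_prod (ll_nonneg m s) h7 h4)
  have h9 := EB_comp (ll_nonneg m s) (g := fun (q : Ix ι P Γ D) (e : P × Pl × Pl) =>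
    ff m (s q.i) (e.1, e.2.1, q.sp h.hX m s 0 • e.2.2)) (f := fun (q : Ix ι P Γ D)
      (e : P × Pl × Pl) => ((e.1, e.2.1, q.w h.hX m s 1 e) : P × Pl × Pl)) (x := Ix.b) h2 h8
  have e : (fun (q : Ix ι P Γ D) (e : P × Pl × Pl) => ff m (s q.i) (e.1, e.2.1,
      gp m (s q.i) (1 / (q.N m s : ℝ)) (e.1, e.2.1, q.g • e.2.2))) =
      fun (q : Ix ι P Γ D) (e : P × Pl × Pl) =>
        ff m (s q.i) (e.1, e.2.1, q.sp h.hX m s 0 • q.w h.hX m s 1 e) := by
    funext q e
    rw [V9_sp h q e]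
  rw [e]
  exact h9

/-- Integration along the ray. -/
private theorem V9_int (h : CF Γ D m a b s) (hne : D.Nonempty) (i : ι) (E : P × Pl × Pl) {N : ℝ}
    (hN : 1 ≤ N) :
    ff m (s i) (E.1, E.2.1, gp m (s i) 1 E) =
      ff m (s i) (E.1, E.2.1, gp m (s i) (1 / N) E) + ∫ θ in (0 : ℝ)..1, Real.log N *
        RR m (s i) (E.1, E.2.1, gp m (s i) (Real.exp (-(Real.log N * θ))) E) := by
  set L : ℝ := Real.log N with hL
  have hd : ∀ θ : ℝ, HasDerivAt
      (fun θ => ff m (s i) (E.1, E.2.1, gp m (s i) (Real.exp (-(L * θ))) E))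
      (-(L * RR m (s i) (E.1, E.2.1, gp m (s i) (Real.exp (-(L * θ))) E))) θ := by
    intro θ
    have h1 := ff_ray h i E (Real.exp_pos (-(L * θ)))
    have h2 : HasDerivAt (fun θ : ℝ => Real.exp (-(L * θ))) (Real.exp (-(L * θ)) * (-L)) θ := by
      have h3 : HasDerivAt (fun θ : ℝ => -(L * θ)) (-L) θ := by
        have h4 := (hasDerivAt_id θ).const_mul (-L)
        rw [mul_one] at h4
        refine h4.congr_of_eventuallyEq (Filter.Eventually.of_forall fun t => ?_)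
        show -(L * t) = -L * t
        ring
      exact h3.exp
    have h3 := HasDerivAt.comp (h₂ := fun r => ff m (s i) (E.1, E.2.1, gp m (s i) r E))
      (h := fun θ : ℝ => Real.exp (-(L * θ))) θ h1 h2
    refine h3.congr_deriv ?_
    have h4 := (Real.exp_pos (-(L * θ))).ne'
    field_simp
  have hc : Continuous
      (fun θ => -(L * RR m (s i) (E.1, E.2.1, gp m (s i) (Real.exp (-(L * θ))) E))) := by
    have h1 : Continuous (RR m (s i)) := (Adm_smooth h.hX hne (Adm_RR h) i).continuous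
    have h2 : Continuous (fun θ : ℝ => gp m (s i) (Real.exp (-(L * θ))) E) := by
      have h3 := (gp_smooth h i).continuous
      have h4 : Continuous (fun θ : ℝ => ((Real.exp (-(L * θ)), E) : ℝ × P × Pl × Pl)) := by
        fun_prop
      exact h3.comp h4
    have h5 : Continuous (fun θ : ℝ =>
        ((E.1, E.2.1, gp m (s i) (Real.exp (-(L * θ))) E) : P × Pl × Pl)) := by
      fun_prop
    exact (continuous_const.mul (h1.comp h5)).neg
  have h1 := intervalIntegral.integral_eq_sub_of_hasDerivAt (a := (0 : ℝ)) (b := 1)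
    (fun θ _ => hd θ) (hc.intervalIntegrable _ _)
  rw [intervalIntegral.integral_neg] at h1
  have h2 : Real.exp (-(L * 0)) = 1 := by simp
  have h3 : Real.exp (-(L * 1)) = 1 / N := by
    rw [mul_one, Real.exp_neg, hL, Real.exp_log (by linarith), one_div]
  rw [h2, h3] at h1
  linarith

theorem Adm_ff (h : CF Γ D m a b s) : Adm Γ D m s (fun i => ff m (s i)) := by
  have hne : D.Nonempty := by
    obtain ⟨γ, hγ, _⟩ := h.hX.orbit (0 : Pl)
    exact ⟨_, hγ⟩
  have h1 := V9_first h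
  have h2 := Adm_int' h (Adm_RR h) (L := fun q => Real.log (q.N m s : ℝ)) (fun q => by
    have h3 : (1 : ℝ) ≤ q.N m s := by exact_mod_cast N_pos m s q
    have h4 := (d_N h q).2.2.2
    have h5 := (d_N h q).1
    refine ⟨Real.log_nonneg h3, ?_⟩
    have h6 : Real.exp (ll m s q) = 2 + q.d m s := by
      unfold ll
      rw [Real.exp_log (by linarith)]
    rw [h6]
    have h7 := Real.log_le_sub_one_of_pos (show (0 : ℝ) < q.N m s by linarith)
    linarith)
  have h3 := EB_add (ll_nonneg m s) h1 h2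
  unfold Adm
  have e : (fun (q : Ix ι P Γ D) (e : P × Pl × Pl) => ff m (s q.i) (e.1, e.2.1, q.g • e.2.2)) =
      fun (q : Ix ι P Γ D) (e : P × Pl × Pl) =>
        ff m (s q.i) (e.1, e.2.1, gp m (s q.i) (1 / (q.N m s : ℝ)) (e.1, e.2.1, q.g • e.2.2)) +
        ∫ θ in (0 : ℝ)..1, Real.log (q.N m s : ℝ) *
          RR m (s q.i) (e.1, e.2.1, gp m (s q.i) (Real.exp (-(Real.log (q.N m s : ℝ) * θ)))
            (e.1, e.2.1, q.g • e.2.2)) := by
    funext q e
    have h4 := V9_int h hne q.i (e.1, e.2.1, q.g • e.2.2) (N := (q.N m s : ℝ))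
      (by exact_mod_cast N_pos m s q)
    have h5 : gp m (s q.i) 1 (e.1, e.2.1, q.g • e.2.2) = q.g • e.2.2 := by
      unfold gp JE JV
      rw [one_smul]
      exact Ex_Vx h.hX (hm_mm h q.i e.1) _ _
    rw [h5] at h4
    exact h4
  rw [e]
  exact h3

end BE
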