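import Pool.Agent.LibBE88.V8

/-! Row BE88 V10 (cites V5, V7, V8, `LibBR70/PX2`): the recursion of the normalised coefficients of the
parametrix. MEDIUM / STRONG, 60 min.
Plan. `uu_zero`: `UU c 0 v = wt ^ (-1/2)` and `exp (ff / 2) = wt ^ (1/2)` (`wt ≥ 1`; `Real.exp_log`,
`Real.rpow_def_of_pos`). `uu_UU`: `UU c j (Vx x y) = exp (-(ff / 2)) * uu`. `uu_slice`: smoothness in `y`:
`UU_smooth1` (`LibBR70/PX2.lean`), `Vx_smooth`, `ff_smooth`. `uu_succ`: with `c = Gx mq x`, `V = JV e`, by definition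
`UU c (j+1) V = (wt V) ^ (-1/2) * ∫ r in 0..1, r ^ j * (LL c (UU c j) (r • V) / (4 * (wt (r • V)) ^ (-1/2)))`. For
every `v`: `UU c j v = (fun y => exp (-(f y / 2)) * u y) (Ex v)` with `f y = ff (p, x, y)`, `u y = uu j (p, x, y)`
(`Vx_Ex`), so by `LL_Ex` (row V8) and `LL_exp` (row V5) with `h = -(f / 2)`:
`LL c (UU c j) v = exp (-(f / 2)) * (LL u - gr f u + (gr f f / 4 - LL f / 2) * u)` at `y = Ex v`
(`gr` and `LL` are linear: `LL_lin`, `gr` by unfolding), i.e. `= exp (-(f / 2)) * TT`. At `v = r • V`,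
`y = gp r e` and `(wt v) ^ (-1/2) = exp (-(f y / 2))`, which cancels. -/

open MeasureTheory Set Filter Topology
open scoped ContDiff

namespace BE

open BGS BR

variable {Γ : Type} [Group Γ] [MulAction Γ Pl] {D : Set Pl}
variable {ι P : Type} [NormedAddCommGroup P] [NormedSpace ℝ P] [FiniteDimensional ℝ P]
  {m : Pl → Co} {a b : ℝ} {s : ι → P × Pl → ℝ}

/-- The conjugated Laplacian in the second point: `exp (f / 2) LL (exp (-f / 2) Q)`. -/
noncomputable def TT (m : Pl → Co) (s : P × Pl → ℝ) (Q : P × Pl × Pl → ℝ) (e : P × Pl × Pl) : ℝ :=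
  LL (mm m s e.1) (fun z => Q (e.1, e.2.1, z)) e.2.2 -
    gr (mm m s e.1) (fun z => ff m s (e.1, e.2.1, z)) (fun z => Q (e.1, e.2.1, z)) e.2.2 +
    (gr (mm m s e.1) (fun z => ff m s (e.1, e.2.1, z)) (fun z => ff m s (e.1, e.2.1, z)) e.2.2 / 4 -
      LL (mm m s e.1) (fun z => ff m s (e.1, e.2.1, z)) e.2.2 / 2) * Q e

theorem V10_dxc {f : Pl → ℝ} (hf : Differentiable ℝ f) (k : ℝ) (z : Pl) :
    dx (fun y => k * f y) z = k * dx f z := by
  unfold dx
  rw [fderiv_const_mul (hf z)]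
  rfl

theorem V10_dyc {f : Pl → ℝ} (hf : Differentiable ℝ f) (k : ℝ) (z : Pl) :
    dy (fun y => k * f y) z = k * dy f z := by
  unfold dy
  rw [fderiv_const_mul (hf z)]
  rfl

theorem V10_wf2 (c : Co) (k p q p' q' : ℝ) : wf2 c (k * p) (k * q) p' q' = k * wf2 c p q p' q' := by
  unfold wf2
  ring

theorem V10_wf2' (c : Co) (k p q p' q' : ℝ) : wf2 c p q (k * p') (k * q') = k * wf2 c p q p' q' := by
  unfold wf2
  ring

theorem V10_grl {c : Pl → Co} {f g : Pl → ℝ} (hf : Differentiable ℝ f) (k : ℝ) (z : Pl) :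
    gr c (fun y => k * f y) g z = k * gr c f g z := by
  unfold gr
  rw [V10_dxc hf, V10_dyc hf, V10_wf2, mul_div_assoc]

theorem V10_grr {c : Pl → Co} {f g : Pl → ℝ} (hg : Differentiable ℝ g) (k : ℝ) (z : Pl) :
    gr c f (fun y => k * g y) z = k * gr c f g z := by
  unfold gr
  rw [V10_dxc hg, V10_dyc hg, V10_wf2', mul_div_assoc]

theorem V10_LL {c : Pl → Co} (hc : SM c) {f : Pl → ℝ} (hf : ContDiff ℝ ∞ f) (k : ℝ) (z : Pl) :
    LL c (fun y => k * f y) z = k * LL c f z := by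
  have h1 := LL_lin hc hf hf k 0 z
  have h2 : (fun y => k * f y + 0 * f y) = fun y => k * f y := by
    funext y
    ring
  rw [h2] at h1
  rw [h1]
  ring

theorem V10_SM (h : CF Γ D m a b s) (i : ι) (p : P) : SM (mm m (s i) p) :=
  ⟨(hm_mm h i p).smooth, (hm_mm h i p).pos⟩

theorem V10_fs (h : CF Γ D m a b s) (i : ι) (p : P) (x : Pl) :
    ContDiff ℝ ∞ (fun y => ff m (s i) (p, x, y)) :=
  (ff_smooth h i).comp (contDiff_const.prodMk (contDiff_const.prodMk contDiff_id))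

theorem V10_ffE (h : CF Γ D m a b s) (i : ι) (p : P) (x w : Pl) :
    ff m (s i) (p, x, JE m (s i) (p, x, w)) = Real.log (wt (Gx (mm m (s i) p) x) w) := by
  unfold ff JV JE
  simp only
  rw [Vx_Ex h.hX (hm_mm h i p)]

theorem V10_JVE (h : CF Γ D m a b s) (i : ι) (p : P) (x w : Pl) :
    JV m (s i) (p, x, JE m (s i) (p, x, w)) = w := by
  unfold JV JE
  exact Vx_Ex h.hX (hm_mm h i p) x w

theorem V10_wt (h : CF Γ D m a b s) (i : ι) (p : P) (x w : Pl) :
    0 < wt (Gx (mm m (s i) p) x) w :=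
  lt_of_lt_of_le one_pos (wt_form h.hX (hm_mm h i p) x w).2

/-- `wt ^ (-1/2) = exp (-(ff / 2))` -/
theorem V10_pow (h : CF Γ D m a b s) (i : ι) (p : P) (x w : Pl) :
    (wt (Gx (mm m (s i) p) x) w) ^ (-(1 / 2) : ℝ) =
      Real.exp (-(ff m (s i) (p, x, JE m (s i) (p, x, w)) / 2)) := by
  rw [V10_ffE h, Real.rpow_def_of_pos (V10_wt h i p x w)]
  congr 1
  ring

theorem uu_UU (h : CF Γ D m a b s) (i : ι) (j : ℕ) (e : P × Pl × Pl) :
    UU (Gx (mm m (s i) e.1) e.2.1) j (JV m (s i) e) =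
      Real.exp (-(ff m (s i) e / 2)) * uu m (s i) j e := by
  unfold uu
  rw [mul_left_comm, ← Real.exp_add]
  rw [neg_add_cancel, Real.exp_zero, mul_one]

theorem uu_slice (h : CF Γ D m a b s) (i : ι) (j : ℕ) (p : P) (x : Pl) :
    ContDiff ℝ ∞ (fun y => uu m (s i) j (p, x, y)) := by
  have h1 : ContDiff ℝ ∞ (fun y => JV m (s i) (p, x, y)) :=
    (JV_smooth h i).comp (contDiff_const.prodMk (contDiff_const.prodMk contDiff_id))
  have h2 : ContDiff ℝ ∞ (UU (Gx (mm m (s i) p) x) j) :=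
    UU_smooth1 (Gx_PMt h.hX h.hO (hm_mm h i p) x) j
  have h3 := V10_fs h i p x
  exact (h2.comp h1).mul ((h3.div_const 2).exp)

/-- The conjugation. -/
theorem TT_conj (h : CF Γ D m a b s) (i : ι) {Q : P × Pl × Pl → ℝ} (p : P) (x : Pl)
    (hQ : ContDiff ℝ ∞ (fun y => Q (p, x, y))) (v : Pl) :
    LL (Gx (mm m (s i) p) x) (fun w => Real.exp (-(ff m (s i) (p, x, JE m (s i) (p, x, w)) / 2)) *
      Q (p, x, JE m (s i) (p, x, w))) v =
    Real.exp (-(ff m (s i) (p, x, JE m (s i) (p, x, v)) / 2)) *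
      TT m (s i) Q (p, x, JE m (s i) (p, x, v)) := by
  have hf := V10_fs h i p x
  have hfd : Differentiable ℝ (fun y => ff m (s i) (p, x, y)) := hf.differentiable (by simp)
  have hg : ContDiff ℝ ∞ (fun y => (-(1 / 2) : ℝ) * ff m (s i) (p, x, y)) :=
    contDiff_const.mul hf
  have hu : ContDiff ℝ ∞ (fun z => Real.exp ((-(1 / 2) : ℝ) * ff m (s i) (p, x, z)) *
      Q (p, x, z)) := hg.exp.mul hQ
  have h1 := LL_Ex h.hX h.hO (hm_mm h i p) x hu v
  have h2 := LL_exp (V10_SM h i p) hg hQ (Ex (mm m (s i) p) x v)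
  rw [h2, V10_grl hfd, V10_grl hfd, V10_grr hfd, V10_LL (V10_SM h i p) hf] at h1
  have h3 : (fun w => Real.exp (-(ff m (s i) (p, x, JE m (s i) (p, x, w)) / 2)) *
      Q (p, x, JE m (s i) (p, x, w))) = fun w =>
      Real.exp ((-(1 / 2) : ℝ) * ff m (s i) (p, x, Ex (mm m (s i) p) x w)) *
        Q (p, x, Ex (mm m (s i) p) x w) := by
    funext w
    unfold JE
    congr 2
    ring
  rw [h3, h1]
  unfold TT JE
  simp only
  have h4 : (-(1 / 2) : ℝ) * ff m (s i) (p, x, Ex (mm m (s i) p) x v) =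
      -(ff m (s i) (p, x, Ex (mm m (s i) p) x v) / 2) := by ring
  rw [h4]
  congr 1
  ring

theorem uu_zero (h : CF Γ D m a b s) (i : ι) (e : P × Pl × Pl) : uu m (s i) 0 e = 1 := by
  obtain ⟨p, x, y⟩ := e
  have h1 := V10_pow h i p x (JV m (s i) (p, x, y))
  have h2 : JE m (s i) (p, x, JV m (s i) (p, x, y)) = y := Ex_Vx h.hX (hm_mm h i p) x y
  rw [h2] at h1
  unfold uu
  change (wt (Gx (mm m (s i) p) x) (JV m (s i) (p, x, y))) ^ (-(1 / 2) : ℝ) *
    Real.exp (ff m (s i) (p, x, y) / 2) = 1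
  rw [h1, ← Real.exp_add, neg_add_cancel, Real.exp_zero]

theorem uu_succ (h : CF Γ D m a b s) (i : ι) (j : ℕ) (e : P × Pl × Pl) :
    uu m (s i) (j + 1) e =
      1 / 4 * ∫ r in (0 : ℝ)..1, r ^ j * TT m (s i) (uu m (s i) j) (e.1, e.2.1, gp m (s i) r e) := by
  obtain ⟨p, x, y⟩ := e
  have h1 := V10_pow h i p x (JV m (s i) (p, x, y))
  have h2 : JE m (s i) (p, x, JV m (s i) (p, x, y)) = y := Ex_Vx h.hX (hm_mm h i p) x y
  rw [h2] at h1
  have hU : UU (Gx (mm m (s i) p) x) j = fun w =>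
      Real.exp (-(ff m (s i) (p, x, JE m (s i) (p, x, w)) / 2)) *
        uu m (s i) j (p, x, JE m (s i) (p, x, w)) := by
    funext w
    have h3 := uu_UU h i j (p, x, JE m (s i) (p, x, w))
    rw [V10_JVE h] at h3
    exact h3
  have hLL : ∀ v : Pl, LL (Gx (mm m (s i) p) x) (UU (Gx (mm m (s i) p) x) j) v =
      Real.exp (-(ff m (s i) (p, x, JE m (s i) (p, x, v)) / 2)) *
        TT m (s i) (uu m (s i) j) (p, x, JE m (s i) (p, x, v)) := by
    intro v
    rw [hU]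
    exact TT_conj h i p x (uu_slice h i j p x) v
  change ((wt (Gx (mm m (s i) p) x) (JV m (s i) (p, x, y))) ^ (-(1 / 2) : ℝ) *
    ∫ r in (0 : ℝ)..1, r ^ j * (LL (Gx (mm m (s i) p) x) (UU (Gx (mm m (s i) p) x) j)
      (r • JV m (s i) (p, x, y)) / (4 * (wt (Gx (mm m (s i) p) x)
        (r • JV m (s i) (p, x, y))) ^ (-(1 / 2) : ℝ)))) *
    Real.exp (ff m (s i) (p, x, y) / 2) = _
  rw [h1, mul_right_comm, ← Real.exp_add, neg_add_cancel, Real.exp_zero, one_mul,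
    ← intervalIntegral.integral_const_mul]
  congr 1
  funext r
  rw [hLL, V10_pow h]
  have h5 := Real.exp_pos (-(ff m (s i) (p, x, JE m (s i) (p, x, r • JV m (s i) (p, x, y))) / 2))
  unfold gp
  simp only
  field_simp

end BE
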