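import Pool.Agent.LibBE88.V9
import Pool.Agent.LibBE88.V10

/-! Row BE88 V11 (cites V1, V3, V6, V9, V10): the coefficients of the parametrix are in the class `Adm`.
SHORT, 25 min.
Plan. `Adm_TT`: `Adm_LL`, `Adm_gr` (row V6), `Adm_ff` (row V9), `Adm_add`, `Adm_sub`, `Adm_mul`, `Adm_const`,
unfold `TT` (`/ 4` is multiplication by a constant). `Adm_uu`: induction on `j`: `uu_zero` and `Adm_const`;
`uu_succ` and `Adm_int`, `Adm_TT` (the families are equal: `funext`). `Adm_UU`: `uu_UU` and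
`exp (-(ff / 2))`, which is bounded by `1` (`ff_nonneg`): `EB_exp` (row C4). -/

open MeasureTheory Set Filter Topology
open scoped ContDiff

namespace BE

open BGS BR

variable {Γ : Type} [Group Γ] [MulAction Γ Pl] {D : Set Pl}
variable {ι P : Type} [NormedAddCommGroup P] [NormedSpace ℝ P] [FiniteDimensional ℝ P]
  {m : Pl → Co} {a b : ℝ} {s : ι → P × Pl → ℝ}

theorem Adm_TT (h : CF Γ D m a b s) {Q : ι → P × Pl × Pl → ℝ} (hQ : Adm Γ D m s Q) :
    Adm Γ D m s (fun i => TT m (s i) (Q i)) := by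
  have hf := Adm_ff h
  have h1 := Adm_LL h hQ
  have h2 := Adm_gr h hf hQ
  have h3 := Adm_gr h hf hf
  have h4 := Adm_LL h hf
  have h5 := Adm_mul h3 (Adm_const (Γ := Γ) (D := D) (m := m) (s := s) (1 / 4 : ℝ))
  have h6 := Adm_mul h4 (Adm_const (Γ := Γ) (D := D) (m := m) (s := s) (1 / 2 : ℝ))
  have h7 := Adm_add (Adm_sub h1 h2) (Adm_mul (Adm_sub h5 h6) hQ)
  have e : (fun i => TT m (s i) (Q i)) = fun i e =>
      (LL (mm m (s i) e.1) (fun z => Q i (e.1, e.2.1, z)) e.2.2 -
        gr (mm m (s i) e.1) (fun z => ff m (s i) (e.1, e.2.1, z))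
          (fun z => Q i (e.1, e.2.1, z)) e.2.2) +
      (gr (mm m (s i) e.1) (fun z => ff m (s i) (e.1, e.2.1, z))
          (fun z => ff m (s i) (e.1, e.2.1, z)) e.2.2 * (1 / 4) -
        LL (mm m (s i) e.1) (fun z => ff m (s i) (e.1, e.2.1, z)) e.2.2 * (1 / 2)) * Q i e := by
    funext i e
    simp only [TT]
    ring
  rw [e]
  exact h7

theorem Adm_uu (h : CF Γ D m a b s) (j : ℕ) : Adm Γ D m s (fun i => uu m (s i) j) := by
  induction j with
  | zero =>
    have e : (fun i => uu m (s i) 0) = fun (_ : ι) (_ : P × Pl × Pl) => (1 : ℝ) := by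
      funext i e
      exact uu_zero h i e
    rw [e]
    exact Adm_const 1
  | succ j ih =>
    have h1 := Adm_mul (Adm_const (Γ := Γ) (D := D) (m := m) (s := s) (1 / 4 : ℝ))
      (Adm_int h (Adm_TT h ih) j)
    have e : (fun i => uu m (s i) (j + 1)) = fun i e =>
        1 / 4 * ∫ r in (0 : ℝ)..1, r ^ j *
          TT m (s i) (uu m (s i) j) (e.1, e.2.1, gp m (s i) r e) := by
      funext i e
      exact uu_succ h i j e
    rw [e]
    exact h1

theorem Adm_UU (h : CF Γ D m a b s) (j : ℕ) :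
    Adm Γ D m s (fun i e => UU (Gx (mm m (s i) e.1) e.2.1) j (JV m (s i) e)) := by
  have h1 : Adm Γ D m s (fun i e => -(ff m (s i) e / 2)) := by
    have h2 := Adm_mul (Adm_const (Γ := Γ) (D := D) (m := m) (s := s) (-(1 / 2) : ℝ)) (Adm_ff h)
    have e : (fun i e => -(ff m (s i) e / 2)) = fun i e => -(1 / 2) * ff m (s i) e := by
      funext i e
      ring
    rw [e]
    exact h2
  have h3 : Adm Γ D m s (fun i e => Real.exp (-(ff m (s i) e / 2))) := by
    unfold Adm
    have h4 := EB_exp (ll_nonneg m s) h1 (C := 1) (fun q => by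
      have h5 : Real.exp (-(ff m (s q.i) (q.b.1, q.b.2.1, q.g • q.b.2.2) / 2)) ≤ 1 := by
        apply Real.exp_le_one_iff.2
        have := ff_nonneg h q.i (q.b.1, q.b.2.1, q.g • q.b.2.2)
        linarith
      have h6 : (1 : ℝ) ≤ Real.exp (1 * ll m s q) := by
        apply Real.one_le_exp
        have := ll_nonneg m s q
        linarith
      linarith)
    exact h4
  have h7 := Adm_mul h3 (Adm_uu h j)
  have e : (fun i e => UU (Gx (mm m (s i) e.1) e.2.1) j (JV m (s i) e)) = fun i e =>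
      Real.exp (-(ff m (s i) e / 2)) * uu m (s i) j e := by
    funext i e
    exact uu_UU h i j e
  rw [e]
  exact h7

end BE
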