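import Pool.Agent.LibBE88.A1

/-! Row BE88 A2: the joint geodesic field and its flow. MEDIUM / STRONG, 60 min.
`jf m s (p, z, v) = (0, gf (mm m s p) (z, v))` is a vector field on `P × Pl × Pl`.
Plan. `gf m (z, v) = (fr (m z) v, om m z (fr (m z) v) • (v.2, -v.1))`, where `fr`, `cA`, `cB` are rational
expressions in the coefficients `E, F, G` of the metric, their first partial derivatives in `z`, and
`√E`, `√(dt)` (`LibBR70/Geo.lean`). The coefficients of `mm m s p z` are smooth functions of `(p, z)`,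
`dx (fun w => (mm m s p w).1) z = fderiv ℝ (fun e : P × Pl => (mm m s e.1 e.2).1) (p, z) (0, (1, 0))`
(chain rule, cf. `PX6_dx` in `LibBR70/PX6.lean`). `jf_smooth`: as in `LibBR70/H1a.lean` (`gf_smooth`), with `P × Pl`
in place of `Pl` (`ContDiff.sqrt`, `ContDiff.div`, `ContDiff.fderiv_right`). `jf_EB0`: the class `EB0`
(`EB` with `ℓ = 0`) is closed under sums, products (`EB_mul`), `EB_inv`, `EB_rpow` (for the square root:
`Real.sqrt_eq_rpow`; positive functions which are bounded below at the points, `mm_low`),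
`EB_fderiv_apply`; start from `EB0_mm` (row A1). Since `mm ..` as a function of `e : P × Pl × Pl` is
the composition with the projection `e ↦ (e.1, e.2.1)`: `EB_comp`, `EB_clm`, `EB_id` (the points
`(p, z, w)` are bounded). `jf_flow`: `gfl_isFlow` (`LibBR70/H1e.lean`) for the metric `mm m (s i) q.1`
(`hm_mm`), `hasDerivAt_const`, `HasDerivAt.prodMk`. -/

open MeasureTheory Set Filter Topology
open scoped ContDiff

namespace BE

open BGS BR

variable {Γ : Type} [Group Γ] [MulAction Γ Pl] {D : Set Pl}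
variable {ι P : Type} [NormedAddCommGroup P] [NormedSpace ℝ P] {m : Pl → Co} {a b : ℝ}
  {s : ι → P × Pl → ℝ} {K : Set Pl}

/-- The joint field. -/
noncomputable def jf (m : Pl → Co) (s : P × Pl → ℝ) (q : P × Pl × Pl) : P × Pl × Pl :=
  (0, gf (mm m s q.1) q.2)

theorem A2_congr {ι' E F : Type} [NormedAddCommGroup E] [NormedSpace ℝ E]
    [NormedAddCommGroup F] [NormedSpace ℝ F] {x : ι' → E} {f g : ι' → E → F} (hf : EB0 f x)
    (he : ∀ i y, f i y = g i y) : EB0 g x := by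
  have h1 : f = g := funext fun i => funext fun y => he i y
  rw [← h1]
  exact hf

/-- The base points in `P × Pl`. -/
def A2_pt (q : Lx ι P K) : P × Pl := (q.p, q.z)

section coef

variable (h : CF Γ D m a b s) (hK : IsCompact K)
include h hK

theorem A2_M : EB0 (fun (q : Lx ι P K) (e : P × Pl) => mm m (s q.i) e.1 e.2) A2_pt :=
  EB0_mm h hK

theorem A2_E : EB0 (fun (q : Lx ι P K) (e : P × Pl) => (mm m (s q.i) e.1 e.2).1) A2_pt :=
  EB_clm (fun _ => le_rfl) (A2_M h hK) (ContinuousLinearMap.fst ℝ ℝ (ℝ × ℝ))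

theorem A2_F : EB0 (fun (q : Lx ι P K) (e : P × Pl) => (mm m (s q.i) e.1 e.2).2.1) A2_pt :=
  EB_clm (fun _ => le_rfl) (A2_M h hK)
    ((ContinuousLinearMap.fst ℝ ℝ ℝ).comp (ContinuousLinearMap.snd ℝ ℝ (ℝ × ℝ)))

theorem A2_G : EB0 (fun (q : Lx ι P K) (e : P × Pl) => (mm m (s q.i) e.1 e.2).2.2) A2_pt :=
  EB_clm (fun _ => le_rfl) (A2_M h hK)
    ((ContinuousLinearMap.snd ℝ ℝ ℝ).comp (ContinuousLinearMap.snd ℝ ℝ (ℝ × ℝ)))

theorem A2_D : EB0 (fun (q : Lx ι P K) (e : P × Pl) => dt (mm m (s q.i) e.1 e.2)) A2_pt := by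
  have h1 := EB_sub (fun _ => le_rfl)
    (EB_mul (fun _ => le_rfl) (A2_E h hK) (A2_G h hK))
    (EB_mul (fun _ => le_rfl) (A2_F h hK) (A2_F h hK))
  refine A2_congr h1 fun q e => ?_
  unfold dt
  ring

theorem A2_Ep (r : ℝ) : EB0 (fun (q : Lx ι P K) (e : P × Pl) => (mm m (s q.i) e.1 e.2).1 ^ r)
    A2_pt := by
  obtain ⟨c, hc, hc'⟩ := mm_low h hK
  refine EB_rpow (fun _ => le_rfl) (A2_E h hK) (fun q e => ((hm_mm h q.i e.1).pos e.2).1)
    (C := c⁻¹) (fun q => ?_) r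
  rw [mul_zero, Real.exp_zero, mul_one]
  have h1 := (hc' q).1
  have h2 : 0 < (mm m (s q.i) (A2_pt q).1 (A2_pt q).2).1 := lt_of_lt_of_le hc h1
  rw [abs_of_pos h2]
  exact inv_anti₀ hc h1

theorem A2_Dp (r : ℝ) : EB0 (fun (q : Lx ι P K) (e : P × Pl) => dt (mm m (s q.i) e.1 e.2) ^ r)
    A2_pt := by
  obtain ⟨c, hc, hc'⟩ := mm_low h hK
  refine EB_rpow (fun _ => le_rfl) (A2_D h hK) (fun q e => ((hm_mm h q.i e.1).pos e.2).2)
    (C := c⁻¹) (fun q => ?_) r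
  rw [mul_zero, Real.exp_zero, mul_one]
  have h1 := (hc' q).2
  have h2 : 0 < dt (mm m (s q.i) (A2_pt q).1 (A2_pt q).2) := lt_of_lt_of_le hc h1
  rw [abs_of_pos h2]
  exact inv_anti₀ hc h1

end coef

theorem A2_dx {f : P × Pl → ℝ} (hf : Differentiable ℝ f) (x : P) (z : Pl) :
    dx (fun v => f (x, v)) z = fderiv ℝ f (x, z) (0, ((1 : ℝ), (0 : ℝ))) := by
  unfold dx
  have h : HasFDerivAt (fun v : Pl => f (x, v))
      ((fderiv ℝ f (x, z)).comp (ContinuousLinearMap.inr ℝ P Pl)) z :=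
    (hf (x, z)).hasFDerivAt.comp z (hasFDerivAt_prodMk_right x z)
  rw [h.fderiv]
  rfl

theorem A2_dy {f : P × Pl → ℝ} (hf : Differentiable ℝ f) (x : P) (z : Pl) :
    dy (fun v => f (x, v)) z = fderiv ℝ f (x, z) (0, ((0 : ℝ), (1 : ℝ))) := by
  unfold dy
  have h : HasFDerivAt (fun v : Pl => f (x, v))
      ((fderiv ℝ f (x, z)).comp (ContinuousLinearMap.inr ℝ P Pl)) z :=
    (hf (x, z)).hasFDerivAt.comp z (hasFDerivAt_prodMk_right x z)
  rw [h.fderiv]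
  rfl

theorem A2_EBdx {f : Lx ι P K → P × Pl → ℝ} (hf : EB0 f A2_pt) :
    EB0 (fun (q : Lx ι P K) (e : P × Pl) => dx (fun v => f q (e.1, v)) e.2) A2_pt :=
  A2_congr (EB_fderiv_apply (fun _ => le_rfl) hf (0, ((1 : ℝ), (0 : ℝ)))) fun q e =>
    (A2_dx ((hf.smooth q).differentiable (by simp)) e.1 e.2).symm

theorem A2_EBdy {f : Lx ι P K → P × Pl → ℝ} (hf : EB0 f A2_pt) :
    EB0 (fun (q : Lx ι P K) (e : P × Pl) => dy (fun v => f q (e.1, v)) e.2) A2_pt :=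
  A2_congr (EB_fderiv_apply (fun _ => le_rfl) hf (0, ((0 : ℝ), (1 : ℝ)))) fun q e =>
    (A2_dy ((hf.smooth q).differentiable (by simp)) e.1 e.2).symm

theorem A2_cst {ι' E F : Type} [NormedAddCommGroup E] [NormedSpace ℝ E]
    [NormedAddCommGroup F] [NormedSpace ℝ F] (x : ι' → E) (c : F) : EB0 (fun _ _ => c) x :=
  EB_const (fun _ => le_rfl) (c := fun _ => c) (C := ‖c‖) fun i => by
    rw [mul_zero, Real.exp_zero, mul_one]

section coef2

variable (h : CF Γ D m a b s) (hK : IsCompact K)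
include h hK

theorem A2_fr1 : EB0 (fun (q : Lx ι P K) (e : P × Pl) => fr1 (mm m (s q.i) e.1 e.2)) A2_pt := by
  refine A2_congr (EB_prod (fun _ => le_rfl) (A2_Ep h hK (-(1 / 2)))
    (A2_cst A2_pt (0 : ℝ))) fun q e => ?_
  have h1 := ((hm_mm h q.i e.1).pos e.2).1
  unfold fr1
  rw [Real.rpow_neg h1.le, ← Real.sqrt_eq_rpow, one_div]

theorem A2_fr2 : EB0 (fun (q : Lx ι P K) (e : P × Pl) => fr2 (mm m (s q.i) e.1 e.2)) A2_pt := by
  have h1 := EB_mul (fun _ => le_rfl) (A2_cst A2_pt (-1 : ℝ)) (EB_mul (fun _ => le_rfl) (A2_F h hK)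
    (EB_mul (fun _ => le_rfl) (A2_Ep h hK (-(1 / 2))) (A2_Dp h hK (-(1 / 2)))))
  have h2 := EB_mul (fun _ => le_rfl) (A2_Ep h hK (1 / 2)) (A2_Dp h hK (-(1 / 2)))
  refine A2_congr (EB_prod (fun _ => le_rfl) h1 h2) fun q e => ?_
  have h3 := ((hm_mm h q.i e.1).pos e.2).1
  have h4 := ((hm_mm h q.i e.1).pos e.2).2
  unfold fr2
  rw [Real.rpow_neg h3.le, Real.rpow_neg h4.le, ← Real.sqrt_eq_rpow, ← Real.sqrt_eq_rpow]
  refine Prod.ext ?_ ?_
  · simp only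
    rw [div_eq_mul_inv, mul_inv]
    ring
  · simp only
    rw [div_eq_mul_inv]

theorem A2_cA : EB0 (fun (q : Lx ι P K) (e : P × Pl) => cA (mm m (s q.i) e.1) e.2) A2_pt := by
  have hE := A2_E h hK
  have hF := A2_F h hK
  have hEx := A2_EBdx hE
  have hEy := A2_EBdy hE
  have hFx := A2_EBdx hF
  have h1 := EB_mul (fun _ => le_rfl) (EB_sub (fun _ => le_rfl) (EB_sub (fun _ => le_rfl)
    (EB_mul (fun _ => le_rfl) (EB_mul (fun _ => le_rfl) (A2_cst A2_pt (2 : ℝ)) hE) hFx)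
    (EB_mul (fun _ => le_rfl) hF hEx)) (EB_mul (fun _ => le_rfl) hE hEy))
    (EB_mul (fun _ => le_rfl) (A2_cst A2_pt (1 / 2 : ℝ))
      (EB_mul (fun _ => le_rfl) (A2_Ep h hK (-1)) (A2_Dp h hK (-(1 / 2)))))
  refine A2_congr h1 fun q e => ?_
  have h3 := ((hm_mm h q.i e.1).pos e.2).1
  have h4 := ((hm_mm h q.i e.1).pos e.2).2
  unfold cA
  rw [Real.rpow_neg_one, Real.rpow_neg h4.le, ← Real.sqrt_eq_rpow]
  simp only
  rw [div_eq_mul_inv (_ - _ - _), mul_inv, mul_inv]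
  ring

theorem A2_cB : EB0 (fun (q : Lx ι P K) (e : P × Pl) => cB (mm m (s q.i) e.1) e.2) A2_pt := by
  have hE := A2_E h hK
  have hF := A2_F h hK
  have hG := A2_G h hK
  have hGx := A2_EBdx hG
  have hEy := A2_EBdy hE
  have h1 := EB_mul (fun _ => le_rfl) (EB_sub (fun _ => le_rfl)
    (EB_mul (fun _ => le_rfl) hE hGx) (EB_mul (fun _ => le_rfl) hF hEy))
    (EB_mul (fun _ => le_rfl) (A2_cst A2_pt (1 / 2 : ℝ))
      (EB_mul (fun _ => le_rfl) (A2_Ep h hK (-1)) (A2_Dp h hK (-(1 / 2)))))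
  refine A2_congr h1 fun q e => ?_
  have h3 := ((hm_mm h q.i e.1).pos e.2).1
  have h4 := ((hm_mm h q.i e.1).pos e.2).2
  unfold cB
  rw [Real.rpow_neg_one, Real.rpow_neg h4.le, ← Real.sqrt_eq_rpow]
  simp only
  rw [div_eq_mul_inv (_ - _), mul_inv, mul_inv]
  ring

end coef2

theorem A2_idb (hK : IsCompact K) :
    EB0 (fun (_ : Lx ι P K) (e : P × Pl × Pl) => e) (Lx.b (ι := ι)) := by
  obtain ⟨C, hC⟩ := hK.isBounded.exists_norm_le
  refine EB_id (fun _ => le_rfl) (C := max 1 C) fun q => ?_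
  rw [mul_zero, Real.exp_zero, mul_one]
  unfold Lx.b
  rw [Prod.norm_def, Prod.norm_def]
  refine max_le (q.hp.trans (le_max_left _ _)) (max_le ?_ ?_)
  · exact (hC _ q.hz).trans (le_max_right _ _)
  · exact (hC _ q.hw).trans (le_max_right _ _)

theorem A2_pull {F : Type} [NormedAddCommGroup F] [NormedSpace ℝ F] (hK : IsCompact K)
    {f : Lx ι P K → P × Pl → F} (hf : EB0 f A2_pt) :
    EB0 (fun (q : Lx ι P K) (e : P × Pl × Pl) => f q (e.1, e.2.1)) Lx.b := by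
  have h1 := EB_clm (fun _ => le_rfl) (A2_idb (ι := ι) (P := P) hK)
    ((ContinuousLinearMap.fst ℝ P (Pl × Pl)).prod
      ((ContinuousLinearMap.fst ℝ Pl Pl).comp (ContinuousLinearMap.snd ℝ P (Pl × Pl))))
  exact EB_comp (fun _ => le_rfl) (g := f) (f := fun (_ : Lx ι P K) (e : P × Pl × Pl) =>
    ((e.1, e.2.1) : P × Pl)) hf h1

theorem jf_EB0 (h : CF Γ D m a b s) (hK : IsCompact K) :
    EB0 (fun q : Lx ι P K => jf m (s q.i)) Lx.b := by
  have hid := A2_idb (ι := ι) (P := P) hK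
  have hv1 : EB0 (fun (_ : Lx ι P K) (e : P × Pl × Pl) => e.2.2.1) Lx.b :=
    EB_clm (fun _ => le_rfl) hid ((ContinuousLinearMap.fst ℝ ℝ ℝ).comp
      ((ContinuousLinearMap.snd ℝ Pl Pl).comp (ContinuousLinearMap.snd ℝ P (Pl × Pl))))
  have hv2 : EB0 (fun (_ : Lx ι P K) (e : P × Pl × Pl) => e.2.2.2) Lx.b :=
    EB_clm (fun _ => le_rfl) hid ((ContinuousLinearMap.snd ℝ ℝ ℝ).comp
      ((ContinuousLinearMap.snd ℝ Pl Pl).comp (ContinuousLinearMap.snd ℝ P (Pl × Pl))))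
  have hfr : EB0 (fun (q : Lx ι P K) (e : P × Pl × Pl) => fr (mm m (s q.i) e.1 e.2.1) e.2.2)
      Lx.b :=
    EB_add (fun _ => le_rfl) (EB_smul (fun _ => le_rfl) hv1 (A2_pull hK (A2_fr1 h hK)))
      (EB_smul (fun _ => le_rfl) hv2 (A2_pull hK (A2_fr2 h hK)))
  have hf1 := EB_clm (fun _ => le_rfl) hfr (ContinuousLinearMap.fst ℝ ℝ ℝ)
  have hf2 := EB_clm (fun _ => le_rfl) hfr (ContinuousLinearMap.snd ℝ ℝ ℝ)
  have hom : EB0 (fun (q : Lx ι P K) (e : P × Pl × Pl) => om (mm m (s q.i) e.1) e.2.1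
      (fr (mm m (s q.i) e.1 e.2.1) e.2.2)) Lx.b :=
    EB_add (fun _ => le_rfl) (EB_mul (fun _ => le_rfl) (A2_pull hK (A2_cA h hK)) hf1)
      (EB_mul (fun _ => le_rfl) (A2_pull hK (A2_cB h hK)) hf2)
  have hneg : EB0 (fun (_ : Lx ι P K) (e : P × Pl × Pl) => ((e.2.2.2, -e.2.2.1) : Pl)) Lx.b :=
    A2_congr (EB_prod (fun _ => le_rfl) hv2
      (EB_mul (fun _ => le_rfl) (A2_cst Lx.b (-1 : ℝ)) hv1)) fun q e => by
      rw [neg_one_mul]
  have h1 := EB_prod (fun _ => le_rfl) (A2_cst Lx.b (0 : P)) (EB_prod (fun _ => le_rfl) hfr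
    (EB_smul (fun _ => le_rfl) hom hneg))
  exact h1

theorem jf_smooth (h : CF Γ D m a b s) (i : ι) : ContDiff ℝ ∞ (jf m (s i)) :=
  (jf_EB0 h (isCompact_singleton (x := (0 : Pl)))).smooth
    ⟨i, 0, 0, 0, by simp, rfl, rfl⟩

theorem jf_flow (h : CF Γ D m a b s) (i : ι) :
    IsFlow (jf m (s i)) (fun t q => (q.1, gfl (mm m (s i) q.1) t q.2)) := by
  refine ⟨fun q => ?_, fun q t => ?_⟩
  · exact Prod.ext rfl ((gfl_isFlow h.hX (hm_mm h i q.1)).zero q.2)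
  · exact (hasDerivAt_const t q.1).prodMk ((gfl_isFlow h.hX (hm_mm h i q.1)).deriv q.2 t)

end BE
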