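import Pool.Agent.LibBE88.A2
import Pool.Agent.LibBE88.A3
import Pool.Agent.LibBE88.F1

/-! Row BE88 A4 (cites A2, A3, F1): the exponential map as a function of all variables. MEDIUM, 40 min.
Plan. `gflJ_smooth`: the field `jf m (s i)` on the finite dimensional space `P × Pl × Pl` is smooth and has
the flow of `jf_flow`: `FL_smooth` (`LibBR70/FL7.lean`), second component, rearrange the variables.
`EB0_gfl`: `flow_EB0` (row F1) with `J = ι`, `S = Lx ι P K`, `jj q = q.i`, `x0 = Lx.b`; `ho`: `orb_bdd`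
(row A3) and `‖q.p‖ ≤ 1`; `hb`: `jf_EB0` (row A2) for the compact set `closedBall 0 B`, `B` from `orb_bdd`: the
points `(q.p, gfl ..)` are of the form `Lx.b q'` with `q' : Lx ι P (closedBall 0 B)` (use `EB_pull` or
unfold `EB`: the bounds of `jf_EB0` hold at these points). Then the second component (`EB_clm` with
`ContinuousLinearMap.snd`). `JE`: `Ex m x v = (gfl m 1 (x, v)).1` by definition. -/

open MeasureTheory Set Filter Topology
open scoped ContDiff

namespace BE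

open BGS BR

variable {Γ : Type} [Group Γ] [MulAction Γ Pl] {D : Set Pl}
variable {ι P : Type} [NormedAddCommGroup P] [NormedSpace ℝ P] [FiniteDimensional ℝ P]
  {m : Pl → Co} {a b : ℝ} {s : ι → P × Pl → ℝ} {K : Set Pl}

theorem gflJ_smooth (h : CF Γ D m a b s) (i : ι) :
    ContDiff ℝ ∞ (fun q : ℝ × P × Pl × Pl => gfl (mm m (s i) q.2.1) q.1 q.2.2) :=
  (FL_smooth (jf_smooth h i) (jf_flow h i)).snd

theorem EB0_gfl (h : CF Γ D m a b s) (hK : IsCompact K) :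
    EB0 (fun (q : Lx ι P K × Icc (0 : ℝ) 1) (e : P × Pl × Pl) =>
      gfl (mm m (s q.1.i) e.1) q.2 e.2) (fun q => q.1.b) := by
  obtain ⟨B, hB⟩ := orb_bdd h hK
  have ho : ∃ B' : ℝ, ∀ q : Lx ι P K × Icc (0 : ℝ) 1,
      ‖((q.1.b.1, gfl (mm m (s q.1.i) q.1.b.1) q.2 q.1.b.2) : P × Pl × Pl)‖ ≤ B' := by
    refine ⟨max 1 B, fun q => ?_⟩
    rw [Prod.norm_def]
    exact max_le_max q.1.hp (hB q.1 q.2 q.2.2)
  have hj := jf_EB0 h (isCompact_closedBall (0 : Pl) B)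
  have hb : EB0 (fun q : Lx ι P K × Icc (0 : ℝ) 1 => jf m (s q.1.i))
      (fun q => ((q.1.b.1, gfl (mm m (s q.1.i) q.1.b.1) q.2 q.1.b.2) : P × Pl × Pl)) := by
    refine ⟨fun q => jf_smooth h q.1.i, fun k => ?_⟩
    obtain ⟨C, hC⟩ := hj.bound k
    refine ⟨C, fun q => ?_⟩
    have h1 := hB q.1 q.2 q.2.2
    exact hC ⟨q.1.i, q.1.p, (gfl (mm m (s q.1.i) q.1.p) q.2 (q.1.z, q.1.w)).1,
      (gfl (mm m (s q.1.i) q.1.p) q.2 (q.1.z, q.1.w)).2, q.1.hp,
      mem_closedBall_zero_iff.2 ((norm_fst_le _).trans h1),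
      mem_closedBall_zero_iff.2 ((norm_snd_le _).trans h1)⟩
  have hf := flow_EB0 (J := ι) (E := P × Pl × Pl) (S := Lx ι P K) (f := fun i => jf m (s i))
    (jf_smooth h) (φ := fun i t q => (q.1, gfl (mm m (s i) q.1) t q.2)) (jf_flow h)
    (jj := fun q => q.i) (x0 := Lx.b) ho hb
  exact EB_clm (fun _ => le_rfl) hf (ContinuousLinearMap.snd ℝ P (Pl × Pl))

theorem JE_smooth (h : CF Γ D m a b s) (i : ι) : ContDiff ℝ ∞ (JE m (s i)) := by
  have h1 : ContDiff ℝ ∞ fun q : P × Pl × Pl => ((1, q) : ℝ × P × Pl × Pl) :=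
    contDiff_const.prodMk contDiff_id
  exact ((gflJ_smooth h i).comp h1).fst

theorem EB0_JE (h : CF Γ D m a b s) (hK : IsCompact K) :
    EB0 (fun q : Lx ι P K => JE m (s q.i)) Lx.b := by
  have h1 := EB_clm (fun _ => le_rfl) (EB0_gfl h hK) (ContinuousLinearMap.fst ℝ Pl Pl)
  refine ⟨fun q => JE_smooth h q.i, fun k => ?_⟩
  obtain ⟨C, hC⟩ := h1.bound k
  exact ⟨C, fun q => hC (q, ⟨1, by norm_num, le_rfl⟩)⟩

end BE
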