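import Pool.Agent.LibBE88.C2

/-! Row BE88 C3: implicit functions for chains. STRONG, 60 min.
`w q j : E → F`, `0 ≤ j ≤ N q`, solve the equations
`G q j (π q y, w_{j-1} y, w_j y, w_{j+1} y) = 0`, `1 ≤ j < N q`, for all `y ∈ E`. If all derivatives of
`G` (at the solution, at `y = x q`), of `π` and of the end points `w_0`, `w_N` are of class `EB`, and the
linearised equations at `x q` have an inverse of size `K exp (K ℓ)`, then `w` is of class `EB`.
Plan. By `EBn_iff` it is enough to prove `∀ n, EBn n`: induction on `n`. `n = 0`: `hb`. Step: `w` is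
`EBn n`; by composition (`EBn_prod`, `EBn_pull`, `EBn_comp`) so are, as families indexed by `In N`,
`y ↦ Y q j y := (π q y, w_{j-1} y, w_j y, w_{j+1} y)` and the coefficients
`A q j y = fderiv ℝ (G q j) (Y y) ∘L (inclusion of the second factor)` and similarly `B`, `C` (third and
fourth factor) (`EB_fderiv`, `EBn_clm` with `ContinuousLinearMap.compL`...) and for a direction `e`:
`r q j y = -(fderiv ℝ (G q j) (Y y) (fderiv ℝ (π q) y e, 0, 0, 0))`. Differentiating the equation in the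
direction `e` (chain rule): `A u_{j-1} + B u_j + C u_{j+1} = r` for `u q j y = fderiv ℝ (w q j) y e`.
`LS` (row C2) gives that `u` is `EBn n` (`hinv` is the hypothesis of `LS`, since
`(0, a, b, c)` is the sum of the three inclusions; `u_0`, `u_N` by `EB_fderiv_apply`), and `EBn_of_dir`
that `w` is `EBn (n + 1)`. -/

open MeasureTheory Set Filter Topology
open scoped ContDiff

namespace BE

open BGS BR

theorem IF {κ E F Q : Type} [NormedAddCommGroup E] [NormedSpace ℝ E] [FiniteDimensional ℝ E]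
    [NormedAddCommGroup F] [NormedSpace ℝ F] [NormedAddCommGroup Q] [NormedSpace ℝ Q]
    {ℓ : κ → ℝ} (hℓ : ∀ q, 0 ≤ ℓ q) {N : κ → ℕ} {x : κ → E} {w : κ → ℕ → E → F} {π : κ → E → Q}
    {G : κ → ℕ → Q × F × F × F → F} (hπ : EB ℓ π x)
    (hG : EB (fun q : In N => ℓ q.1.1) (fun q => G q.1.1 q.1.2)
      (fun q => (π q.1.1 (x q.1.1), w q.1.1 (q.1.2 - 1) (x q.1.1), w q.1.1 q.1.2 (x q.1.1),
        w q.1.1 (q.1.2 + 1) (x q.1.1))))
    (hw : ∀ q j, ContDiff ℝ ∞ (w q j))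
    (heq : ∀ q j, 1 ≤ j → j < N q → ∀ y,
      G q j (π q y, w q (j - 1) y, w q j y, w q (j + 1) y) = 0)
    (h0 : EB ℓ (fun q => w q 0) x) (h1 : EB ℓ (fun q => w q (N q)) x)
    (hb : ∃ C : ℝ, ∀ q j, j ≤ N q → ‖w q j (x q)‖ ≤ C * Real.exp (C * ℓ q))
    (hinv : ∃ K : ℝ, ∀ (q : κ) (v : ℕ → F) (M : ℝ), ‖v 0‖ ≤ M → ‖v (N q)‖ ≤ M →
      (∀ j, 1 ≤ j → j < N q →
        ‖fderiv ℝ (G q j) (π q (x q), w q (j - 1) (x q), w q j (x q), w q (j + 1) (x q))
          (0, v (j - 1), v j, v (j + 1))‖ ≤ M) →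
      ∀ j ≤ N q, ‖v j‖ ≤ K * Real.exp (K * ℓ q) * M) :
    EB (fun q : Le N => ℓ q.1.1) (fun q => w q.1.1 q.1.2) (fun q => x q.1.1) := by
  have hIn : ∀ q : In N, 0 ≤ ℓ q.1.1 := fun q => hℓ q.1.1
  have hLe : ∀ q : Le N, 0 ≤ ℓ q.1.1 := fun q => hℓ q.1.1
  rw [EBn_iff]
  intro n
  induction n with
  | zero =>
    refine ⟨fun q => hw q.1.1 q.1.2, fun k hk => ?_⟩
    have hk0 : k = 0 := Nat.le_zero.mp hk
    subst hk0
    obtain ⟨C', hC'⟩ := hb
    refine ⟨C', fun i => ?_⟩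
    rw [norm_iteratedFDeriv_zero]
    exact hC' i.1.1 i.1.2 i.2
  | succ n ih =>
    have hwm : EBn n (fun q : In N => ℓ q.1.1) (fun q => w q.1.1 (q.1.2 - 1))
        (fun q => x q.1.1) :=
      EBn_pull ih (fun q : In N => (⟨(q.1.1, q.1.2 - 1), (Nat.sub_le _ _).trans q.2.2.le⟩ : Le N))
    have hw0 : EBn n (fun q : In N => ℓ q.1.1) (fun q => w q.1.1 q.1.2)
        (fun q => x q.1.1) :=
      EBn_pull ih (fun q : In N => (⟨(q.1.1, q.1.2), q.2.2.le⟩ : Le N))
    have hwp : EBn n (fun q : In N => ℓ q.1.1) (fun q => w q.1.1 (q.1.2 + 1))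
        (fun q => x q.1.1) :=
      EBn_pull ih (fun q : In N => (⟨(q.1.1, q.1.2 + 1), q.2.2⟩ : Le N))
    have hπn : EBn n (fun q : In N => ℓ q.1.1) (fun q => π q.1.1) (fun q => x q.1.1) :=
      EBn_pull (EBn_iff.1 hπ n) (fun q : In N => q.1.1)
    have hY : EBn n (fun q : In N => ℓ q.1.1) (fun q y => (π q.1.1 y, w q.1.1 (q.1.2 - 1) y,
        w q.1.1 q.1.2 y, w q.1.1 (q.1.2 + 1) y)) (fun q => x q.1.1) :=
      EBn_prod hIn hπn (EBn_prod hIn hwm (EBn_prod hIn hw0 hwp))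
    have hdG : EBn n (fun q : In N => ℓ q.1.1)
        (fun q y => fderiv ℝ (G q.1.1 q.1.2) (π q.1.1 y, w q.1.1 (q.1.2 - 1) y,
          w q.1.1 q.1.2 y, w q.1.1 (q.1.2 + 1) y)) (fun q => x q.1.1) :=
      EBn_comp hIn (EBn_iff.1 (EB_fderiv hG) n) hY
    obtain ⟨i2, hi2⟩ : ∃ i2 : F →L[ℝ] Q × F × F × F, i2 =
      (ContinuousLinearMap.inr ℝ Q (F × F × F)).comp (ContinuousLinearMap.inl ℝ F (F × F)) :=
      ⟨_, rfl⟩
    obtain ⟨i3, hi3⟩ : ∃ i3 : F →L[ℝ] Q × F × F × F, i3 =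
      (ContinuousLinearMap.inr ℝ Q (F × F × F)).comp ((ContinuousLinearMap.inr ℝ F (F × F)).comp
        (ContinuousLinearMap.inl ℝ F F)) := ⟨_, rfl⟩
    obtain ⟨i4, hi4⟩ : ∃ i4 : F →L[ℝ] Q × F × F × F, i4 =
      (ContinuousLinearMap.inr ℝ Q (F × F × F)).comp ((ContinuousLinearMap.inr ℝ F (F × F)).comp
        (ContinuousLinearMap.inr ℝ F F)) := ⟨_, rfl⟩
    have hi2a : ∀ a, i2 a = (0, a, 0, 0) := fun a => by rw [hi2]; rfl
    have hi3a : ∀ a, i3 a = (0, 0, a, 0) := fun a => by rw [hi3]; rfl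
    have hi4a : ∀ a, i4 a = (0, 0, 0, a) := fun a => by rw [hi4]; rfl
    have hcl : ∀ L : F →L[ℝ] Q × F × F × F, EBn n (fun q : In N => ℓ q.1.1)
        (fun q y => (fderiv ℝ (G q.1.1 q.1.2) (π q.1.1 y, w q.1.1 (q.1.2 - 1) y,
          w q.1.1 q.1.2 y, w q.1.1 (q.1.2 + 1) y)).comp L) (fun q => x q.1.1) := fun L =>
      EBn_clm hIn hdG ((ContinuousLinearMap.compL ℝ F (Q × F × F × F) F).flip L)
    have h0b : ∃ C : ℝ, ∀ q : Le N, ‖w q.1.1 q.1.2 (x q.1.1)‖ ≤ C * Real.exp (C * ℓ q.1.1) := by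
      obtain ⟨C', hC'⟩ := hb
      exact ⟨C', fun i => hC' i.1.1 i.1.2 i.2⟩
    refine EBn_of_dir hLe (fun q => hw q.1.1 q.1.2) h0b (fun e => ?_)
    have hinv' : ∃ K : ℝ, ∀ (q : κ) (v : ℕ → F) (M : ℝ), ‖v 0‖ ≤ M → ‖v (N q)‖ ≤ M →
        (∀ j, 1 ≤ j → j < N q →
          ‖(fderiv ℝ (G q j) (π q (x q), w q (j - 1) (x q), w q j (x q),
              w q (j + 1) (x q))).comp i2 (v (j - 1)) +
            (fderiv ℝ (G q j) (π q (x q), w q (j - 1) (x q), w q j (x q),
              w q (j + 1) (x q))).comp i3 (v j) +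
            (fderiv ℝ (G q j) (π q (x q), w q (j - 1) (x q), w q j (x q),
              w q (j + 1) (x q))).comp i4 (v (j + 1))‖ ≤ M) →
        ∀ j ≤ N q, ‖v j‖ ≤ K * Real.exp (K * ℓ q) * M := by
      obtain ⟨K, hK⟩ := hinv
      refine ⟨K, fun q v M h2 h3 h4 => hK q v M h2 h3 (fun j h5 h6 => ?_)⟩
      have h7 := h4 j h5 h6
      rw [ContinuousLinearMap.comp_apply, ContinuousLinearMap.comp_apply,
        ContinuousLinearMap.comp_apply, ← map_add, ← map_add, hi2a, hi3a, hi4a] at h7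
      have h8 : ((0, v (j - 1), 0, 0) + (0, 0, v j, 0) + (0, 0, 0, v (j + 1)) : Q × F × F × F) =
          (0, v (j - 1), v j, v (j + 1)) := by
        simp
      rw [h8] at h7
      exact h7
    refine LS hℓ hinv' (r := fun q j y => fderiv ℝ (G q j) (π q y, w q (j - 1) y,
          w q j y, w q (j + 1) y) ((-(ContinuousLinearMap.inl ℝ Q (F × F × F)))
            (fderiv ℝ (π q) y e)))
      (A := fun q j y => (fderiv ℝ (G q j) (π q y, w q (j - 1) y, w q j y, w q (j + 1) y)).comp i2)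
      (B := fun q j y => (fderiv ℝ (G q j) (π q y, w q (j - 1) y, w q j y, w q (j + 1) y)).comp i3)
      (C := fun q j y => (fderiv ℝ (G q j) (π q y, w q (j - 1) y, w q j y, w q (j + 1) y)).comp i4)
      (u := fun q j y => fderiv ℝ (w q j) y e)
      (hcl i2) (hcl i3) (hcl i4) (fun q j => ?_) (fun q j h2 h3 y => ?_) ?_
      (EBn_iff.1 (EB_fderiv_apply hℓ h0 e) n) (EBn_iff.1 (EB_fderiv_apply hℓ h1 e) n)
    · exact ((hw q j).fderiv_right (m := ∞) (by simp)).clm_apply contDiff_const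
    · have hne : (∞ : WithTop ℕ∞) ≠ 0 := by simp
      have hGd : HasFDerivAt (G q j) (fderiv ℝ (G q j) (π q y, w q (j - 1) y, w q j y,
          w q (j + 1) y)) (π q y, w q (j - 1) y, w q j y, w q (j + 1) y) :=
        ((hG.smooth ⟨(q, j), h2, h3⟩).differentiable hne _).hasFDerivAt
      have hπd : HasFDerivAt (π q) (fderiv ℝ (π q) y) y :=
        ((hπ.smooth q).differentiable hne y).hasFDerivAt
      have hwd : ∀ i, HasFDerivAt (w q i) (fderiv ℝ (w q i) y) y := fun i =>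
        ((hw q i).differentiable hne y).hasFDerivAt
      have hYd := hπd.prodMk ((hwd (j - 1)).prodMk ((hwd j).prodMk (hwd (j + 1))))
      have hc := HasFDerivAt.comp y hGd hYd
      have hfun : (G q j ∘ fun y => (π q y, w q (j - 1) y, w q j y, w q (j + 1) y)) =
          fun _ => (0 : F) := by
        funext y
        exact heq q j h2 h3 y
      rw [hfun] at hc
      have huniq := congrArg (fun L : E →L[ℝ] F => L e) (hc.unique (hasFDerivAt_const (0 : F) y))
      simp only [ContinuousLinearMap.comp_apply, zero_apply,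
        ContinuousLinearMap.prod_apply] at huniq
      change (fderiv ℝ (G q j) (π q y, w q (j - 1) y, w q j y, w q (j + 1) y))
          (i2 (fderiv ℝ (w q (j - 1)) y e)) +
        (fderiv ℝ (G q j) (π q y, w q (j - 1) y, w q j y, w q (j + 1) y))
          (i3 (fderiv ℝ (w q j) y e)) +
        (fderiv ℝ (G q j) (π q y, w q (j - 1) y, w q j y, w q (j + 1) y))
          (i4 (fderiv ℝ (w q (j + 1)) y e)) =
        (fderiv ℝ (G q j) (π q y, w q (j - 1) y, w q j y, w q (j + 1) y))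
          ((-(ContinuousLinearMap.inl ℝ Q (F × F × F))) (fderiv ℝ (π q) y e))
      rw [← sub_eq_zero, ← map_add, ← map_add, ← map_sub, hi2a, hi3a, hi4a]
      have htup : ∀ (p : Q) (a b c : F), ((0, a, 0, 0) + (0, 0, b, 0) + (0, 0, 0, c) -
          (-(ContinuousLinearMap.inl ℝ Q (F × F × F))) p : Q × F × F × F) = (p, a, b, c) := by
        intro p a b c
        rw [neg_apply, ContinuousLinearMap.inl_apply]
        refine Prod.ext ?_ (Prod.ext ?_ (Prod.ext ?_ ?_)) <;> simp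
      rw [htup]
      exact huniq
    · exact EBn_clm_apply hIn hdG (EBn_clm hIn
        (EBn_pull (EBn_iff.1 (EB_fderiv_apply hℓ hπ e) n) (fun q : In N => q.1.1))
        (-(ContinuousLinearMap.inl ℝ Q (F × F × F))))

end BE
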