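import Pool.Agent.LibBE88.A4
import Pool.Agent.LibBE88.C3

/-! Row BE88 A5 (cites A1, A4, C3, `LibBR70/H1h`, `H1j`): the inverse of the exponential map as a
function of all variables. MEDIUM / STRONG, 60 min.
Plan. `JV_smooth`: as `Vx_smooth` in `LibBR70/H1j.lean` with the parameter: `Ψ (p, z, v) = (p, z, JE (p, z, v))` is
smooth (`JE_smooth`), bijective on `P × Pl × Pl` (`Ex_bij` for every metric `mm m (s i) p`, `hm_mm`), its
derivative is injective (block triangular; `Ex_expand`), hence invertible (finite dimension), and the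
inverse `(p, z, w) ↦ (p, z, JV (p, z, w))` is smooth (copy the argument of `H1j.lean`).
`JV_bdd`: for fixed `i, p, z`: along the segment `w r = z + r • (w - z)`, `r ∈ [0, 1]`, the curve
`V r = Vx (mm ..) z (w r)` satisfies `Ex (V r) = w r`, so by `Ex_expand`
`eu (V' r) ^ 2 ≤ qf (mm .. (w r)) (w - z) ≤ C` (the points `w r` lie in the convex hull of `K`, a
bounded set, `mm_cmp` and `m` bounded on compact sets); `V 0 = 0` (`Vx_self`); mean value inequality
(`norm_image_sub_le_of_norm_deriv_le_segment`, `‖v‖ ≤ eu v`).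
`EB0_JV`: apply `IF` (row C3) with `κ = Lx ι P K`, `E = P × Pl × Pl`, `Q = P × Pl × Pl`, `F = Pl`, `π q = id`,
`ℓ = 0`, `N q = 2`, `w q 1 = JV m (s q.i)`, `w q 0 = w q 2 = 0` (constants; `w q j = 0` for `j ≠ 1`),
`G q j (e, a, v, c) = JE m (s q.i) (e.1, e.2.1, v) - e.2.2`. `hG`: `EB0_JE` for the compact set
`K ∪ closedBall 0 C` (`C` from `JV_bdd`) composed with the linear map `(e, a, v, c) ↦ (e.1, e.2.1, v)`. `heq`:
`Ex_Vx`. `hinv`: for `j = 1` the derivative in the direction `(0, v0, v1, v2)` is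
`fderiv ℝ (Ex (mm ..) z) V v1`, and `‖v1‖ ≤ eu v1 ≤ √(qf (mm .. w) (..)) ≤ C' ‖..‖` (`Ex_expand`; `qf` is
bounded by `C' ^ 2 ‖v‖ ^ 2` on the compact set `K`). Then restrict to `j = 1`. -/

open MeasureTheory Set Filter Topology
open scoped ContDiff

namespace BE

open BGS BR

variable {Γ : Type} [Group Γ] [MulAction Γ Pl] {D : Set Pl}
variable {ι P : Type} [NormedAddCommGroup P] [NormedSpace ℝ P] [FiniteDimensional ℝ P]
  {m : Pl → Co} {a b : ℝ} {s : ι → P × Pl → ℝ} {K : Set Pl}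

private theorem A5_eu_zero {v : Pl} (h : eu v ^ 2 ≤ 0) : v = 0 := by
  have h1 : eu v ^ 2 = v.1 ^ 2 + v.2 ^ 2 := Real.sq_sqrt (by positivity)
  rw [h1] at h
  have h2 : v.1 = 0 := by nlinarith [sq_nonneg v.1, sq_nonneg v.2]
  have h3 : v.2 = 0 := by nlinarith [sq_nonneg v.1, sq_nonneg v.2]
  exact Prod.ext h2 h3

private theorem A5_diffE (h : CF Γ D m a b s) (i : ι) (p : P) (z : Pl) :
    Differentiable ℝ (Ex (mm m (s i) p) z) :=
  ((Ex_smooth h.hX (hm_mm h i p)).comp (contDiff_const.prodMk contDiff_id)).differentiable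
    (by simp)

private theorem A5_inj (h : CF Γ D m a b s) (i : ι) (q : P × Pl × Pl) :
    Function.Injective (fderiv ℝ (fun e : P × Pl × Pl =>
      ((e.1, e.2.1, JE m (s i) e) : P × Pl × Pl)) q) := by
  set Ψ : P × Pl × Pl → P × Pl × Pl := fun e => (e.1, e.2.1, JE m (s i) e) with hΨ
  have hs : ContDiff ℝ ∞ Ψ :=
    contDiff_fst.prodMk ((contDiff_fst.comp contDiff_snd).prodMk (JE_smooth h i))
  have hd : Differentiable ℝ Ψ := hs.differentiable (by simp)
  have hE := A5_diffE h i q.1 q.2.1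
  rw [injective_iff_map_eq_zero]
  rintro ⟨b1, b2, c⟩ h0
  have h1 : (ContinuousLinearMap.fst ℝ P (Pl × Pl)).comp (fderiv ℝ Ψ q) =
      ContinuousLinearMap.fst ℝ P (Pl × Pl) := by
    have e1 := (ContinuousLinearMap.fst ℝ P (Pl × Pl)).hasFDerivAt.comp q (hd q).hasFDerivAt
    have e2 : HasFDerivAt (fun e : P × Pl × Pl => e.1) (ContinuousLinearMap.fst ℝ P (Pl × Pl)) q :=
      hasFDerivAt_fst
    exact e1.unique e2
  have h2 : b1 = 0 := by
    have e1 := congrArg (fun f : (P × Pl × Pl) →L[ℝ] P => f (b1, b2, c)) h1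
    simp only [ContinuousLinearMap.comp_apply, h0, map_zero] at e1
    exact e1.symm
  subst h2
  have h1' : ((ContinuousLinearMap.fst ℝ Pl Pl).comp (ContinuousLinearMap.snd ℝ P (Pl × Pl))).comp
      (fderiv ℝ Ψ q) =
      (ContinuousLinearMap.fst ℝ Pl Pl).comp (ContinuousLinearMap.snd ℝ P (Pl × Pl)) := by
    have e1 := ((ContinuousLinearMap.fst ℝ Pl Pl).comp
      (ContinuousLinearMap.snd ℝ P (Pl × Pl))).hasFDerivAt.comp q (hd q).hasFDerivAt
    have e2 : HasFDerivAt (fun e : P × Pl × Pl => e.2.1)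
        ((ContinuousLinearMap.fst ℝ Pl Pl).comp (ContinuousLinearMap.snd ℝ P (Pl × Pl))) q :=
      ((ContinuousLinearMap.fst ℝ Pl Pl).comp
        (ContinuousLinearMap.snd ℝ P (Pl × Pl))).hasFDerivAt
    exact e1.unique e2
  have h2' : b2 = 0 := by
    have e1 := congrArg (fun f : (P × Pl × Pl) →L[ℝ] Pl => f (0, b2, c)) h1'
    simp only [ContinuousLinearMap.comp_apply, h0, map_zero] at e1
    exact e1.symm
  subst h2'
  have h00 : HasDerivAt (fun r : ℝ => q.2.2 + r • c) c 0 := by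
    simpa using ((hasDerivAt_id (0 : ℝ)).smul_const c).const_add q.2.2
  have h3 : HasDerivAt (fun r : ℝ => ((q.1, q.2.1, q.2.2 + r • c) : P × Pl × Pl))
      ((0, 0, c) : P × Pl × Pl) 0 :=
    (hasDerivAt_const (0 : ℝ) q.1).prodMk ((hasDerivAt_const (0 : ℝ) q.2.1).prodMk h00)
  have h4 : HasFDerivAt Ψ (fderiv ℝ Ψ q) ((q.1, q.2.1, q.2.2 + (0 : ℝ) • c) : P × Pl × Pl) := by
    rw [zero_smul, add_zero]
    exact (hd q).hasFDerivAt
  have h5 := ((ContinuousLinearMap.snd ℝ Pl Pl).comp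
    (ContinuousLinearMap.snd ℝ P (Pl × Pl))).hasFDerivAt.comp_hasDerivAt (0 : ℝ)
    (h4.comp_hasDerivAt (0 : ℝ) h3)
  have h6 : HasFDerivAt (Ex (mm m (s i) q.1) q.2.1) (fderiv ℝ (Ex (mm m (s i) q.1) q.2.1) q.2.2)
      (q.2.2 + (0 : ℝ) • c) := by
    rw [zero_smul, add_zero]
    exact (hE q.2.2).hasFDerivAt
  have h7 := h6.comp_hasDerivAt (0 : ℝ) h00
  have h8 := h7.unique h5
  rw [h0, map_zero] at h8
  have h9 := Ex_expand h.hX (hm_mm h i q.1) q.2.1 q.2.2 c
  rw [h8] at h9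
  have h10 : qf (mm m (s i) q.1 (Ex (mm m (s i) q.1) q.2.1 q.2.2)) 0 = 0 := by simp [qf]
  rw [h10] at h9
  rw [A5_eu_zero h9]
  rfl

private theorem A5_qf_le (c : Co) (v : Pl) : qf c v ≤ 4 * ‖c‖ * ‖v‖ ^ 2 := by
  have h1 : |c.1| ≤ ‖c‖ := norm_fst_le c
  have h2 : |c.2.1| ≤ ‖c‖ := (norm_fst_le c.2).trans (norm_snd_le c)
  have h3 : |c.2.2| ≤ ‖c‖ := (norm_snd_le c.2).trans (norm_snd_le c)
  have h4 : |v.1| ≤ ‖v‖ := norm_fst_le v
  have h5 : |v.2| ≤ ‖v‖ := norm_snd_le v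
  have e1 : |c.1 * v.1 ^ 2| ≤ ‖c‖ * ‖v‖ ^ 2 := by
    rw [abs_mul, abs_pow]
    exact mul_le_mul h1 (pow_le_pow_left₀ (abs_nonneg _) h4 2) (by positivity) (norm_nonneg _)
  have e2 : |c.2.1 * v.1 * v.2| ≤ ‖c‖ * ‖v‖ ^ 2 := by
    rw [abs_mul, abs_mul, mul_assoc, pow_two]
    exact mul_le_mul h2 (mul_le_mul h4 h5 (abs_nonneg _) (norm_nonneg _)) (by positivity)
      (norm_nonneg _)
  have e3 : |c.2.2 * v.2 ^ 2| ≤ ‖c‖ * ‖v‖ ^ 2 := by
    rw [abs_mul, abs_pow]
    exact mul_le_mul h3 (pow_le_pow_left₀ (abs_nonneg _) h5 2) (by positivity) (norm_nonneg _)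
  have f1 := le_abs_self (c.1 * v.1 ^ 2)
  have f2 := le_abs_self (c.2.1 * v.1 * v.2)
  have f3 := le_abs_self (c.2.2 * v.2 ^ 2)
  unfold qf
  have e4 : 2 * c.2.1 * v.1 * v.2 = 2 * (c.2.1 * v.1 * v.2) := by ring
  rw [e4]
  linarith

/-- On a compact set the metrics are bounded. -/
private theorem A5_qf_bdd (h : CF Γ D m a b s) {K : Set Pl} (hK : IsCompact K) :
    ∃ C : ℝ, 0 ≤ C ∧ ∀ (i : ι) (p : P), ‖p‖ ≤ 1 → ∀ z ∈ K, ∀ v : Pl,
      qf (mm m (s i) p z) v ≤ (C * ‖v‖) ^ 2 := by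
  obtain ⟨C1, hC1, h1⟩ := mm_cmp h
  obtain ⟨C2, hC2⟩ := hK.exists_bound_of_continuousOn h.hm.smooth.continuous.continuousOn
  have hC0 : 0 ≤ C1 := by linarith
  refine ⟨C1 * (2 * √(max C2 0)), by positivity, fun i p hp z hz v => ?_⟩
  refine ((h1 i p hp z v).2).trans ?_
  have e1 : (C1 * (2 * √(max C2 0)) * ‖v‖) ^ 2 = C1 ^ 2 * (4 * (max C2 0) * ‖v‖ ^ 2) := by
    have e2 : √(max C2 0) ^ 2 = max C2 0 := Real.sq_sqrt (le_max_right _ _)
    calc (C1 * (2 * √(max C2 0)) * ‖v‖) ^ 2 = C1 ^ 2 * (4 * √(max C2 0) ^ 2 * ‖v‖ ^ 2) := by ring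
      _ = _ := by rw [e2]
  rw [e1]
  refine mul_le_mul_of_nonneg_left ?_ (by positivity)
  refine (A5_qf_le _ _).trans ?_
  refine mul_le_mul_of_nonneg_right ?_ (by positivity)
  exact mul_le_mul_of_nonneg_left ((hC2 z hz).trans (le_max_left _ _)) (by norm_num)

/-- The inverse of the derivative of the exponential map. -/
private theorem A5_inv_le (h : CF Γ D m a b s) {i : ι} {p : P} {C : ℝ} (hC : 0 ≤ C) {z V : Pl}
    (hq : ∀ v : Pl, qf (mm m (s i) p (Ex (mm m (s i) p) z V)) v ≤ (C * ‖v‖) ^ 2) (c : Pl) :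
    ‖c‖ ≤ C * ‖fderiv ℝ (Ex (mm m (s i) p) z) V c‖ := by
  have h1 := Ex_expand h.hX (hm_mm h i p) z V c
  have h2 := h1.trans (hq _)
  have h3 : 0 ≤ C * ‖fderiv ℝ (Ex (mm m (s i) p) z) V c‖ := by positivity
  have h4 : eu c ≤ C * ‖fderiv ℝ (Ex (mm m (s i) p) z) V c‖ := by
    have h5 : 0 ≤ eu c := Real.sqrt_nonneg _
    nlinarith
  exact (H1e_norm c).trans h4

theorem JV_smooth (h : CF Γ D m a b s) (i : ι) : ContDiff ℝ ∞ (JV m (s i)) := by
  haveI : CompleteSpace (P × Pl × Pl) := FiniteDimensional.complete ℝ _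
  set Ψ : P × Pl × Pl → P × Pl × Pl := fun e => (e.1, e.2.1, JE m (s i) e) with hΨ
  set g : P × Pl × Pl → P × Pl × Pl := fun e => (e.1, e.2.1, JV m (s i) e) with hg
  have hs : ContDiff ℝ ∞ Ψ :=
    contDiff_fst.prodMk ((contDiff_fst.comp contDiff_snd).prodMk (JE_smooth h i))
  have hd : Differentiable ℝ Ψ := hs.differentiable (by simp)
  have hΨg : ∀ q, Ψ (g q) = q := fun q =>
    Prod.ext rfl (Prod.ext rfl (Ex_Vx h.hX (hm_mm h i q.1) q.2.1 q.2.2))
  have hgΨ : ∀ q, g (Ψ q) = q := fun q =>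
    Prod.ext rfl (Prod.ext rfl (Vx_Ex h.hX (hm_mm h i q.1) q.2.1 q.2.2))
  have hinj : Function.Injective Ψ := Function.LeftInverse.injective hgΨ
  have hgs : ContDiff ℝ ∞ g := by
    rw [contDiff_iff_contDiffAt]
    intro q
    have hq := hΨg q
    set a := g q with ha
    have hinjd : Function.Injective (fderiv ℝ Ψ a) := A5_inj h i a
    let A : (P × Pl × Pl) ≃L[ℝ] (P × Pl × Pl) :=
      (LinearEquiv.ofInjectiveEndo (fderiv ℝ Ψ a : (P × Pl × Pl) →ₗ[ℝ] (P × Pl × Pl))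
        hinjd).toContinuousLinearEquiv
    have hA : (A : (P × Pl × Pl) →L[ℝ] (P × Pl × Pl)) = fderiv ℝ Ψ a :=
      ContinuousLinearMap.ext fun v => rfl
    have hf' : HasFDerivAt Ψ (A : (P × Pl × Pl) →L[ℝ] (P × Pl × Pl)) a := by
      rw [hA]
      exact (hd a).hasFDerivAt
    have hn : (∞ : WithTop ℕ∞) ≠ 0 := by simp
    have hc : ContDiffAt ℝ ∞ Ψ a := hs.contDiffAt
    have h1 := hc.to_localInverse hf' hn
    have h2 := (hc.hasStrictFDerivAt' hf' hn).eventually_right_inverse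
    rw [hq] at h1 h2
    refine h1.congr_of_eventuallyEq ?_
    filter_upwards [h2] with y hy
    exact hinj ((hΨg y).trans hy.symm)
  exact (contDiff_snd.comp contDiff_snd).comp hgs

theorem JV_bdd (h : CF Γ D m a b s) (hK : IsCompact K) : ∃ C : ℝ, ∀ q : Lx ι P K,
    ‖JV m (s q.i) q.b‖ ≤ C := by
  obtain ⟨R, hR⟩ := hK.isBounded.subset_closedBall (0 : Pl)
  obtain ⟨C, hC, hq⟩ := A5_qf_bdd h (isCompact_closedBall (0 : Pl) R)
  refine ⟨C * (2 * R), fun q => ?_⟩
  have hz : ‖q.z‖ ≤ R := by simpa using hR q.hz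
  have hw : ‖q.w‖ ≤ R := by simpa using hR q.hw
  have hm := hm_mm h q.i q.p
  -- the segment
  let W : ℝ → Pl := fun r => q.z + r • (q.w - q.z)
  let V : ℝ → Pl := fun r => JV m (s q.i) (q.p, q.z, W r)
  have hW : ∀ r, HasDerivAt W (q.w - q.z) r := fun r => by
    have h1 := ((hasDerivAt_id r).smul_const (q.w - q.z)).const_add q.z
    rwa [one_smul] at h1
  have hV : Differentiable ℝ V := by
    have h1 : Differentiable ℝ (JV m (s q.i)) := (JV_smooth h q.i).differentiable (by simp)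
    have h2 : Differentiable ℝ (fun r => ((q.p, q.z, W r) : P × Pl × Pl)) :=
      (differentiable_const _).prodMk ((differentiable_const _).prodMk
        (fun r => (hW r).differentiableAt))
    exact h1.comp h2
  have hE : ∀ r, Ex (mm m (s q.i) q.p) q.z (V r) = W r := fun r => Ex_Vx h.hX hm _ _
  have hWb : ∀ r ∈ Icc (0 : ℝ) 1, W r ∈ Metric.closedBall (0 : Pl) R := by
    intro r hr
    rw [mem_closedBall_zero_iff]
    have e1 : W r = (1 - r) • q.z + r • q.w := by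
      simp only [W, smul_sub, sub_smul, one_smul]
      abel
    rw [e1]
    refine (norm_add_le _ _).trans ?_
    rw [norm_smul, norm_smul, Real.norm_of_nonneg hr.1, Real.norm_of_nonneg (by linarith [hr.2])]
    have h1 : (1 - r) * ‖q.z‖ ≤ (1 - r) * R := mul_le_mul_of_nonneg_left hz (by linarith [hr.2])
    have h2 : r * ‖q.w‖ ≤ r * R := mul_le_mul_of_nonneg_left hw hr.1
    linarith
  have hder : ∀ r ∈ Icc (0 : ℝ) 1, ‖deriv V r‖ ≤ C * (2 * R) := by
    intro r hr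
    have h1 := (A5_diffE h q.i q.p q.z (V r)).hasFDerivAt.comp_hasDerivAt r (hV r).hasDerivAt
    have h2 : (Ex (mm m (s q.i) q.p) q.z ∘ V) = W := funext hE
    rw [h2] at h1
    have h3 := h1.unique (hW r)
    have h4 := A5_inv_le h (i := q.i) (p := q.p) hC (z := q.z) (V := V r)
      (by
        intro v
        rw [hE]
        exact hq q.i q.p q.hp _ (hWb r hr) v) (deriv V r)
    rw [h3] at h4
    refine h4.trans (mul_le_mul_of_nonneg_left ?_ hC)
    refine (norm_sub_le _ _).trans ?_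
    linarith
  have h5 := norm_image_sub_le_of_norm_deriv_le_segment_01' (f := V) (f' := deriv V)
    (C := C * (2 * R)) (fun r _ => (hV r).hasDerivAt.hasDerivWithinAt)
    (fun r hr => hder r ⟨hr.1, hr.2.le⟩)
  have h6 : V 0 = 0 := by
    show Vx (mm m (s q.i) q.p) q.z (q.z + (0 : ℝ) • (q.w - q.z)) = 0
    rw [zero_smul, add_zero]
    exact Vx_self h.hX hm _
  have h7 : V 1 = JV m (s q.i) q.b := by
    show JV m (s q.i) (q.p, q.z, q.z + (1 : ℝ) • (q.w - q.z)) = _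
    rw [one_smul, add_sub_cancel]
    rfl
  rw [h6, h7, sub_zero] at h5
  exact h5

private theorem A5_const {κ E F : Type} [NormedAddCommGroup E] [NormedSpace ℝ E]
    [NormedAddCommGroup F] [NormedSpace ℝ F] {x : κ → E} :
    EB (fun _ => (0 : ℝ)) (fun (_ : κ) (_ : E) => (0 : F)) x :=
  EB_const (fun _ => le_rfl) (C := 0) (fun i => by simp)

theorem EB0_JV (h : CF Γ D m a b s) (hK : IsCompact K) :
    EB0 (fun q : Lx ι P K => JV m (s q.i)) Lx.b := by
  classical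
  obtain ⟨B, hB⟩ := JV_bdd h hK
  obtain ⟨R, hR⟩ := hK.isBounded.subset_closedBall (0 : Pl)
  obtain ⟨C, hC, hq⟩ := A5_qf_bdd h hK
  have hzR : ∀ q : Lx ι P K, ‖q.z‖ ≤ R := fun q => by simpa using hR q.hz
  have hwR : ∀ q : Lx ι P K, ‖q.w‖ ≤ R := fun q => by simpa using hR q.hw
  have hbR : ∀ q : Lx ι P K, ‖q.b‖ ≤ max 1 R := fun q => by
    show ‖((q.p, q.z, q.w) : P × Pl × Pl)‖ ≤ _
    rw [Prod.norm_def, Prod.norm_def]
    exact max_le_max q.hp (max_le (hzR q) (hwR q))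
  have hbb : ∀ q : Lx ι P K, ‖JV m (s q.i) q.b‖ ≤ max B 0 := fun q =>
    (hB q).trans (le_max_left _ _)
  set K' : Set Pl := K ∪ Metric.closedBall 0 (max B 0) with hK'
  have hK'c : IsCompact K' := hK.union (isCompact_closedBall _ _)
  let N : Lx ι P K → ℕ := fun _ => 2
  let w : Lx ι P K → ℕ → P × Pl × Pl → Pl := fun q j => if j = 1 then JV m (s q.i) else fun _ => 0
  have hw1 : ∀ q, w q 1 = JV m (s q.i) := fun q => if_pos rfl
  have hw0 : ∀ q, w q 0 = fun _ => 0 := fun q => if_neg (by norm_num)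
  have hw2 : ∀ q, w q 2 = fun _ => 0 := fun q => if_neg (by norm_num)
  let π : Lx ι P K → P × Pl × Pl → P × Pl × Pl := fun _ y => y
  let G : Lx ι P K → ℕ → (P × Pl × Pl) × Pl × Pl × Pl → Pl := fun q _ u =>
    JE m (s q.i) (u.1.1, u.1.2.1, u.2.2.1) - u.1.2.2
  have hj : ∀ q : In N, q.1.2 = 1 := fun q => by
    have h1 : 1 ≤ q.1.2 := q.2.1
    have h2 : q.1.2 < 2 := q.2.2
    omega
  have hπ : EB (fun _ => (0 : ℝ)) π Lx.b :=
    EB_id (fun _ => le_rfl) (C := max 1 R) (fun q => by simpa using hbR q)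
  have hws : ∀ q j, ContDiff ℝ ∞ (w q j) := by
    intro q j
    by_cases hj : j = 1
    · subst hj
      rw [hw1]
      exact JV_smooth h q.i
    · have : w q j = fun _ => 0 := if_neg hj
      rw [this]
      exact contDiff_const
  have hwb : ∀ q j, ‖w q j q.b‖ ≤ max B 0 := by
    intro q j
    by_cases hj : j = 1
    · subst hj
      rw [hw1]
      exact hbb q
    · have : w q j = fun _ => 0 := if_neg hj
      rw [this]
      simp
  -- the linear maps
  let L1 : (P × Pl × Pl) × Pl × Pl × Pl →L[ℝ] P × Pl × Pl :=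
    ((ContinuousLinearMap.fst ℝ P (Pl × Pl)).comp
      (ContinuousLinearMap.fst ℝ (P × Pl × Pl) (Pl × Pl × Pl))).prod
    (((ContinuousLinearMap.fst ℝ Pl Pl).comp ((ContinuousLinearMap.snd ℝ P (Pl × Pl)).comp
      (ContinuousLinearMap.fst ℝ (P × Pl × Pl) (Pl × Pl × Pl)))).prod
    ((ContinuousLinearMap.fst ℝ Pl Pl).comp ((ContinuousLinearMap.snd ℝ Pl (Pl × Pl)).comp
      (ContinuousLinearMap.snd ℝ (P × Pl × Pl) (Pl × Pl × Pl)))))
  have hL1 : ∀ u, L1 u = (u.1.1, u.1.2.1, u.2.2.1) := fun u => rfl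
  let L2 : (P × Pl × Pl) × Pl × Pl × Pl →L[ℝ] Pl :=
    (ContinuousLinearMap.snd ℝ Pl Pl).comp ((ContinuousLinearMap.snd ℝ P (Pl × Pl)).comp
      (ContinuousLinearMap.fst ℝ (P × Pl × Pl) (Pl × Pl × Pl)))
  have hL2 : ∀ u, L2 u = u.1.2.2 := fun u => rfl
  let X : In N → (P × Pl × Pl) × Pl × Pl × Pl := fun q =>
    (π q.1.1 q.1.1.b, w q.1.1 (q.1.2 - 1) q.1.1.b, w q.1.1 q.1.2 q.1.1.b,
      w q.1.1 (q.1.2 + 1) q.1.1.b)
  have hXb : ∀ q : In N, ‖X q‖ ≤ max (max 1 R) (max B 0) := by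
    intro q
    show ‖((_, _, _, _) : (P × Pl × Pl) × Pl × Pl × Pl)‖ ≤ _
    rw [Prod.norm_def, Prod.norm_def, Prod.norm_def]
    exact max_le_max (hbR _) (max_le (hwb _ _) (max_le (hwb _ _) (hwb _ _)))
  have hid : EB (fun _ : In N => (0 : ℝ))
      (fun (_ : In N) (u : (P × Pl × Pl) × Pl × Pl × Pl) => u) X :=
    EB_id (fun _ => le_rfl) (C := max (max 1 R) (max B 0)) (fun q => by simpa using hXb q)
  have hG : EB (fun _ : In N => (0 : ℝ)) (fun q => G q.1.1 q.1.2) X := by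
    have h1 := EB0_JE h hK'c
    let φ : In N → Lx ι P K' := fun q =>
      ⟨q.1.1.i, q.1.1.p, q.1.1.z, w q.1.1 q.1.2 q.1.1.b, q.1.1.hp, Or.inl q.1.1.hz,
        Or.inr (by
          rw [mem_closedBall_zero_iff]
          exact hwb _ _)⟩
    have h2 : EB (fun _ : In N => (0 : ℝ)) (fun q : In N => JE m (s q.1.1.i))
        (fun q => L1 (X q)) :=
      ⟨fun q => h1.smooth (φ q), fun k => by
        obtain ⟨c, hc⟩ := h1.bound k
        exact ⟨c, fun q => hc (φ q)⟩⟩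
    exact EB_sub (fun _ => le_rfl) (EB_comp (fun _ => le_rfl) h2
      (EB_clm (fun _ => le_rfl) hid L1)) (EB_clm (fun _ => le_rfl) hid L2)
  have heq : ∀ q j, 1 ≤ j → j < N q → ∀ y,
      G q j (π q y, w q (j - 1) y, w q j y, w q (j + 1) y) = 0 := by
    intro q j h1 h2 y
    have h2' : j < 2 := h2
    obtain rfl : j = 1 := by omega
    show JE m (s q.i) (y.1, y.2.1, w q 1 y) - y.2.2 = 0
    rw [hw1]
    have : JE m (s q.i) (y.1, y.2.1, JV m (s q.i) y) = y.2.2 :=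
      Ex_Vx h.hX (hm_mm h q.i y.1) y.2.1 y.2.2
    rw [this, sub_self]
  have hinv : ∃ K' : ℝ, ∀ (q : Lx ι P K) (v : ℕ → Pl) (M : ℝ), ‖v 0‖ ≤ M → ‖v (N q)‖ ≤ M →
      (∀ j, 1 ≤ j → j < N q →
        ‖fderiv ℝ (G q j) (π q q.b, w q (j - 1) q.b, w q j q.b, w q (j + 1) q.b)
          (0, v (j - 1), v j, v (j + 1))‖ ≤ M) →
      ∀ j ≤ N q, ‖v j‖ ≤ K' * Real.exp (K' * 0) * M := by
    refine ⟨max C 1, fun q v M h0 h2 h1 j hj => ?_⟩
    have hM : 0 ≤ M := (norm_nonneg _).trans h0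
    have hle : M ≤ max C 1 * M := by
      nlinarith [le_max_right C 1]
    rw [mul_zero, Real.exp_zero, mul_one]
    have hj2 : j ≤ 2 := hj
    have h2' : ‖v 2‖ ≤ M := h2
    interval_cases j
    · exact h0.trans hle
    · have h3 := h1 1 le_rfl (by show 1 < 2; norm_num)
      set V := JV m (s q.i) q.b with hV
      have hEV : Ex (mm m (s q.i) q.p) q.z V = q.w := Ex_Vx h.hX (hm_mm h q.i q.p) q.z q.w
      have h4 := A5_inv_le h (i := q.i) (p := q.p) hC (z := q.z) (V := V)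
        (by
          intro v
          rw [hEV]
          exact hq q.i q.p q.hp _ q.hw v) (v 1)
      have h5 : fderiv ℝ (G q 1) (π q q.b, w q (1 - 1) q.b, w q 1 q.b, w q (1 + 1) q.b)
          (0, v (1 - 1), v 1, v (1 + 1)) = fderiv ℝ (Ex (mm m (s q.i) q.p) q.z) V (v 1) := by
        have hw1' : w q 1 q.b = V := by rw [hw1]
        rw [hw1']
        have d0 : HasDerivAt (fun r : ℝ => V + r • v 1) (v 1) 0 := by
          simpa using ((hasDerivAt_id (0 : ℝ)).smul_const (v 1)).const_add V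
        have d1 : HasDerivAt (fun r : ℝ => ((π q q.b, w q (1 - 1) q.b + r • v (1 - 1),
            V + r • v 1, w q (1 + 1) q.b + r • v (1 + 1)) : (P × Pl × Pl) × Pl × Pl × Pl))
            ((0, v (1 - 1), v 1, v (1 + 1)) : (P × Pl × Pl) × Pl × Pl × Pl) 0 := by
          refine (hasDerivAt_const (0 : ℝ) _).prodMk (HasDerivAt.prodMk ?_ (d0.prodMk ?_))
          · simpa using ((hasDerivAt_id (0 : ℝ)).smul_const (v (1 - 1))).const_add
              (w q (1 - 1) q.b)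
          · simpa using ((hasDerivAt_id (0 : ℝ)).smul_const (v (1 + 1))).const_add
              (w q (1 + 1) q.b)
        have hGs : ContDiff ℝ ∞ (G q 1) :=
          ((JE_smooth h q.i).comp L1.contDiff).sub L2.contDiff
        have hGd : Differentiable ℝ (G q 1) := hGs.differentiable (by simp)
        have d2 : HasFDerivAt (G q 1) (fderiv ℝ (G q 1) (π q q.b, w q (1 - 1) q.b, V,
            w q (1 + 1) q.b)) ((π q q.b, w q (1 - 1) q.b + (0 : ℝ) • v (1 - 1),
            V + (0 : ℝ) • v 1, w q (1 + 1) q.b + (0 : ℝ) • v (1 + 1)) :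
              (P × Pl × Pl) × Pl × Pl × Pl) := by
          rw [zero_smul, zero_smul, zero_smul, add_zero, add_zero, add_zero]
          exact (hGd _).hasFDerivAt
        have d3 := d2.comp_hasDerivAt (0 : ℝ) d1
        have d4 : HasFDerivAt (Ex (mm m (s q.i) q.p) q.z)
            (fderiv ℝ (Ex (mm m (s q.i) q.p) q.z) V) (V + (0 : ℝ) • v 1) := by
          rw [zero_smul, add_zero]
          exact (A5_diffE h q.i q.p q.z V).hasFDerivAt
        have d5 := (d4.comp_hasDerivAt (0 : ℝ) d0).sub_const q.w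
        exact d3.unique d5
      rw [h5] at h3
      refine h4.trans ?_
      exact mul_le_mul (le_max_left _ _) h3 (norm_nonneg _) (by positivity)
    · exact h2'.trans hle
  have key := IF (κ := Lx ι P K) (E := P × Pl × Pl) (F := Pl) (Q := P × Pl × Pl)
    (ℓ := fun _ => (0 : ℝ)) (fun _ => le_rfl) (N := N) (x := Lx.b) (w := w) (π := π) (G := G)
    hπ hG hws heq
    (by
      have : (fun q => w q 0) = fun (_ : Lx ι P K) (_ : P × Pl × Pl) => (0 : Pl) := funext hw0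
      rw [this]
      exact A5_const)
    (by
      have : (fun q => w q (N q)) = fun (_ : Lx ι P K) (_ : P × Pl × Pl) => (0 : Pl) :=
        funext hw2
      rw [this]
      exact A5_const)
    ⟨max B 0, fun q j _ => by simpa using hwb q j⟩
    hinv
  refine ⟨fun q => JV_smooth h q.i, fun k => ?_⟩
  obtain ⟨c, hc⟩ := key.bound k
  refine ⟨c, fun q => ?_⟩
  have := hc ⟨(q, 1), by show 1 ≤ 2; norm_num⟩
  simp only [hw1] at this
  exact this

end BE
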