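import Pool.Agent.LibBE88.Defs

/-! Row BE88 C1: the calculus of `EBn` (derivatives up to order `n`). MEDIUM, 45 min.
Plan. Everything is proved exactly as the corresponding lemma for `EB` in `LibBR70/JB1.lean`,
`JB2.lean`, `JB3.lean` (`EB_add`, `EB_clm`, `EB_sub`, `EB_prod`, `EB_sum`, `EB_comp`, `EB_clm_apply`,
`EB_fderiv`): there the bound of order `k` of the result only uses the bounds of order `≤ k` of the
arguments, so the same proofs work with `k ≤ n` (copy them). `EBn_iff`, `EBn_mono`: trivial.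
`EBn_of_dir`: let `b` be a basis of `E` (`Module.finBasis`); `fderiv ℝ (f i) y =
∑ j, (coord j).smulRight (fderiv ℝ (f i) y (b j))`, a finite sum of images of `EBn n` functions under
continuous linear maps (`EBn_clm`, `EBn_sum`; `ContinuousLinearMap.smulRightL`), so it is `EBn n`;
and `‖iteratedFDeriv ℝ (k + 1) f x‖ = ‖iteratedFDeriv ℝ k (fderiv ℝ f) x‖`
(`norm_iteratedFDeriv_fderiv`); order `0` is the hypothesis `h0`. -/

open MeasureTheory Set Filter Topology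
open scoped ContDiff

namespace BE

open BGS BR

variable {ι E F G : Type} [NormedAddCommGroup E] [NormedSpace ℝ E] [NormedAddCommGroup F]
  [NormedSpace ℝ F] [NormedAddCommGroup G] [NormedSpace ℝ G] {ℓ : ι → ℝ} {x : ι → E} {n : ℕ}

private theorem C1_mono {C D t : ℝ} (hCD : C ≤ D) (hD : 0 ≤ D) (ht : 0 ≤ t) :
    C * Real.exp (C * t) ≤ D * Real.exp (D * t) := by
  have h1 : Real.exp (C * t) ≤ Real.exp (D * t) :=
    Real.exp_le_exp.2 (mul_le_mul_of_nonneg_right hCD ht)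
  calc C * Real.exp (C * t) ≤ D * Real.exp (C * t) :=
        mul_le_mul_of_nonneg_right hCD (Real.exp_pos _).le
    _ ≤ D * Real.exp (D * t) := mul_le_mul_of_nonneg_left h1 hD

private theorem C1_bound' (hℓ : ∀ i, 0 ≤ ℓ i) {f : ι → E → F} (hf : EBn n ℓ f x) :
    ∃ C : ℝ, 1 ≤ C ∧ ∀ j ≤ n, ∀ i,
      ‖iteratedFDeriv ℝ j (f i) (x i)‖ ≤ C * Real.exp (C * ℓ i) := by
  have hb : ∀ j : ℕ, ∃ C : ℝ, j ≤ n → ∀ i, ‖iteratedFDeriv ℝ j (f i) (x i)‖ ≤ C * Real.exp (C * ℓ i) := by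
    intro j
    by_cases hj : j ≤ n
    · obtain ⟨C, hC⟩ := hf.bound j hj
      exact ⟨C, fun _ => hC⟩
    · exact ⟨0, fun h => absurd h hj⟩
  choose C hC using hb
  have h0 : 0 ≤ ∑ j ∈ Finset.range (n + 1), |C j| := Finset.sum_nonneg fun j _ => abs_nonneg _
  refine ⟨1 + ∑ j ∈ Finset.range (n + 1), |C j|, by linarith, fun j hj i => ?_⟩
  refine (hC j hj i).trans (C1_mono ?_ (by linarith) (hℓ i))
  have h1 : |C j| ≤ ∑ j ∈ Finset.range (n + 1), |C j| :=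
    Finset.single_le_sum (f := fun j => |C j|) (fun j _ => abs_nonneg _)
      (Finset.mem_range.2 (Nat.lt_succ_of_le hj))
  linarith [le_abs_self (C j)]

private theorem C1_exp {A B t : ℝ} (hA : 0 ≤ A) (hB : 0 ≤ B) (ht : 0 ≤ t) :
    A * Real.exp (B * t) ≤ (A + B) * Real.exp ((A + B) * t) :=
  mul_le_mul (by linarith) (Real.exp_le_exp.2 (mul_le_mul_of_nonneg_right (by linarith) ht))
    (Real.exp_pos _).le (by linarith)

private theorem C1_pow {A C : ℝ} (hA : 0 ≤ A) (hC : 0 ≤ C) (N : ℕ) :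
    ∃ C' : ℝ, ∀ t : ℝ, 0 ≤ t → A * (C * Real.exp (C * t)) ^ N ≤ C' * Real.exp (C' * t) := by
  refine ⟨A * C ^ N + N * C, fun t ht => ?_⟩
  have h : A * (C * Real.exp (C * t)) ^ N = A * C ^ N * Real.exp (N * C * t) := by
    rw [mul_pow, ← Real.exp_nat_mul, mul_assoc, ← mul_assoc (N : ℝ) C t]
  rw [h]
  exact C1_exp (by positivity) (by positivity) ht

private theorem C1_common {E' : Type} [NormedAddCommGroup E'] [NormedSpace ℝ E']
    (hℓ : ∀ i, 0 ≤ ℓ i) {f : ι → E → F} {g : ι → E' → G} {y : ι → E'}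
    (hf : EBn n ℓ f x) (hg : EBn n ℓ g y) :
    ∃ C : ℝ, 1 ≤ C ∧ ∀ j ≤ n, ∀ i,
      ‖iteratedFDeriv ℝ j (f i) (x i)‖ ≤ C * Real.exp (C * ℓ i) ∧
      ‖iteratedFDeriv ℝ j (g i) (y i)‖ ≤ C * Real.exp (C * ℓ i) := by
  obtain ⟨C₁, h1, hC₁⟩ := C1_bound' hℓ hf
  obtain ⟨C₂, h2, hC₂⟩ := C1_bound' hℓ hg
  exact ⟨max C₁ C₂, h1.trans (le_max_left _ _), fun j hj i =>
    ⟨(hC₁ j hj i).trans (C1_mono (le_max_left _ _) (by linarith [le_max_left C₁ C₂]) (hℓ i)),
      (hC₂ j hj i).trans (C1_mono (le_max_right _ _) (by linarith [le_max_left C₁ C₂]) (hℓ i))⟩⟩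

theorem EBn_iff {f : ι → E → F} : EB ℓ f x ↔ ∀ n, EBn n ℓ f x :=
  ⟨fun h n => ⟨h.smooth, fun k _ => h.bound k⟩,
    fun h => ⟨(h 0).smooth, fun k => (h k).bound k le_rfl⟩⟩

theorem EBn_mono {k : ℕ} (hk : k ≤ n) {f : ι → E → F} (hf : EBn n ℓ f x) : EBn k ℓ f x :=
  ⟨hf.smooth, fun j hj => hf.bound j (hj.trans hk)⟩

/-- Another index set. -/
theorem EBn_pull {ι' : Type} {f : ι → E → F} (hf : EBn n ℓ f x) (φ : ι' → ι) :
    EBn n (fun i => ℓ (φ i)) (fun i => f (φ i)) (fun i => x (φ i)) := by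
  refine ⟨fun i => hf.smooth (φ i), fun k hk => ?_⟩
  obtain ⟨C, hC⟩ := hf.bound k hk
  exact ⟨C, fun i => hC (φ i)⟩

theorem EBn_add (hℓ : ∀ i, 0 ≤ ℓ i) {f g : ι → E → F} (hf : EBn n ℓ f x) (hg : EBn n ℓ g x) :
    EBn n ℓ (fun i y => f i y + g i y) x := by
  refine ⟨fun i => (hf.smooth i).add (hg.smooth i), fun k hk => ?_⟩
  obtain ⟨C, hC, h1⟩ := C1_bound' hℓ hf
  obtain ⟨D, hD, h2⟩ := C1_bound' hℓ hg
  refine ⟨C + D, fun i => ?_⟩
  have e : iteratedFDeriv ℝ k (fun y => f i y + g i y) (x i) =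
      iteratedFDeriv ℝ k (f i) (x i) + iteratedFDeriv ℝ k (g i) (x i) :=
    iteratedFDeriv_add_apply ((hf.smooth i).contDiffAt.of_le (by exact_mod_cast le_top))
      ((hg.smooth i).contDiffAt.of_le (by exact_mod_cast le_top))
  rw [e]
  have h3 : C * Real.exp (C * ℓ i) ≤ C * Real.exp ((C + D) * ℓ i) := by
    apply mul_le_mul_of_nonneg_left _ (by linarith)
    rw [Real.exp_le_exp]
    exact mul_le_mul_of_nonneg_right (by linarith) (hℓ i)
  have h4 : D * Real.exp (D * ℓ i) ≤ D * Real.exp ((C + D) * ℓ i) := by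
    apply mul_le_mul_of_nonneg_left _ (by linarith)
    rw [Real.exp_le_exp]
    exact mul_le_mul_of_nonneg_right (by linarith) (hℓ i)
  calc _ ≤ ‖iteratedFDeriv ℝ k (f i) (x i)‖ + ‖iteratedFDeriv ℝ k (g i) (x i)‖ := norm_add_le _ _
    _ ≤ C * Real.exp ((C + D) * ℓ i) + D * Real.exp ((C + D) * ℓ i) := by
        linarith [h1 k hk i, h2 k hk i]
    _ = (C + D) * Real.exp ((C + D) * ℓ i) := by ring

theorem EBn_clm (hℓ : ∀ i, 0 ≤ ℓ i) {f : ι → E → F} (hf : EBn n ℓ f x) (L : F →L[ℝ] G) :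
    EBn n ℓ (fun i y => L (f i y)) x := by
  refine ⟨fun i => L.contDiff.comp (hf.smooth i), fun k hk => ?_⟩
  obtain ⟨C, hC, h1⟩ := C1_bound' hℓ hf
  refine ⟨(‖L‖ + 1) * C, fun i => ?_⟩
  have h2 := L.norm_iteratedFDeriv_comp_left (n := k) (N := ∞) (hf.smooth i).contDiffAt
    (x := x i) (by exact_mod_cast le_top)
  have hL := norm_nonneg L
  have h3 : Real.exp (C * ℓ i) ≤ Real.exp ((‖L‖ + 1) * C * ℓ i) := by
    rw [Real.exp_le_exp]
    apply mul_le_mul_of_nonneg_right _ (hℓ i)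
    nlinarith
  calc _ ≤ ‖L‖ * ‖iteratedFDeriv ℝ k (f i) (x i)‖ := h2
    _ ≤ ‖L‖ * (C * Real.exp (C * ℓ i)) := mul_le_mul_of_nonneg_left (h1 k hk i) hL
    _ ≤ ‖L‖ * (C * Real.exp ((‖L‖ + 1) * C * ℓ i)) := by
        apply mul_le_mul_of_nonneg_left _ hL
        exact mul_le_mul_of_nonneg_left h3 (by linarith)
    _ ≤ (‖L‖ + 1) * C * Real.exp ((‖L‖ + 1) * C * ℓ i) := by
        have h4 : 0 ≤ C * Real.exp ((‖L‖ + 1) * C * ℓ i) :=
          mul_nonneg (by linarith) (Real.exp_pos _).le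
        nlinarith

theorem EBn_sub (hℓ : ∀ i, 0 ≤ ℓ i) {f g : ι → E → F} (hf : EBn n ℓ f x) (hg : EBn n ℓ g x) :
    EBn n ℓ (fun i y => f i y - g i y) x := by
  have h := EBn_add hℓ hf (EBn_clm hℓ hg (-(ContinuousLinearMap.id ℝ F)))
  have e : (fun i y => f i y - g i y) =
      fun i y => f i y + (-(ContinuousLinearMap.id ℝ F)) (g i y) := by
    funext i y
    simp [sub_eq_add_neg]
  rw [e]
  exact h

theorem EBn_prod (hℓ : ∀ i, 0 ≤ ℓ i) {f : ι → E → F} {g : ι → E → G} (hf : EBn n ℓ f x)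
    (hg : EBn n ℓ g x) : EBn n ℓ (fun i y => (f i y, g i y)) x := by
  have h := EBn_add hℓ (EBn_clm hℓ hf (ContinuousLinearMap.inl ℝ F G))
    (EBn_clm hℓ hg (ContinuousLinearMap.inr ℝ F G))
  have e : (fun i y => (f i y, g i y)) =
      fun i y => ContinuousLinearMap.inl ℝ F G (f i y) + ContinuousLinearMap.inr ℝ F G (g i y) := by
    funext i y
    simp
  rw [e]
  exact h

theorem EBn_sum (hℓ : ∀ i, 0 ≤ ℓ i) {κ : Type} (s : Finset κ) {f : κ → ι → E → F}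
    (hf : ∀ a ∈ s, EBn n ℓ (f a) x) : EBn n ℓ (fun i y => ∑ a ∈ s, f a i y) x := by
  classical
  induction s using Finset.induction_on with
  | empty =>
    simp only [Finset.sum_empty]
    exact EBn_iff.1 (EB_const hℓ (C := 0) fun i => by simp) n
  | insert a s ha ih =>
    have h := EBn_add hℓ (hf a (Finset.mem_insert_self _ _))
      (ih fun b hb => hf b (Finset.mem_insert_of_mem hb))
    simp only [Finset.sum_insert ha]
    exact h

theorem EBn_comp (hℓ : ∀ i, 0 ≤ ℓ i) {g : ι → F → G} {f : ι → E → F}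
    (hg : EBn n ℓ g (fun i => f i (x i))) (hf : EBn n ℓ f x) :
    EBn n ℓ (fun i y => g i (f i y)) x := by
  refine ⟨fun i => (hg.smooth i).comp (hf.smooth i), fun k hk => ?_⟩
  obtain ⟨C, hC1, hC⟩ := C1_common hℓ hf hg
  obtain ⟨C', hC'⟩ := C1_pow (A := (k.factorial : ℝ)) (C := C) (by positivity) (by linarith)
    (k + 1)
  refine ⟨C', fun i => ?_⟩
  have hC0 : 0 ≤ C * ℓ i := mul_nonneg (by linarith) (hℓ i)
  have hM : 1 ≤ C * Real.exp (C * ℓ i) :=
    one_le_mul_of_one_le_of_one_le hC1 (Real.one_le_exp hC0)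
  have h := norm_iteratedFDeriv_comp_le (hg.smooth i) (hf.smooth i) (n := k)
    (mod_cast le_top) (x i) (C := C * Real.exp (C * ℓ i)) (D := C * Real.exp (C * ℓ i))
    (fun j hj => (hC j (hj.trans hk) i).2)
    (fun j hj1 hj => ((hC j (hj.trans hk) i).1).trans (le_self_pow₀ hM (by omega)))
  refine le_trans h (le_trans (le_of_eq ?_) (hC' (ℓ i) (hℓ i)))
  rw [pow_succ]
  ring

theorem EBn_clm_apply (hℓ : ∀ i, 0 ≤ ℓ i) {f : ι → E → F →L[ℝ] G} {g : ι → E → F}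
    (hf : EBn n ℓ f x) (hg : EBn n ℓ g x) : EBn n ℓ (fun i y => f i y (g i y)) x := by
  refine ⟨fun i => (hf.smooth i).clm_apply (hg.smooth i), fun k hk => ?_⟩
  obtain ⟨C, hC1, hC⟩ := C1_common hℓ hf hg
  obtain ⟨C', hC'⟩ := C1_pow (A := (2 : ℝ) ^ k) (C := C) (by positivity) (by linarith) 2
  refine ⟨C', fun i => (norm_iteratedFDeriv_clm_apply (hf.smooth i) (hg.smooth i) (x i) (n := k)
    (mod_cast le_top)).trans (le_trans ?_ (hC' (ℓ i) (hℓ i)))⟩
  have h1 : ∀ j ∈ Finset.range (k + 1), (k.choose j : ℝ) * ‖iteratedFDeriv ℝ j (f i) (x i)‖ *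
      ‖iteratedFDeriv ℝ (k - j) (g i) (x i)‖ ≤
      (k.choose j : ℝ) * (C * Real.exp (C * ℓ i)) ^ 2 := by
    intro j hj
    have hj' : j ≤ k := Nat.lt_succ_iff.1 (Finset.mem_range.1 hj)
    rw [pow_two, ← mul_assoc]
    exact mul_le_mul (mul_le_mul_of_nonneg_left (hC j (hj'.trans hk) i).1 (Nat.cast_nonneg _))
      (hC (k - j) ((Nat.sub_le _ _).trans hk) i).2 (norm_nonneg _) (by positivity)
  refine (Finset.sum_le_sum h1).trans (le_of_eq ?_)
  rw [← Finset.sum_mul, ← Nat.cast_sum, Nat.sum_range_choose]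
  push_cast
  rfl

theorem EBn_fderiv {f : ι → E → F} (hf : EBn (n + 1) ℓ f x) :
    EBn n ℓ (fun i => fderiv ℝ (f i)) x := by
  refine ⟨fun i => (hf.smooth i).fderiv_right (m := ∞) (by simp), fun k hk => ?_⟩
  obtain ⟨C, hC⟩ := hf.bound (k + 1) (by omega)
  refine ⟨C, fun i => ?_⟩
  rw [norm_iteratedFDeriv_fderiv]
  exact hC i

theorem EBn_fderiv_apply (hℓ : ∀ i, 0 ≤ ℓ i) {f : ι → E → F} (hf : EBn (n + 1) ℓ f x) (v : E) :
    EBn n ℓ (fun i y => fderiv ℝ (f i) y v) x :=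
  EBn_clm hℓ (EBn_fderiv hf) (ContinuousLinearMap.apply ℝ F v)

/-- Bounds for all directional derivatives. -/
theorem EBn_of_dir [FiniteDimensional ℝ E] (hℓ : ∀ i, 0 ≤ ℓ i) {f : ι → E → F}
    (hs : ∀ i, ContDiff ℝ ∞ (f i)) (h0 : ∃ C : ℝ, ∀ i, ‖f i (x i)‖ ≤ C * Real.exp (C * ℓ i))
    (h : ∀ v : E, EBn n ℓ (fun i y => fderiv ℝ (f i) y v) x) : EBn (n + 1) ℓ f x := by
  have hd : EBn n ℓ (fun i => fderiv ℝ (f i)) x := by
    let b := Module.finBasis ℝ E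
    have hsum : EBn n ℓ (fun i y => ∑ j ∈ (Finset.univ : Finset (Fin (Module.finrank ℝ E))),
        ContinuousLinearMap.smulRightL ℝ E F (LinearMap.toContinuousLinearMap (b.coord j))
          (fderiv ℝ (f i) y (b j))) x :=
      EBn_sum hℓ _ fun j _ => EBn_clm hℓ (h (b j)) _
    have e : (fun i => fderiv ℝ (f i)) = (fun i y => ∑ j ∈ (Finset.univ : Finset (Fin (Module.finrank ℝ E))),
        ContinuousLinearMap.smulRightL ℝ E F (LinearMap.toContinuousLinearMap (b.coord j))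
          (fderiv ℝ (f i) y (b j))) := by
      funext i y
      ext v
      have e2 : fderiv ℝ (f i) y v = ∑ j, b.repr v j • fderiv ℝ (f i) y (b j) := by
        calc fderiv ℝ (f i) y v = fderiv ℝ (f i) y (∑ j, b.repr v j • b j) := by rw [b.sum_repr]
          _ = ∑ j, b.repr v j • fderiv ℝ (f i) y (b j) := by
              rw [map_sum]
              exact Finset.sum_congr rfl fun j _ => by rw [map_smul]
      rw [e2]
      simp
    rw [e]
    exact hsum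
  refine ⟨hs, fun k hk => ?_⟩
  cases k with
  | zero =>
    obtain ⟨C, hC⟩ := h0
    refine ⟨C, fun i => ?_⟩
    rw [norm_iteratedFDeriv_zero]
    exact hC i
  | succ k =>
    obtain ⟨C, hC⟩ := hd.bound k (by omega)
    refine ⟨C, fun i => ?_⟩
    rw [← norm_iteratedFDeriv_fderiv]
    exact hC i

end BE
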