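import Mathlib

/-! Row BE88 C6 (only Mathlib): two discrete maximum principles. SHORT / MEDIUM, 30 min.
Plan. `max_tan`: compare with the parabola `g j = M + M * j * (N - j)` (as reals):
`g (j+1) - 2 g j + g (j-1) = -2 M`. Put `f j = a j - g j`; then `f (j+1) - 2 f j + f (j-1) ≥ -M + 2 M ≥ 0`...
so `f` is convex on `0..N`, hence its maximum over `0..N` is at an end: `f 0 ≤ 0`, `f N ≤ 0`. (Take `j` a
maximum point of `f` over `Finset.range (N + 1)`; if `M = 0` use `g` with `M + ε` or the convexity: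
the differences `f (j+1) - f j` are nondecreasing, so if `f j > 0` for some `0 < j < N`, then some
difference before `j` is `> 0`, all later ones are `> 0` and `f N > 0`.) The same for `-a`.
`j (N - j) ≤ N ^ 2`.
`max_nor`: let `j` be a maximum point of `|b|` over `0..N`. If it is `0` or `N`: `|b j| ≤ M`. Otherwise,
with `p = 1 / Bp j`, `m = 1 / Bm j`: `(Ap p + Am m) |b j| ≤ M / h + (p + m) |b j|`, `Ap, Am ≥ 1 + c`, so
`c (p + m) |b j| ≤ M / h ≤ 2 M`, and `p, m ≥ 1 / C`. -/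

namespace BE

theorem C6_strict {N : ℕ} {f : ℕ → ℝ} (h0 : f 0 ≤ 0) (h1 : f N ≤ 0)
    (h : ∀ j, 1 ≤ j → j < N → 0 < f (j + 1) - 2 * f j + f (j - 1)) : ∀ j ≤ N, f j ≤ 0 := by
  intro j hj
  obtain ⟨m, hm, hmax⟩ := Finset.exists_max_image (Finset.range (N + 1)) f
    ⟨0, Finset.mem_range.2 (by omega)⟩
  have hm' : m ≤ N := by have := Finset.mem_range.1 hm; omega
  have hjm : f j ≤ f m := hmax j (Finset.mem_range.2 (by omega))
  refine hjm.trans ?_
  rcases Nat.eq_zero_or_pos m with h2 | h2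
  · rw [h2]; exact h0
  · rcases eq_or_lt_of_le hm' with h3 | h3
    · rw [h3]; exact h1
    · exfalso
      have h4 := h m h2 h3
      have h5 := hmax (m + 1) (Finset.mem_range.2 (by omega))
      have h6 := hmax (m - 1) (Finset.mem_range.2 (by omega))
      linarith

theorem C6_one {N : ℕ} {a : ℕ → ℝ} {M : ℝ} (h0 : a 0 ≤ M) (h1 : a N ≤ M)
    (h : ∀ j, 1 ≤ j → j < N → -M ≤ a (j + 1) - 2 * a j + a (j - 1)) (hM : 0 ≤ M) :
    ∀ j ≤ N, a j ≤ (1 + (N : ℝ) ^ 2) * M := by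
  intro j hj
  refine le_of_forall_pos_le_add fun ε hε => ?_
  obtain ⟨e, he, he'⟩ : ∃ e : ℝ, 0 < e ∧ e * (N : ℝ) ^ 2 ≤ ε := by
    refine ⟨ε / ((N : ℝ) ^ 2 + 1), by positivity, ?_⟩
    rw [div_mul_eq_mul_div, div_le_iff₀ (by positivity)]
    nlinarith
  have key := C6_strict (N := N) (f := fun j => a j - (M + (M + e) * ((j : ℝ) * ((N : ℝ) - j))))
    (by simp only [Nat.cast_zero]; linarith) (by simp only [sub_self]; linarith)
    (fun i hi1 hi2 => by
      have h2 := h i hi1 hi2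
      have h3 : ((i - 1 : ℕ) : ℝ) = (i : ℝ) - 1 := by
        rw [Nat.cast_sub hi1]; simp
      simp only [h3, Nat.cast_add, Nat.cast_one]
      have h4 : (a (i + 1) - (M + (M + e) * (((i : ℝ) + 1) * ((N : ℝ) - ((i : ℝ) + 1))))) -
          2 * (a i - (M + (M + e) * ((i : ℝ) * ((N : ℝ) - i)))) +
          (a (i - 1) - (M + (M + e) * (((i : ℝ) - 1) * ((N : ℝ) - ((i : ℝ) - 1))))) =
          (a (i + 1) - 2 * a i + a (i - 1)) + 2 * (M + e) := by ring
      rw [h4]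
      linarith) j hj
  have h5 : a j ≤ M + (M + e) * ((j : ℝ) * ((N : ℝ) - j)) := by linarith
  have hjN : (j : ℝ) ≤ N := by exact_mod_cast hj
  have hj0 : (0 : ℝ) ≤ j := Nat.cast_nonneg j
  have h6 : (j : ℝ) * ((N : ℝ) - j) ≤ (N : ℝ) ^ 2 := by nlinarith
  have h7 : (M + e) * ((j : ℝ) * ((N : ℝ) - j)) ≤ (M + e) * (N : ℝ) ^ 2 :=
    mul_le_mul_of_nonneg_left h6 (by linarith)
  nlinarith

theorem max_tan {N : ℕ} {a : ℕ → ℝ} {M : ℝ} (h0 : |a 0| ≤ M) (h1 : |a N| ≤ M)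
    (h : ∀ j, 1 ≤ j → j < N → |a (j + 1) - 2 * a j + a (j - 1)| ≤ M) :
    ∀ j ≤ N, |a j| ≤ (1 + (N : ℝ) ^ 2) * M := by
  intro j hj
  have hM : 0 ≤ M := (abs_nonneg _).trans h0
  have h0' := abs_le.1 h0
  have h1' := abs_le.1 h1
  rw [abs_le]
  constructor
  · have key := C6_one (N := N) (a := fun j => -a j) (M := M) (by linarith) (by linarith)
      (fun i hi1 hi2 => by
        have h2 := abs_le.1 (h i hi1 hi2)
        show -M ≤ -a (i + 1) - 2 * (-a i) + -a (i - 1)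
        linarith) hM j hj
    have key' : -a j ≤ (1 + (N : ℝ) ^ 2) * M := key
    linarith
  · exact C6_one h0'.2 h1'.2 (fun i hi1 hi2 => (abs_le.1 (h i hi1 hi2)).1) hM j hj

theorem max_nor {N : ℕ} {b Ap Am Bp Bm : ℕ → ℝ} {M h c C : ℝ} (hc : 0 < c) (hC : 0 ≤ C) (hh : 1 / 2 ≤ h)
    (h0 : |b 0| ≤ M) (h1 : |b N| ≤ M)
    (hA : ∀ j, 1 ≤ j → j < N → 1 + c ≤ Ap j ∧ 1 + c ≤ Am j)
    (hB : ∀ j, 1 ≤ j → j < N → 0 < Bp j ∧ Bp j ≤ C ∧ 0 < Bm j ∧ Bm j ≤ C)
    (hr : ∀ j, 1 ≤ j → j < N →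
      |h * ((b (j + 1) - b j * Ap j) / Bp j + (b (j - 1) - b j * Am j) / Bm j)| ≤ M) :
    ∀ j ≤ N, |b j| ≤ (1 + C / c) * M := by
  intro j hj
  have hM : 0 ≤ M := (abs_nonneg _).trans h0
  have hCc : 0 ≤ C / c := div_nonneg hC hc.le
  have hMle : M ≤ (1 + C / c) * M := by nlinarith
  obtain ⟨m, hm, hmax⟩ := Finset.exists_max_image (Finset.range (N + 1)) (fun i => |b i|)
    ⟨0, Finset.mem_range.2 (by omega)⟩
  have hm' : m ≤ N := by have := Finset.mem_range.1 hm; omega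
  have hjm : |b j| ≤ |b m| := hmax j (Finset.mem_range.2 (by omega))
  refine hjm.trans ?_
  rcases Nat.eq_zero_or_pos m with h2 | h2
  · rw [h2]; exact h0.trans hMle
  rcases eq_or_lt_of_le hm' with h3 | h3
  · rw [h3]; exact h1.trans hMle
  have h5 : |b (m + 1)| ≤ |b m| := hmax (m + 1) (Finset.mem_range.2 (by omega))
  have h6 : |b (m - 1)| ≤ |b m| := hmax (m - 1) (Finset.mem_range.2 (by omega))
  obtain ⟨hA1, hA2⟩ := hA m h2 h3
  obtain ⟨hB1, hB2, hB3, hB4⟩ := hB m h2 h3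
  have hr' := hr m h2 h3
  have hCpos : 0 < C := lt_of_lt_of_le hB1 hB2
  have hhpos : 0 < h := by linarith
  obtain ⟨p, hp⟩ : ∃ p : ℝ, p = 1 / Bp m := ⟨_, rfl⟩
  obtain ⟨q, hq⟩ : ∃ q : ℝ, q = 1 / Bm m := ⟨_, rfl⟩
  have hpp : 1 / C ≤ p := by rw [hp]; exact one_div_le_one_div_of_le hB1 hB2
  have hqp : 1 / C ≤ q := by rw [hq]; exact one_div_le_one_div_of_le hB3 hB4
  have hCinv : 0 < 1 / C := by positivity
  have hp0 : 0 < p := by linarith
  have hq0 : 0 < q := by linarith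
  have e1 : h * ((b (m + 1) - b m * Ap m) / Bp m + (b (m - 1) - b m * Am m) / Bm m) =
      h * ((b (m + 1) * p + b (m - 1) * q) - b m * (Ap m * p + Am m * q)) := by
    rw [hp, hq]
    ring
  rw [e1, abs_mul, abs_of_pos hhpos] at hr'
  have h7 : |(b (m + 1) * p + b (m - 1) * q) - b m * (Ap m * p + Am m * q)| ≤ 2 * M := by
    have h8 := abs_nonneg ((b (m + 1) * p + b (m - 1) * q) - b m * (Ap m * p + Am m * q))
    nlinarith
  have h9 : |b (m + 1) * p + b (m - 1) * q| ≤ |b m| * (p + q) := by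
    refine (abs_add_le _ _).trans ?_
    rw [abs_mul, abs_mul, abs_of_pos hp0, abs_of_pos hq0]
    nlinarith
  have h10 : |b m * (Ap m * p + Am m * q)| ≤ 2 * M + |b m| * (p + q) := by
    have h11 := abs_sub_abs_le_abs_sub (b m * (Ap m * p + Am m * q))
      (b (m + 1) * p + b (m - 1) * q)
    rw [abs_sub_comm] at h11
    linarith
  have h12 : |b m| * ((1 + c) * (p + q)) ≤ |b m * (Ap m * p + Am m * q)| := by
    rw [abs_mul]
    refine mul_le_mul_of_nonneg_left ?_ (abs_nonneg _)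
    have h13 : (1 + c) * (p + q) ≤ Ap m * p + Am m * q := by nlinarith
    exact h13.trans (le_abs_self _)
  have h14 : |b m| * (c * (p + q)) ≤ 2 * M := by
    have : |b m| * ((1 + c) * (p + q)) = |b m| * (p + q) + |b m| * (c * (p + q)) := by ring
    linarith
  have h15 : |b m| * (c * (2 * (1 / C))) ≤ 2 * M := by
    refine le_trans (mul_le_mul_of_nonneg_left ?_ (abs_nonneg _)) h14
    refine mul_le_mul_of_nonneg_left ?_ hc.le
    linarith
  have h16 : |b m| ≤ C / c * M := by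
    have e2 : |b m| * (c * (2 * (1 / C))) = 2 * (|b m| * c / C) := by ring
    rw [e2] at h15
    have h17 : |b m| * c / C ≤ M := by linarith
    rw [div_le_iff₀ hCpos] at h17
    rw [div_mul_eq_mul_div, le_div_iff₀ hc]
    linarith
  linarith

end BE
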