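import Pool.Agent.LibBR70.PX8
import Pool.Agent.LibBR73.AN0
import Pool.Agent.LibBR73.AN3a
import Pool.Agent.LibBR73.AN5a

/-! Families of metrics conformal to a fixed metric of negative curvature, and functions of the
parameter and of two points of the universal cover whose derivatives have polynomial growth in the
distance (architect helper88). -/

open MeasureTheory Set Filter Topology
open scoped ContDiff

namespace BE

open BGS BR

section Cal

variable {ι E F : Type} [NormedAddCommGroup E] [NormedSpace ℝ E] [NormedAddCommGroup F]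
  [NormedSpace ℝ F]

/-- The class `EB` of `LibBR70/JB_Defs.lean`, derivatives up to order `n`. -/
structure EBn (n : ℕ) (ℓ : ι → ℝ) (f : ι → E → F) (x : ι → E) : Prop where
  smooth : ∀ i, ContDiff ℝ ∞ (f i)
  bound : ∀ k ≤ n, ∃ C : ℝ, ∀ i, ‖iteratedFDeriv ℝ k (f i) (x i)‖ ≤ C * Real.exp (C * ℓ i)

/-- Families of smooth functions whose derivatives of every order at the points `x i` are uniformly
bounded. -/
abbrev EB0 (f : ι → E → F) (x : ι → E) : Prop := EB (fun _ => (0 : ℝ)) f x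

end Cal

variable {Γ : Type} [Group Γ] [MulAction Γ Pl] {D : Set Pl}
variable {ι P : Type} [NormedAddCommGroup P] [NormedSpace ℝ P]

/-- The metric `e ^ {s (p, z)} m (z)`. -/
noncomputable def mm (m : Pl → Co) (s : P × Pl → ℝ) (p : P) (z : Pl) : Co :=
  Real.exp (s (p, z)) • m z

/-- A uniform family of metrics conformal to `m`, with curvature in `[-b², -a²]`, depending smoothly
on a parameter `p`. -/
structure CF (Γ : Type) [Group Γ] [MulAction Γ Pl] (D : Set Pl) (m : Pl → Co) (a b : ℝ)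
    (s : ι → P × Pl → ℝ) : Prop where
  hX : Surface Γ D
  hO : Ori Γ
  hm : HM Γ m
  a_pos : 0 < a
  smooth : ∀ i, ContDiff ℝ ∞ (s i)
  inv : ∀ (i : ι) (p : P) (γ : Γ) (z : Pl), s i (p, γ • z) = s i (p, z)
  bd : ∀ k : ℕ, ∃ C : ℝ, ∀ (i : ι) (p : P), ‖p‖ ≤ 1 → ∀ z ∈ closure D,
    ‖iteratedFDeriv ℝ k (s i) (p, z)‖ ≤ C
  neg : ∀ (i : ι) (p : P) (z : Pl),
    -b ^ 2 ≤ curv (mm m (s i) p) z ∧ curv (mm m (s i) p) z ≤ -a ^ 2

/-- The exponential map and its inverse as functions of all variables. -/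
noncomputable def JE (m : Pl → Co) (s : P × Pl → ℝ) (q : P × Pl × Pl) : Pl :=
  Ex (mm m s q.1) q.2.1 q.2.2

noncomputable def JV (m : Pl → Co) (s : P × Pl → ℝ) (q : P × Pl × Pl) : Pl :=
  Vx (mm m s q.1) q.2.1 q.2.2

/-- The indices of the local families: a metric, a parameter, two points of `K`. -/
structure Lx (ι P : Type) [NormedAddCommGroup P] (K : Set Pl) where
  i : ι
  p : P
  z : Pl
  w : Pl
  hp : ‖p‖ ≤ 1
  hz : z ∈ K
  hw : w ∈ K

def Lx.b {K : Set Pl} (q : Lx ι P K) : P × Pl × Pl := (q.p, q.z, q.w)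

/-- The indices of the global families: a metric, a parameter, a point `x` and a point `g • y`. -/
structure Ix (ι P Γ : Type) [NormedAddCommGroup P] (D : Set Pl) where
  i : ι
  p : P
  x : Pl
  y : Pl
  g : Γ
  hp : ‖p‖ ≤ 1
  hx : x ∈ closure D
  hy : y ∈ closure D

def Ix.b (q : Ix ι P Γ D) : P × Pl × Pl := (q.p, q.x, q.y)

/-- The distance of `x` and `g • y`. -/
noncomputable def Ix.d (m : Pl → Co) (s : ι → P × Pl → ℝ) (q : Ix ι P Γ D) : ℝ :=
  ds (mm m (s q.i) q.p) q.x (q.g • q.y)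

/-- The scale: `exp (ll q) = 2 + d`. -/
noncomputable def ll (m : Pl → Co) (s : ι → P × Pl → ℝ) (q : Ix ι P Γ D) : ℝ :=
  Real.log (2 + q.d m s)

/-- Families `Q i (p, x, y)` of smooth functions on `P × Pl × Pl` whose derivatives of every order
(in all variables) at `(p, x, g • y)`, `x, y ∈ closure D`, computed in the coordinate `y`, have
polynomial growth in the distance of `x` and `g • y`. -/
def Adm (Γ : Type) [Group Γ] [MulAction Γ Pl] (D : Set Pl) (m : Pl → Co) (s : ι → P × Pl → ℝ)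
    {F : Type} [NormedAddCommGroup F] [NormedSpace ℝ F] (Q : ι → P × Pl × Pl → F) : Prop :=
  EB (fun q : Ix ι P Γ D => ll m s q) (fun q e => Q q.i (e.1, e.2.1, q.g • e.2.2)) Ix.b

/-! ### The chain of points -/

/-- The number of steps. -/
noncomputable def Ix.N (m : Pl → Co) (s : ι → P × Pl → ℝ) (q : Ix ι P Γ D) : ℕ :=
  max 1 ⌈q.d m s⌉₊

/-- The `j`-th point of the geodesic from `x` to `g • y`, as a function of `(p, x, y)`. -/
noncomputable def Ix.z (m : Pl → Co) (s : ι → P × Pl → ℝ) (q : Ix ι P Γ D) (j : ℕ)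
    (e : P × Pl × Pl) : Pl :=
  JE m (s q.i) (e.1, e.2.1, ((j : ℝ) / q.N m s) • JV m (s q.i) (e.1, e.2.1, q.g • e.2.2))

open Classical in
/-- The element of the group which moves (a point of) `closure D` to the `j`-th point. -/
noncomputable def Ix.γ (hX : Surface Γ D) (m : Pl → Co) (s : ι → P × Pl → ℝ) (q : Ix ι P Γ D)
    (j : ℕ) : Γ :=
  if j = 0 then 1 else if j = q.N m s then q.g else shf hX (q.z m s j q.b)

/-- The points of the chain, moved to `closure D`. -/
noncomputable def Ix.w (hX : Surface Γ D) (m : Pl → Co) (s : ι → P × Pl → ℝ) (q : Ix ι P Γ D)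
    (j : ℕ) (e : P × Pl × Pl) : Pl :=
  (q.γ hX m s j)⁻¹ • q.z m s j e

/-- The steps forward and backward. -/
noncomputable def Ix.sp (hX : Surface Γ D) (m : Pl → Co) (s : ι → P × Pl → ℝ) (q : Ix ι P Γ D)
    (j : ℕ) : Γ :=
  (q.γ hX m s j)⁻¹ * q.γ hX m s (j + 1)

noncomputable def Ix.sm (hX : Surface Γ D) (m : Pl → Co) (s : ι → P × Pl → ℝ) (q : Ix ι P Γ D)
    (j : ℕ) : Γ :=
  (q.γ hX m s j)⁻¹ * q.γ hX m s (j - 1)

/-- The critical equation at the `j`-th point, as a function of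
`(p, w_{j-1}, w_j, w_{j+1})`. -/
noncomputable def Ix.G (hX : Surface Γ D) (m : Pl → Co) (s : ι → P × Pl → ℝ) (q : Ix ι P Γ D)
    (j : ℕ) (u : P × Pl × Pl × Pl) : Pl :=
  JV m (s q.i) (u.1, u.2.2.1, q.sm hX m s j • u.2.1) +
    JV m (s q.i) (u.1, u.2.2.1, q.sp hX m s j • u.2.2.2)

/-- The point of the geodesic at the ratio `r`. -/
noncomputable def gp (m : Pl → Co) (s : P × Pl → ℝ) (r : ℝ) (e : P × Pl × Pl) : Pl :=
  JE m s (e.1, e.2.1, r • JV m s e)

/-- `log` of the density of the area in normal coordinates at `x`: `JB = d exp f`. -/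
noncomputable def ff (m : Pl → Co) (s : P × Pl → ℝ) (e : P × Pl × Pl) : ℝ :=
  Real.log (wt (Gx (mm m s e.1) e.2.1) (JV m s e))

/-- The normalised coefficients of the parametrix. -/
noncomputable def uu (m : Pl → Co) (s : P × Pl → ℝ) (j : ℕ) (e : P × Pl × Pl) : ℝ :=
  UU (Gx (mm m s e.1) e.2.1) j (JV m s e) * Real.exp (ff m s e / 2)

end BE
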