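import Pool.Agent.LibBE88.A5

/-! Row BE88 G1 (cites `LibBR70/H1e`, `H1j`-`H1l`, `LibBR73/AN0`, rows A3, A4, A5): the chain of points.
MEDIUM, 60 min.
Notation (`Defs.lean`): `N = max 1 ⌈d⌉`, `z_j (e) = Ex x ((j / N) • Vx x (g • y))` for `e = (p, x, y)` (all with
the metric `mm m (s i) p`), `w_j = γ_j⁻¹ • z_j` with `γ_0 = 1`, `γ_N = g`, `w_j (b) ∈ closure D`,
`sp_j = γ_j⁻¹ γ_{j+1}`, `sm_j = γ_j⁻¹ γ_{j-1}`.
Plan. `Vx_along`: `Ex_add` (with `v` and times `σ`, `t - σ`) gives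
`Ex x (t • v) = Ex (Ex x (σ • v)) ((t - σ) • (gfl σ (x, v)).2)`; `Vx_Ex`. `z_smooth`, `w_smooth`: `JE_smooth`,
`JV_smooth`, `hX.smooth`. `w_zero`: `Ex_zero`; `w_last`: `Ex_Vx`. `w_mem`: `shf_mem'`. `w_step`:
`sp_j • w_{j+1} = γ_j⁻¹ • z_{j+1}` (`smul_smul`, group), so `Vx_deck` (with `γ_j⁻¹`) and `Vx_along`:
`Vx (w_j) (sp_j • w_{j+1}) = Rg γ_j⁻¹ z_j ((1 / N) • (gfl (j / N) (x, V)).2)`, the same for `sm_j` with
`-(1 / N)`. `crit`: the sum is zero (`Rg` is linear: `Rg_smul`, and `Rg_add` follows from the definition).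
`w_ds`: the norm of `Rg .. (..)` is `(1 / N) * eu V = d / N` (`Rg_ip`, `gfl_eu`, `eu` and `|·|`: `AN0_eu_smul`).
`sp_fin`: `far_fin` (row A3) with `R = 1`: `d / N ≤ 1`. `half`: if `1 < N` then `N = ⌈d⌉`, `N < d + 1`,
`d > 1`, so `d / N > 1 / 2`. -/

open MeasureTheory Set Filter Topology
open scoped ContDiff

namespace BE

open BGS BR

variable {Γ : Type} [Group Γ] [MulAction Γ Pl] {D : Set Pl}
variable {ι P : Type} [NormedAddCommGroup P] [NormedSpace ℝ P] [FiniteDimensional ℝ P]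
  {m : Pl → Co} {a b : ℝ} {s : ι → P × Pl → ℝ}

/-- Two points of a geodesic. -/
theorem Vx_along (hX : Surface Γ D) (hm : HM Γ m) (x v : Pl) (σ t : ℝ) :
    Vx m (Ex m x (σ • v)) (Ex m x (t • v)) = (t - σ) • (gfl m σ (x, v)).2 := by
  have h := Ex_add hX hm σ (t - σ) x v
  rw [add_sub_cancel] at h
  rw [h, Vx_Ex hX hm]

/-- The velocity of the geodesic at the `j`-th point, moved to `w_j`. -/
noncomputable def Ix.ve (hX : Surface Γ D) (m : Pl → Co) (s : ι → P × Pl → ℝ) (q : Ix ι P Γ D)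
    (j : ℕ) (e : P × Pl × Pl) : Pl :=
  Rg (mm m (s q.i) e.1) (q.γ hX m s j)⁻¹ (q.z m s j e)
    (gfl (mm m (s q.i) e.1) ((j : ℝ) / q.N m s) (e.2.1, JV m (s q.i) (e.1, e.2.1, q.g • e.2.2))).2

theorem N_pos (m : Pl → Co) (s : ι → P × Pl → ℝ) (q : Ix ι P Γ D) : 1 ≤ q.N m s :=
  le_max_left _ _

private theorem G1_N (m : Pl → Co) (s : ι → P × Pl → ℝ) (q : Ix ι P Γ D) :
    (0 : ℝ) < q.N m s := by
  have h := N_pos m s q
  exact_mod_cast h

private theorem G1_γ0 (hX : Surface Γ D) (m : Pl → Co) (s : ι → P × Pl → ℝ)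
    (q : Ix ι P Γ D) : q.γ hX m s 0 = 1 := by
  unfold Ix.γ
  rw [if_pos rfl]

private theorem G1_γN (hX : Surface Γ D) (m : Pl → Co) (s : ι → P × Pl → ℝ)
    (q : Ix ι P Γ D) : q.γ hX m s (q.N m s) = q.g := by
  have h := N_pos m s q
  unfold Ix.γ
  rw [if_neg (by omega), if_pos rfl]

theorem z_smooth (h : CF Γ D m a b s) (q : Ix ι P Γ D) (j : ℕ) :
    ContDiff ℝ ∞ (q.z m s j) := by
  have h1 : ContDiff ℝ ∞ (fun e : P × Pl × Pl => (e.1, e.2.1, q.g • e.2.2)) :=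
    contDiff_fst.prodMk ((contDiff_fst.comp contDiff_snd).prodMk
      ((h.hX.smooth q.g).comp (contDiff_snd.comp contDiff_snd)))
  have h2 : ContDiff ℝ ∞
      (fun e : P × Pl × Pl => JV m (s q.i) (e.1, e.2.1, q.g • e.2.2)) :=
    (JV_smooth h q.i).comp h1
  have h3 : ContDiff ℝ ∞ (fun e : P × Pl × Pl => (e.1, e.2.1,
      ((j : ℝ) / q.N m s) • JV m (s q.i) (e.1, e.2.1, q.g • e.2.2))) :=
    contDiff_fst.prodMk ((contDiff_fst.comp contDiff_snd).prodMk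
      (h2.const_smul ((j : ℝ) / q.N m s)))
  exact (JE_smooth h q.i).comp h3

theorem w_smooth (h : CF Γ D m a b s) (q : Ix ι P Γ D) (j : ℕ) :
    ContDiff ℝ ∞ (q.w h.hX m s j) :=
  (h.hX.smooth (q.γ h.hX m s j)⁻¹).comp (z_smooth h q j)

theorem w_zero (h : CF Γ D m a b s) (q : Ix ι P Γ D) (e : P × Pl × Pl) :
    q.w h.hX m s 0 e = e.2.1 := by
  unfold Ix.w
  rw [G1_γ0, inv_one, one_smul]
  unfold Ix.z JE
  simp only [Nat.cast_zero, zero_div, zero_smul]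
  exact Ex_zero h.hX (hm_mm h q.i e.1) e.2.1

theorem w_last (h : CF Γ D m a b s) (q : Ix ι P Γ D) (e : P × Pl × Pl) :
    q.w h.hX m s (q.N m s) e = e.2.2 := by
  unfold Ix.w
  rw [G1_γN]
  unfold Ix.z JE JV
  simp only []
  rw [div_self (G1_N m s q).ne', one_smul, Ex_Vx h.hX (hm_mm h q.i e.1), inv_smul_smul]

theorem w_mem (h : CF Γ D m a b s) (q : Ix ι P Γ D) (j : ℕ) :
    q.w h.hX m s j q.b ∈ closure D := by
  by_cases h0 : j = 0
  · rw [h0, w_zero h]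
    exact q.hx
  by_cases h1 : j = q.N m s
  · rw [h1, w_last h]
    exact q.hy
  unfold Ix.w Ix.γ
  rw [if_neg h0, if_neg h1]
  exact shf_mem' h.hX _

/-- Two points of the geodesic, seen from `w_j`. -/
private theorem G1_step (h : CF Γ D m a b s) (q : Ix ι P Γ D) (j k : ℕ) (e : P × Pl × Pl) :
    JV m (s q.i) (e.1, q.w h.hX m s j e,
      ((q.γ h.hX m s j)⁻¹ * q.γ h.hX m s k) • q.w h.hX m s k e) =
      (((k : ℝ) - j) / (q.N m s : ℝ)) • q.ve h.hX m s j e := by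
  have hm := hm_mm h q.i e.1
  have e1 : ((q.γ h.hX m s j)⁻¹ * q.γ h.hX m s k) • q.w h.hX m s k e =
      (q.γ h.hX m s j)⁻¹ • q.z m s k e := by
    unfold Ix.w
    rw [mul_smul, smul_inv_smul]
  rw [e1]
  unfold JV Ix.w
  simp only []
  rw [Vx_deck h.hX h.hO hm]
  have e2 : Vx (mm m (s q.i) e.1) (q.z m s j e) (q.z m s k e) =
      (((k : ℝ) - j) / (q.N m s : ℝ)) •
        (gfl (mm m (s q.i) e.1) ((j : ℝ) / q.N m s)
          (e.2.1, JV m (s q.i) (e.1, e.2.1, q.g • e.2.2))).2 := by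
    have e3 := Vx_along h.hX hm e.2.1 (JV m (s q.i) (e.1, e.2.1, q.g • e.2.2))
      ((j : ℝ) / q.N m s) ((k : ℝ) / q.N m s)
    rw [← sub_div] at e3
    exact e3
  rw [e2, Rg_smul h.hX hm]
  rfl

theorem w_step (h : CF Γ D m a b s) (q : Ix ι P Γ D) (j : ℕ) (e : P × Pl × Pl) :
    JV m (s q.i) (e.1, q.w h.hX m s j e, q.sp h.hX m s j • q.w h.hX m s (j + 1) e) =
      (1 / (q.N m s : ℝ)) • q.ve h.hX m s j e ∧
    (1 ≤ j → JV m (s q.i) (e.1, q.w h.hX m s j e, q.sm h.hX m s j • q.w h.hX m s (j - 1) e) =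
      -((1 / (q.N m s : ℝ)) • q.ve h.hX m s j e)) := by
  constructor
  · have e1 := G1_step h q j (j + 1) e
    rw [show (((j + 1 : ℕ) : ℝ) - j) = 1 by push_cast; ring] at e1
    exact e1
  · intro hj
    have e1 := G1_step h q j (j - 1) e
    rw [show (((j - 1 : ℕ) : ℝ) - j) = -1 by rw [Nat.cast_sub hj]; push_cast; ring, neg_div,
      neg_smul] at e1
    exact e1

private theorem G1_eu (v : Pl) : eu v = √(ip v v) := by
  rw [eu, ip]
  congr 1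
  ring

theorem ve_eu (h : CF Γ D m a b s) (q : Ix ι P Γ D) (j : ℕ) :
    eu (q.ve h.hX m s j q.b) = q.d m s := by
  have hm := hm_mm h q.i q.p
  unfold Ix.ve
  rw [G1_eu, Rg_ip h.hX (hm_mm h q.i q.b.1), ← G1_eu, gfl_eu h.hX (hm_mm h q.i q.b.1)]
  rfl

/-- The critical equations. -/
theorem crit (h : CF Γ D m a b s) (q : Ix ι P Γ D) (j : ℕ) (hj : 1 ≤ j) (e : P × Pl × Pl) :
    q.G h.hX m s j (e.1, q.w h.hX m s (j - 1) e, q.w h.hX m s j e, q.w h.hX m s (j + 1) e) = 0 := by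
  unfold Ix.G
  simp only []
  rw [(w_step h q j e).1, (w_step h q j e).2 hj, neg_add_cancel]

theorem d_N (h : CF Γ D m a b s) (q : Ix ι P Γ D) :
    0 ≤ q.d m s ∧ q.d m s / q.N m s ≤ 1 ∧ (1 < q.N m s → 1 / 2 ≤ q.d m s / q.N m s) ∧
      (q.N m s : ℝ) ≤ 2 + q.d m s := by
  have hd : 0 ≤ q.d m s := Real.sqrt_nonneg _
  have hN := G1_N m s q
  have h1 : (⌈q.d m s⌉₊ : ℝ) < q.d m s + 1 := Nat.ceil_lt_add_one hd
  have h2 : q.d m s ≤ ⌈q.d m s⌉₊ := Nat.le_ceil _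
  have h3 : (q.N m s : ℝ) = max 1 (⌈q.d m s⌉₊ : ℝ) := by
    unfold Ix.N
    push_cast
    rfl
  refine ⟨hd, ?_, ?_, ?_⟩
  · rw [div_le_one hN, h3]
    exact h2.trans (le_max_right _ _)
  · intro h4
    have h5 : (2 : ℝ) ≤ q.N m s := by exact_mod_cast h4
    rw [div_le_div_iff₀ two_pos hN]
    rcases max_choice (1 : ℝ) (⌈q.d m s⌉₊ : ℝ) with h6 | h6
    · rw [h6] at h3
      linarith
    · rw [h6] at h3
      linarith
  · rw [h3]
    refine max_le (by linarith) (by linarith)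

theorem sp_fin (h : CF Γ D m a b s) : ∃ S : Set Γ, S.Finite ∧ ∀ (q : Ix ι P Γ D) (j : ℕ),
    q.sp h.hX m s j ∈ S ∧ (1 ≤ j → q.sm h.hX m s j ∈ S) := by
  obtain ⟨S, hS, h1⟩ := far_fin h 1
  refine ⟨S, hS, fun q j => ?_⟩
  have hN := G1_N m s q
  have h2 : |1 / (q.N m s : ℝ)| * eu (q.ve h.hX m s j q.b) ≤ 1 := by
    rw [ve_eu h, abs_of_pos (by positivity), one_div, inv_mul_eq_div]
    exact (d_N h q).2.1
  constructor
  · refine h1 q.i q.p q.hp _ (w_mem h q j) _ (w_mem h q (j + 1)) _ ?_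
    have h3 := (w_step h q j q.b).1
    have h4 : ds (mm m (s q.i) q.p) (q.w h.hX m s j q.b)
        (q.sp h.hX m s j • q.w h.hX m s (j + 1) q.b) =
        eu (JV m (s q.i) (q.b.1, q.w h.hX m s j q.b,
          q.sp h.hX m s j • q.w h.hX m s (j + 1) q.b)) := rfl
    rw [h4, h3, AN0_eu_smul]
    exact h2
  · intro hj
    refine h1 q.i q.p q.hp _ (w_mem h q j) _ (w_mem h q (j - 1)) _ ?_
    have h3 := (w_step h q j q.b).2 hj
    have h4 : ds (mm m (s q.i) q.p) (q.w h.hX m s j q.b)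
        (q.sm h.hX m s j • q.w h.hX m s (j - 1) q.b) =
        eu (JV m (s q.i) (q.b.1, q.w h.hX m s j q.b,
          q.sm h.hX m s j • q.w h.hX m s (j - 1) q.b)) := rfl
    rw [h4, h3, AN0_eu_neg, AN0_eu_smul]
    exact h2

end BE
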