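import Pool.Agent.LibBE88.Defs

/-! Row BE88 G2 (cites `LibBR73/AN0`): the derivative of `Vx x y⁺ + Vx x y⁻` when `y⁻`, `x`, `y⁺` are
equally spaced on a geodesic. MEDIUM, 40 min.
Plan. `Vx m x y = ds m x y • dr m x y` (`AN0_smul`); `ds = h`, `dr m x y⁺ = T`, `dr m x y⁻ = -T` at `r` (from
`h1`, `h2`, `eu T = 1`: `ds = eu (h • T) = h`, `AN0_eu_smul`, `AN0_eu_neg`); `x ≠ y±` since `Vx_self`. Apply
`var_end` (`LibBR73/AN0.lean`) to `(x, yp)` with `v = T`, `w = Tp`, and to `(x, ym)` with `v = -T`,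
`w = -Tm`: the derivative of `Vx m (x t) (yp t)` is `(ip up Tp - ip u T) • T + (h * (b⁺ - om ..)) • rot T`,
`b⁺ = (ip up (rot Tp) - ip u (rot T) * JA T) / JB T`, and that of `Vx m (x t) (ym t)` is
`(-(ip um Tm) + ip u T) • (-T) + (h * (b⁻ - om ..)) • rot (-T)`,
`b⁻ = (-(ip um (rot Tm)) + ip u (rot T) * JA (-T)) / JB (-T)`. In the sum the terms with the connection form
cancel. `HasDerivAt.smul`; the identity `Vx = ds • dr` holds for `t` near `r` (`x t ≠ y± t`, continuity). -/

open MeasureTheory Set Filter Topology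
open scoped ContDiff

namespace BE

open BGS BR

variable {Γ : Type} [Group Γ] [MulAction Γ Pl] {D : Set Pl} {m : Pl → Co}

private theorem G2_rot_neg (T : Pl) : rot (-T) = -rot T := by
  unfold rot
  refine Prod.ext ?_ ?_
  · change - (-T.2) = - (- T.2)
    rfl
  · change -T.1 = -T.1
    rfl

private theorem G2_ip_neg (u T : Pl) : ip u (-T) = -ip u T := by
  unfold ip
  change u.1 * (-T.1) + u.2 * (-T.2) = -(u.1 * T.1 + u.2 * T.2)
  ring

/-- one of the two segments -/
private theorem G2_one (hX : Surface Γ D) (hm : HM Γ m) {x y : ℝ → Pl} {x' y' : Pl} {r : ℝ}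
    (hx : HasDerivAt x x' r) (hy : HasDerivAt y y' r) {h : ℝ} (hh : 0 < h) {v w : Pl}
    (hv : eu v = 1) (h1 : Vx m (x r) (y r) = h • v) (h3 : ar m (x r) (y r) = w) {u u1 : Pl}
    (hu : u = ifr (m (x r)) x') (hu1 : u1 = ifr (m (y r)) y') :
    HasDerivAt (fun t => Vx m (x t) (y t))
      (h • (((ip u1 (rot w) - ip u (rot v) * JA m (x r) v h) / JB m (x r) v h -
        om m (x r) x') • rot v) + (ip u1 w - ip u v) • v) r := by
  have hds : ds m (x r) (y r) = h := by
    unfold ds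
    rw [h1, AN0_eu_smul, hv, mul_one, abs_of_pos hh]
  have hdr : dr m (x r) (y r) = v := by
    unfold dr
    rw [hds, h1, smul_smul, inv_mul_cancel₀ hh.ne', one_smul]
  have hne : x r ≠ y r := by
    intro hxy
    rw [← hxy, Vx_self hX hm] at h1
    have h4 : eu (h • v) = h := by rw [AN0_eu_smul, hv, mul_one, abs_of_pos hh]
    rw [← h1] at h4
    have h5 : eu (0 : Pl) = 0 := by
      have := AN0_eu_smul 0 (0 : Pl)
      rw [zero_smul, abs_zero, zero_mul] at this
      exact this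
    rw [h5] at h4
    exact hh.ne h4
  have hev : ∀ᶠ t in 𝓝 r, x t ≠ y t := by
    have h1 : Tendsto (fun t => (x t, y t)) (𝓝 r) (𝓝 (x r, y r)) :=
      (hx.continuousAt.prodMk hy.continuousAt)
    exact h1.eventually ((isOpen_ne_fun continuous_fst continuous_snd).mem_nhds hne)
  obtain ⟨a1, a2, _⟩ := var_end hX hm hx hy hne hds.symm hdr.symm h3.symm hu hu1 rfl rfl
  have h6 := a1.smul a2
  rw [hds, hdr] at h6
  refine h6.congr_of_eventuallyEq ?_
  filter_upwards [hev] with t ht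
  exact (AN0_smul hX hm ht).symm

theorem pair_der (hX : Surface Γ D) (hm : HM Γ m) {x yp ym : ℝ → Pl} {x' yp' ym' : Pl} {r : ℝ}
    (hx : HasDerivAt x x' r) (hyp : HasDerivAt yp yp' r) (hym : HasDerivAt ym ym' r) {h : ℝ}
    (hh : 0 < h) {T Tp Tm : Pl} (hT : eu T = 1) (h1 : Vx m (x r) (yp r) = h • T)
    (h2 : Vx m (x r) (ym r) = -(h • T)) (h3 : ar m (x r) (yp r) = Tp)
    (h4 : ar m (x r) (ym r) = -Tm) {u up um : Pl} (hu : u = ifr (m (x r)) x')
    (hup : up = ifr (m (yp r)) yp') (hum : um = ifr (m (ym r)) ym') :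
    HasDerivAt (fun t => Vx m (x t) (yp t) + Vx m (x t) (ym t))
      ((ip up Tp - 2 * ip u T + ip um Tm) • T +
        (h * ((ip up (rot Tp) - ip u (rot T) * JA m (x r) T h) / JB m (x r) T h +
          (ip um (rot Tm) - ip u (rot T) * JA m (x r) (-T) h) / JB m (x r) (-T) h)) • rot T)
      r := by
  have e1 := G2_one hX hm hx hyp hh hT h1 h3 hu hup
  have hT' : eu (-T) = 1 := by rw [AN0_eu_neg]; exact hT
  have h2' : Vx m (x r) (ym r) = h • (-T) := by rw [h2, smul_neg]
  have e2 := G2_one hX hm hx hym hh hT' h2' h4 hu hum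
  refine (e1.add e2).congr_deriv ?_
  rw [G2_rot_neg, G2_rot_neg, G2_ip_neg, G2_ip_neg, G2_ip_neg, G2_ip_neg]
  simp only [smul_neg, smul_smul, neg_mul, sub_neg_eq_add]
  generalize JA m (x r) T h = A
  generalize JB m (x r) T h = B
  generalize JA m (x r) (-T) h = A'
  generalize JB m (x r) (-T) h = B'
  have h5 : (-ip um (rot Tm) + ip u (rot T) * A') / B' =
      -((ip um (rot Tm) - ip u (rot T) * A') / B') := by
    rw [← neg_div]
    congr 1
    ring
  rw [h5]
  module

end BE
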