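import Pool.Agent.LibBE88.G1
import Pool.Agent.LibBE88.G2

/-! Row BE88 G3 (cites G1, G2): the linearised critical equations in the frames. MEDIUM / STRONG,
60 min.
Plan. The derivative of `G_j` in the direction `(0, v_{j-1}, v_j, v_{j+1})` is the derivative at `t = 0` of
`Vx x(t) y⁺(t) + Vx x(t) y⁻(t)` (addition in the other order) for `x t = w_j + t • v_j`,
`y⁺ t = sp_j • (w_{j+1} + t • v_{j+1})`, `y⁻ t = sm_j • (w_{j-1} + t • v_{j-1})`, all at the parameter `q.p`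
(`G_j` is differentiable: `JV_smooth`, `hX.smooth`; `HasFDerivAt.comp_hasDerivAt`). Apply `pair_der`
(row G2) with `h = d / N > 0` (`d_N`: `N ≥ 2` because `1 ≤ j < N`), `T = T_j`; `h1`, `h2`: `w_step`.
`y⁺'(0) = D(sp_j) v_{j+1}`, and `ifr (mq (sp_j • w)) (D(sp_j) v) = Rg mq sp_j w (ifr (mq w) v)` (definition of
`Rg`, `fr_ifr`). `ar (w_j) (sp_j • w_{j+1}) = -dr (sp_j • w_{j+1}) (w_j)`, and by `ds_deck` with `sp_j`
(`w_j = sp_j • (sp_j⁻¹ • w_j)`, `sp_j⁻¹ = sm_{j+1}`): `= -Rg mq sp_j w_{j+1} (dr (w_{j+1}) (sm_{j+1} • w_j))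
= Rg mq sp_j w_{j+1} T_{j+1}` (`w_step` for `j + 1`: the vector is `-(1/N) ve = -(d/N) T_{j+1}`). The same
with `sm_j⁻¹ = sp_{j-1}` for the other end. `Rg_ip` and `Rg_rot` remove `Rg`. -/

open MeasureTheory Set Filter Topology
open scoped ContDiff

namespace BE

open BGS BR

variable {Γ : Type} [Group Γ] [MulAction Γ Pl] {D : Set Pl}
variable {ι P : Type} [NormedAddCommGroup P] [NormedSpace ℝ P] [FiniteDimensional ℝ P]
  {m : Pl → Co} {a b : ℝ} {s : ι → P × Pl → ℝ}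

/-- The unit tangent vector of the geodesic at `w_j`. -/
noncomputable def Ix.T (hX : Surface Γ D) (m : Pl → Co) (s : ι → P × Pl → ℝ) (q : Ix ι P Γ D)
    (j : ℕ) : Pl := (q.d m s)⁻¹ • q.ve hX m s j q.b

/-- The components of a vector at `w_j`. -/
noncomputable def Ix.al (hX : Surface Γ D) (m : Pl → Co) (s : ι → P × Pl → ℝ) (q : Ix ι P Γ D)
    (v : ℕ → Pl) (j : ℕ) : ℝ :=
  ip (ifr (mm m (s q.i) q.p (q.w hX m s j q.b)) (v j)) (q.T hX m s j)

noncomputable def Ix.be (hX : Surface Γ D) (m : Pl → Co) (s : ι → P × Pl → ℝ) (q : Ix ι P Γ D)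
    (v : ℕ → Pl) (j : ℕ) : ℝ :=
  ip (ifr (mm m (s q.i) q.p (q.w hX m s j q.b)) (v j)) (rot (q.T hX m s j))

theorem T_unit (h : CF Γ D m a b s) (q : Ix ι P Γ D) (hd : 0 < q.d m s) (j : ℕ) :
    eu (q.T h.hX m s j) = 1 := by
  unfold Ix.T
  rw [AN0_eu_smul, ve_eu h, abs_of_pos (inv_pos.2 hd)]
  exact inv_mul_cancel₀ hd.ne'

theorem G3_eu_one {T : Pl} {δ : ℝ} (hT : eu T = 1) (hδ : 0 < δ) {mq : Pl → Co} {x y : Pl}
    (h1 : Vx mq x y = δ • T) : dr mq x y = T := by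
  have h2 : ds mq x y = δ := by
    unfold ds
    rw [h1, AN0_eu_smul, hT, abs_of_pos hδ, mul_one]
  unfold dr
  rw [h2, h1, smul_smul, inv_mul_cancel₀ hδ.ne', one_smul]

theorem G3_eu_neg {T : Pl} {δ : ℝ} (hT : eu T = 1) (hδ : 0 < δ) {mq : Pl → Co} {x y : Pl}
    (h1 : Vx mq x y = -(δ • T)) : dr mq x y = -T := by
  refine G3_eu_one (T := -T) (by rw [AN0_eu_neg, hT]) hδ ?_
  rw [h1, smul_neg]

theorem G3_Rg_neg (hX : Surface Γ D) {mq : Pl → Co} (hm : HM Γ mq) (γ : Γ) (x v : Pl) :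
    Rg mq γ x (-v) = -Rg mq γ x v := by
  have h1 := Rg_smul hX hm γ x v (-1)
  rwa [neg_one_smul, neg_one_smul] at h1

theorem G3_sp_inv (hX : Surface Γ D) (q : Ix ι P Γ D) (j : ℕ) (z : Pl) :
    q.sp hX m s j • q.sm hX m s (j + 1) • z = z := by
  unfold Ix.sp Ix.sm
  rw [smul_smul, Nat.add_sub_cancel]
  have h1 : (q.γ hX m s j)⁻¹ * q.γ hX m s (j + 1) * ((q.γ hX m s (j + 1))⁻¹ * q.γ hX m s j) = 1 := by
    group
  rw [h1, one_smul]

theorem G3_sm_inv (hX : Surface Γ D) (q : Ix ι P Γ D) {j : ℕ} (hj : 1 ≤ j) (z : Pl) :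
    q.sm hX m s j • q.sp hX m s (j - 1) • z = z := by
  unfold Ix.sp Ix.sm
  rw [smul_smul, Nat.sub_add_cancel hj]
  have h1 : (q.γ hX m s j)⁻¹ * q.γ hX m s (j - 1) * ((q.γ hX m s (j - 1))⁻¹ * q.γ hX m s j) = 1 := by
    group
  rw [h1, one_smul]

/-- The steps, in terms of the unit vectors. -/
theorem G3_step (h : CF Γ D m a b s) (q : Ix ι P Γ D) (hd : 0 < q.d m s) (j : ℕ) :
    Vx (mm m (s q.i) q.p) (q.w h.hX m s j q.b) (q.sp h.hX m s j • q.w h.hX m s (j + 1) q.b) =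
      (q.d m s / q.N m s) • q.T h.hX m s j ∧
    (1 ≤ j → Vx (mm m (s q.i) q.p) (q.w h.hX m s j q.b)
      (q.sm h.hX m s j • q.w h.hX m s (j - 1) q.b) = -((q.d m s / q.N m s) • q.T h.hX m s j)) := by
  have h1 := w_step h q j q.b
  have h2 : (q.d m s / q.N m s) • q.T h.hX m s j = (1 / (q.N m s : ℝ)) • q.ve h.hX m s j q.b := by
    unfold Ix.T
    rw [smul_smul]
    congr 1
    field_simp
  rw [h2]
  exact h1

theorem G3_ifr {mq : Pl → Co} (hm : HM Γ mq) (γ : Γ) (w v : Pl) :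
    ifr (mq (γ • w)) (fderiv ℝ (fun z : Pl => γ • z) w v) = Rg mq γ w (ifr (mq w) v) := by
  unfold Rg
  rw [fr_ifr (hm.pos w).1 (hm.pos w).2]

theorem G3_line (w v : Pl) : HasDerivAt (fun t : ℝ => w + t • v) v 0 := by
  have h1 := ((hasDerivAt_id (0 : ℝ)).smul_const v).const_add w
  simpa using h1

theorem G3_deck (hX : Surface Γ D) (γ : Γ) (w v : Pl) :
    HasDerivAt (fun t : ℝ => γ • (w + t • v)) (fderiv ℝ (fun z : Pl => γ • z) w v) 0 := by
  have h1 : HasFDerivAt (fun z : Pl => γ • z) (fderiv ℝ (fun z : Pl => γ • z) w)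
      (w + (0 : ℝ) • v) := by
    rw [zero_smul, add_zero]
    exact ((hX.smooth γ).differentiable (by simp) w).hasFDerivAt
  exact h1.comp_hasDerivAt (0 : ℝ) (G3_line w v)

theorem lin_form (h : CF Γ D m a b s) (q : Ix ι P Γ D) {j : ℕ} (hj : 1 ≤ j)
    (hjN : j < q.N m s) (v : ℕ → Pl) {mq : Pl → Co} (hmq : mq = mm m (s q.i) q.p) {x T : Pl}
    (hx : x = q.w h.hX m s j q.b) (hT : T = q.T h.hX m s j) {δ : ℝ}
    (hδ : δ = q.d m s / q.N m s) :
    fderiv ℝ (q.G h.hX m s j) (q.p, q.w h.hX m s (j - 1) q.b, q.w h.hX m s j q.b,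
        q.w h.hX m s (j + 1) q.b) (0, v (j - 1), v j, v (j + 1)) =
      (q.al h.hX m s v (j + 1) - 2 * q.al h.hX m s v j + q.al h.hX m s v (j - 1)) • T +
        (δ * ((q.be h.hX m s v (j + 1) - q.be h.hX m s v j * JA mq x T δ) / JB mq x T δ +
          (q.be h.hX m s v (j - 1) - q.be h.hX m s v j * JA mq x (-T) δ) / JB mq x (-T) δ)) •
          rot T := by
  have hm : HM Γ mq := by rw [hmq]; exact hm_mm h q.i q.p
  obtain ⟨hd0, hd1, hd2, -⟩ := d_N h q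
  have hδ0 : 0 < δ := by
    rw [hδ]
    exact lt_of_lt_of_le (by norm_num) (hd2 (by omega))
  have hN : (0 : ℝ) < q.N m s := by
    have := N_pos m s q
    exact_mod_cast this
  have hd : 0 < q.d m s := by
    rw [hδ] at hδ0
    exact (div_pos_iff_of_pos_right hN).1 hδ0
  have hX := h.hX
  obtain ⟨γp, hγp⟩ : ∃ γp, γp = q.sp h.hX m s j := ⟨_, rfl⟩
  obtain ⟨γm, hγm⟩ : ∃ γm, γm = q.sm h.hX m s j := ⟨_, rfl⟩
  obtain ⟨wp, hwp⟩ : ∃ wp, wp = q.w h.hX m s (j + 1) q.b := ⟨_, rfl⟩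
  obtain ⟨wm, hwm⟩ : ∃ wm, wm = q.w h.hX m s (j - 1) q.b := ⟨_, rfl⟩
  obtain ⟨Tp, hTp⟩ : ∃ Tp, Tp = q.T h.hX m s (j + 1) := ⟨_, rfl⟩
  obtain ⟨Tm, hTm⟩ : ∃ Tm, Tm = q.T h.hX m s (j - 1) := ⟨_, rfl⟩
  have hTu : eu T = 1 := by rw [hT]; exact T_unit h q hd j
  have hTpu : eu Tp = 1 := by rw [hTp]; exact T_unit h q hd (j + 1)
  have hTmu : eu Tm = 1 := by rw [hTm]; exact T_unit h q hd (j - 1)
  -- the steps
  have s0 := G3_step h q hd j
  have sp1 := (G3_step h q hd (j + 1)).2 (by omega)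
  have sm1 := (G3_step h q hd (j - 1)).1
  rw [← hmq, ← hδ, ← hx, ← hT, ← hγp, ← hγm, ← hwp, ← hwm] at s0
  rw [Nat.add_sub_cancel, ← hmq, ← hδ, ← hx, ← hTp, ← hwp] at sp1
  rw [Nat.sub_add_cancel hj, ← hmq, ← hδ, ← hx, ← hTm, ← hwm] at sm1
  have e1 := G3_sp_inv (m := m) (s := s) h.hX q j x
  have e2 := G3_sm_inv (m := m) (s := s) h.hX q hj x
  rw [← hγp] at e1
  rw [← hγm] at e2
  -- the arrival vectors
  have a1 : ar mq x (γp • wp) = Rg mq γp wp Tp := by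
    have h1 := (ds_deck hX h.hO hm γp wp (q.sm h.hX m s (j + 1) • x)).2.1
    rw [e1, G3_eu_neg hTpu hδ0 sp1, G3_Rg_neg hX hm] at h1
    unfold ar
    rw [h1, neg_neg]
  have a2 : ar mq x (γm • wm) = -Rg mq γm wm Tm := by
    have h1 := (ds_deck hX h.hO hm γm wm (q.sp h.hX m s (j - 1) • x)).2.1
    rw [e2, G3_eu_one hTmu hδ0 sm1] at h1
    unfold ar
    rw [h1]
  -- the derivative along the line
  have z0 : ∀ w v : Pl, w + (0 : ℝ) • v = w := fun w v => by rw [zero_smul, add_zero]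
  have hpair := pair_der (m := mq) (Tp := Rg mq γp wp Tp) (Tm := Rg mq γm wm Tm) hX hm
    (G3_line x (v j)) (G3_deck hX γp wp (v (j + 1)))
    (G3_deck hX γm wm (v (j - 1))) hδ0 hTu (by rw [z0, z0]; exact s0.1)
    (by rw [z0, z0]; exact s0.2 hj) (by rw [z0, z0]; exact a1) (by rw [z0, z0]; exact a2)
    rfl rfl rfl
  rw [z0, z0, z0, G3_ifr hm, G3_ifr hm, Rg_ip hX hm, Rg_ip hX hm, ← Rg_rot hX h.hO hm,
    ← Rg_rot hX h.hO hm, Rg_ip hX hm, Rg_ip hX hm] at hpair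
  -- the function `G`
  have hG : DifferentiableAt ℝ (q.G h.hX m s j) (q.p, wm, x, wp) := by
    have hJ : Differentiable ℝ (JV m (s q.i)) := (JV_smooth h q.i).differentiable (by simp)
    have hs : ∀ γ : Γ, Differentiable ℝ (fun z : Pl => γ • z) := fun γ =>
      (hX.smooth γ).differentiable (by simp)
    have h1 : Differentiable ℝ (fun u : P × Pl × Pl × Pl =>
        JV m (s q.i) (u.1, u.2.2.1, q.sm h.hX m s j • u.2.1)) :=
      hJ.comp (differentiable_fst.prodMk (differentiable_snd.snd.fst.prodMk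
        ((hs _).comp differentiable_snd.fst)))
    have h2 : Differentiable ℝ (fun u : P × Pl × Pl × Pl =>
        JV m (s q.i) (u.1, u.2.2.1, q.sp h.hX m s j • u.2.2.2)) :=
      hJ.comp (differentiable_fst.prodMk (differentiable_snd.snd.fst.prodMk
        ((hs _).comp differentiable_snd.snd.snd)))
    exact (h1.add h2) _
  have hline : HasDerivAt (fun t : ℝ => ((q.p, wm + t • v (j - 1), x + t • v j,
      wp + t • v (j + 1)) : P × Pl × Pl × Pl)) (0, v (j - 1), v j, v (j + 1)) 0 :=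
    (hasDerivAt_const (0 : ℝ) q.p).prodMk ((G3_line wm (v (j - 1))).prodMk
      ((G3_line x (v j)).prodMk (G3_line wp (v (j + 1)))))
  have hGd : HasFDerivAt (q.G h.hX m s j) (fderiv ℝ (q.G h.hX m s j) (q.p, wm, x, wp))
      (q.p, wm + (0 : ℝ) • v (j - 1), x + (0 : ℝ) • v j, wp + (0 : ℝ) • v (j + 1)) := by
    rw [z0, z0, z0]
    exact hG.hasFDerivAt
  have hcomp := hGd.comp_hasDerivAt (0 : ℝ) hline
  have hfun : ((q.G h.hX m s j) ∘ fun t : ℝ => ((q.p, wm + t • v (j - 1), x + t • v j,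
      wp + t • v (j + 1)) : P × Pl × Pl × Pl)) = fun t =>
      Vx mq (x + t • v j) (γp • (wp + t • v (j + 1))) +
        Vx mq (x + t • v j) (γm • (wm + t • v (j - 1))) := by
    funext t
    simp only [Function.comp, Ix.G, JV]
    rw [hmq, hγp, hγm, add_comm]
  rw [hfun] at hcomp
  have huniq := hcomp.unique hpair
  rw [← hwm, ← hx, ← hwp, huniq]
  unfold Ix.al Ix.be
  rw [← hmq, ← hx, ← hwp, ← hwm, ← hT, ← hTp, ← hTm]

end BE
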