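import Pool.Agent.LibBE88.A1

/-! Row BE88 G4 (cites `LibBR70/H1g`, row A1): uniform bounds for the Jacobi fields on `[1/2, 1]`.
MEDIUM, 40 min.
Plan. `mq = mm m (s i) p` satisfies `HM` (`hm_mm`) and `-b² ≤ curv ≤ -a²` (`h.neg`). `JA'' = -K JA`,
`JA 0 = 1`, `JA' 0 = 0` (`JA_ode`, `J_zero`), `JA ≥ 1` (`JB_ge`), so `JA'' ≥ a²`, `JA' t ≥ a² t`,
`JA t ≥ 1 + a² t² / 2 ≥ 1 + a² / 8` for `t ≥ 1/2` (monotonicity of `JA' - a² t` and of
`JA - 1 - a² t² / 2`: `monotoneOn_of_deriv_nonneg`, or the lemmas `A1_mono` of `LibSR85/A1.lean`).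
`JB t ≥ t > 0` (`JB_ge`). Upper bound: `JB'' = -K JB ≤ b² JB`, so `(JB + JB')' ≤ (1 + b²) (JB + JB')`
(both are `≥ 0` for `t ≥ 0`), hence `JB t ≤ exp (1 + b²)` for `0 ≤ t ≤ 1` (the function
`(JB + JB') exp (-(1 + b²) t)` is nonincreasing and has the value `1` at `0`). -/

open MeasureTheory Set Filter Topology
open scoped ContDiff

namespace BE

open BGS BR

private theorem G4_mono {f f' : ℝ → ℝ} (h1 : ∀ t, HasDerivAt f (f' t) t)
    (h2 : ∀ t, 0 ≤ t → 0 ≤ f' t) {t : ℝ} (ht : 0 ≤ t) : f 0 ≤ f t := by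
  have h3 : MonotoneOn f (Ici 0) := by
    refine monotoneOn_of_deriv_nonneg (convex_Ici 0)
      (fun t _ => (h1 t).continuousAt.continuousWithinAt)
      (fun t _ => (h1 t).differentiableAt.differentiableWithinAt) fun t ht => ?_
    rw [interior_Ici] at ht
    rw [(h1 t).deriv]
    exact h2 t (le_of_lt ht)
  exact h3 (mem_Ici.2 le_rfl) (mem_Ici.2 ht) ht

variable {Γ : Type} [Group Γ] [MulAction Γ Pl] {D : Set Pl}
variable {ι P : Type} [NormedAddCommGroup P] [NormedSpace ℝ P] {m : Pl → Co} {a b : ℝ}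
  {s : ι → P × Pl → ℝ}

theorem jac_unif (h : CF Γ D m a b s) : ∃ c C : ℝ, 0 < c ∧ 0 ≤ C ∧ ∀ (i : ι) (p : P) (x u : Pl),
    eu u = 1 → ∀ t : ℝ, 1 / 2 ≤ t → t ≤ 1 →
      1 + c ≤ JA (mm m (s i) p) x u t ∧ 0 < JB (mm m (s i) p) x u t ∧
        JB (mm m (s i) p) x u t ≤ C := by
  refine ⟨a ^ 2 / 8, Real.exp (1 + b ^ 2), by have := h.a_pos; positivity, (Real.exp_pos _).le, ?_⟩
  intro i p x u hu t ht1 ht2
  have hm := hm_mm h i p
  have hX := h.hX
  set mq := mm m (s i) p with hmq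
  have hcu := h.neg i p
  rw [← hmq] at hcu
  obtain ⟨z1, z2, z3, z4⟩ := J_zero hX hm (x := x) hu
  have hA1 := fun t => (JA_ode hX hm (x := x) hu t).1
  have hA2 := fun t => (JA_ode hX hm (x := x) hu t).2
  have hB1 := fun t => (JB_ode hX hm (x := x) hu t).1
  have hB2 := fun t => (JB_ode hX hm (x := x) hu t).2
  have hge : ∀ t, 0 ≤ t → t ≤ JB mq x u t ∧ 1 ≤ deriv (JB mq x u) t ∧ 1 ≤ JA mq x u t ∧
      0 ≤ deriv (JA mq x u) t := fun t ht => JB_ge hX hm (x := x) hu ht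
  have hk : ∀ t, a ^ 2 ≤ -curv mq (gfl mq t (x, u)).1 ∧ -curv mq (gfl mq t (x, u)).1 ≤ b ^ 2 :=
    fun t => by
      have := hcu (gfl mq t (x, u)).1
      constructor <;> linarith [this.1, this.2]
  have ht0 : 0 ≤ t := by linarith
  -- lower bound for the derivative of `JA`
  have hA3 : ∀ t, 0 ≤ t → a ^ 2 * t ≤ deriv (JA mq x u) t := by
    intro t ht
    have h1 := G4_mono (f := fun t => deriv (JA mq x u) t - a ^ 2 * t)
      (f' := fun t => -curv mq (gfl mq t (x, u)).1 * JA mq x u t - a ^ 2)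
      (fun t => ((hA2 t).sub ((hasDerivAt_id t).const_mul (a ^ 2))).congr_deriv (by ring))
      (fun t ht => by
        have h1 := (hk t).1
        have h2 := (hge t ht).2.2.1
        have h3 := sq_nonneg a
        nlinarith) ht
    rw [z2] at h1
    linarith
  have hA4 : 1 + a ^ 2 * t ^ 2 / 2 ≤ JA mq x u t := by
    have h1 := G4_mono (f := fun t => JA mq x u t - a ^ 2 / 2 * t ^ 2)
      (f' := fun t => deriv (JA mq x u) t - a ^ 2 * t)
      (fun t => ((hA1 t).sub ((hasDerivAt_pow 2 t).const_mul (a ^ 2 / 2))).congr_deriv (by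
        push_cast
        ring))
      (fun t ht => by
        have := hA3 t ht
        linarith) ht0
    rw [z1] at h1
    linarith
  -- upper bound for `JB`
  have hB3 : (JB mq x u t + deriv (JB mq x u) t) * Real.exp (-(1 + b ^ 2) * t) ≤ 1 := by
    have hexp : ∀ t : ℝ, HasDerivAt (fun t => Real.exp (-(1 + b ^ 2) * t))
        (Real.exp (-(1 + b ^ 2) * t) * (-(1 + b ^ 2))) t := fun t =>
      ((hasDerivAt_id t).const_mul (-(1 + b ^ 2))).exp.congr_deriv (by simp)
    have h1 := G4_mono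
      (f := fun t => -((JB mq x u t + deriv (JB mq x u) t) * Real.exp (-(1 + b ^ 2) * t)))
      (f' := fun t => -((deriv (JB mq x u) t + -curv mq (gfl mq t (x, u)).1 * JB mq x u t) *
        Real.exp (-(1 + b ^ 2) * t) + (JB mq x u t + deriv (JB mq x u) t) *
          (Real.exp (-(1 + b ^ 2) * t) * (-(1 + b ^ 2)))))
      (fun t => (((hB1 t).add (hB2 t)).mul (hexp t)).neg)
      (fun t ht => by
        have h1 := (hk t).2
        have h2 := (hge t ht).1
        have h3 := (hge t ht).2.1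
        have h4 := Real.exp_pos (-(1 + b ^ 2) * t)
        have h5 : -curv mq (gfl mq t (x, u)).1 * JB mq x u t ≤ b ^ 2 * JB mq x u t :=
          mul_le_mul_of_nonneg_right h1 (by linarith)
        have h6 : 0 ≤ b ^ 2 * deriv (JB mq x u) t := mul_nonneg (sq_nonneg b) (by linarith)
        have h7 : 0 ≤ (1 + b ^ 2) * (JB mq x u t + deriv (JB mq x u) t) -
            (deriv (JB mq x u) t + -curv mq (gfl mq t (x, u)).1 * JB mq x u t) := by
          nlinarith
        have h8 := mul_nonneg h7 h4.le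
        linarith) ht0
    rw [z3, z4, mul_zero, Real.exp_zero] at h1
    linarith
  have hB4 := hge t ht0
  refine ⟨?_, by linarith [hB4.1], ?_⟩
  · refine le_trans ?_ hA4
    have h1 : (1 / 2 : ℝ) ^ 2 ≤ t ^ 2 := pow_le_pow_left₀ (by norm_num) ht1 2
    have h2 := sq_nonneg a
    nlinarith
  · rw [neg_mul, Real.exp_neg, ← div_eq_mul_inv, div_le_one (Real.exp_pos _)] at hB3
    have h1 : Real.exp ((1 + b ^ 2) * t) ≤ Real.exp (1 + b ^ 2) := by
      apply Real.exp_le_exp.2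
      have := sq_nonneg b
      nlinarith
    linarith [hB4.2.1]

end BE
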