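import Pool.Agent.LibBE88.G3
import Pool.Agent.LibBE88.G4
import Pool.Agent.LibBE88.C6

/-! Row BE88 G5 (cites G1, G3, G4, C6, A1): the linearised critical equations have an inverse of
polynomial size. MEDIUM, 50 min.
Plan. Let `q`, `v`, `M` be given, `N = q.N m s`. If `N = 1` then `j = 0` or `j = 1 = N` and the claim is
`‖v j‖ ≤ M`. Let `N ≥ 2`, so `d ≥ N / 2 > 0`, `1/2 ≤ δ = d / N ≤ 1` (`d_N`). Coordinates: there is `C0 ≥ 1` with
`eu (ifr (mq w) v) ≤ C0 ‖v‖` and `‖v‖ ≤ C0 eu (ifr (mq w) v)` for all `q` and `w ∈ closure D`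
(`eu (ifr ..) ^ 2 = qf (mq w) v` (`qf_eq_bf`, `bf_eq_ip`), `mm_cmp`, and `m` is continuous and positive
definite on the compact set `closure D`). With `α = q.al .. v`, `β = q.be .. v`: `|α j|, |β j| ≤ eu (ifr ..)`
(unit vectors) and `eu (ifr ..) ≤ |α j| + |β j|` (`H1h_split`, `T_unit`). `lin_form`: the two coefficients
of `T`, `rot T` are bounded by `eu (..) ≤ 2 ‖..‖ ≤ 2 M` (`H1m_eu_le`; `H1h_comb`). `max_tan` for `α` and
`max_nor` for `β` (with `Ap j = JA mq (w j) (T j) δ` etc., `jac_unif`) with `2 C0 M` in place of `M`. So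
`‖v j‖ ≤ C0 (1 + N² + 1 + C / c) 2 C0 M` and `N ≤ 2 + d = exp (ll)` (`d_N`, `Real.exp_log`),
`N² ≤ exp (2 ll)`. -/

open MeasureTheory Set Filter Topology
open scoped ContDiff

namespace BE

open BGS BR

variable {Γ : Type} [Group Γ] [MulAction Γ Pl] {D : Set Pl}
variable {ι P : Type} [NormedAddCommGroup P] [NormedSpace ℝ P] [FiniteDimensional ℝ P]
  {m : Pl → Co} {a b : ℝ} {s : ι → P × Pl → ℝ}

theorem G5_sq (v : Pl) : eu v ^ 2 = v.1 ^ 2 + v.2 ^ 2 := Real.sq_sqrt (by positivity)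

theorem G5_eu_nonneg (v : Pl) : 0 ≤ eu v := Real.sqrt_nonneg _

theorem G5_eu_le (v : Pl) : eu v ≤ 2 * ‖v‖ := by
  have h1 : |v.1| ≤ ‖v‖ := norm_fst_le v
  have h2 : |v.2| ≤ ‖v‖ := norm_snd_le v
  have h0 : 0 ≤ ‖v‖ := norm_nonneg v
  apply le_of_sq_le_sq _ (by positivity)
  rw [G5_sq, ← sq_abs v.1, ← sq_abs v.2]
  nlinarith [abs_nonneg v.1, abs_nonneg v.2]

theorem G5_two {T : Pl} (hT : eu T = 1) (w : Pl) :
    ip w T ^ 2 + ip w (rot T) ^ 2 = eu w ^ 2 := by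
  have h : T.1 ^ 2 + T.2 ^ 2 = 1 := by rw [← G5_sq, hT, one_pow]
  rw [G5_sq]
  simp only [ip, rot]
  linear_combination (w.1 ^ 2 + w.2 ^ 2) * h

theorem G5_comb {T : Pl} (hT : eu T = 1) (a b : ℝ) : eu (a • T + b • rot T) ^ 2 = a ^ 2 + b ^ 2 := by
  have h : T.1 ^ 2 + T.2 ^ 2 = 1 := by rw [← G5_sq, hT, one_pow]
  rw [G5_sq]
  simp only [rot, Prod.fst_add, Prod.snd_add, Prod.smul_fst, Prod.smul_snd, smul_eq_mul]
  linear_combination (a ^ 2 + b ^ 2) * h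

theorem G5_neg {T : Pl} (hT : eu T = 1) : eu (-T) = 1 := by
  unfold eu at hT ⊢
  rw [← hT]
  congr 1
  simp

theorem G5_abs {a b e : ℝ} (he : 0 ≤ e) (h : a ^ 2 + b ^ 2 = e ^ 2) :
    |a| ≤ e ∧ |b| ≤ e ∧ e ≤ |a| + |b| := by
  refine ⟨abs_le_of_sq_le_sq' ?_ he |> abs_le.2, abs_le_of_sq_le_sq' ?_ he |> abs_le.2, ?_⟩
  · nlinarith [sq_nonneg b]
  · nlinarith [sq_nonneg a]
  · apply le_of_sq_le_sq _ (by positivity)
    rw [← h]
    nlinarith [abs_nonneg a, abs_nonneg b, sq_abs a, sq_abs b,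
      mul_nonneg (abs_nonneg a) (abs_nonneg b)]

theorem G5_pos {c : Co} (h0 : 0 < c.1) (h : 0 < dt c) {v : Pl} (hv : v ≠ 0) : 0 < qf c v := by
  have h1 : c.1 * qf c v = (c.1 * v.1 + c.2.1 * v.2) ^ 2 + dt c * v.2 ^ 2 := by
    unfold qf dt
    ring
  have h2 : 0 < c.1 * qf c v := by
    rw [h1]
    rcases eq_or_ne v.2 0 with h3 | h3
    · have h4 : v.1 ≠ 0 := fun h5 => hv (Prod.ext h5 h3)
      rw [h3]
      have : c.1 * v.1 + c.2.1 * 0 ≠ 0 := by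
        rw [mul_zero, add_zero]
        exact mul_ne_zero h0.ne' h4
      positivity
    · positivity
  exact (mul_pos_iff_of_pos_left h0).1 h2

theorem G5_smul (c : Co) (t : ℝ) (v : Pl) : qf c (t • v) = t ^ 2 * qf c v := by
  unfold qf
  simp only [Prod.smul_fst, Prod.smul_snd, smul_eq_mul]
  ring

theorem G5_qf (hX : Surface Γ D) (hm : HM Γ m) : ∃ c C : ℝ, 0 < c ∧ 0 ≤ C ∧
    ∀ z ∈ closure D, ∀ v : Pl, c * ‖v‖ ^ 2 ≤ qf (m z) v ∧ qf (m z) v ≤ C * ‖v‖ ^ 2 := by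
  have hcont : Continuous (fun p : Pl × Pl => qf (m p.1) p.2) := by
    have h1 : Continuous m := hm.smooth.continuous
    unfold qf
    fun_prop
  have hK : IsCompact (closure D ×ˢ Metric.sphere (0 : Pl) 1) :=
    hX.bdd.isCompact_closure.prod (isCompact_sphere 0 1)
  have hmain : ∃ c C : ℝ, 0 < c ∧ 0 ≤ C ∧ ∀ z ∈ closure D, ∀ u : Pl, ‖u‖ = 1 →
      c ≤ qf (m z) u ∧ qf (m z) u ≤ C := by
    rcases (closure D ×ˢ Metric.sphere (0 : Pl) 1).eq_empty_or_nonempty with he | hne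
    · refine ⟨1, 0, one_pos, le_rfl, fun z hz u hu => ?_⟩
      have : (z, u) ∈ closure D ×ˢ Metric.sphere (0 : Pl) 1 := ⟨hz, by simpa using hu⟩
      rw [he] at this
      exact this.elim
    · obtain ⟨p, hp, hpm⟩ := hK.exists_isMinOn hne hcont.continuousOn
      obtain ⟨p', hp', hpM⟩ := hK.exists_isMaxOn hne hcont.continuousOn
      refine ⟨qf (m p.1) p.2, max 0 (qf (m p'.1) p'.2), ?_, le_max_left _ _, fun z hz u hu => ?_⟩
      · apply G5_pos (hm.pos _).1 (hm.pos _).2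
        intro h0
        have := hp.2
        rw [h0] at this
        simp at this
      · have hmem : (z, u) ∈ closure D ×ˢ Metric.sphere (0 : Pl) 1 := ⟨hz, by simpa using hu⟩
        exact ⟨hpm hmem, (show qf (m z) u ≤ qf (m p'.1) p'.2 from hpM hmem).trans
          (le_max_right _ _)⟩
  obtain ⟨c, C, hc, hC, h⟩ := hmain
  refine ⟨c, C, hc, hC, fun z hz v => ?_⟩
  rcases eq_or_ne v 0 with rfl | hv
  · have : qf (m z) 0 = 0 := by unfold qf; simp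
    rw [this, norm_zero]
    simp
  · have hn : 0 < ‖v‖ := norm_pos_iff.2 hv
    have hu : ‖(‖v‖⁻¹ • v)‖ = 1 := by
      rw [norm_smul, norm_inv, norm_norm, inv_mul_cancel₀ hn.ne']
    have h2 : v = ‖v‖ • (‖v‖⁻¹ • v) := by
      rw [smul_smul, mul_inv_cancel₀ hn.ne', one_smul]
    obtain ⟨h3, h4⟩ := h z hz _ hu
    have h5 : qf (m z) v = ‖v‖ ^ 2 * qf (m z) (‖v‖⁻¹ • v) := by
      conv_lhs => rw [h2]
      exact G5_smul _ _ _
    rw [h5]
    constructor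
    · rw [mul_comm]
      exact mul_le_mul_of_nonneg_left h3 (by positivity)
    · rw [mul_comm C]
      exact mul_le_mul_of_nonneg_left h4 (by positivity)

/-- The frame coordinates and the norm. -/
theorem G5_coord (h : CF Γ D m a b s) : ∃ C : ℝ, 1 ≤ C ∧ ∀ (i : ι) (p : P), ‖p‖ ≤ 1 →
    ∀ z ∈ closure D, ∀ v : Pl, eu (ifr (mm m (s i) p z) v) ≤ C * ‖v‖ ∧
      ‖v‖ ≤ C * eu (ifr (mm m (s i) p z) v) := by
  obtain ⟨A, hA1, hA⟩ := mm_cmp h
  obtain ⟨c, C, hc, hC, hq⟩ := G5_qf h.hX h.hm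
  obtain ⟨R, hR1, hR2, hR3⟩ : ∃ R : ℝ, 1 ≤ R ∧ A ^ 2 * C ≤ R ∧ A ^ 2 / c ≤ R :=
    ⟨max 1 (max (A ^ 2 * C) (A ^ 2 / c)), le_max_left _ _,
      (le_max_left _ _).trans (le_max_right _ _), (le_max_right _ _).trans (le_max_right _ _)⟩
  refine ⟨√R, by rwa [Real.one_le_sqrt], fun i p hp z hz v => ?_⟩
  have hpos := (hm_mm h i p).pos z
  have he : eu (ifr (mm m (s i) p z) v) ^ 2 = qf (mm m (s i) p z) v := by
    rw [qf_eq_bf, bf_eq_ip hpos.1 hpos.2, G5_sq]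
    unfold ip
    ring
  obtain ⟨h1, h2⟩ := hA i p hp z v
  obtain ⟨h3, h4⟩ := hq z hz v
  have hA0 : 0 ≤ A ^ 2 := sq_nonneg A
  have hRs : √R ^ 2 = R := Real.sq_sqrt (by linarith)
  constructor
  · apply le_of_sq_le_sq _ (by positivity)
    rw [he, mul_pow, hRs]
    calc qf (mm m (s i) p z) v ≤ A ^ 2 * qf (m z) v := h2
      _ ≤ A ^ 2 * (C * ‖v‖ ^ 2) := mul_le_mul_of_nonneg_left h4 hA0
      _ = A ^ 2 * C * ‖v‖ ^ 2 := by ring
      _ ≤ R * ‖v‖ ^ 2 := mul_le_mul_of_nonneg_right hR2 (by positivity)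
  · apply le_of_sq_le_sq _ (mul_nonneg (Real.sqrt_nonneg _) (G5_eu_nonneg _))
    rw [mul_pow, hRs, he]
    have h5 : c * ‖v‖ ^ 2 ≤ A ^ 2 * qf (mm m (s i) p z) v := h3.trans h1
    have h6 : ‖v‖ ^ 2 ≤ A ^ 2 / c * qf (mm m (s i) p z) v := by
      rw [div_mul_eq_mul_div, le_div_iff₀ hc]
      linarith
    have h7 : 0 ≤ qf (mm m (s i) p z) v := by rw [← he]; positivity
    exact h6.trans (mul_le_mul_of_nonneg_right hR3 h7)

theorem chain_inv (h : CF Γ D m a b s) : ∃ C : ℝ, ∀ (q : Ix ι P Γ D) (v : ℕ → Pl) (M : ℝ),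
    ‖v 0‖ ≤ M → ‖v (q.N m s)‖ ≤ M →
    (∀ j, 1 ≤ j → j < q.N m s →
      ‖fderiv ℝ (q.G h.hX m s j) (q.p, q.w h.hX m s (j - 1) q.b, q.w h.hX m s j q.b,
        q.w h.hX m s (j + 1) q.b) (0, v (j - 1), v j, v (j + 1))‖ ≤ M) →
    ∀ j ≤ q.N m s, ‖v j‖ ≤ C * Real.exp (C * ll m s q) * M := by
  obtain ⟨C0, hC0, hco⟩ := G5_coord h
  obtain ⟨c, C, hc, hC, hjac⟩ := jac_unif h
  have hCc : 0 ≤ C / c := div_nonneg hC hc.le
  obtain ⟨K, hK2, hK3⟩ : ∃ K : ℝ, 2 ≤ K ∧ 2 * C0 ^ 2 * (3 + C / c) ≤ K :=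
    ⟨max 2 (2 * C0 ^ 2 * (3 + C / c)), le_max_left _ _, le_max_right _ _⟩
  refine ⟨K, fun q v M hv0 hvN hG j hj => ?_⟩
  have hM : 0 ≤ M := (norm_nonneg _).trans hv0
  obtain ⟨hd0, hd1, hd2, hd3⟩ := d_N h q
  have hll : Real.exp (ll m s q) = 2 + q.d m s := by
    unfold ll
    exact Real.exp_log (by linarith)
  have hll0 : 0 ≤ ll m s q := by
    unfold ll
    exact Real.log_nonneg (by linarith)
  have hexp1 : 1 ≤ Real.exp (K * ll m s q) :=
    Real.one_le_exp (mul_nonneg (by linarith) hll0)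
  have hN1 := N_pos m s q
  rcases Nat.lt_or_ge 1 (q.N m s) with hN | hN
  swap
  · have hj' : j = 0 ∨ j = q.N m s := by omega
    have h1 : ‖v j‖ ≤ M := by
      rcases hj' with rfl | rfl
      · exact hv0
      · exact hvN
    refine h1.trans ?_
    have h2 : 1 ≤ K * Real.exp (K * ll m s q) := by nlinarith
    exact le_mul_of_one_le_left hM h2
  have hδ := hd2 hN
  set δ : ℝ := q.d m s / q.N m s with hδdef
  have hNR : (0 : ℝ) < q.N m s := by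
    have : 0 < q.N m s := by omega
    exact_mod_cast this
  have hd : 0 < q.d m s := by
    rcases hd0.lt_or_eq with h1 | h1
    · exact h1
    · rw [hδdef, ← h1, zero_div] at hδ
      norm_num at hδ
  have hTu := T_unit h q hd
  have hcoj : ∀ j, eu (ifr (mm m (s q.i) q.p (q.w h.hX m s j q.b)) (v j)) ≤ C0 * ‖v j‖ ∧
      ‖v j‖ ≤ C0 * eu (ifr (mm m (s q.i) q.p (q.w h.hX m s j q.b)) (v j)) := fun j =>
    hco q.i q.p q.hp _ (w_mem h q j) (v j)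
  have hab : ∀ j, |q.al h.hX m s v j| ≤ eu (ifr (mm m (s q.i) q.p (q.w h.hX m s j q.b)) (v j)) ∧
      |q.be h.hX m s v j| ≤ eu (ifr (mm m (s q.i) q.p (q.w h.hX m s j q.b)) (v j)) ∧
      eu (ifr (mm m (s q.i) q.p (q.w h.hX m s j q.b)) (v j)) ≤
        |q.al h.hX m s v j| + |q.be h.hX m s v j| := fun j =>
    G5_abs (G5_eu_nonneg _) (G5_two (hTu j) _)
  have hM' : 2 * M ≤ 2 * C0 * M := by nlinarith
  have hend : ∀ j, ‖v j‖ ≤ M → |q.al h.hX m s v j| ≤ 2 * C0 * M ∧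
      |q.be h.hX m s v j| ≤ 2 * C0 * M := by
    intro j hjM
    obtain ⟨h1, -⟩ := hcoj j
    obtain ⟨h2, h3, -⟩ := hab j
    have h4 : C0 * ‖v j‖ ≤ C0 * M := mul_le_mul_of_nonneg_left hjM (by linarith)
    have h5 : C0 * M ≤ 2 * C0 * M := by nlinarith
    exact ⟨by linarith, by linarith⟩
  have hlin : ∀ j, 1 ≤ j → j < q.N m s →
      |q.al h.hX m s v (j + 1) - 2 * q.al h.hX m s v j + q.al h.hX m s v (j - 1)| ≤ 2 * C0 * M ∧
      |δ * ((q.be h.hX m s v (j + 1) - q.be h.hX m s v j *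
            JA (mm m (s q.i) q.p) (q.w h.hX m s j q.b) (q.T h.hX m s j) δ) /
              JB (mm m (s q.i) q.p) (q.w h.hX m s j q.b) (q.T h.hX m s j) δ +
          (q.be h.hX m s v (j - 1) - q.be h.hX m s v j *
            JA (mm m (s q.i) q.p) (q.w h.hX m s j q.b) (-(q.T h.hX m s j)) δ) /
              JB (mm m (s q.i) q.p) (q.w h.hX m s j q.b) (-(q.T h.hX m s j)) δ)| ≤
        2 * C0 * M := by
    intro j h1 h2
    have h3 := lin_form h q h1 h2 v rfl rfl rfl hδdef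
    have h4 := hG j h1 h2
    rw [h3] at h4
    have h5 := G5_eu_le ((q.al h.hX m s v (j + 1) - 2 * q.al h.hX m s v j +
        q.al h.hX m s v (j - 1)) • q.T h.hX m s j +
      (δ * ((q.be h.hX m s v (j + 1) - q.be h.hX m s v j *
            JA (mm m (s q.i) q.p) (q.w h.hX m s j q.b) (q.T h.hX m s j) δ) /
              JB (mm m (s q.i) q.p) (q.w h.hX m s j q.b) (q.T h.hX m s j) δ +
          (q.be h.hX m s v (j - 1) - q.be h.hX m s v j *
            JA (mm m (s q.i) q.p) (q.w h.hX m s j q.b) (-(q.T h.hX m s j)) δ) /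
              JB (mm m (s q.i) q.p) (q.w h.hX m s j q.b) (-(q.T h.hX m s j)) δ)) •
        rot (q.T h.hX m s j))
    obtain ⟨h6, h7, -⟩ := G5_abs (G5_eu_nonneg _) (G5_comb (hTu j)
      (q.al h.hX m s v (j + 1) - 2 * q.al h.hX m s v j + q.al h.hX m s v (j - 1))
      (δ * ((q.be h.hX m s v (j + 1) - q.be h.hX m s v j *
            JA (mm m (s q.i) q.p) (q.w h.hX m s j q.b) (q.T h.hX m s j) δ) /
              JB (mm m (s q.i) q.p) (q.w h.hX m s j q.b) (q.T h.hX m s j) δ +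
          (q.be h.hX m s v (j - 1) - q.be h.hX m s v j *
            JA (mm m (s q.i) q.p) (q.w h.hX m s j q.b) (-(q.T h.hX m s j)) δ) /
              JB (mm m (s q.i) q.p) (q.w h.hX m s j q.b) (-(q.T h.hX m s j)) δ))).symm
    exact ⟨by linarith, by linarith⟩
  have hA := max_tan (N := q.N m s) (a := q.al h.hX m s v) (M := 2 * C0 * M) (hend 0 hv0).1
    (hend _ hvN).1 (fun j h1 h2 => (hlin j h1 h2).1) j hj
  have hB := max_nor (N := q.N m s) (b := q.be h.hX m s v)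
    (Ap := fun j => JA (mm m (s q.i) q.p) (q.w h.hX m s j q.b) (q.T h.hX m s j) δ)
    (Am := fun j => JA (mm m (s q.i) q.p) (q.w h.hX m s j q.b) (-(q.T h.hX m s j)) δ)
    (Bp := fun j => JB (mm m (s q.i) q.p) (q.w h.hX m s j q.b) (q.T h.hX m s j) δ)
    (Bm := fun j => JB (mm m (s q.i) q.p) (q.w h.hX m s j q.b) (-(q.T h.hX m s j)) δ)
    (M := 2 * C0 * M) (h := δ) hc hC hδ (hend 0 hv0).2 (hend _ hvN).2
    (fun j _ _ => ⟨(hjac q.i q.p _ _ (hTu j) δ hδ hd1).1,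
      (hjac q.i q.p _ _ (G5_neg (hTu j)) δ hδ hd1).1⟩)
    (fun j _ _ => ⟨(hjac q.i q.p _ _ (hTu j) δ hδ hd1).2.1,
      (hjac q.i q.p _ _ (hTu j) δ hδ hd1).2.2,
      (hjac q.i q.p _ _ (G5_neg (hTu j)) δ hδ hd1).2.1,
      (hjac q.i q.p _ _ (G5_neg (hTu j)) δ hδ hd1).2.2⟩)
    (fun j h1 h2 => (hlin j h1 h2).2) j hj
  have h1 : ‖v j‖ ≤ C0 * ((1 + (q.N m s : ℝ) ^ 2) * (2 * C0 * M) +
      (1 + C / c) * (2 * C0 * M)) := by
    refine (hcoj j).2.trans (mul_le_mul_of_nonneg_left ?_ (by linarith))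
    exact (hab j).2.2.trans (add_le_add hA hB)
  have hN2 : (q.N m s : ℝ) ^ 2 ≤ Real.exp (2 * ll m s q) := by
    have h2 : Real.exp (2 * ll m s q) = (2 + q.d m s) ^ 2 := by
      rw [two_mul, Real.exp_add, hll, sq]
    rw [h2]
    exact pow_le_pow_left₀ hNR.le hd3 2
  have hE1 : 1 ≤ Real.exp (2 * ll m s q) := Real.one_le_exp (by linarith)
  have hE2 : Real.exp (2 * ll m s q) ≤ Real.exp (K * ll m s q) :=
    Real.exp_le_exp.2 (mul_le_mul_of_nonneg_right hK2 hll0)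
  have h3 : (1 + (q.N m s : ℝ) ^ 2) + (1 + C / c) ≤ (3 + C / c) * Real.exp (2 * ll m s q) := by
    nlinarith
  have h4 : 0 ≤ 2 * C0 ^ 2 * M := by positivity
  calc ‖v j‖ ≤ C0 * ((1 + (q.N m s : ℝ) ^ 2) * (2 * C0 * M) +
      (1 + C / c) * (2 * C0 * M)) := h1
    _ = 2 * C0 ^ 2 * M * ((1 + (q.N m s : ℝ) ^ 2) + (1 + C / c)) := by ring
    _ ≤ 2 * C0 ^ 2 * M * ((3 + C / c) * Real.exp (2 * ll m s q)) :=
        mul_le_mul_of_nonneg_left h3 h4
    _ = (2 * C0 ^ 2 * (3 + C / c)) * Real.exp (2 * ll m s q) * M := by ring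
    _ ≤ K * Real.exp (K * ll m s q) * M := by
        apply mul_le_mul_of_nonneg_right _ hM
        exact mul_le_mul hK3 hE2 (by positivity) (by linarith)

end BE
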