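import Pool.Agent.LibBE88.G5
import Pool.Agent.LibBE88.A6
import Pool.Agent.LibBE88.C3

/-! Row BE88 G6 (cites G1, G5, A6, C3): all derivatives of the points of the chain have polynomial
growth. MEDIUM, 45 min.
Plan. `IF` (row C3) with `κ = Ix ι P Γ D`, `E = P × Pl × Pl`, `F = Pl`, `Q = P`, `x = Ix.b`, `ℓ = ll m s`
(`ll_nonneg`: `2 + d ≥ 1`), `N q = q.N m s`, `w q j = q.w h.hX m s j`, `π q = Prod.fst`, `G q j = q.G h.hX m s j`.
`hπ`: `EB_id` and `EB_clm` (the points `q.b` are bounded: `‖p‖ ≤ 1`, `closure D` compact; uniformly bounded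
families are of class `EB` for every `ℓ ≥ 0`). `hG`: `G_j = JV (p, b, sm_j • a) + JV (p, b, sp_j • c)` at points
`w_{j-1}, w_j, w_{j+1} ∈ closure D` (`w_mem`) and `sm_j, sp_j` in the finite set of `sp_fin`: `EB0_JVd` (row A6)
composed with the linear maps `(p, a, b, c) ↦ (p, b, a)`, `(p, b, c)`; from `ℓ = 0` to `ℓ`: an
`EB0` family is `EB ℓ` for `ℓ ≥ 0` (`C ≤ C' exp (C' ℓ)`, `EB_of_EB0` below). `heq`: `crit`. `h0`, `h1`: `w_zero`,
`w_last` (linear functions of `e`). `hb`: `w_mem`. `hinv`: `chain_inv` (row G5). -/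

open MeasureTheory Set Filter Topology
open scoped ContDiff

namespace BE

open BGS BR

theorem EB_of_EB0 {κ E F : Type} [NormedAddCommGroup E] [NormedSpace ℝ E] [NormedAddCommGroup F]
    [NormedSpace ℝ F] {f : κ → E → F} {x : κ → E} (hf : EB0 f x) {ℓ : κ → ℝ}
    (hℓ : ∀ q, 0 ≤ ℓ q) : EB ℓ f x := by
  refine ⟨hf.smooth, fun k => ?_⟩
  obtain ⟨C, hC⟩ := hf.bound k
  refine ⟨|C|, fun i => (hC i).trans ?_⟩
  rw [mul_zero, Real.exp_zero, mul_one]
  exact (le_abs_self C).trans (le_mul_of_one_le_right (abs_nonneg _)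
    (Real.one_le_exp (mul_nonneg (abs_nonneg _) (hℓ i))))

private theorem G6_pull {κ κ' E F : Type} [NormedAddCommGroup E] [NormedSpace ℝ E]
    [NormedAddCommGroup F] [NormedSpace ℝ F] {ℓ : κ → ℝ} {f : κ → E → F} {x : κ → E}
    (hf : EB ℓ f x) (φ : κ' → κ) :
    EB (fun i => ℓ (φ i)) (fun i => f (φ i)) (fun i => x (φ i)) :=
  ⟨fun i => hf.smooth (φ i), fun k => by
    obtain ⟨C, hC⟩ := hf.bound k
    exact ⟨C, fun i => hC (φ i)⟩⟩

variable {Γ : Type} [Group Γ] [MulAction Γ Pl] {D : Set Pl}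
variable {ι P : Type} [NormedAddCommGroup P] [NormedSpace ℝ P] [FiniteDimensional ℝ P]
  {m : Pl → Co} {a b : ℝ} {s : ι → P × Pl → ℝ}

theorem ll_nonneg (m : Pl → Co) (s : ι → P × Pl → ℝ) (q : Ix ι P Γ D) :
    0 ≤ ll m s q := by
  unfold ll
  apply Real.log_nonneg
  have h1 : 0 ≤ q.d m s := Real.sqrt_nonneg _
  linarith

theorem EB_w (h : CF Γ D m a b s) :
    EB (fun q : Le (fun q : Ix ι P Γ D => q.N m s) => ll m s q.1.1)
      (fun q => q.1.1.w h.hX m s q.1.2) (fun q => q.1.1.b) := by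
  have hcomp : IsCompact (closure D) := h.hX.bdd.isCompact_closure
  obtain ⟨R, hR⟩ := hcomp.isBounded.exists_norm_le
  have hR0 : ∀ q : Ix ι P Γ D, 0 ≤ R := fun q => (norm_nonneg _).trans (hR _ q.hx)
  have hℓ := ll_nonneg (Γ := Γ) (D := D) m s
  -- bounded points
  have hbd : ∀ (q : Ix ι P Γ D), ‖q.b‖ ≤ max 1 R := fun q => by
    show ‖(q.p, q.x, q.y)‖ ≤ max 1 R
    rw [Prod.norm_def, Prod.norm_def]
    exact max_le (q.hp.trans (le_max_left _ _))
      (max_le ((hR _ q.hx).trans (le_max_right _ _)) ((hR _ q.hy).trans (le_max_right _ _)))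
  have hexp : ∀ (C : ℝ), 0 ≤ C → ∀ q : Ix ι P Γ D, C ≤ C * Real.exp (C * ll m s q) :=
    fun C hC q => le_mul_of_one_le_right hC (Real.one_le_exp (mul_nonneg hC (hℓ q)))
  have hid : EB (fun q : Ix ι P Γ D => ll m s q) (fun _ (e : P × Pl × Pl) => e) Ix.b :=
    EB_id hℓ (C := max 1 R) fun q =>
      (hbd q).trans (hexp _ (zero_le_one.trans (le_max_left _ _)) q)
  have hcl := chain_inv h
  obtain ⟨S, hS, hsp⟩ := sp_fin h
  -- the equations
  have hd := EB0_JVd h hS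
  refine IF (κ := Ix ι P Γ D) (ℓ := fun q => ll m s q) hℓ (N := fun q => q.N m s) (x := Ix.b)
    (w := fun q j => q.w h.hX m s j) (π := fun _ e => e.1) (G := fun q j => q.G h.hX m s j)
    (EB_clm hℓ hid (ContinuousLinearMap.fst ℝ P (Pl × Pl))) ?_ (fun q j => w_smooth h q j)
    (fun q j h1 _ y => crit h q j h1 y) ?_ ?_ ?_ hcl
  · have h0 : ∀ q : In (fun q : Ix ι P Γ D => q.N m s), (0 : ℝ) ≤ 0 := fun _ => le_rfl
    have hid' : EB0 (fun (_ : In (fun q : Ix ι P Γ D => q.N m s)) (e : P × Pl × Pl × Pl) => e)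
        (fun q => (q.1.1.b.1, q.1.1.w h.hX m s (q.1.2 - 1) q.1.1.b, q.1.1.w h.hX m s q.1.2 q.1.1.b,
          q.1.1.w h.hX m s (q.1.2 + 1) q.1.1.b)) := by
      refine EB_id h0 (C := max 1 R) fun q => ?_
      rw [mul_zero, Real.exp_zero, mul_one, Prod.norm_def, Prod.norm_def, Prod.norm_def]
      exact max_le (q.1.1.hp.trans (le_max_left _ _)) (max_le
        ((hR _ (w_mem h _ _)).trans (le_max_right _ _)) (max_le
        ((hR _ (w_mem h _ _)).trans (le_max_right _ _))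
        ((hR _ (w_mem h _ _)).trans (le_max_right _ _))))
    refine EB_of_EB0 ?_ (fun q => hℓ q.1.1)
    -- the two linear maps
    let L1 : P × Pl × Pl × Pl →L[ℝ] P × Pl × Pl :=
      (ContinuousLinearMap.fst ℝ P (Pl × Pl × Pl)).prod
        (((ContinuousLinearMap.fst ℝ Pl Pl).comp ((ContinuousLinearMap.snd ℝ Pl (Pl × Pl)).comp
          (ContinuousLinearMap.snd ℝ P (Pl × Pl × Pl)))).prod
        ((ContinuousLinearMap.fst ℝ Pl (Pl × Pl)).comp (ContinuousLinearMap.snd ℝ P (Pl × Pl × Pl))))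
    let L2 : P × Pl × Pl × Pl →L[ℝ] P × Pl × Pl :=
      (ContinuousLinearMap.fst ℝ P (Pl × Pl × Pl)).prod
        (((ContinuousLinearMap.fst ℝ Pl Pl).comp ((ContinuousLinearMap.snd ℝ Pl (Pl × Pl)).comp
          (ContinuousLinearMap.snd ℝ P (Pl × Pl × Pl)))).prod
        ((ContinuousLinearMap.snd ℝ Pl Pl).comp ((ContinuousLinearMap.snd ℝ Pl (Pl × Pl)).comp
          (ContinuousLinearMap.snd ℝ P (Pl × Pl × Pl)))))
    let φ1 : In (fun q : Ix ι P Γ D => q.N m s) → Lx ι P (closure D) × S := fun q =>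
      (⟨q.1.1.i, q.1.1.p, q.1.1.w h.hX m s q.1.2 q.1.1.b, q.1.1.w h.hX m s (q.1.2 - 1) q.1.1.b,
        q.1.1.hp, w_mem h _ _, w_mem h _ _⟩, ⟨q.1.1.sm h.hX m s q.1.2, (hsp q.1.1 q.1.2).2 q.2.1⟩)
    let φ2 : In (fun q : Ix ι P Γ D => q.N m s) → Lx ι P (closure D) × S := fun q =>
      (⟨q.1.1.i, q.1.1.p, q.1.1.w h.hX m s q.1.2 q.1.1.b, q.1.1.w h.hX m s (q.1.2 + 1) q.1.1.b,
        q.1.1.hp, w_mem h _ _, w_mem h _ _⟩, ⟨q.1.1.sp h.hX m s q.1.2, (hsp q.1.1 q.1.2).1⟩)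
    have hA := EB_comp h0 (f := fun _ => L1) (G6_pull hd φ1) (EB_clm h0 hid' L1)
    have hB := EB_comp h0 (f := fun _ => L2) (G6_pull hd φ2) (EB_clm h0 hid' L2)
    exact EB_add h0 hA hB
  · have h1 : (fun q : Ix ι P Γ D => q.w h.hX m s 0) = fun _ (e : P × Pl × Pl) => e.2.1 :=
      funext fun q => funext fun e => w_zero h q e
    rw [h1]
    exact EB_clm hℓ hid ((ContinuousLinearMap.fst ℝ Pl Pl).comp (ContinuousLinearMap.snd ℝ P (Pl × Pl)))
  · have h1 : (fun q : Ix ι P Γ D => q.w h.hX m s (q.N m s)) = fun _ (e : P × Pl × Pl) => e.2.2 :=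
      funext fun q => funext fun e => w_last h q e
    rw [h1]
    exact EB_clm hℓ hid ((ContinuousLinearMap.snd ℝ Pl Pl).comp (ContinuousLinearMap.snd ℝ P (Pl × Pl)))
  · exact ⟨R, fun q j _ => (hR _ (w_mem h q j)).trans (hexp R (hR0 q) q)⟩

end BE
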