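import Pool.Agent.LibBE88.Defs

/-! Row BE88 V4 (cites `LibBR70/PX4`, `PX7`): the Laplacian `LL c` of a general metric `c` on the plane:
Green's formula and invariance under isometries. STRONG, 60 min.
Plan. `green_gen` is `green2` of `LibBR70/PX4.lean`, whose proof only uses that the metric is smooth
and positive: copy it (`PX4_fl1`, `PX4_fl2`, `PX4_ibp`, `PX4_int_mul`; all private / public lemmas there
with `PMt G` replaced by smoothness and positivity of `c`).
`LL_pull`: let `F` be smooth with compact support, `F' = F ∘ ψ`. Then (all integrals over the plane)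
`∫ F * LL c (u ∘ φ) * wt c = -∫ wf2 (c z) (d(u ∘ φ), dF)` (`green_gen`)
`= -∫ |det Dφ| wf2 (c' (φ z)) (du, dF') (φ z)` (`PX7_pull`, `F = F' ∘ φ`)
`= -∫ wf2 (c' w) (du, dF')` (change of variables `integral_image_eq_integral_abs_det_fderiv_smul` with `univ`,
`φ` is injective and surjective)
`= ∫ F' * LL c' u * wt c'` (`green_gen`) `= ∫ |det Dφ| F (z) * LL c' u (φ z) * wt c' (φ z)`
`= ∫ F * (LL c' u ∘ φ) * wt c` (`PX7_dens`: `√(dt c) = |det Dφ| √(dt c')`). So the continuous function
`(LL c (u ∘ φ) - LL c' u ∘ φ) * wt c` is orthogonal to all smooth functions with compact support, hence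
zero (as in `strong` of `LibBR70/PX4.lean`; `Continuous.ae_eq_iff_eq`,
`IsOpenPos`, `ae_eq_zero_of_integral_contDiff_smul_eq_zero`), and `wt c > 0`. -/

open MeasureTheory Set Filter Topology
open scoped ContDiff

namespace BE

open BGS BR

/-- A smooth positive definite metric on the plane. -/
structure SM (c : Pl → Co) : Prop where
  smooth : ContDiff ℝ ∞ c
  pos : ∀ z, 0 < (c z).1 ∧ 0 < dt (c z)

theorem V4_dt {c : Pl → Co} (hc : SM c) : ContDiff ℝ ∞ fun z => dt (c z) :=
  ((contDiff_fst.comp hc.smooth).mul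
    (contDiff_snd.comp (contDiff_snd.comp hc.smooth))).sub
    ((contDiff_fst.comp (contDiff_snd.comp hc.smooth)).pow 2)

theorem V4_wt {c : Pl → Co} (hc : SM c) : ContDiff ℝ ∞ (wt c) :=
  (V4_dt hc).sqrt fun v => (hc.pos v).2.ne'

theorem V4_wp {c : Pl → Co} (hc : SM c) (v : Pl) : 0 < wt c v :=
  Real.sqrt_pos.2 (hc.pos v).2

theorem V4_fl1 {c : Pl → Co} (hc : SM c) {u : Pl → ℝ} (hu : ContDiff ℝ ∞ u) :
    ContDiff ℝ ∞ (PX4_fl1 c u) :=
  (((contDiff_snd.comp (contDiff_snd.comp hc.smooth)).mul (PX1_smooth_dx hu)).sub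
    ((contDiff_fst.comp (contDiff_snd.comp hc.smooth)).mul (PX1_smooth_dy hu))).div
    (V4_wt hc) fun v => (V4_wp hc v).ne'

theorem V4_fl2 {c : Pl → Co} (hc : SM c) {u : Pl → ℝ} (hu : ContDiff ℝ ∞ u) :
    ContDiff ℝ ∞ (PX4_fl2 c u) :=
  (((contDiff_fst.comp hc.smooth).mul (PX1_smooth_dy hu)).sub
    ((contDiff_fst.comp (contDiff_snd.comp hc.smooth)).mul (PX1_smooth_dx hu))).div
    (V4_wt hc) fun v => (V4_wp hc v).ne'

theorem LL_smooth_gen {c : Pl → Co} (hc : SM c) {u : Pl → ℝ} (hu : ContDiff ℝ ∞ u) :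
    ContDiff ℝ ∞ (LL c u) :=
  ((PX1_smooth_dx (V4_fl1 hc hu)).add (PX1_smooth_dy (V4_fl2 hc hu))).div
    (V4_wt hc) fun v => (V4_wp hc v).ne'

theorem V4_LLw {c : Pl → Co} (hc : SM c) (u : Pl → ℝ) (v : Pl) :
    LL c u v * wt c v = dx (PX4_fl1 c u) v + dy (PX4_fl2 c u) v := by
  rw [PX4_LL, div_mul_cancel₀ _ (V4_wp hc v).ne']

theorem green_gen {c : Pl → Co} (hc : SM c) {U F : Pl → ℝ} (hU : ContDiff ℝ ∞ U)
    (hF : ContDiff ℝ ∞ F) (hs : HasCompactSupport F) :
    ∫ v, wf2 (c v) (dx U v) (dy U v) (dx F v) (dy F v) = -∫ v, F v * LL c U v * wt c v := by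
  have hF1 : ContDiff ℝ 1 F := hF.of_le (by exact_mod_cast le_top)
  have c1 : ContDiff ℝ 1 (PX4_fl1 c U) := (V4_fl1 hc hU).of_le (by exact_mod_cast le_top)
  have c2 : ContDiff ℝ 1 (PX4_fl2 c U) := (V4_fl2 hc hU).of_le (by exact_mod_cast le_top)
  have d1 : Continuous (dx F) := (hF1.continuous_fderiv one_ne_zero).clm_apply continuous_const
  have d2 : Continuous (dy F) := (hF1.continuous_fderiv one_ne_zero).clm_apply continuous_const
  have d3 : Continuous (dx (PX4_fl1 c U)) :=
    (c1.continuous_fderiv one_ne_zero).clm_apply continuous_const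
  have d4 : Continuous (dy (PX4_fl2 c U)) :=
    (c2.continuous_fderiv one_ne_zero).clm_apply continuous_const
  have i1 := PX4_ibp hF1 c1 hs (1, 0)
  have i2 := PX4_ibp hF1 c2 hs (0, 1)
  have e1 : ∫ v, wf2 (c v) (dx U v) (dy U v) (dx F v) (dy F v)
      = (∫ v, dx F v * PX4_fl1 c U v) + ∫ v, dy F v * PX4_fl2 c U v := by
    rw [← integral_add (PX4_int_mul d1 c1.continuous (PX4_dx_supp hs))
      (PX4_int_mul d2 c2.continuous (PX4_dy_supp hs))]
    exact integral_congr_ae (Eventually.of_forall fun v => PX4_wf2 c U F v)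
  have e2 : ∫ v, F v * LL c U v * wt c v
      = (∫ v, F v * dx (PX4_fl1 c U) v) + ∫ v, F v * dy (PX4_fl2 c U) v := by
    rw [← integral_add (PX4_int_mul hF.continuous d3 hs) (PX4_int_mul hF.continuous d4 hs)]
    refine integral_congr_ae (Eventually.of_forall fun v => ?_)
    dsimp only
    rw [mul_assoc, V4_LLw hc]
    ring
  have i1' : ∫ v, F v * dx (PX4_fl1 c U) v = -∫ v, dx F v * PX4_fl1 c U v := i1
  have i2' : ∫ v, F v * dy (PX4_fl2 c U) v = -∫ v, dy F v * PX4_fl2 c U v := i2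
  rw [e1, e2, i1', i2']
  ring

/-- Change of variables. -/
theorem V4_cv {φ ψ : Pl → Pl} (hφ : ContDiff ℝ ∞ φ) (h1 : ∀ z, ψ (φ z) = z)
    (h2 : ∀ z, φ (ψ z) = z) (H : Pl → ℝ) :
    ∫ w, H w = ∫ z, |(fderiv ℝ φ z).det| * H (φ z) := by
  have hinj : Function.Injective φ := Function.LeftInverse.injective h1
  have hsur : Function.Surjective φ := Function.RightInverse.surjective h2
  have h3 := integral_image_eq_integral_abs_det_fderiv_smul volume MeasurableSet.univ
    (f := φ) (f' := fun v => fderiv ℝ φ v)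
    (fun v _ => (hφ.differentiable (by simp) v).hasFDerivAt.hasFDerivWithinAt) hinj.injOn H
  rw [image_univ, hsur.range_eq, setIntegral_univ, setIntegral_univ] at h3
  exact h3

theorem LL_pull {c c' : Pl → Co} (hc : SM c) (hc' : SM c') {φ ψ : Pl → Pl}
    (hφ : ContDiff ℝ ∞ φ) (hψ : ContDiff ℝ ∞ ψ) (h1 : ∀ z, ψ (φ z) = z) (h2 : ∀ z, φ (ψ z) = z)
    (hq : ∀ z v, qf (c' (φ z)) (fderiv ℝ φ z v) = qf (c z) v) {u : Pl → ℝ}
    (hu : ContDiff ℝ ∞ u) (z : Pl) : LL c (fun w => u (φ w)) z = LL c' u (φ z) := by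
  have huφ : ContDiff ℝ ∞ (fun w => u (φ w)) := hu.comp hφ
  have c1 : Continuous (LL c (fun w => u (φ w))) := (LL_smooth_gen hc huφ).continuous
  have c2 : Continuous (fun w => LL c' u (φ w)) :=
    (LL_smooth_gen hc' hu).continuous.comp hφ.continuous
  have hcont : Continuous fun v => (LL c (fun w => u (φ w)) v - LL c' u (φ v)) * wt c v :=
    (c1.sub c2).mul (V4_wt hc).continuous
  have h3 : ∀ᵐ v : Pl, (LL c (fun w => u (φ w)) v - LL c' u (φ v)) * wt c v = 0 := by
    refine ae_eq_zero_of_integral_contDiff_smul_eq_zero hcont.locallyIntegrable ?_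
    intro F hF hFc
    have hF' : ContDiff ℝ ∞ (fun w => F (ψ w)) := hF.comp hψ
    have hFc' : HasCompactSupport (fun w => F (ψ w)) := by
      let e : Pl ≃ₜ Pl :=
        { toFun := ψ, invFun := φ, left_inv := h2, right_inv := h1,
          continuous_toFun := hψ.continuous, continuous_invFun := hφ.continuous }
      exact hFc.comp_homeomorph e
    have g1 := green_gen hc huφ hF hFc
    have g2 := green_gen hc' hu hF' hFc'
    have e1 : ∫ v, wf2 (c v) (dx (fun w => u (φ w)) v) (dy (fun w => u (φ w)) v) (dx F v) (dy F v)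
        = ∫ w, wf2 (c' w) (dx u w) (dy u w) (dx (fun w => F (ψ w)) w) (dy (fun w => F (ψ w)) w) := by
      rw [V4_cv hφ h1 h2 (fun w => wf2 (c' w) (dx u w) (dy u w) (dx (fun w => F (ψ w)) w)
        (dy (fun w => F (ψ w)) w))]
      refine integral_congr_ae (Eventually.of_forall fun v => ?_)
      dsimp only
      have h4 := PX7_pull (hφ.differentiable (by simp) v) (hc.pos v).2 (hc'.pos (φ v)).2 (hq v)
        (hu.differentiable (by simp) (φ v)) (hF'.differentiable (by simp) (φ v))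
      rw [← h4]
      have h5 : (fun w => F (ψ (φ w))) = F := funext fun w => by rw [h1]
      rw [h5]
    have e2 : ∫ w, F (ψ w) * LL c' u w * wt c' w = ∫ v, F v * LL c' u (φ v) * wt c v := by
      rw [V4_cv hφ h1 h2 (fun w => F (ψ w) * LL c' u w * wt c' w)]
      refine integral_congr_ae (Eventually.of_forall fun v => ?_)
      dsimp only
      have h4 : wt c v = |(fderiv ℝ φ v).det| * wt c' (φ v) := PX7_dens (hq v)
      rw [h1, h4]
      ring
    have i1 : Integrable fun v => F v * (LL c (fun w => u (φ w)) v * wt c v) :=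
      PX4_int_mul hF.continuous (c1.mul (V4_wt hc).continuous) hFc
    have i2 : Integrable fun v => F v * (LL c' u (φ v) * wt c v) :=
      PX4_int_mul hF.continuous (c2.mul (V4_wt hc).continuous) hFc
    have e3 : ∫ v, F v • ((LL c (fun w => u (φ w)) v - LL c' u (φ v)) * wt c v)
        = (∫ v, F v * (LL c (fun w => u (φ w)) v * wt c v)) -
          ∫ v, F v * (LL c' u (φ v) * wt c v) := by
      rw [← integral_sub i1 i2]
      refine integral_congr_ae (Eventually.of_forall fun v => ?_)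
      dsimp only
      rw [smul_eq_mul]
      ring
    have e4 : ∫ v, F v * (LL c (fun w => u (φ w)) v * wt c v) =
        ∫ v, F v * LL c (fun w => u (φ w)) v * wt c v :=
      integral_congr_ae (Eventually.of_forall fun v => by dsimp only; ring)
    have e5 : ∫ v, F v * (LL c' u (φ v) * wt c v) = ∫ v, F v * LL c' u (φ v) * wt c v :=
      integral_congr_ae (Eventually.of_forall fun v => by dsimp only; ring)
    rw [e3, e4, e5, ← e2]
    linarith
  have h4 : (fun v => (LL c (fun w => u (φ w)) v - LL c' u (φ v)) * wt c v) = fun _ => (0 : ℝ) :=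
    (hcont.ae_eq_iff_eq (μ := (volume : Measure Pl)) continuous_const).1 h3
  have h5 := congrFun h4 z
  rcases mul_eq_zero.1 h5 with h6 | h6
  · linarith
  · exact absurd h6 (V4_wp hc z).ne'

/-- The inner product of the gradients. -/
noncomputable def gr (c : Pl → Co) (u w : Pl → ℝ) (z : Pl) : ℝ :=
  wf2 (c z) (dx u z) (dy u z) (dx w z) (dy w z) / wt c z

theorem gr_pull {c c' : Pl → Co} (hc : SM c) (hc' : SM c') {φ : Pl → Pl}
    (hφ : ContDiff ℝ ∞ φ) (hq : ∀ z v, qf (c' (φ z)) (fderiv ℝ φ z v) = qf (c z) v)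
    {u w : Pl → ℝ} (hu : ContDiff ℝ ∞ u) (hw : ContDiff ℝ ∞ w) (z : Pl) :
    gr c (fun y => u (φ y)) (fun y => w (φ y)) z = gr c' u w (φ z) := by
  have h1 := PX7_pull (hφ.differentiable (by simp) z) (hc.pos z).2 (hc'.pos (φ z)).2 (hq z)
    (hu.differentiable (by simp) (φ z)) (hw.differentiable (by simp) (φ z))
  have h2 : wt c z = |(fderiv ℝ φ z).det| * wt c' (φ z) := PX7_dens (hq z)
  have h3 : |(fderiv ℝ φ z).det| ≠ 0 := by
    intro h0
    rw [h0, zero_mul] at h2
    exact (V4_wp hc z).ne' h2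
  unfold gr
  rw [h1, h2, mul_div_mul_left _ _ h3]

end BE
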