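import Pool.Agent.LibBE88.A1
import Pool.Agent.LibBGM20.H1B
import Pool.Agent.LibBGM20.A4t
import Pool.Agent.LibBGM20.A5

/-! Row BE88 W2: functions of class `Adm` are Lipschitz in the second point, with polynomial
constants. -/

open MeasureTheory Set Filter Topology
open scoped ContDiff

namespace BE

open BGS BR

variable {Γ : Type} [Group Γ] [MulAction Γ Pl] {D : Set Pl}
variable {ι P : Type} [NormedAddCommGroup P] [NormedSpace ℝ P]
  {m : Pl → Co} {a b : ℝ} {s : ι → P × Pl → ℝ}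

/-- The distance of `LibBGM20` (an infimum of lengths) and the distance of `LibBR73`. -/
theorem ds_bgm (hX : Surface Γ D) {m : Pl → Co} (hm : HM Γ m) {k : ℝ}
    (hk : ∀ z, -k ^ 2 ≤ curv m z) (x y : Pl) : BGM.ds m x y = ds m x y := by
  have h1 : ∀ z, -(|k| + 1) ^ 2 ≤ curv m z := by
    intro z
    have h2 := hk z
    have h3 : k ^ 2 = |k| ^ 2 := (sq_abs k).symm
    have h4 := abs_nonneg k
    nlinarith
  exact BGM.ds_eq (BGM.had_of hX hm (by positivity) h1) x y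

theorem ds_mm_bgm (h : CF Γ D m a b s) (i : ι) (p : P) (x y : Pl) :
    BGM.ds (mm m (s i) p) x y = ds (mm m (s i) p) x y :=
  ds_bgm h.hX (hm_mm h i p) (fun z => (h.neg i p z).1) x y

theorem ds_mm_tri (h : CF Γ D m a b s) (i : ι) (p : P) (x y z : Pl) :
    ds (mm m (s i) p) x z ≤ ds (mm m (s i) p) x y + ds (mm m (s i) p) y z := by
  have h1 := hm_mm h i p
  rw [← ds_mm_bgm h, ← ds_mm_bgm h, ← ds_mm_bgm h]
  exact BGM.ds_tri ⟨h1.smooth, h1.pos⟩ x y z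

/-- A velocity moved to the fundamental domain. -/
private theorem W2_vel (h : CF Γ D m a b s) : ∃ C : ℝ, 0 < C ∧ ∀ (i : ι) (p : P), ‖p‖ ≤ 1 →
    ∀ (g : Γ) (z v : Pl), g • z ∈ closure D →
      ‖fderiv ℝ (fun w : Pl => g • w) z v‖ ≤ C * √(qf (mm m (s i) p z) v) := by
  have hK : IsCompact (closure D) := h.hX.bdd.isCompact_closure
  obtain ⟨C1, hC1, h1⟩ := BGM.nm_equiv (m := m) ⟨h.hm.smooth, h.hm.pos⟩ hK
  obtain ⟨C2, hC2, h2⟩ := mm_cmp h
  refine ⟨C1 * C2, by positivity, fun i p hp g z v hz => ?_⟩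
  have h3 := (h1 _ hz (fderiv ℝ (fun w : Pl => g • w) z v)).2
  have h4 := (h2 i p hp (g • z) (fderiv ℝ (fun w : Pl => g • w) z v)).1
  rw [(hm_mm h i p).inv g z v] at h4
  have h5 : BGM.nm (m (g • z)) (fderiv ℝ (fun w : Pl => g • w) z v) ≤
      C2 * √(qf (mm m (s i) p z) v) := by
    unfold BGM.nm
    calc √(qf (m (g • z)) (fderiv ℝ (fun w : Pl => g • w) z v)) ≤
          √(C2 ^ 2 * qf (mm m (s i) p z) v) := Real.sqrt_le_sqrt h4
      _ = C2 * √(qf (mm m (s i) p z) v) := by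
          rw [Real.sqrt_mul (by positivity), Real.sqrt_sq (by linarith)]
  calc ‖fderiv ℝ (fun w : Pl => g • w) z v‖ ≤
        C1 * BGM.nm (m (g • z)) (fderiv ℝ (fun w : Pl => g • w) z v) := h3
    _ ≤ C1 * (C2 * √(qf (mm m (s i) p z) v)) := mul_le_mul_of_nonneg_left h5 (by linarith)
    _ = _ := by ring

/-- The derivative of order one along a curve. -/
private theorem W2_der (h : CF Γ D m a b s) {Q : ι → P × Pl × Pl → ℝ} (hQ : Adm Γ D m s Q) :
    ∃ n : ℕ, ∀ (i : ι) (p : P), ‖p‖ ≤ 1 → ∀ x ∈ closure D, ∀ (c : ℝ → Pl) (t : ℝ) (v : Pl),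
      HasDerivAt c v t → ∃ f' : ℝ, HasDerivAt (fun r => Q i (p, x, c r)) f' t ∧
        |f'| ≤ n * (2 + ds (mm m (s i) p) x (c t)) ^ n * √(qf (mm m (s i) p (c t)) v) := by
  obtain ⟨C1, hC1⟩ := hQ.bound 1
  obtain ⟨C2, hC2, h2⟩ := W2_vel h
  set n1 : ℕ := ⌈|C1|⌉₊ with hn1
  have hn1' : |C1| ≤ n1 := Nat.le_ceil _
  refine ⟨max n1 ⌈(n1 : ℝ) * C2⌉₊, fun i p hp x hx c t v hc => ?_⟩
  set n : ℕ := max n1 ⌈(n1 : ℝ) * C2⌉₊ with hn
  have hn2 : (n1 : ℝ) * C2 ≤ n := (Nat.le_ceil _).trans (by exact_mod_cast le_max_right _ _)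
  have hn3 : n1 ≤ n := le_max_left _ _
  obtain ⟨γ, hγ, -⟩ := h.hX.orbit (c t)
  set y : Pl := γ • c t with hy
  set q : Ix ι P Γ D := ⟨i, p, x, y, γ⁻¹, hp, hx, subset_closure hγ⟩ with hq
  have hqy : γ⁻¹ • y = c t := by rw [hy, inv_smul_smul]
  have hsm : ContDiff ℝ ∞ (fun e : P × Pl × Pl => Q i (e.1, e.2.1, γ⁻¹ • e.2.2)) := hQ.smooth q
  have hd0 : 0 ≤ ds (mm m (s i) p) x (c t) := Real.sqrt_nonneg _
  have hqd : q.d m s = ds (mm m (s i) p) x (c t) := by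
    change ds (mm m (s i) p) x (γ⁻¹ • y) = _
    rw [hqy]
  have hll : 0 ≤ ll m s q := by
    unfold ll
    rw [hqd]
    exact Real.log_nonneg (by linarith)
  have hb1 : ‖fderiv ℝ (fun e : P × Pl × Pl => Q i (e.1, e.2.1, γ⁻¹ • e.2.2)) (p, x, y)‖ ≤
      n1 * (2 + ds (mm m (s i) p) x (c t)) ^ n1 := by
    have h3 := hC1 q
    rw [norm_iteratedFDeriv_one] at h3
    refine h3.trans ?_
    have h4 : Real.exp (C1 * ll m s q) ≤ Real.exp (n1 * ll m s q) :=
      Real.exp_le_exp.2 (mul_le_mul_of_nonneg_right ((le_abs_self _).trans hn1') hll)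
    calc C1 * Real.exp (C1 * ll m s q) ≤ n1 * Real.exp (n1 * ll m s q) :=
          mul_le_mul ((le_abs_self _).trans hn1') h4 (Real.exp_pos _).le (Nat.cast_nonneg _)
      _ = n1 * (2 + ds (mm m (s i) p) x (c t)) ^ n1 := by
          rw [Real.exp_nat_mul]
          unfold ll
          rw [Real.exp_log (by rw [hqd]; linarith), hqd]
  have hgd : HasDerivAt (fun r => γ • c r) (fderiv ℝ (fun w : Pl => γ • w) (c t) v) t := by
    have h5 : DifferentiableAt ℝ (fun w : Pl => γ • w) (c t) :=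
      ((h.hX.smooth γ).differentiable (by simp)) _
    exact h5.hasFDerivAt.comp_hasDerivAt t hc
  set v' : Pl := fderiv ℝ (fun w : Pl => γ • w) (c t) v with hv'
  have hcur : HasDerivAt (fun r => ((p, x, γ • c r) : P × Pl × Pl)) ((0, 0, v') : P × Pl × Pl) t :=
    (hasDerivAt_const t p).prodMk ((hasDerivAt_const t x).prodMk hgd)
  have hFd : HasFDerivAt (fun e : P × Pl × Pl => Q i (e.1, e.2.1, γ⁻¹ • e.2.2))
      (fderiv ℝ (fun e : P × Pl × Pl => Q i (e.1, e.2.1, γ⁻¹ • e.2.2)) (p, x, y)) (p, x, y) :=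
    ((hsm.differentiable (by simp)) _).hasFDerivAt
  refine ⟨fderiv ℝ (fun e : P × Pl × Pl => Q i (e.1, e.2.1, γ⁻¹ • e.2.2)) (p, x, y) (0, 0, v'),
    ?_, ?_⟩
  · have h6 := hFd.comp_hasDerivAt t hcur
    refine h6.congr_of_eventuallyEq (Eventually.of_forall fun r => ?_)
    simp only [Function.comp_apply]
    rw [inv_smul_smul]
  · have h7 : ‖((0, 0, v') : P × Pl × Pl)‖ = ‖v'‖ := by
      simp [Prod.norm_def]
    have h8 := h2 i p hp γ (c t) v (subset_closure hγ)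
    have h9 := ContinuousLinearMap.le_opNorm
      (fderiv ℝ (fun e : P × Pl × Pl => Q i (e.1, e.2.1, γ⁻¹ • e.2.2)) (p, x, y)) (0, 0, v')
    rw [h7, Real.norm_eq_abs] at h9
    have hs0 : 0 ≤ √(qf (mm m (s i) p (c t)) v) := Real.sqrt_nonneg _
    have hpw : (2 + ds (mm m (s i) p) x (c t)) ^ n1 ≤ (2 + ds (mm m (s i) p) x (c t)) ^ n :=
      pow_le_pow_right₀ (by linarith) hn3
    calc _ ≤ ‖fderiv ℝ (fun e : P × Pl × Pl => Q i (e.1, e.2.1, γ⁻¹ • e.2.2)) (p, x, y)‖ * ‖v'‖ := h9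
      _ ≤ (n1 * (2 + ds (mm m (s i) p) x (c t)) ^ n1) * (C2 * √(qf (mm m (s i) p (c t)) v)) :=
          mul_le_mul hb1 h8 (norm_nonneg _) (by positivity)
      _ = (n1 * C2) * (2 + ds (mm m (s i) p) x (c t)) ^ n1 * √(qf (mm m (s i) p (c t)) v) := by ring
      _ ≤ n * (2 + ds (mm m (s i) p) x (c t)) ^ n * √(qf (mm m (s i) p (c t)) v) := by
          refine mul_le_mul_of_nonneg_right ?_ hs0
          exact mul_le_mul hn2 hpw (by positivity) (Nat.cast_nonneg _)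

theorem Adm_lip (h : CF Γ D m a b s) {Q : ι → P × Pl × Pl → ℝ} (hQ : Adm Γ D m s Q) (R : ℝ) :
    ∃ n : ℕ, ∀ (i : ι) (p : P), ‖p‖ ≤ 1 → ∀ x ∈ closure D, ∀ z z' : Pl,
      ds (mm m (s i) p) z z' ≤ R →
      |Q i (p, x, z') - Q i (p, x, z)| ≤
        n * (2 + ds (mm m (s i) p) x z) ^ n * ds (mm m (s i) p) z z' := by
  obtain ⟨n1, hn1⟩ := W2_der h hQ
  refine ⟨max n1 ⌈(n1 : ℝ) * (1 + |R|) ^ n1⌉₊, fun i p hp x hx z z' hR => ?_⟩
  set n : ℕ := max n1 ⌈(n1 : ℝ) * (1 + |R|) ^ n1⌉₊ with hn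
  have hn2 : (n1 : ℝ) * (1 + |R|) ^ n1 ≤ n :=
    (Nat.le_ceil _).trans (by exact_mod_cast le_max_right _ _)
  have hn3 : n1 ≤ n := le_max_left _ _
  set M : Pl → Co := mm m (s i) p with hM
  have hMM : HM Γ M := hm_mm h i p
  set V : Pl := Vx M z z' with hV
  set d : ℝ := ds M z z' with hd
  have hd' : eu V = d := rfl
  have hd0 : 0 ≤ d := Real.sqrt_nonneg _
  have hx0 : 0 ≤ ds M x z := Real.sqrt_nonneg _
  have hder : ∀ t : ℝ, HasDerivAt (fun r => Ex M z (r • V))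
      (fr (M (Ex M z (t • V))) (gfl M t (z, V)).2) t := fun t => (qf_gfl h.hX hMM t z V).1
  have hsp : ∀ t : ℝ, √(qf (M (Ex M z (t • V))) (fr (M (Ex M z (t • V))) (gfl M t (z, V)).2)) = d := by
    intro t
    rw [(qf_gfl h.hX hMM t z V).2, hd', Real.sqrt_sq hd0]
  choose f' hf' hb using fun t : ℝ => hn1 i p hp x hx (fun r => Ex M z (r • V)) t _ (hder t)
  have hds : ∀ t ∈ Icc (0 : ℝ) 1, ds M x (Ex M z (t • V)) ≤ ds M x z + |R| := by
    intro t ht
    have h1 := ds_mm_tri h i p x z (Ex M z (t • V))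
    have h2 : ds M z (Ex M z (t • V)) = t * d := by
      unfold ds
      rw [Vx_Ex h.hX hMM]
      have h3 : eu (t • V) = |t| * eu V := by
        unfold eu
        rw [← Real.sqrt_sq_eq_abs, ← Real.sqrt_mul (sq_nonneg t)]
        congr 1
        simp only [Prod.smul_fst, Prod.smul_snd, smul_eq_mul]
        ring
      rw [h3, abs_of_nonneg ht.1, hd']
    have h4 : t * d ≤ |R| := by
      have h5 : t * d ≤ 1 * d := mul_le_mul_of_nonneg_right ht.2 hd0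
      linarith [le_abs_self R]
    rw [h2] at h1
    linarith
  have hbd : ∀ t ∈ Ico (0 : ℝ) 1, ‖f' t‖ ≤ n * (2 + ds M x z) ^ n * d := by
    intro t ht
    have h1 := hb t
    rw [hsp t] at h1
    rw [Real.norm_eq_abs]
    refine h1.trans (mul_le_mul_of_nonneg_right ?_ hd0)
    have h2 := hds t ⟨ht.1, ht.2.le⟩
    have h3 : 0 ≤ ds M x (Ex M z (t • V)) := Real.sqrt_nonneg _
    have hR0 := abs_nonneg R
    have h4 : 2 + ds M x (Ex M z (t • V)) ≤ (1 + |R|) * (2 + ds M x z) := by nlinarith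
    have h5 : (2 + ds M x (Ex M z (t • V))) ^ n1 ≤ ((1 + |R|) * (2 + ds M x z)) ^ n1 :=
      pow_le_pow_left₀ (by linarith) h4 n1
    calc (n1 : ℝ) * (2 + ds M x (Ex M z (t • V))) ^ n1 ≤
          n1 * ((1 + |R|) * (2 + ds M x z)) ^ n1 :=
          mul_le_mul_of_nonneg_left h5 (Nat.cast_nonneg _)
      _ = (n1 * (1 + |R|) ^ n1) * (2 + ds M x z) ^ n1 := by rw [mul_pow]; ring
      _ ≤ n * (2 + ds M x z) ^ n :=
          mul_le_mul hn2 (pow_le_pow_right₀ (by linarith) hn3) (by positivity) (Nat.cast_nonneg _)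
  have hfin := norm_image_sub_le_of_norm_deriv_le_segment_01'
    (f := fun r => Q i (p, x, Ex M z (r • V))) (f' := f')
    (fun t _ => (hf' t).hasDerivWithinAt) hbd
  have e1 : Ex M z ((1 : ℝ) • V) = z' := by rw [one_smul, hV, Ex_Vx h.hX hMM]
  have e0 : Ex M z ((0 : ℝ) • V) = z := by rw [zero_smul, Ex_zero h.hX hMM]
  simp only [e1, e0] at hfin
  rwa [Real.norm_eq_abs] at hfin

end BE
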